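import Pool.Agent.P.MP_f1a348_lc.AL.Iface

/-!
Project AL: the solver for the types of the summands of all layers.
-/

namespace Pool.Agent.P.MP_f1a348_lc.AL

open Pool.Agent.P.MP_f1a348_lc.GI hiding Nm Good
open Pool.Agent.P.MP_f1a348_lc.UP (Rec up topI SolvMod Nm der)
open Pool.Agent.P.MP_f1a348_lc.FA (Cls Sub MaxN)
open Pool.Agent.Lib.Helper47
open scoped commutatorElement Pointwise
open MulAction (stabilizer)

namespace A0y
variable {U : Type} [Group U] [DecidableEq U]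

theorem len_lt {s : SP U} {Ql : List U} {G Q : Subgroup U} {O : ℕ → Subgroup U} {r n : ℕ}
    {p : ℕ → ℕ} (h : SX s Ql G Q O r p n) : Ql.length < n := by
  have := h.ser.fin
  rw [← h.Q.card]
  refine lt_of_le_of_lt (Nat.card_le_card_of_surjective
    (fun x : G => (⟨ap s.2 x, h.qt.maps x x.2⟩ : Q)) fun q => ?_) h.card
  obtain ⟨x, hx, e⟩ := h.qt.onto q q.2
  exact ⟨⟨x, hx⟩, Subtype.ext e⟩

theorem pad_le {n d : ℕ} {pad : List Unit} (h : Bg n d pad) : 4 * (n * n) ≤ pad.length := by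
  refine le_trans ?_
    ((Nat.pow_le_pow_right (by have := h.1; omega) (show 4 ≤ _ by omega)).trans h.2)
  have := Nat.mul_le_mul h.1 h.1
  calc 4 * (n * n) ≤ n * n * (n * n) := Nat.mul_le_mul_right _ this
    _ = n ^ 4 := by ring

omit [DecidableEq U] in
theorem range_map {α : Type} (l : List U) (f : U → α) :
    (List.range l.length).map (fun k => f (l.getD k 1)) = l.map f :=
  List.ext_getElem (by simp) fun i h1 h2 => by
    have : i < l.length := by simpa using h2
    simp [List.getD_eq_getElem?_getD, this]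

omit [DecidableEq U] in
theorem getD_mem {l : List U} {k : ℕ} (h : k < l.length) : l.getD k 1 ∈ l := by
  rw [List.getD_eq_getElem _ _ h]
  exact List.getElem_mem h

theorem one (h3 : S_T1P) (h4 : S_T4) (h5 : S_T5) {c : Cx U} {l l' : LP U} {y y' : Ly U} {n : ℕ}
    {X : Set (FP U)} (hc : COk c) (r : LRep l y) (r' : LRep l' y') (ok : y.Ok) (ok' : y'.Ok)
    (hW : AutG y.Q ≤ W c) (hn : Nat.card y.G ≤ n) (hp : n * n ≤ c.1.length)
    (hX : ∀ x ∈ X, IsoP y.Q y'.Q x) (cl : Cl (AutG y.Q) X) {k b : ℕ} (hk : k < (sumP l).length)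
    (hb : b < (sumP l').length) :
    Good c (tyS c l l' k b) (AutG y.Q) X (stabilizer (FP U) (y.ty ((sumP l).getD k 1)))
      {g | g • y.ty ((sumP l).getD k 1) = y'.ty ((sumP l').getD b 1)} := by
  have m := (h5 U l y r ok).1.1.min _ (getD_mem hk)
  have m' := (h5 U l' y' r' ok').1.1.min _ (getD_mem hb)
  refine good_small hc (fun u hu => (h3 U l l y y u r r ok ok hu.2.2).2.2.2 _ _ m m)
    (fun g _ hg => (h3 U l l' y y' g r r' ok ok' (hX g hg)).2.2.2 _ _ m m')
    ((cs_smul _ _).rc _ _) cl ?_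
  rw [inf_eq_right.2 hW]
  exact (h4 U y _ n ok m hn).trans hp

end A0y

open A0y

theorem a_A0 (h1 : S_SEQ) (h2 : S_MSET) (h3 : S_T1P) (h4 : S_T4) (h5 : S_T5) : S_A0 := by
  intro U _ _ pad s s' Ql Ql' G G' Q Q' O O' r n d p p' hs hs' hb
  have l1 := len_lt hs
  have l2 := len_lt hs'
  have hp := pad_le hb
  have nn : n ≤ n * n := Nat.le_mul_self n
  have hc : COk (pad, Ql ++ Ql') := by
    refine le_trans ?_ hp
    have : (Ql ++ Ql').length ≤ 2 * n := by rw [List.length_append]; omega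
    exact (Nat.mul_le_mul this this).trans_eq (by ring)
  have hW : AutG Q ≤ W (pad, Ql ++ Ql') := fun u hu =>
    Sup.mono (fun x hx => List.mem_append_left _ ((hs.Q.mem x).2 hx)) hu.1
  have cl : Cl (AutG Q) {x | IsoP Q Q' x} := fun x hx u hu => IsoP.mul hx hu.2
  refine h1 U ℕ _ _ _ _ _ (fun j => PSt (FP U) (tys s O Q j))
    (fun j => PTr (FP U) (tys s O Q j) (tys s' O' Q' j)) hc cl fun j hj =>
      ⟨(cs_ptr _ _).rc _ _, ?_⟩
  have j1 := (mem_lays.1 hj).1
  have ok := hs.ser.ok hs.qt j1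
  have ok' := hs'.ser.ok hs'.qt j1
  have c1 : Nat.card (O 0) < n := hs.ser.zero ▸ hs.card
  have c2 : Nat.card (O' 0) < n := hs'.ser.zero ▸ hs'.card
  have e1 : 2 ^ (sumP (lyP s j)).length ≤ Nat.card (O 0) := (h5 U _ _ (hs.lrep j) ok).2
  have e2 : 2 ^ (sumP (lyP s' j)).length ≤ Nat.card (O' 0) := (h5 U _ _ (hs'.lrep j) ok').2
  have hp' : n * n ≤ pad.length := by omega
  have := h2 U (Ty U) (pad, Ql ++ Ql') _ _ _ _
    (fun k => (lyr O Q (ap s.2) j).ty ((sumP (lyP s j)).getD k 1))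
    (fun k => (lyr O' Q' (ap s'.2) j).ty ((sumP (lyP s' j)).getD k 1)) _ _ hc
    (e1.trans (c1.le.trans (nn.trans hp'))) (e2.trans (c2.le.trans (nn.trans hp'))) cl
    (fun k hk b hb => one h3 h4 h5 hc (hs.lrep j) (hs.lrep j) ok ok hW c1.le hp'
      (fun _ hx => hx.2) (cl_self _) hk hb)
    fun k hk b hb => one h3 h4 h5 hc (hs.lrep j) (hs'.lrep j) ok ok' hW c1.le hp'
      (fun _ hx => hx) cl hk hb
  rw [range_map, range_map] at this
  exact this

end Pool.Agent.P.MP_f1a348_lc.AL
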