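import Pool.Agent.P.MP_f1a348_lc.AL.Iface

/-!
Project AL: the list of the atoms.
-/

namespace Pool.Agent.P.MP_f1a348_lc.AL

open Pool.Agent.P.MP_f1a348_lc.GI hiding Nm Good
open Pool.Agent.P.MP_f1a348_lc.UP (Rec up topI SolvMod Nm der)
open scoped commutatorElement Pointwise

namespace Aty
variable {U : Type} [Group U] [DecidableEq U] {Dl : List U} {D : Subgroup U}

omit [DecidableEq U] in
theorem soc_le (D : Subgroup U) : Soc D ≤ D := (Subgroup.closure_le _).2 fun _ hg => hg.1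

theorem soc_rep (h : Rep Dl D) : Rep (socP Dl) (Soc D) := by
  have e : gen (Dl.filter (minB Dl [1])) = Soc D := by
    unfold gen Soc
    congr 1
    ext g
    simp only [Set.mem_ofPred_eq, List.mem_filter, h.mem]
    exact ⟨fun a => (minB_iff h rep_one bot_le a.1).1 a.2,
      fun a => ⟨a.1, (minB_iff h rep_one bot_le a.1).2 a⟩⟩
  rw [← e]
  exact clo_rep h fun g hg => (h.mem g).1 (List.mem_filter.1 hg).1

theorem mem_atoms (h : Rep Dl D) {T : List U} : T ∈ atomsP Dl ↔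
    ∃ g, MinO (Soc D) ⊥ g ∧ T = nclP (socP Dl) (socP Dl) [1] g := by
  have s := soc_rep h
  simp only [atomsP, mem_ded, List.mem_map, List.mem_filter, s.mem]
  exact exists_congr fun g => ⟨fun a => ⟨(minB_iff s rep_one bot_le a.1.1).1 a.1.2, a.2.symm⟩,
    fun a => ⟨⟨a.1.1, (minB_iff s rep_one bot_le a.1.1).2 a.1⟩, a.2.symm⟩⟩

theorem atom_spec (h : Rep Dl D) {T : List U} (hT : T ∈ atomsP Dl) :
    Rep T (gen T) ∧ IsAt D (gen T) ∧ T.Sublist (socP Dl) := by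
  obtain ⟨g, hg, rfl⟩ := (mem_atoms h).1 hT
  have r := nclP_rep' (soc_rep h) rep_one bot_le hg.1
  rw [r.gen_eq]
  exact ⟨r, ⟨g, hg, rfl⟩, clo_sublist _ _⟩

theorem atom_ex (h : Rep Dl D) {T : Subgroup U} (hT : IsAt D T) : ∃ l ∈ atomsP Dl, gen l = T := by
  obtain ⟨g, hg, rfl⟩ := hT
  exact ⟨_, (mem_atoms h).2 ⟨g, hg, rfl⟩, (nclP_rep' (soc_rep h) rep_one bot_le hg.1).gen_eq⟩

theorem atom_inj (h : Rep Dl D) {T T' : List U} (hT : T ∈ atomsP Dl) (hT' : T' ∈ atomsP Dl)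
    (e : gen T = gen T') : T = T' := by
  obtain ⟨a1, -, a3⟩ := atom_spec h hT
  obtain ⟨b1, -, b3⟩ := atom_spec h hT'
  refine ((soc_rep h).nodup.perm_iff_eq_of_sublist a3 b3).1
    ((List.perm_ext_iff_of_nodup a1.nodup b1.nodup).2 fun x => ?_)
  rw [a1.mem, b1.mem, e]

omit [DecidableEq U] in
theorem gO_eq {Os : List (List U)} {i : ℕ} (hi : i < Os.length) : gO Os i = Os[i] :=
  List.getD_eq_getElem _ _ hi

end Aty

open Aty

theorem a_AT (h0 : S_AT0) (hi : S_ATI) : S_AT := by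
  intro U _ _ Dl D d h hn hd
  obtain ⟨a1, a2, a3, a4⟩ := h0 U D h.finite hn
  have hm : ∀ i < (atomsP Dl).length, gO (atomsP Dl) i ∈ atomsP Dl := fun i hi => by
    rw [gO_eq hi]; exact List.getElem_mem hi
  have ha : ∀ i < (atomsP Dl).length, IsAt D (gen (gO (atomsP Dl) i)) := fun i hi =>
    (atom_spec h (hm i hi)).2.1
  have ex : ∀ T, IsAt D T → ∃ k < (atomsP Dl).length, gen (gO (atomsP Dl) k) = T := fun T hT => by
    obtain ⟨l, hl, e⟩ := atom_ex h hT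
    obtain ⟨k, hk, rfl⟩ := List.getElem_of_mem hl
    exact ⟨k, hk, by rw [gO_eq hk, e]⟩
  have nd : (atomsP Dl).Nodup := (ded_spec _).1
  refine ⟨⟨h.finite, fun i hi => ?_, fun i hi => (a1 _ (ha i hi)).2.2.1.symm,
    fun i hi k hk ne => a2 _ _ (ha i hi) (ha k hk) fun e => ne ?_, fun g hg e => a3 g hg ?_,
    fun s hs i hi' => ?_, ?_, fun i hi => hd _ (a1 _ (ha i hi)).1 (a1 _ (ha i hi)).2⟩,
    fun T hT => (atom_spec h hT).1⟩
  · obtain ⟨g, hg, e⟩ := ha i hi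
    exact e.le.trans ((ncl_le_of_nm (nm_self _) bot_le hg.1).trans (soc_le D))
  · have := atom_inj h (hm i hi) (hm k hk) e
    rw [gO_eq hi, gO_eq hk] at this
    exact (nd.getElem_inj_iff).1 this
  · intro T hT
    obtain ⟨k, hk, rfl⟩ := ex T hT
    exact e k hk
  · obtain ⟨T', h1, h2⟩ := hi U D D _ s hs (ha i hi')
    obtain ⟨k, hk, rfl⟩ := ex T' h1
    exact ⟨k, hk, h2⟩
  · have := a4 ((atomsP Dl).map gen) (nd.map_on fun _ hx _ hy => atom_inj h hx hy) fun T hT => by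
      obtain ⟨l, hl, rfl⟩ := List.mem_map.1 hT
      exact (atom_spec h hl).2.1
    rwa [List.length_map] at this

end Pool.Agent.P.MP_f1a348_lc.AL
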