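import Pool.Agent.P.MP_f1a348_lc.AL.Iface

/-!
Project AL: the atoms of a group without abelian normal subgroups.
-/

namespace Pool.Agent.P.MP_f1a348_lc.AL

open Pool.Agent.P.MP_f1a348_lc.GI hiding Nm Good
open Pool.Agent.P.MP_f1a348_lc.UP (Nm)
open Pool.Agent.P.MP_f1a348_lc.FA (Sub MaxN Nrm)

namespace At0y
variable {U : Type} [Group U] {D S N T T' : Subgroup U} {g h : U}

theorem min_ncl (hg : MinO S ⊥ g) (hN : N ≤ ncl S ⊥ g) (n : Nm S N) : N = ⊥ ∨ N = ncl S ⊥ g :=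
  or_iff_not_imp_left.2 fun e => by
    obtain ⟨⟨x, hx⟩, h1⟩ := Subgroup.ne_bot_iff_exists_ne_one.1 e
    exact le_antisymm hN (ncl_le_of_nm n bot_le (ncl_le_of_nm n bot_le hx
      (hg.2.2 x (hN hx) fun e => h1 (Subtype.ext e))))

theorem exists_min [Finite S] (hN : N ≤ S) (n : Nm S N) (e : N ≠ ⊥) : ∃ g ∈ N, MinO S ⊥ g := by
  classical
  obtain ⟨⟨x, hx⟩, h1⟩ := Subgroup.ne_bot_iff_exists_ne_one.1 e
  obtain ⟨g, hg, h2⟩ := (measure fun g => Nat.card (ncl S ⊥ g)).wf.has_min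
    {g | g ∈ N ∧ g ∉ (⊥ : Subgroup U)} ⟨x, hx, fun e => h1 (Subtype.ext e)⟩
  refine ⟨g, hg.1, hN hg.1, hg.2, fun y hy h3 => ?_⟩
  have : Finite (ncl S ⊥ g) := finite_of_le (ncl_le_of_nm (nm_self S) bot_le (hN hg.1))
  rw [Subgroup.eq_of_le_of_card_ge (ncl_le_of_nm (nm_ncl (nm_bot S)) bot_le hy)
    (not_lt.1 (h2 y ⟨ncl_le_of_nm n bot_le hg.1 hy, h3⟩))]
  exact self_mem_ncl

theorem ncl_conj (n : Nm D S) (hg : g ∈ D) {x : U} (hx : x ∈ ncl S ⊥ h) :
    g * x * g⁻¹ ∈ ncl S ⊥ (g * h * g⁻¹) :=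
  (ncl_le (W := (ncl S ⊥ (g * h * g⁻¹)).comap (MulAut.conj g).toMonoidHom)).2 ⟨bot_le,
    fun y hy => by
      simpa [mul_assoc] using conj_mem_ncl (M := ⊥) (g := g * h * g⁻¹) (n g hg y hy)⟩ hx

theorem nm_soc (n : Nm D S) : Nm D (Soc S) := fun g hg _ hk =>
  (Subgroup.closure_le ((Soc S).comap (MulAut.conj g).toMonoidHom)).2 (fun h hh =>
    Subgroup.subset_closure (show MinO S ⊥ (g * h * g⁻¹) from ⟨n g hg h hh.1,
      fun e => hh.2.1 (by simpa using e), fun k hk e => by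
        have h1 := ncl_conj n (D.inv_mem hg) hk
        have := ncl_conj n hg (hh.2.2 _ (by simpa [mul_assoc] using h1) fun e' => e (by
          simpa using (Subgroup.mem_bot.1 e' ▸ (by group) : k = g * 1 * g⁻¹)))
        simpa [mul_assoc] using this⟩)) hk

theorem soc_le : Soc D ≤ D := (Subgroup.closure_le _).2 fun _ h => h.1

theorem nm_inf (n : Nm D S) (n' : Nm D N) : Nm D (S ⊓ N) := fun g hg k hk =>
  ⟨n g hg k hk.1, n' g hg k hk.2⟩

theorem le_soc [Finite S] (hS : S ≤ D) (n : Nm D S) (hg : MinO D ⊥ g) (h : g ∈ S) : g ∈ Soc S := by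
  have n1 : Nm D (ncl D ⊥ g) := nm_ncl (nm_bot D)
  obtain ⟨x, h1, h2⟩ := exists_min (ncl_le_of_nm n bot_le h) (fun y hy => n1 y (hS hy))
    fun e => hg.2.1 (e.le self_mem_ncl)
  rcases min_ncl hg inf_le_left (nm_inf n1 (nm_soc n)) with e | e
  · exact absurd (e.le (Subgroup.mem_inf.2 ⟨h1, Subgroup.subset_closure h2⟩)) h2.2.1
  · exact (Subgroup.mem_inf.1 (e.ge self_mem_ncl)).2

/-- the socle is generated by the atoms -/
theorem soc_gen [Finite D] (h : ∀ T, IsAt D T → T ≤ N) : Soc D ≤ N := by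
  classical
  have : Finite (Soc D) := finite_of_le soc_le
  have h1 : Soc D ≤ Soc (Soc D) := (Subgroup.closure_le _).2 fun g hg =>
    le_soc soc_le (nm_soc (nm_self D)) hg (Subgroup.subset_closure hg)
  exact h1.trans ((Subgroup.closure_le N).2 fun g hg => h _ ⟨g, hg, rfl⟩ self_mem_ncl)

theorem at_le (h : IsAt D T) : T ≤ Soc D := by
  obtain ⟨g, hg, rfl⟩ := h
  exact ncl_le_of_nm (nm_self _) bot_le hg.1

theorem at_nm (h : IsAt D T) : Nm (Soc D) T := by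
  obtain ⟨g, -, rfl⟩ := h
  exact nm_ncl (nm_bot _)

theorem at_min (h : IsAt D T) (hN : N ≤ T) (n : Nm (Soc D) N) : N = ⊥ ∨ N = T := by
  obtain ⟨g, hg, rfl⟩ := h
  exact min_ncl hg hN n

theorem at_ne (h : IsAt D T) : T ≠ ⊥ := by
  obtain ⟨g, hg, rfl⟩ := h
  exact fun e => hg.2.1 (e ▸ self_mem_ncl)

theorem at_dis (h : IsAt D T) (h' : IsAt D T') (e : T ≠ T') : T ⊓ T' = ⊥ :=
  (at_min h inf_le_left (nm_inf (at_nm h) (at_nm h'))).resolve_right fun e1 =>
    e ((at_min h' (inf_eq_left.1 e1) (at_nm h)).resolve_left (at_ne h))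

theorem at_comm (h : IsAt D T) (h' : IsAt D T') (e : T ≠ T') {x y : U} (hx : x ∈ T)
    (hy : y ∈ T') : x * y = y * x := by
  have : x * y * x⁻¹ * y⁻¹ ∈ T ⊓ T' := ⟨by
    simpa [mul_assoc] using T.mul_mem hx (at_nm h y (at_le h' hy) _ (T.inv_mem hx)),
    T'.mul_mem (at_nm h' x (at_le h hx) y hy) (T'.inv_mem hy)⟩
  rw [at_dis h h' e, Subgroup.mem_bot, mul_inv_eq_one, mul_inv_eq_iff_eq_mul] at this
  exact this

theorem faith [Finite D] (na : NA D) (hg : g ∈ D)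
    (h : ∀ T, IsAt D T → ∀ x ∈ T, g * x = x * g) : g = 1 := by
  have n : Nm D (D ⊓ Subgroup.centralizer (Soc D : Set U)) := nm_inf (nm_self D)
    fun a ha k hk y hy => by
      have := hk _ (nm_soc (nm_self D) _ (D.inv_mem ha) y hy)
      calc y * (a * k * a⁻¹) = a * (a⁻¹ * y * a⁻¹⁻¹ * k) * a⁻¹ := by group
        _ = _ := by rw [this]; group
  by_contra e
  obtain ⟨x, h1, h2⟩ := exists_min inf_le_left n fun e' => e (Subgroup.mem_bot.1 (e' ▸ ⟨hg,
    fun y hy => Subgroup.mem_centralizer_singleton_iff.1 (soc_gen (fun T hT z hz =>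
      Subgroup.mem_centralizer_singleton_iff.2 (h T hT z hz).symm) hy)⟩))
  exact h2.2.1 (na _ (ncl_le_of_nm (nm_self D) bot_le h2.1) (nm_ncl (nm_bot D)) (fun a ha b hb =>
    (ncl_le_of_nm n bot_le h1 hb).2 a
      (ncl_le_of_nm (nm_soc (nm_self D)) bot_le (Subgroup.subset_closure h2) ha)) ▸ self_mem_ncl)

theorem nm_le (n : Nm S N) : S ≤ Subgroup.normalizer (N : Set U) := fun g hg k =>
  ⟨n g hg k, fun e => by simpa [mul_assoc] using n _ (S.inv_mem hg) _ e⟩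

theorem at_max [Finite D] (h : IsAt D T) : MaxN ⊥ T :=
  ⟨.bot T, (at_ne h).symm, fun C _ n => at_min h n.1 fun g hg k hk =>
    (soc_gen (fun T' h' => nm_le fun x hx y hy => by
      by_cases e : T' = T
      · exact n.2 x (e ▸ hx) y hy
      · rwa [at_comm h' h e hx (n.1 hy), mul_inv_cancel_right]) hg k).1 hk⟩

theorem count [Finite D] (na : NA D) (l : List (Subgroup U)) (hn : l.Nodup)
    (hl : ∀ T ∈ l, IsAt D T) : ∃ J ≤ D, 2 ^ l.length ≤ Nat.card J ∧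
      ∀ K, (∀ T ∈ l, T ≤ K) → J ≤ K := by
  classical
  induction l with
  | nil => exact ⟨⊥, bot_le, by simp, fun _ _ => bot_le⟩
  | cons T l ih =>
    rw [List.nodup_cons] at hn
    rw [List.forall_mem_cons] at hl
    obtain ⟨J, h1, h2, h3⟩ := ih hn.2 hl.2
    have le : T ⊔ J ≤ D := sup_le ((at_le hl.1).trans soc_le) h1
    refine ⟨T ⊔ J, le, ?_, fun K hK =>
      sup_le (hK T (by simp)) (h3 K fun T' h => hK T' (by simp [h]))⟩
    have : Finite (T ⊔ J : Subgroup U) := finite_of_le le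
    obtain ⟨k, hk⟩ := Subgroup.card_dvd_of_le (le_sup_right : J ≤ T ⊔ J)
    have k0 : k ≠ 0 := fun e => Nat.card_pos.ne' (by simpa [e] using hk)
    have k1 : k ≠ 1 := fun e => at_ne hl.1 ((Subgroup.eq_bot_iff_forall _).2 fun x hx => by
      refine faith na (le (Subgroup.mem_sup_left hx)) fun T' h' y hy => ?_
      by_cases e' : T = T'
      · refine (h3 (Subgroup.centralizer (T : Set U)) (fun A hA a ha b hb => at_comm hl.1
          (hl.2 A hA) (fun e => hn.1 (e ▸ hA)) hb ha) ?_ y (e' ▸ hy)).symm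
        rw [Subgroup.eq_of_le_of_card_ge (le_sup_right : J ≤ T ⊔ J) (by simp [hk, e])]
        exact Subgroup.mem_sup_left hx
      · exact at_comm hl.1 h' e' hx hy)
    rw [List.length_cons, pow_succ, hk]
    exact Nat.mul_le_mul h2 (by omega)

end At0y
open At0y

theorem a_AT0 : S_AT0 := fun _ _ D _ na =>
  ⟨fun _ h => ⟨(Nrm.sub ⟨soc_le, nm_soc (nm_self D)⟩).step ⟨at_le h, at_nm h⟩, at_max h⟩,
    fun _ _ => at_dis, fun _ => faith na, fun l hn hl => by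
      obtain ⟨J, h1, h2, -⟩ := count na l hn hl
      exact h2.trans (Subgroup.card_le_of_le h1)⟩

end Pool.Agent.P.MP_f1a348_lc.AL
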