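import Pool.Agent.P.MP_f1a348_lc.AL.Iface

/-!
Project AL: direct products of two groups.
-/

namespace Pool.Agent.P.MP_f1a348_lc.AL

open Pool.Agent.P.MP_f1a348_lc.GI hiding Nm Good
open Pool.Agent.P.MP_f1a348_lc.UP (Nm)
open Pool.Agent.P.MP_f1a348_lc.FA (Cls Sub MaxN Nrm)

namespace Atdy

variable {U V : Type} [Group U] [Group V] (f : V →* U) {D T : Subgroup V}

theorem le_ker (h : NA (D.map f)) (h1 : T ≤ D) (h2 : Nm D T)
    (h3 : ∀ x ∈ T, ∀ y ∈ T, x * y = y * x) : T ≤ f.ker := by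
  rw [← Subgroup.map_eq_bot_iff]
  refine h _ (Subgroup.map_mono h1) ?_ ?_
  · rintro _ ⟨g, hg, rfl⟩ _ ⟨k, hk, rfl⟩
    exact ⟨_, h2 g hg k hk, by simp⟩
  · rintro _ ⟨x, hx, rfl⟩ _ ⟨y, hy, rfl⟩
    rw [← map_mul, h3 x hx y hy, map_mul]

theorem sub_map (h : Sub D T) : Sub (D.map f) (T.map f) := by
  induction h with
  | top => exact .top
  | step _ h ih =>
    refine ih.step ⟨Subgroup.map_mono h.1, ?_⟩
    rintro _ ⟨g, hg, rfl⟩ _ ⟨k, hk, rfl⟩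
    exact ⟨_, h.2 g hg k hk, by simp⟩

theorem gens {d : ℕ} (h : Cls d (D.map f)) (h1 : Sub D T) (h2 : MaxN ⊥ T) :
    T ≤ f.ker ∨ ∃ l : List V, l.length ≤ d ∧ T = gen l := by
  refine (h2.2.2 (T ⊓ f.ker) bot_le ⟨inf_le_left, fun a ha b hb => ⟨(Nrm.refl T).2 a ha b hb.1,
    f.normal_ker.conj_mem b hb.2 a⟩⟩).symm.imp inf_eq_left.1 fun e => ?_
  have hi : Function.Injective (f.comp T.subtype) := (injective_iff_map_eq_one _).2 fun x hx =>
    Subtype.ext (Subgroup.mem_bot.1 (e.le ⟨x.2, hx⟩))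
  have h3 := h.sub (sub_map f h1)
  rw [← T.range_subtype, ← MonoidHom.range_comp] at h3
  obtain ⟨l, a1, a2⟩ := (h3.of_equiv (MonoidHom.ofInjective hi).symm).atom .top h2
  exact ⟨l, a1.le, a2.symm⟩

theorem map_fst (G G' : Subgroup U) : (G.prod G').map (MonoidHom.fst U U) = G :=
  le_antisymm (fun _ ⟨_, h, e⟩ => e ▸ h.1) fun x hx => ⟨(x, 1), ⟨hx, one_mem _⟩, rfl⟩

theorem map_snd (G G' : Subgroup U) : (G.prod G').map (MonoidHom.snd U U) = G' :=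
  le_antisymm (fun _ ⟨_, h, e⟩ => e ▸ h.2) fun x hx => ⟨(1, x), ⟨one_mem _, hx⟩, rfl⟩

theorem eq_bot {T : Subgroup (U × U)} (h : T ≤ (MonoidHom.fst U U).ker)
    (h' : T ≤ (MonoidHom.snd U U).ker) : T = ⊥ :=
  eq_bot_iff.2 fun _ hx => Prod.ext (h hx) (h' hx)

end Atdy

open Atdy in
theorem a_ATD : S_ATD := by
  refine fun U _ G G' d => ⟨fun h h' A h1 h2 h3 => eq_bot ?_ ?_, fun h h' T h1 h2 => ?_⟩
  · exact le_ker _ ((map_fst G G').symm ▸ h) h1 h2 h3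
  · exact le_ker _ ((map_snd G G').symm ▸ h') h1 h2 h3
  · refine (gens _ ((map_fst G G').symm ▸ h) h1 h2).elim (fun e => ?_) id
    exact (gens _ ((map_snd G G').symm ▸ h') h1 h2).resolve_left fun e' =>
      h2.2.1 (eq_bot e e').symm

end Pool.Agent.P.MP_f1a348_lc.AL
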