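import Pool.Agent.P.MP_f1a348_lc.AL.Iface

/-!
Project AL: the list of the atoms of the certificate.
-/

namespace Pool.Agent.P.MP_f1a348_lc.AL

open Pool.Agent.P.MP_f1a348_lc.GI hiding Nm Good
open Pool.Agent.P.MP_f1a348_lc.UP (Rec up topI SolvMod Nm der)
open scoped commutatorElement Pointwise

namespace Atpy
variable {U : Type} [Group U]

theorem mem_nz {G K : Subgroup U} (h : Nm G K) {g : U} (hg : g ∈ G) :
    g ∈ Subgroup.normalizer (K : Set U) := fun k =>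
  ⟨h g hg k, fun a => by simpa [mul_assoc] using h _ (inv_mem hg) _ a⟩

variable [DecidableEq U] {G R Z A : Subgroup U} {O : ℕ → Subgroup U} {r d n : ℕ} {p : ℕ → ℕ}
  {TT : List (Subgroup U)} {Os : List (List U)} {Zl Al : List U}

theorem gdB_iff {Ol Ll : List U} {o l : Subgroup U} (ho : Rep Ol o) (hl : Rep Ll l) (hZ : Rep Zl Z)
    (v : U) : (v ∈ Ll ∧ gdB Ol Ll Zl v = true) ↔ Gd o l Z v := by
  simp only [gdB, Gd, Cg, Bool.and_eq_true, Bool.not_eq_true', List.all_eq_true, Bool.or_eq_true,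
    List.any_eq_true, List.contains_iff_mem, ho.mem, hl.mem, hZ.mem, cm_eq, ← Bool.not_eq_true]

theorem b_rep (hc : CX G O r p R TT Z A d n) (hS : SRep Os O) (hZ : Rep Zl Z) (j : ℕ) (v : U) :
    Rep (Zl.filter fun z => (gO Os j).contains (cm z v)) (Z ⊓ cenM (O j) {v}) :=
  hZ.filter fun x => and_congr_right fun hx => by
    rw [gO, (hS j).contains, cm_eq]
    exact ⟨fun a => a.2 v rfl, fun a => ⟨mem_nz (hc.ser.nml j)
      (hc.rd.le (hc.za.AR (hc.za.le hx))), fun _ e => e ▸ a⟩⟩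

theorem mem_bb (hc : CX G O r p R TT Z A d n) (hS : SRep Os O) (hl : Os.length = r + 1)
    (hZ : Rep Zl Z) {B : List U} : B ∈ bbP Os Zl ↔ ∃ j, 1 ≤ j ∧ ∃ v, Gd (O (j + 1)) (O j) Z v ∧
      B = Zl.filter fun z => (gO Os (j + 1)).contains (cm z v) := by
  simp only [bbP, mem_ded, List.mem_flatMap, List.mem_map, List.mem_filter, mem_lays]
  refine exists_congr fun j => ⟨?_, ?_⟩
  · rintro ⟨⟨h1, -⟩, v, hv, rfl⟩
    exact ⟨h1, v, (gdB_iff (hS _) (hS _) hZ v).1 hv, rfl⟩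
  · rintro ⟨h1, v, hv, rfl⟩
    refine ⟨⟨h1, ?_⟩, v, (gdB_iff (hS _) (hS _) hZ v).2 hv, rfl⟩
    by_contra hj
    have := hv.1
    rw [hc.ser.bot j (by omega), Subgroup.mem_bot] at this
    exact hv.2.1 (this ▸ one_mem _)

theorem bb_spec (hc : CX G O r p R TT Z A d n) (hS : SRep Os O) (hl : Os.length = r + 1)
    (hZ : Rep Zl Z) {B : List U} (hB : B ∈ bbP Os Zl) :
    Rep B (gen B) ∧ gen B ∈ BB O Z ∧ B.Sublist Zl := by
  obtain ⟨j, h1, v, hv, rfl⟩ := (mem_bb hc hS hl hZ).1 hB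
  have := b_rep hc hS hZ (j + 1) v
  rw [this.gen_eq]
  exact ⟨this, ⟨j, h1, v, hv, rfl⟩, List.filter_sublist⟩

theorem bb_ex (hc : CX G O r p R TT Z A d n) (hS : SRep Os O) (hl : Os.length = r + 1)
    (hZ : Rep Zl Z) {B : Subgroup U} (hB : B ∈ BB O Z) : ∃ l ∈ bbP Os Zl, gen l = B := by
  obtain ⟨j, h1, v, hv, rfl⟩ := hB
  exact ⟨_, (mem_bb hc hS hl hZ).2 ⟨j, h1, v, hv, rfl⟩, (b_rep hc hS hZ (j + 1) v).gen_eq⟩

omit [DecidableEq U] in
theorem nm_bb (hc : CX G O r p R TT Z A d n) {B : Subgroup U} (hB : B ∈ BB O Z) : Nm A B := by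
  obtain ⟨j, h1, v, hv, rfl⟩ := hB
  intro a ha b hb
  have h2 : ⁅a, b⁆ ∈ O 1 := hc.za.az (Subgroup.commutator_mem_commutator ha hb.1)
  have h3 : ⁅a, b⁆ ∈ Z ⊓ cenM (O (j + 1)) {v} :=
    ⟨hc.za.FZ h2, mem_nz (hc.ser.nml _) (hc.ser.leG 1 h2),
      fun _ e => e ▸ hc.ser.cen j h1 _ h2 v hv.1⟩
  simpa [commutatorElement_def] using mul_mem h3 hb

theorem a_rep (hA : Rep Al A) {Bl : List U} {B : Subgroup U} (hB : Rep Bl B) (hn : Nm A B) :
    Rep (Al.filter fun a => Al.all fun b => Bl.contains (cm a b)) (A ⊓ cenM B A) :=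
  hA.filter fun x => and_congr_right fun hx => by
    simp only [List.all_eq_true, hB.contains, hA.mem, cm_eq]
    exact ⟨fun a => a.2, fun a => ⟨mem_nz hn hx, a⟩⟩

end Atpy

open Atpy

theorem a_ATP (hb : S_C2B) (hj : S_CJ) : S_ATP := by
  intro U _ _ G O r p R Z A d n Os TT Rl Zl Al hc hS hl hR hZ hA hT
  have _ := hj
  have sp := fun B => bb_spec (B := B) hc hS hl hZ
  have ar := fun B hB => a_rep hA (sp B hB).1 (nm_bb hc (sp B hB).2.1)
  refine ⟨fun t ht => ?_, fun t => ?_, ?_⟩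
  · rcases List.mem_append.1 ht with ht | ht
    · obtain ⟨T, h, rfl⟩ := List.mem_map.1 ht
      exact ⟨hT T h, hR.gen_eq.symm ▸ hR, hR.gen_eq.symm ▸ hR⟩
    · obtain ⟨B, h, rfl⟩ := List.mem_map.1 ht
      exact ⟨hA.gen_eq.symm ▸ hA, (ar B h).gen_eq.symm ▸ ar B h, (sp B h).1⟩
  · simp only [Atm, atP, Set.mem_ofPred_eq, List.map_append, List.mem_append, List.mem_map,
      List.map_map, Function.comp, g3, hR.gen_eq, hA.gen_eq]
    refine or_congr ⟨?_, ?_⟩ ⟨?_, ?_⟩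
    · rintro ⟨_, ⟨T, h, rfl⟩, rfl⟩
      exact ⟨T, h, rfl⟩
    · rintro ⟨T, h, rfl⟩
      exact ⟨_, ⟨T, h, rfl⟩, rfl⟩
    · rintro ⟨B, h, rfl⟩
      obtain ⟨l, hl', rfl⟩ := bb_ex hc hS hl hZ h
      exact ⟨l, hl', by rw [(ar l hl').gen_eq]⟩
    · rintro ⟨l, hl', rfl⟩
      exact ⟨_, (sp l hl').2.1, by rw [(ar l hl').gen_eq]⟩
  · have h1 := hc.rd.len
    have h2 := hb U G O r p R _ Z A d n hc ((bbP Os Zl).map gen)
      ((ded_spec _).1.map_on fun x hx y hy e =>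
        (hZ.nodup.perm_iff_eq_of_sublist (sp x hx).2.2 (sp y hy).2.2).1
          ((List.perm_ext_iff_of_nodup (sp x hx).1.nodup (sp y hy).1.nodup).2 fun u => by
            rw [(sp x hx).1.mem, (sp y hy).1.mem, e])) fun B hB => by
        obtain ⟨l, hl', rfl⟩ := List.mem_map.1 hB
        exact (sp l hl').2.1
    have := hc.ser.fin
    have h3 := Nat.lt_size.2 (h2.trans ((Subgroup.card_le_of_le (hc.ser.leG 1)).trans hc.card.le))
    have h4 := Nat.lt_size.2 h1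
    simp only [atP, List.length_append, List.length_map] at h3 h4 ⊢
    omega

end Pool.Agent.P.MP_f1a348_lc.AL
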