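import Pool.Agent.P.MP_f1a348_lc.AL.Iface

/-!
Project AL: the state at the bottom level.
-/

namespace Pool.Agent.P.MP_f1a348_lc.AL

open Pool.Agent.P.MP_f1a348_lc.GI hiding Nm Good
open Pool.Agent.P.MP_f1a348_lc.UP (Rec up topI SolvMod Nm der)
open Pool.Agent.P.MP_f1a348_lc.FA (Cls Sub MaxN)
open Pool.Agent.Lib.Helper47
open scoped commutatorElement Pointwise
open MulAction (stabilizer)

namespace Basey
variable {U : Type} [Group U]

theorem gO_mem {Ts : List (List U)} {i : ℕ} (hi : i < Ts.length) : gO Ts i ∈ Ts := by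
  rw [gO, List.getD_eq_getElem _ _ hi]
  exact List.getElem_mem hi

theorem ex_gO {Ts : List (List U)} {T : List U} (h : T ∈ Ts) : ∃ i < Ts.length, gO Ts i = T := by
  obtain ⟨i, hi, rfl⟩ := List.mem_iff_getElem.1 h
  exact ⟨i, hi, List.getD_eq_getElem _ _ hi⟩

theorem flat_le {α : Type} {Ts : List (List α)} {m : ℕ} (h : ∀ T ∈ Ts, T.length ≤ m) :
    Ts.flatten.length ≤ Ts.length * m := by
  induction Ts with
  | nil => simp
  | cons T Ts ih =>
    have h1 := h T List.mem_cons_self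
    have h2 := ih fun T hT => h T (List.mem_cons_of_mem _ hT)
    simp only [List.flatten_cons, List.length_append, List.length_cons, Nat.succ_mul]
    omega

theorem gen_one : gen [(1 : U)] = ⊥ := by
  classical
  exact rep_one.gen_eq

end Basey

open Basey in
theorem a_BASE (hq : S_BASEQ) (ha : S_AT) (hd : S_ATD) : S_BASE := by
  intro U _ _ pad ud Y Y' G G' n hY hY' na na' cl cl' lt lt' bg
  obtain ⟨d1, d2⟩ := hd U G G' ud.length
  have rp := hY.prod hY'
  obtain ⟨a1, a2⟩ := ha (U × U) (prodL Y Y') (G.prod G') ud.length rp (d1 na na') (d2 cl cl')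
  obtain ⟨b1, b2⟩ := ha U Y G ud.length hY na fun T hT hm => by
    obtain ⟨l, h1, h2⟩ := cl.atom hT hm
    exact ⟨l, h1.le, h2.symm⟩
  have hc : Nat.card (G.prod G') ≤ n ^ 2 := by
    rw [rp.card, length_prodL, sq]
    exact Nat.mul_le_mul lt.le lt'.le
  have hn : 1 ≤ n := le_trans (by norm_num) bg.1
  refine ⟨hq U pad ud Y Y' G G' _ _ _ hY hY' ⟨a1, rfl, fun i hi => a2 _ (gO_mem hi), rfl, ?_, ?_⟩,
    ?_, b2, ?_⟩
  · have h1 : (atomsP (prodL Y Y')).length ≤ n ^ 2 :=
      (Nat.lt_two_pow_self.le.trans a1.len).trans hc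
    have h2 : (atomsP (prodL Y Y')).flatten.length ≤ n ^ 2 * n ^ 2 := by
      refine (flat_le (m := n ^ 2) fun T hT => ?_).trans (Nat.mul_le_mul_right _ h1)
      obtain ⟨i, hi, e⟩ := ex_gO hT
      have h3 := (a2 T hT).length_le rp (e ▸ a1.le i hi)
      exact h3.trans (rp.card ▸ hc)
    refine (Nat.mul_le_mul h2 h2).trans (le_trans ?_ bg.2)
    rw [← pow_add, ← pow_add]
    exact Nat.pow_le_pow_right hn (by omega)
  · refine (Nat.pow_le_pow_left hc _).trans (le_trans ?_ bg.2)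
    rw [← pow_mul]
    exact Nat.pow_le_pow_right hn (by omega)
  · change Rep [(1 : U)] (gen [1])
    rw [gen_one]
    exact rep_one
  · change RD G (gen [(1 : U)]) ((atomsP Y).map gen) ud.length n (AutG G)
    rw [gen_one]
    have key : ∀ T ∈ (atomsP Y).map gen, ∃ i < (atomsP Y).length, T = gen (gO (atomsP Y) i) :=
      fun T hT => by
        obtain ⟨l, hl, rfl⟩ := List.mem_map.1 hT
        obtain ⟨i, hi, e⟩ := ex_gO hl
        exact ⟨i, hi, by rw [e]⟩
    refine ⟨bot_le, nm_bot G, ⟨0, le_rfl⟩, fun T hT => ?_, fun s hs x hx => ?_,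
      fun s hs T hT => ?_, fun g hg h => ?_, ?_⟩
    · obtain ⟨i, hi, rfl⟩ := key T hT
      obtain ⟨l, h1, h2⟩ := b1.gen i hi
      exact ⟨b1.le i hi, l, h1, by rw [bot_sup_eq]; exact h2⟩
    · rw [Subgroup.mem_bot.1 hx, hs.2.hm.one]
      exact one_mem _
    · obtain ⟨i, hi, rfl⟩ := key T hT
      obtain ⟨k, hk, h1⟩ := b1.aut s hs.2 i hi
      exact ⟨_, List.mem_map_of_mem (gO_mem hk), h1⟩
    · refine Subgroup.mem_bot.2 (b1.faith g hg fun i hi x hx => ?_)
      exact (commutatorElement_eq_one_iff_mul_comm).1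
        (Subgroup.mem_bot.1 (h _ (List.mem_map_of_mem (gO_mem hi)) x hx))
    · rw [List.length_map]
      exact b1.len.trans (hY.card ▸ lt.le)

end Pool.Agent.P.MP_f1a348_lc.AL
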