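import Pool.Agent.P.MP_f1a348_lc.AL.Iface

/-!
Project AL: the base, from conjugacy of permutation groups to isomorphism.
-/

namespace Pool.Agent.P.MP_f1a348_lc.AL

open Pool.Agent.P.MP_f1a348_lc.GI hiding Nm Good

namespace Baseqy
variable {U Γ : Type} [Group U] [Group Γ]

theorem exists_im {G : Subgroup U} {φ : U → Γ} (h : ∀ x ∈ G, ∀ y ∈ G, φ (x * y) = φ x * φ y) :
    ∃ I : Subgroup Γ, (I : Set Γ) = φ '' G :=
  ⟨(MonoidHom.mk' (fun x : G => φ x) fun x y => h x x.2 y y.2).range, Set.ext fun _ =>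
    ⟨fun ⟨x, e⟩ => ⟨x, x.2, e⟩, fun ⟨x, hx, e⟩ => ⟨⟨x, hx⟩, e⟩⟩⟩

theorem rep_im {G : Subgroup U} {φ : U → Γ} {Y : List U} {I : Subgroup Γ} (hY : Rep Y G)
    (h : ∀ x ∈ G, ∀ y ∈ G, φ x = φ y → x = y) (e : (I : Set Γ) = φ '' G) : Rep (Y.map φ) I :=
  ⟨hY.nodup.map_on fun x hx y hy => h x ((hY.mem x).1 hx) y ((hY.mem y).1 hy), fun x => by
    rw [← SetLike.mem_coe, e]; simp [hY.mem]⟩

theorem exists_iso {D : Subgroup U} [Finite D] {f g : U → U} (hf : ∀ x ∈ D, f x ∈ D)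
    (hg : ∀ x ∈ D, g x ∈ D) (e : ∀ x, g (f x) = x) (e' : ∀ x, f (g x) = x)
    (hm : ∀ x ∈ D, ∀ y ∈ D, f (x * y) = f x * f y) :
    ∃ β, IsoP D D β ∧ ∀ x ∈ D, β.app x = f x := by
  obtain ⟨s, -, h1, h2⟩ := exists_fp (f := f) (X := (D : Set U)) (X' := D) (Set.toFinite _)
    ⟨hf, fun x _ y _ h => by rw [← e x, h, e], fun x hx => ⟨g x, hg x hx, e' x⟩⟩
  exact ⟨s, ⟨h1, fun x hx y hy => by rw [h2 _ (mul_mem hx hy), h2 x hx, h2 y hy, hm x hx y hy]⟩, h2⟩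

theorem cj_im {G G' : Subgroup U} {φ φ' : U → Γ} {s : Γ} {x : FP U} (hx : IsoP G G' x)
    (h : ∀ g ∈ G, s * φ g * s⁻¹ = φ' (x.app g)) : Cj s (φ '' G) (φ' '' G') := fun _ =>
  ⟨fun ⟨w, hw, e⟩ => ⟨_, (hx.inv.maps w).2 hw, by
    have := h _ ((hx.inv.maps w).2 hw)
    rw [FP.app_app_inv, e] at this
    simpa using this⟩, fun ⟨g, hg, e⟩ => ⟨_, (hx.maps g).2 hg, e ▸ (h g hg).symm⟩⟩

end Baseqy
open Baseqy

theorem a_BASEQ (hb : S_BB) (hg : S_GG) (ho : S_OUT) (hc : S_CJP) (hk : S_BK) : S_BASEQ := by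
  intro U _ _ pad ud Y Y' G G' Ts T t hY hY' hB
  obtain ⟨c1, c2, c3, c4⟩ := hc _ _ _ _ _ _ _ hB
  have := hB.atm.fin
  set φ : U → FP (U × U) := fun g => cjP Ts.flatten (g, 1)
  set φ' : U → FP (U × U) := fun g => cjP Ts.flatten (1, g)
  have l : ∀ {g}, g ∈ G → ((g, 1) : U × U) ∈ G.prod G' := fun h => ⟨h, one_mem _⟩
  have l' : ∀ {g}, g ∈ G' → ((1, g) : U × U) ∈ G.prod G' := fun h => ⟨one_mem _, h⟩
  have m : ∀ x ∈ G, ∀ y ∈ G, φ (x * y) = φ x * φ y := fun x hx y hy => by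
    simpa using c2 _ (l hx) _ (l hy)
  have m' : ∀ x ∈ G', ∀ y ∈ G', φ' (x * y) = φ' x * φ' y := fun x hx y hy => by
    simpa using c2 _ (l' hx) _ (l' hy)
  have i : ∀ x ∈ G, ∀ y ∈ G, φ x = φ y → x = y := fun x hx y hy e =>
    congrArg Prod.fst (c3 _ (l hx) _ (l hy) e)
  have i' : ∀ x ∈ G', ∀ y ∈ G', φ' x = φ' y → x = y := fun x hx y hy e =>
    congrArg Prod.snd (c3 _ (l' hx) _ (l' hy) e)
  obtain ⟨I, hI⟩ := exists_im m
  obtain ⟨I', hI'⟩ := exists_im m'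
  have eS := hg _ _ _ _ _ _ _ hB ud rfl
  obtain ⟨a1, a2⟩ := ho _ _ _ _ _ _ _ hB _ _ I I' (rep_im hY i hI) (rep_im hY' i' hI')
    (fun s hs => by obtain ⟨g, h, rfl⟩ := hI.subset hs; exact c1 _ (l h))
    (fun s hs => by obtain ⟨g, h, rfl⟩ := hI'.subset hs; exact c1 _ (l' h))
    (ggP (pad, Ts.flatten) ud Ts) 1 (eS.le.trans (le_inf (hb _ _ _ _ _ _ _ hB).2.1 le_rfl))
  replace a2 := a2 (one_mem _) (one_mem _)
  rw [eS] at a1 a2
  rw [hI, hI'] at a2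
  unfold baseQ baseR
  simp only [List.map_map, Function.comp_def]
  generalize outP (pad, Ts.flatten) Ts (Y.map φ) (Y'.map φ') (ggP (pad, Ts.flatten) ud Ts) 1 = o
    at a1 a2
  refine ⟨?_, fun x hx => ?_, fun hn x hx => ?_⟩
  · set bk := bkP (Y.map fun g => (g, φ g)) (Y.map fun g => (g, φ g))
    have k1 : ∀ s ∈ Subgroup.normalizer (I : Set (FP (U × U))),
        bk s ∈ AutG G ∧ ∀ g ∈ G, φ ((bk s).app g) = s * φ g * s⁻¹ := fun s hs => by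
      obtain ⟨b1, b2, b3⟩ := hk U _ Y Y G G φ φ s hY hY m m i i (hI ▸ fun y => (hs y).symm)
      exact ⟨⟨by simpa using b2, b1⟩, b3⟩
    have k2 : ∀ α ∈ AutG G, ∀ β ∈ AutG G, (∀ g ∈ G, φ (α.app g) = φ (β.app g)) → α = β :=
      fun α hα β hβ e => FP.ext fun g => by
        by_cases h : g ∈ G
        · exact i _ ((hα.2.maps g).2 h) _ ((hβ.2.maps g).2 h) (e g h)
        · rw [hα.1 g h, hβ.1 g h]
    let ψ : Subgroup.normalizer (I : Set (FP (U × U))) →* FP U := MonoidHom.mk' (fun s => bk s)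
      fun s r => k2 _ (k1 _ (s * r).2).1 _ (mul_mem (k1 _ s.2).1 (k1 _ r.2).1) fun g h => by
        rw [(k1 _ (s * r).2).2 g h, FP.app_mul, (k1 _ s.2).2 _ (((k1 _ r.2).1.2.maps g).2 h),
          (k1 _ r.2).2 g h]
        simp [mul_assoc]
    have n : ∀ s ∈ o.1, s ∈ Subgroup.normalizer (I : Set (FP (U × U))) := fun s hs =>
      (a1.le (mem_gen hs)).2
    refine le_antisymm (gen_le.2 fun x hx => ?_) fun α hα => ?_
    · obtain ⟨s, hs, rfl⟩ := List.mem_map.1 hx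
      exact (k1 s (n s hs)).1
    · obtain ⟨β, b1, b2⟩ := exists_iso (D := G.prod G') (f := fun p => (α.app p.1, p.2))
        (g := fun p => (α⁻¹.app p.1, p.2)) (fun p h => ⟨(hα.2.maps _).2 h.1, h.2⟩)
        (fun p h => ⟨(hα.2.inv.maps _).2 h.1, h.2⟩) (by simp) (by simp)
        fun p h q h' => Prod.ext (hα.2.hm _ h.1 _ h'.1) rfl
      obtain ⟨s, s1, s2⟩ := c4 β b1
      have s3 : ∀ g ∈ G, s * φ g * s⁻¹ = φ (α.app g) := fun g h => by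
        rw [s2 _ (l h), b2 _ (l h)]
      have s4 : s ∈ Subgroup.normalizer (I : Set (FP (U × U))) := fun y => by
        rw [hI]; exact (cj_im hα.2 s3 y).symm
      obtain ⟨r, hr, rfl⟩ := (gen_le (Z := ((gen (o.1.map bk)).comap ψ).map (Subgroup.subtype _))).2
        (fun r hr => ⟨⟨r, n r hr⟩, mem_gen (List.mem_map_of_mem hr), rfl⟩) (a1.ge ⟨s1, s4⟩)
      rwa [k2 α hα _ (k1 _ s4).1 fun g h => by rw [(k1 _ s4).2 g h, s3 g h]]
  · obtain ⟨s, hs, rfl⟩ := Option.map_eq_some_iff.1 hx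
    obtain ⟨b1, b2, -⟩ := hk U _ Y Y' G G' φ φ' s hY hY' m m' i i' (a2.some s hs).2
    exact ⟨b1, b2⟩
  · obtain ⟨β, b1, b2⟩ := exists_iso (D := G.prod G') (f := fun p => (x⁻¹.app p.2, x.app p.1))
      (g := fun p => (x⁻¹.app p.2, x.app p.1)) (fun p h => ⟨(hx.inv.maps _).2 h.2,
        (hx.maps _).2 h.1⟩) (fun p h => ⟨(hx.inv.maps _).2 h.2, (hx.maps _).2 h.1⟩) (by simp)
      (by simp) fun p h q h' => Prod.ext (hx.inv.hm _ h.2 _ h'.2) (hx.hm _ h.1 _ h'.1)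
    obtain ⟨s, s1, s2⟩ := c4 β b1
    refine a2.none (Option.map_eq_none_iff.1 hn) s (by simpa using s1) (cj_im hx fun g h => ?_)
    rw [s2 _ (l h), b2 _ (l h), hx.inv.hm.one]

end Pool.Agent.P.MP_f1a348_lc.AL
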