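import Pool.Agent.P.MP_f1a348_lc.AL.Iface

/-!
Project AL: basic facts on the base.
-/

namespace Pool.Agent.P.MP_f1a348_lc.AL

open Pool.Agent.P.MP_f1a348_lc.GI hiding Nm Good
open Pool.Agent.P.MP_f1a348_lc.UP (Rec up topI SolvMod Nm der)
open Pool.Agent.P.MP_f1a348_lc.FA (Cls Sub MaxN)
open Pool.Agent.Lib.Helper47
open scoped commutatorElement Pointwise
open MulAction (stabilizer)

namespace Bby
variable {U : Type} [Group U] {D : Subgroup U} {T : ℕ → Subgroup U} {t d : ℕ}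

theorem mem_Ts [DecidableEq U] {Ts : List (List U)} {a : List U} :
    a ∈ Ts ↔ ∃ i < Ts.length, gO Ts i = a := by
  rw [List.mem_iff_getElem]
  exact ⟨fun ⟨i, hi, e⟩ => ⟨i, hi, (List.getD_eq_getElem _ _ hi).trans e⟩,
    fun ⟨i, hi, e⟩ => ⟨i, hi, (List.getD_eq_getElem _ _ hi).symm.trans e⟩⟩

theorem inj (h : At D T t d) : ∀ i < t, ∀ k < t, (T i : Set U) = T k → i = k :=
  fun i hi k hk e => by_contra fun hik => h.ne i hi (by
    rw [← h.dis i hi k hk hik, ← SetLike.coe_injective e, inf_idem])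

/-- multiplicative maps that agree on generators agree -/
theorem eq_of_gen {l : List U} {s s' : FP U} (h : Hm (gen l) s) (h' : Hm (gen l) s')
    (e : ∀ x ∈ l, s.app x = s'.app x) : ∀ x ∈ gen l, s.app x = s'.app x := fun x hx => by
  induction hx using Subgroup.closure_induction with
  | mem q hq => exact e q hq
  | one => rw [h.one, h'.one]
  | mul q r hq hr h1 h2 => rw [h _ hq _ hr, h' _ hq _ hr, h1, h2]
  | inv q hq h1 => rw [h.inv hq, h'.inv hq, h1]

theorem idx (h : At D T t d) {a e : ℕ} (ha : a < t) (he : e < t) :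
    (Fix (T a : Set U) ⊓ Fix (T e : Set U)).relIndex (GG T t) ≤ Nat.card D ^ (2 * d + 2) := by
  have := h.fin
  obtain ⟨l, hl, e1⟩ := h.gen a ha
  obtain ⟨m, hm, e2⟩ := h.gen e he
  have hD : ∀ s ∈ GG T t, ∀ i < t, ∀ x ∈ T i, s.app x ∈ D := fun s hs i hi x hx => by
    obtain ⟨k, hk, h1⟩ := hs.2.1 i hi
    exact h.le k hk ((h1.maps x).2 hx)
  have hH : ∀ s ∈ GG T t, ∀ i < t, Hm (T i) s := fun s hs i hi =>
    (hs.2.1 i hi).elim fun _ h1 => h1.2.hm
  have hlm : ∀ s ∈ GG T t, ∀ x ∈ l ++ m, s.app x ∈ D := fun s hs x hx =>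
    (List.mem_append.1 hx).elim (fun h1 => hD s hs a ha x (e1 ▸ mem_gen h1))
      fun h1 => hD s hs e he x (e2 ▸ mem_gen h1)
  have key : Nat.card (GG T t ⧸ (Fix (T a : Set U) ⊓ Fix (T e : Set U)).subgroupOf (GG T t)) ≤
      Nat.card (Fin (l ++ m).length → D) := by
    refine Nat.card_le_card_of_injective
      (fun q j => ⟨q.out.1.app ((l ++ m).get j), hlm _ q.out.2 _ (List.get_mem _ _)⟩)
      fun q q' hq => ?_
    have h1 : ∀ x ∈ l ++ m, q.out.1.app x = q'.out.1.app x := fun x hx => by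
      obtain ⟨j, rfl⟩ := List.get_of_mem hx
      exact congrArg Subtype.val (congrFun hq j)
    have h2 : ∀ i < t, ∀ r : List U, T i = gen r → (∀ x ∈ r, x ∈ l ++ m) →
        q.out.1⁻¹ * q'.out.1 ∈ Fix (T i : Set U) := fun i hi r hr hs x hx => by
      rw [FP.app_mul, ← eq_of_gen (hr ▸ hH _ q.out.2 i hi) (hr ▸ hH _ q'.out.2 i hi)
        (fun y hy => h1 y (hs y hy)) x (hr ▸ hx), FP.app_inv_app]
    rw [← q.out_eq', ← q'.out_eq']
    exact QuotientGroup.eq.2 (Subgroup.mem_subgroupOf.2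
      ⟨h2 a ha l e1 fun x hx => List.mem_append_left _ hx,
        h2 e he m e2 fun x hx => List.mem_append_right _ hx⟩)
  rw [Nat.card_fun, Nat.card_eq_fintype_card (α := Fin _), Fintype.card_fin,
    List.length_append] at key
  exact key.trans (Nat.pow_le_pow_right Nat.card_pos (by omega))

theorem perm (h : At D T t d) {Ξ : Type} [MulAction (FP U) Ξ] (f f' : ℕ → Ξ) {s : FP U}
    (hs : s ∈ GG T t) (hf : ∀ i < t, ∀ k < t, Mp s (T i) (T k) → s • f i = f' k) :
    s ∈ PTr (FP U) ((List.range t).map f) ((List.range t).map f') := by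
  choose! σ h1 h2 using hs.2.1
  have hp : ((List.range t).map σ).Perm (List.range t) := by
    refine (List.subperm_of_subset (List.nodup_range.map_on fun i hi k hk e => ?_)
      fun y hy => ?_).perm_of_length_le (by simp)
    · rw [List.mem_range] at hi hk
      exact inj h i hi k hk (Set.ext fun x =>
        ((h2 i hi).maps x).symm.trans (e ▸ (h2 k hk).maps x))
    · obtain ⟨i, hi, rfl⟩ := List.mem_map.1 hy
      exact List.mem_range.2 (h1 i (List.mem_range.1 hi))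
  change List.Perm _ _
  rw [List.map_map, List.map_congr_left (f := (fun y => s • y) ∘ f) (g := f' ∘ σ) fun i hi =>
    hf i (List.mem_range.1 hi) _ (h1 i (List.mem_range.1 hi)) (h2 i (List.mem_range.1 hi)).mp,
    ← List.map_map]
  exact hp.map f'

end Bby

theorem a_BB : S_BB := by
  intro U _ _ c Ts D T t d h
  have := h.atm.fin
  have h1 : ∀ x, x ∈ c.2 ↔ x ∈ Om T t := fun x => by
    rw [h.om, List.mem_flatten]
    refine ⟨fun ⟨l, hl, hx⟩ => ?_, fun ⟨i, hi, hx⟩ =>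
      ⟨_, Bby.mem_Ts.2 ⟨i, h.len ▸ hi, rfl⟩, ((h.rep i hi).mem x).2 hx⟩⟩
    obtain ⟨i, hi, rfl⟩ := Bby.mem_Ts.1 hl
    exact ⟨i, h.len ▸ hi, ((h.rep i (h.len ▸ hi)).mem x).1 hx⟩
  exact ⟨h1, fun s hs x hx => hs.1 x fun h2 => hx ((h1 x).2 h2),
    (h.atm.len.trans (Nat.le_self_pow (by omega) _)).trans h.pad,
    fun a ha e he => (Bby.idx h.atm ha he).trans h.pad, Bby.inj h.atm,
    fun _ _ f f' _ hs hf => Bby.perm h.atm f f' hs hf⟩

end Pool.Agent.P.MP_f1a348_lc.AL
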