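import Pool.Agent.P.MP_f1a348_lc.AL.Iface
import Pool.Agent.P.MP_f1a348_lc.PS.PIf
import Pool.Agent.P.MP_f1a348_lc.PS.Mono
import Pool.Agent.P.MP_f1a348_lc.PG.PT

/-!
Project AL: the stages of the primes.
-/

namespace Pool.Agent.P.MP_f1a348_lc.AL

open Pool.Agent.P.MP_f1a348_lc.GI hiding Nm Good
open Pool.Agent.P.MP_f1a348_lc.UP (Rec up topI SolvMod Nm der)
open Pool.Agent.Lib.Helper47

namespace Bry

theorem tight {Γ : Type} [Group Γ] {b c : ℕ} {G : Subgroup Γ} {F : List (Rec Γ)}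
    (h : TK b c G F) : PS.Tight b c G F := by
  induction h with
  | nil c G => exact .nil c G
  | cons c c0 c' G K P sub rest h1 h2 h3 h4 h5 _ h7 _ i1 i2 =>
    exact .cons c c0 c' G K P sub rest h1 h2 h3 h4 h5 i1 h7 i2

variable {U : Type} [Group U] {O : ℕ → Subgroup U}

theorem tg_eq (hO : ∀ j, O j ≤ O 0) : TG O = PS.TT O 1 := by
  ext s
  constructor
  · rintro ⟨h1, h2⟩
    have pv : ∀ j, s ∈ PS.Pv (O j) := fun j x y => by
      have key : ∀ a b, Cg (O j) a b → (a ∈ O 0 ↔ b ∈ O 0) := fun a b h =>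
        ⟨fun ha => by simpa using (O 0).mul_mem ha (hO j h),
          fun hb => by simpa using (O 0).mul_mem hb (hO j h.symm)⟩
      by_cases hx : x ∈ O 0 <;> by_cases hy : y ∈ O 0
      · exact h2.pv j x hx y hy
      · exact iff_of_false (fun h => hy ((h2.maps 0 y).1 ((key _ _ h).1 ((h2.maps 0 x).2 hx))))
          fun h => hy ((key _ _ h).1 hx)
      · exact iff_of_false (fun h => hx ((h2.maps 0 x).1 ((key _ _ h).2 ((h2.maps 0 y).2 hy))))
          fun h => hx ((key _ _ h).2 hy)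
      · rw [h1 x hx, h1 y hy]
    have adm : PS.Adm O s := fun j =>
      ⟨fun x hx y hy => (PS.df_iff (pv _) 0 x y).2 (h2.mul j x (hO j hx) y hy (.inl hx)),
        fun x hx y hy => (PS.df_iff (pv _) 0 x y).2 (h2.mul j x hx y (hO j hy) (.inr hy))⟩
    exact ⟨PS.mem_T0.2 ⟨h1, fun j => ⟨h2.mp j, pv j⟩⟩, adm, (adm 0).1⟩
  · rintro ⟨h1, h2, -⟩
    obtain ⟨h0, h1⟩ := PS.mem_T0.1 h1
    refine ⟨h0, fun j => (h1 j).1, fun j x _ y _ => (h1 j).2 x y, fun j x hx y hy hj => ?_⟩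
    exact (PS.df_iff (h1 _).2 0 x y).1 (hj.elim (fun h => (h2 j).1 x h y hy)
      fun h => (h2 j).2 x hx y h)

theorem cf_of (hO : ∀ j, O j ≤ O 0) {c b : ℕ} {cf : List (FP U) → Fo U} (h : Cert O c b cf) :
    PS.Cf O 5 c b cf := by
  refine PS.Cf.mono (q := 3) (fun S hS => ?_) (by norm_num) le_rfl le_rfl
  obtain ⟨h1, h2, h3⟩ := h S (tg_eq hO ▸ hS)
  exact ⟨tight h1, h2, h3⟩

theorem need_le {C c n : ℕ} (hn : 2 ≤ n) :
    PS.need C c (8 * n) (n * n) ≤ n ^ (40 * C) * 3 ^ (40 * C * c) := by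
  have h1 : n * n + 2 ≤ n ^ 3 := by nlinarith [Nat.mul_le_mul hn hn]
  have h2 : (n * n + 2) ^ 3 ≤ n ^ 9 := (Nat.pow_le_pow_left h1 3).trans_eq (by ring)
  have h3 : (n * n + 2) ^ 7 ≤ n ^ 21 := (Nat.pow_le_pow_left h1 7).trans_eq (by ring)
  have h4 : 8 * n ≤ n ^ 21 :=
    calc 8 * n = 2 ^ 3 * n := by norm_num
      _ ≤ n ^ 3 * n := Nat.mul_le_mul_right _ (Nat.pow_le_pow_left hn 3)
      _ = n ^ 4 := by ring
      _ ≤ n ^ 21 := Nat.pow_le_pow_right (by omega) (by norm_num)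
  have h5 : 8 * n + (n * n + 2) ^ 7 ≤ n ^ 31 :=
    calc _ ≤ 2 * n ^ 21 := by omega
      _ ≤ n * n ^ 21 := Nat.mul_le_mul_right _ hn
      _ = n ^ 22 := by ring
      _ ≤ n ^ 31 := Nat.pow_le_pow_right (by omega) (by norm_num)
  have h6 : 2 ^ c ≤ 3 ^ (40 * c) :=
    (Nat.pow_le_pow_left (by norm_num) c).trans (Nat.pow_le_pow_right (by norm_num) (by omega))
  calc _ ≤ (n ^ 9 * 3 ^ (40 * c) * n ^ 31) ^ C :=
        Nat.pow_le_pow_left (Nat.mul_le_mul (Nat.mul_le_mul h2 h6) h5) C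
    _ = _ := by ring

end Bry

theorem a_BR (h : PS.A_PS) (h' : PS.P_PS) : ∀ (A : PS.Aff) (P : ℕ → Prop) (C : ℕ) (Ce : PS.Crt),
    A.Ok P 5 C Ce → A.Pt → ∃ stage, S_STAGE P (40 * C) stage ∧ P_STAGE stage := by
  intro A P C Ce ok pt
  refine ⟨fun pad _ _ Os prs cf S x => PS.psP A cf pad (PG.unL Os) Os prs (S, x), ?_, ?_⟩
  · intro pad uc Os prs cf S x G O r n p ser hc hr rep hl hl' hv hp hP hS hcf hpad
    obtain rfl := ser.zero
    have := ser.fin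
    have hn : 2 ≤ n := by have := Nat.card_pos (α := O 0); omega
    have hO : ∀ j, O j ≤ O 0 := ser.leG
    have hnn : n ≤ n * n := Nat.le_mul_self n
    have D : PS.Dat P O r (n * n) p Os prs :=
      ⟨⟨ser.fin, ser.anti, ser.nml, ser.cen, ser.bot⟩,
        ⟨fun j _ _ => ser.mono j, fun j _ _ => by have := hp j; omega, fun j hj _ =>
          (ser.pr j hj).elim .inl fun a => (hP j hj).imp id fun b => ⟨a.1, b, a.2⟩⟩,
        rep, hl, hl', fun j _ hj => hv j hj, by omega, by omega, by omega⟩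
    obtain ⟨a1, a2, a3⟩ := h UU A P 5 C uc.length (8 * n) r (n * n) Ce O p Os prs cf pad
      (PG.unL Os) (S, x) ok D (Bry.cf_of hO hcf) (by rw [PG.length_unL]; omega)
      ((Bry.need_le hn).trans hpad) (hS.trans (Bry.tg_eq hO))
    rw [Bry.tg_eq hO]
    refine ⟨fun g => (a1 g).trans ⟨fun b => ⟨⟨b.1, fun j => ⟨b.2.cd 0 (hO j) le_rfl _,
      b.2.cd 0 le_rfl (hO j) _⟩, b.2.cd 0 le_rfl le_rfl _⟩, b.2⟩, fun b => ⟨b.1.1, b.2⟩⟩,
      fun e => ⟨a2, a3 e⟩⟩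
  · intro α _ pad uc R Os prs cf S x h1 _ _ h4 h5 h6 h7 h8
    exact h' UU α A cf pad (fun a => PG.unL (Os a)) Os prs (fun a => (S a, x a)) pt h6 h1
      (PG.pt_unL h4) h4 h5 (by fun_prop)

end Pool.Agent.P.MP_f1a348_lc.AL
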