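import Pool.Agent.P.MP_f1a348_lc.AL.CTB

/-!
Project AL: the elements of `Z` act semisimply on the layers.
-/

namespace Pool.Agent.P.MP_f1a348_lc.AL

open Pool.Agent.P.MP_f1a348_lc.GI hiding Nm Good
open Pool.Agent.P.MP_f1a348_lc.UP (Rec up topI SolvMod Nm der)
open scoped commutatorElement Pointwise
open MulAction (stabilizer)

theorem a_C1 (_h : S_LAY) : S_C1 := by
  intro U _ G Z O r p h ZG nZ zz j hj z hz w hw e
  have l := Ctb.ly h le_rfl ZG nZ zz (UP.SOLz.der_le 1 Z) hj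
  obtain ⟨V, _, _, q, ρ, d, -⟩ := l.exists
  refine (d.fix l.nL (ZG hz) hw).2 (d.fit l hz _ ?_)
  rw [← d.cm l.nL (ZG hz) hw]
  exact (d.fix l.nL (ZG hz) (CT.cm_mem l.nL (ZG hz) hw)).1 e

end Pool.Agent.P.MP_f1a348_lc.AL
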