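import Pool.Agent.P.MP_f1a348_lc.AL.CTB

/-!
Project AL: the centralisers of the good vectors meet in the Fitting subgroup.
-/

namespace Pool.Agent.P.MP_f1a348_lc.AL

open Pool.Agent.P.MP_f1a348_lc.GI hiding Nm Good
open Pool.Agent.P.MP_f1a348_lc.UP (Rec up topI SolvMod Nm der)
open scoped commutatorElement Pointwise
open MulAction (stabilizer)

theorem a_C2A (_h1 : S_C1) (_hl : S_LAY) (_hj : S_CJ) : S_C2A := by
  intro U _ G O r p R TT Z A d n h z hz e
  refine h.ser.faith R h.rd.le h.rd.nml h.rd.solv z (h.za.AR (h.za.le hz)) fun j hj y hy =>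
    by_contra fun t => ?_
  obtain ⟨v, hv, hn⟩ := (Ctb.ly' h hj).move hz hy t
  exact hn ((Ctb.isB h _ v z).1 (e _ ⟨j, hj, v, Ctb.gd.2 hv, rfl⟩)).2

end Pool.Agent.P.MP_f1a348_lc.AL
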