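import Pool.Agent.P.MP_f1a348_lc.AL.Iface

/-!
Project AL: the number of the subgroups `B`.
-/

namespace Pool.Agent.P.MP_f1a348_lc.AL

open Pool.Agent.P.MP_f1a348_lc.GI hiding Nm Good
open Pool.Agent.P.MP_f1a348_lc.UP (Nm)
open scoped commutatorElement

namespace C2by

section lin
variable {V ι : Type} [AddCommGroup V] {f : ι → V →+ V}

/-- the vectors killed by the `f z`, `z ∈ B`, that lie in the range of the other `f z` -/
def WB (f : ι → V →+ V) (B : ι → Prop) : AddSubgroup V :=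
  (⨅ z, ⨅ _ : B z, (f z).ker) ⊓ ⨅ z, ⨅ _ : ¬ B z, (f z).range

/-- the sum of these subgroups -/
def SS (f : ι → V →+ V) : List (ι → Prop) → AddSubgroup V
  | [] => ⊥
  | B :: l => WB f B ⊔ SS f l

theorem mem_WB {B : ι → Prop} {v : V} :
    v ∈ WB f B ↔ (∀ z, B z → f z v = 0) ∧ ∀ z, ¬ B z → ∃ w, f z w = v := by
  simp only [WB, AddSubgroup.mem_inf, AddSubgroup.mem_iInf, AddMonoidHom.mem_ker,
    AddMonoidHom.mem_range]

theorem WB_map (hc : ∀ z z' v, f z (f z' v) = f z' (f z v)) {B : ι → Prop} {v : V} (z : ι)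
    (h : v ∈ WB f B) : f z v ∈ WB f B := by
  rw [mem_WB] at h ⊢
  refine ⟨fun y hy => by rw [hc, h.1 y hy, map_zero], fun y hy => ?_⟩
  obtain ⟨w, rfl⟩ := h.2 y hy
  exact ⟨f z w, hc _ _ _⟩

theorem SS_map (hc : ∀ z z' v, f z (f z' v) = f z' (f z v)) (z : ι) (l : List (ι → Prop)) :
    ∀ v ∈ SS f l, f z v ∈ SS f l := by
  induction l with
  | nil => intro v h; rw [AddSubgroup.mem_bot.1 h, map_zero]; exact zero_mem _
  | cons B l ih =>
    intro v h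
    obtain ⟨a, ha, b, hb, rfl⟩ := AddSubgroup.mem_sup.1 h
    exact AddSubgroup.mem_sup.2 ⟨_, WB_map hc z ha, _, ih b hb, (map_add _ _ _).symm⟩

theorem ind (hc : ∀ z z' v, f z (f z' v) = f z' (f z v))
    (h2 : ∀ z w, f z (f z w) = 0 → f z w = 0) (l : List (ι → Prop)) :
    l.Nodup → ∀ B ∉ l, ∀ w ∈ WB f B, w ∈ SS f l → w = 0 := by
  have kill : ∀ B z w, w ∈ WB f B → ¬ B z → f z w = 0 → w = 0 := fun B z w hw hz e => by
    obtain ⟨u, rfl⟩ := (mem_WB.1 hw).2 z hz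
    exact h2 z u e
  induction l with
  | nil => exact fun _ _ _ _ _ h => AddSubgroup.mem_bot.1 h
  | cons B' l ih =>
    intro hn B hB w hw hs
    obtain ⟨n1, n2⟩ := List.nodup_cons.1 hn
    obtain ⟨n3, n4⟩ := not_or.1 (mt List.mem_cons.2 hB)
    obtain ⟨a, ha, b, hb, rfl⟩ := AddSubgroup.mem_sup.1 hs
    obtain ⟨z, hz⟩ := Function.ne_iff.1 n3
    by_cases h : B z
    · have h' : ¬ B' z := fun h' => hz (propext (iff_of_true h h'))
      have e : f z a = - f z b := by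
        rw [eq_neg_iff_add_eq_zero, ← map_add, (mem_WB.1 hw).1 z h]
      obtain rfl := kill B' z a ha h'
        (ih n2 B' n1 _ (WB_map hc z ha) (e ▸ neg_mem (SS_map hc z l b hb)))
      exact ih n2 B n4 _ hw (by rwa [zero_add])
    · have h' : B' z := by_contra fun h' => hz (propext (iff_of_false h h'))
      refine kill B z _ hw h (ih n2 B n4 _ (WB_map hc z hw) ?_)
      rw [map_add, (mem_WB.1 ha).1 z h', zero_add]
      exact SS_map hc z l b hb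

theorem cnt [Finite V] (hc : ∀ z z' v, f z (f z' v) = f z' (f z v))
    (h2 : ∀ z w, f z (f z w) = 0 → f z w = 0) (l : List (ι → Prop)) :
    l.Nodup → (∀ B ∈ l, ∃ w ∈ WB f B, w ≠ 0) → 2 ^ l.length ≤ Nat.card (SS f l) := by
  induction l with
  | nil => exact fun _ _ => Nat.card_pos
  | cons B l ih =>
    intro hn hB
    obtain ⟨n1, n2⟩ := List.nodup_cons.1 hn
    obtain ⟨⟨w, hw, h0⟩, b2⟩ := List.forall_mem_cons.1 hB
    have hle : SS f l ≤ SS f (B :: l) := le_sup_right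
    obtain ⟨m, hm⟩ := AddSubgroup.card_dvd_of_le hle
    have h3 : Nat.card (SS f l) < Nat.card (SS f (B :: l)) := lt_of_not_ge fun h =>
      h0 (ind hc h2 l n2 B n1 w hw
        (AddSubgroup.eq_of_le_of_card_ge hle h ▸ AddSubgroup.mem_sup_left hw))
    have h4 : 2 ≤ m := by
      rw [hm] at h3
      exact (Nat.lt_mul_iff_one_lt_right Nat.card_pos).1 h3
    rw [hm, List.length_cons, pow_succ]
    exact Nat.mul_le_mul (ih n2 b2) h4

end lin

/-- a layer as a module for the commuting operators `z - 1` -/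
theorem setup (h1 : S_C1) (hl : S_LAY) {U : Type} [Group U] {G Z : Subgroup U}
    {O : ℕ → Subgroup U} {r : ℕ} {p : ℕ → ℕ} (hs : Ser G O r p) (hZ : Z ≤ G) (hn : Nm G Z)
    (hz : ⁅Z, Z⁆ ≤ O 1) {j : ℕ} (hj : 1 ≤ j) :
    ∃ (V : Type) (_ : AddCommGroup V) (_ : Finite V) (f : Z → V →+ V) (κ : U → V),
      (∀ z z' v, f z (f z' v) = f z' (f z v)) ∧ (∀ z w, f z (f z w) = 0 → f z w = 0) ∧
      (∀ z : Z, ∀ w ∈ O j, f z (κ w) = 0 ↔ ⁅z.1, w⁆ ∈ O (j + 1)) ∧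
      (∀ z : Z, ∀ v ∈ O j, (∃ w, f z w = κ v) ↔ ∃ w ∈ O j, Cg (O (j + 1)) v ⁅z.1, w⁆) ∧
      (∀ x ∈ O j, κ x = 0 ↔ x ∈ O (j + 1)) ∧ (∀ v, ∃ x ∈ O j, κ x = v) ∧
      Nat.card V * Nat.card (O (j + 1)) = Nat.card (O j) := by
  obtain ⟨V, _, _, ρ, κ, k1, k2, k3, k4, k5⟩ := hl U G (O (j + 1)) (O j) hs.fin (hs.anti j)
    (hs.leG j) (hs.nml _) (hs.nml _) fun x hx y hy => hs.cen j hj x (hs.le hj hx) y hy
  have ki : ∀ x ∈ O j, κ x⁻¹ = - κ x := fun x hx => by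
    rw [eq_neg_iff_add_eq_zero, ← k1 _ (inv_mem hx) _ hx, inv_mul_cancel]
    exact (k2 1 (one_mem _)).2 (one_mem _)
  have cmm : ∀ g ∈ G, ∀ w ∈ O j, ⁅g, w⁆ ∈ O j := fun g hg w hw =>
    mul_mem (hs.nml j g hg w hw) (inv_mem hw)
  have kc : ∀ g : G, ∀ w ∈ O j, κ ⁅g.1, w⁆ = ρ g (κ w) - κ w := fun g w hw => by
    rw [commutatorElement_def, k1 _ (hs.nml j g g.2 w hw) _ (inv_mem hw), ← k4 g w hw, ki w hw,
      sub_eq_add_neg, Subgroup.coe_inv]
  have tr : ∀ g : G, g.1 ∈ O 1 → ρ g = 1 := fun g hg => LinearMap.ext fun v => by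
    obtain ⟨x, hx, rfl⟩ := k3 v
    have := (k2 _ (cmm g g.2 x hx)).2 (hs.cen j hj g hg x hx)
    rwa [kc g x hx, sub_eq_zero] at this
  let f : Z → V →+ V := fun z => (ρ ⟨z, hZ z.2⟩ - 1).toAddMonoidHom
  have kf : ∀ z : Z, ∀ w ∈ O j, f z (κ w) = κ ⁅z.1, w⁆ := fun z w hw =>
    (kc ⟨z, hZ z.2⟩ w hw).symm
  have kg : ∀ x ∈ O j, ∀ y ∈ O j, κ y = κ x ↔ Cg (O (j + 1)) x y := fun x hx y hy => by
    rw [Cg, ← k2 _ (mul_mem (inv_mem hx) hy), k1 _ (inv_mem hx) _ hy, ki x hx, neg_add_eq_zero,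
      eq_comm]
  refine ⟨V, inferInstance, inferInstance, f, κ, fun z z' v => ?_, fun z w => ?_,
    fun z w hw => by rw [kf z w hw, k2 _ (cmm z (hZ z.2) w hw)],
    fun z v hv => ⟨fun ⟨w, e⟩ => ?_, fun ⟨w, hw, e⟩ =>
      ⟨κ w, (kf z w hw).trans ((kg v hv _ (cmm z (hZ z.2) w hw)).2 e)⟩⟩, k2, k3, k5⟩
  · have e : Commute (ρ ⟨z, hZ z.2⟩) (ρ ⟨z', hZ z'.2⟩) := by
      have := tr ⁅(⟨z, hZ z.2⟩ : G), ⟨z', hZ z'.2⟩⁆
        (hz (Subgroup.commutator_mem_commutator z.2 z'.2))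
      rw [Commute, SemiconjBy, ← map_mul, ← map_mul, ← one_mul (ρ (_ * ⟨z, _⟩)), ← this,
        ← map_mul]
      congr 1
      simp only [commutatorElement_def, mul_assoc, inv_mul_cancel_left, inv_mul_cancel, mul_one]
    exact LinearMap.congr_fun ((e.sub_right (.one_right _)).sub_left (.one_left _)).eq v
  · obtain ⟨x, hx, rfl⟩ := k3 w
    have a := cmm z (hZ z.2) x hx
    rw [kf z x hx, kf z _ a, k2 _ a, k2 _ (cmm z (hZ z.2) _ a)]
    exact h1 U G Z O r p hs hZ hn hz j hj z z.2 x hx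
  · obtain ⟨x, hx, rfl⟩ := k3 w
    exact ⟨x, hx, (kg v hv _ (cmm z (hZ z.2) x hx)).1 ((kf z x hx).symm.trans e)⟩

theorem layer (h1 : S_C1) (hl : S_LAY) {U : Type} [Group U] {G Z : Subgroup U}
    {O : ℕ → Subgroup U} {r : ℕ} {p : ℕ → ℕ} (hs : Ser G O r p) (hZ : Z ≤ G) (hn : Nm G Z)
    (hz : ⁅Z, Z⁆ ≤ O 1) {j : ℕ} (hj : 1 ≤ j) (l : List (Subgroup U)) (hd : l.Nodup)
    (hB : ∀ B ∈ l, ∃ v, Gd (O (j + 1)) (O j) Z v ∧ B = Z ⊓ cenM (O (j + 1)) {v}) :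
    2 ^ l.length * Nat.card (O (j + 1)) ≤ Nat.card (O j) := by
  obtain ⟨V, _, _, f, κ, hc, h2, k1, k2, k3, -, k5⟩ := setup h1 hl hs hZ hn hz hj
  have a := cnt hc h2 (l.map fun B z => z.1 ∈ B) (hd.map_on fun B b B' b' e => ?_) fun P hP => ?_
  · rw [List.length_map] at a
    rw [← k5]
    exact Nat.mul_le_mul_right _
      (a.trans (Nat.card_le_card_of_injective _ Subtype.val_injective))
  · obtain ⟨v, -, rfl⟩ := hB B b
    obtain ⟨v', -, rfl⟩ := hB B' b'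
    exact Subgroup.ext fun x => ⟨fun hx => (congrFun e ⟨x, hx.1⟩).mp hx,
      fun hx => (congrFun e ⟨x, hx.1⟩).mpr hx⟩
  obtain ⟨B, b, rfl⟩ := List.mem_map.1 hP
  obtain ⟨v, ⟨v1, v2, v3⟩, rfl⟩ := hB B b
  refine ⟨κ v, mem_WB.2 ⟨fun z h => (k1 z v v1).2 (h.2.2 v rfl), fun z h => (k2 z v v1).2 ?_⟩,
    fun e => v2 ((k3 v v1).1 e)⟩
  refine (v3 z z.2).resolve_left fun h' => h
    ⟨z.2, fun x => ⟨hs.nml _ z (hZ z.2) x, fun hx => ?_⟩, fun u hu => ?_⟩
  · simpa [mul_assoc] using hs.nml _ _ (inv_mem (hZ z.2)) _ hx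
  · rwa [Set.mem_singleton_iff.1 hu]

end C2by

theorem a_C2B (h1 : S_C1) (hl : S_LAY) (hj : S_CJ) : S_C2B := by
  intro U _ G O r p R TT Z A d n h
  have hs := h.ser
  have hZ : Z ≤ G := h.za.le.trans (h.za.AR.trans h.rd.le)
  have hn : Nm G Z := (hj U G O r p hs).2.1 Z hZ h.za.iZ
  have key : ∀ k j, 1 ≤ j → r ≤ j + k → ∀ l : List (Subgroup U), l.Nodup →
      (∀ B ∈ l, ∃ i, j ≤ i ∧ ∃ v, Gd (O (i + 1)) (O i) Z v ∧ B = Z ⊓ cenM (O (i + 1)) {v}) →
      2 ^ l.length ≤ Nat.card (O j) := fun k => by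
    induction k with
    | zero =>
      intro j _ hr l _ hB
      cases l with
      | nil =>
        classical
        have := hs.fin
        have : Finite (O j) := finite_of_le (hs.leG j)
        exact Nat.card_pos
      | cons B l =>
        obtain ⟨i, hi, v, ⟨v1, v2, -⟩, -⟩ := hB B List.mem_cons_self
        rw [hs.bot i (by omega), Subgroup.mem_bot] at v1
        exact absurd (v1 ▸ one_mem _) v2
    | succ k ih =>
      intro j hj hr l hd hB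
      classical
      let P : Subgroup U → Bool := fun B =>
        decide (∃ v, Gd (O (j + 1)) (O j) Z v ∧ B = Z ⊓ cenM (O (j + 1)) {v})
      have a1 := C2by.layer h1 hl hs hZ hn h.za.zz hj (l.filter P) (hd.filter _)
        fun B hB => of_decide_eq_true (List.mem_filter.1 hB).2
      have a2 := ih (j + 1) (by omega) (by omega) (l.filter (!P ·)) (hd.filter _) fun B b => by
        obtain ⟨b1, b2⟩ := List.mem_filter.1 b
        obtain ⟨i, hi, e⟩ := hB B b1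
        refine ⟨i, hi.lt_of_ne ?_, e⟩
        rintro rfl
        rw [show P B = true from decide_eq_true e] at b2
        exact Bool.false_ne_true b2
      rw [List.length_eq_length_filter_add P, pow_add]
      exact (Nat.mul_le_mul_left _ a2).trans a1
  exact fun l hd hB => key r 1 le_rfl (by omega) l hd hB

end Pool.Agent.P.MP_f1a348_lc.AL
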