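import Pool.Agent.P.MP_f1a348_lc.AL.CTB

/-!
Project AL: the quotients `Z / B` are cyclic.
-/

namespace Pool.Agent.P.MP_f1a348_lc.AL

open Pool.Agent.P.MP_f1a348_lc.GI hiding Nm Good
open Pool.Agent.P.MP_f1a348_lc.UP (Rec up topI SolvMod Nm der)
open scoped commutatorElement Pointwise
open MulAction (stabilizer)

theorem a_C2C (_h1 : S_C1) (_hl : S_LAY) (_hj : S_CJ) : S_C2C := by
  rintro U _ G O r p R TT Z A d n h _ ⟨j, hj, v, hv, rfl⟩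
  obtain ⟨z0, h0, e⟩ := (Ctb.ly' h hj).cyc (Ctb.gd.1 hv)
  exact ⟨z0, h0, fun z hz => (e z hz).imp fun k t =>
    (Ctb.isB h _ v _).2 ⟨Z.mul_mem (Z.inv_mem (Z.pow_mem h0 k)) hz, t⟩⟩

end Pool.Agent.P.MP_f1a348_lc.AL
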