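import Pool.Agent.P.MP_f1a348_lc.AL.CTB

/-!
Project AL: the centres of the groups `A / B` have small index.
-/

namespace Pool.Agent.P.MP_f1a348_lc.AL

open Pool.Agent.P.MP_f1a348_lc.GI hiding Nm Good
open Pool.Agent.P.MP_f1a348_lc.UP (Rec up topI SolvMod Nm der)
open scoped commutatorElement Pointwise
open MulAction (stabilizer)

theorem a_C3 (_h1 : S_C1) (_hl : S_LAY) (_hj : S_CJ) : S_C3 := by
  intro U _ G O r p R TT Z A d n h B hB
  have a := Ctb.isA h hB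
  obtain ⟨j, hj, v, hv, rfl⟩ := hB
  exact (Ctb.ly' h hj).ind (Ctb.gd.1 hv) (h.card.trans (Nat.lt_size_self n)) fun x hx e =>
    (a x).2 ⟨hx, fun b hb => (Ctb.isB h _ v _).2 ⟨(Ctb.crit h).cA x hx b hb, e b hb⟩⟩

end Pool.Agent.P.MP_f1a348_lc.AL
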