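import Pool.Agent.P.MP_f1a348_lc.AL.Iface

/-!
Project AL: the routine `cfP` computes certificates.
-/

namespace Pool.Agent.P.MP_f1a348_lc.AL

open Pool.Agent.P.MP_f1a348_lc.GI hiding Nm Good
open Pool.Agent.P.MP_f1a348_lc.UP (Rec up topI SolvMod Nm der)
open scoped commutatorElement Pointwise
open MulAction (stabilizer)

namespace Certy

theorem der_mono {Γ : Type} [Group Γ] {Y Y' : Subgroup Γ} (h : Y ≤ Y') (k : ℕ) :
    der k Y ≤ der k Y' := by
  induction k with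
  | zero => exact h
  | succ k ih => exact Subgroup.commutator_mono ih ih

variable {U : Type} [Group U] [DecidableEq U]

/-- the three lists are subgroups -/
def R3 (t : L3 U) : Prop :=
  Rep t.1 (gen t.1) ∧ Rep t.2.1 (gen t.2.1) ∧ Rep t.2.2 (gen t.2.2)

theorem mv3_iff {t t' : L3 U} (h : R3 t) (h' : R3 t') (s : FP U) :
    mv3 t t' s = true ↔ s • pt3 (g3 t) = pt3 (g3 t') := by
  rw [mv3, Bool.and_eq_true, Bool.and_eq_true, imB_iff h.1.mem h'.1.mem,
    imB_iff h.2.1.mem h'.2.1.mem, imB_iff h.2.2.mem h'.2.2.mem, ← smul_eq_iff_mp, ← smul_eq_iff_mp,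
    ← smul_eq_iff_mp, and_assoc, Prod.ext_iff, Prod.ext_iff]
  rfl

theorem kt3_iff {t : L3 U} (h : R3 t) {s : FP U} (hs : s • pt3 (g3 t) = pt3 (g3 t)) :
    kt3 t s = true ↔ s ∈ KA (g3 t) := by
  simp only [kt3, List.all_eq_true, List.contains_iff_mem, h.1.mem, h.2.1.mem]
  exact ⟨fun e => ⟨hs, smul_eq_iff_mp.1 (congrArg Prod.fst hs), e⟩, fun e => e.2.2⟩

theorem arith {n d m : ℕ} {pad : List Unit} (h : Bg n d pad) (hm : m + 2 ≤ 2 * n.size) :
    n * n ≤ pad.length ∧ 3 ^ ((d + 16) * n.size) ≤ pad.length ∧ 2 ^ m ≤ pad.length ∧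
      4 * m + 1 ≤ 8 * n ∧ 8 * n ≤ pad.length := by
  obtain ⟨h2, hp⟩ := h
  have key : ∀ k, k ≤ 70 * (d + 1) → n ^ k ≤ pad.length := fun k hk =>
    (Nat.pow_le_pow_right (by omega) hk).trans hp
  obtain ⟨t, ht⟩ : ∃ t, n.size = t + 1 := ⟨n.size - 1, by omega⟩
  have a1 : 2 ^ t ≤ n := Nat.lt_size.1 (by omega)
  have a2 := @Nat.lt_two_pow_self t
  have a3 : 2 ^ n.size ≤ n ^ 2 := by rw [ht, pow_succ]; nlinarith
  have a4 : 2 ^ (2 * n.size) ≤ n ^ 4 := by
    rw [mul_comm, pow_mul]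
    exact (Nat.pow_le_pow_left a3 2).trans (by rw [← pow_mul])
  have a5 : 3 ^ n.size ≤ n ^ 4 := (Nat.pow_le_pow_left (by norm_num) _).trans (pow_mul 2 2 _ ▸ a4)
  refine ⟨sq n ▸ key 2 (by omega), ?_, ((Nat.pow_le_pow_right (by norm_num) (by omega)).trans
    a4).trans (key 4 (by omega)), by omega, le_trans ?_ (key 4 (by omega))⟩
  · rw [mul_comm, pow_mul]
    exact (Nat.pow_le_pow_left a5 _).trans (by rw [← pow_mul]; exact key _ (by omega))
  · rw [pow_succ]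
    exact Nat.mul_le_mul_right n (Nat.pow_le_pow_left h2 3)

end Certy

open Certy in
theorem a_CERT (ht : S_TREE) (hz : S_ZA) (ha : S_ATP) (hi : S_CIDX) (hp : S_CPERM)
    (hs : S_CSOLV) : S_CERT := by
  intro U _ _ G O r p R d n pad Os TT Rl S ser card rep len hR hT rd h1 hS bg S' hS'
  have inv : ∀ j, Inv (gen S) (O j) := fun j s hs x hx => (Tri.maps (hS ▸ hs).2 j x).2 hx
  obtain ⟨Z, A, rZ, rA, za⟩ := hz U (gO Os 0) (gO Os 1) Rl S (O 0) (O 1) R (rep 0) (rep 1) hR h1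
    (ser.zero ▸ rd.le) (inv 0) (inv 1) (hS ▸ rd.inv)
  have cx : CX G O r p R (TT.map gen) Z A d n := ⟨ser, card, rd, hS ▸ za⟩
  obtain ⟨a1, a2, a3⟩ := ha U G O r p R Z A d n Os TT Rl _ _ cx rep len hR rZ rA hT
  rw [← atQ] at a1 a2 a3
  generalize atQ Os S Rl TT = L at a1 a2 a3
  obtain ⟨b1, b2, b3, b4, b5⟩ := arith bg a3
  have mem : ∀ i < L.length, L.getD i ([], [], []) ∈ L := fun i hi => by
    rw [List.getD_eq_getElem _ _ hi]; exact List.getElem_mem hi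
  have atm : ∀ i < L.length, g3 (L.getD i ([], [], [])) ∈ Atm O R (TT.map gen) Z A := fun i hi =>
    (a2 _).2 (List.mem_map_of_mem (mem i hi))
  have ex : ∀ t ∈ Atm O R (TT.map gen) Z A, ∃ i < L.length, g3 (L.getD i ([], [], [])) = t :=
    fun t h => by
      obtain ⟨x, hx, rfl⟩ := List.mem_map.1 ((a2 t).1 h)
      obtain ⟨i, hi, rfl⟩ := List.getElem_of_mem hx
      exact ⟨i, hi, by rw [List.getD_eq_getElem _ _ hi]⟩
  have hl : (gO Os 0).length ≤ n :=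
    ((rep 0).card.symm.trans (by rw [ser.zero])).le.trans card.le
  obtain ⟨c1, c2, c3⟩ := ht U _ (pad, gO Os 0)
    (fun i k => mv3 (L.getD i ([], [], [])) (L.getD k ([], [], [])))
    (fun i => kt3 (L.getD i ([], [], []))) L.length 3 ((d + 16) * n.size)
    (fun i => pt3 (g3 (L.getD i ([], [], [])))) (fun i => KA (g3 (L.getD i ([], [], [])))) (TG O)
    ((Nat.mul_le_mul hl hl).trans b1) (fun s hs a ha => hs.1 a fun e => ha (((rep 0).mem a).2 e))
    (by norm_num) b2 b3 (b4.trans b5)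
    (fun s _ i hi k hk => mv3_iff (a1 _ (mem i hi)) (a1 _ (mem k hk)) s)
    (fun s _ i hi e => kt3_iff (a1 _ (mem i hi)) e) (fun i _ => inf_le_left)
    (fun s hs i hi => by
      obtain ⟨t, h2, h3⟩ := (hp U G O r p R _ Z A d n cx s hs _ (atm i hi)).1
      obtain ⟨k, hk, rfl⟩ := ex t h2
      exact ⟨k, hk, h3⟩)
    (fun s hs i hi k _ e => (hp U G O r p R _ Z A d n cx s hs _ (atm i hi)).2 _ e)
    (fun i hi' => hi U G O r p R _ Z A d n cx _ (atm i hi')) S' hS'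
  refine ⟨c1.mono (by nlinarith), ⟨3, le_trans (der_mono ?_ 3) (hs U G O r p R _ Z A d n cx)⟩,
    c3.trans b4⟩
  rw [cfP, c2]
  refine le_inf (inf_le_left.trans hS') (le_iInf₂ fun t h => ?_)
  obtain ⟨i, hi, rfl⟩ := ex t h
  exact inf_le_right.trans (inf_le_right.trans (iInf₂_le i hi))

end Pool.Agent.P.MP_f1a348_lc.AL
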