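import Pool.Agent.P.MP_f1a348_lc.AL.Iface

/-!
Project AL: the kernels of the atoms have small index.
-/

namespace Pool.Agent.P.MP_f1a348_lc.AL

open Pool.Agent.P.MP_f1a348_lc.GI hiding Nm Good
open Pool.Agent.P.MP_f1a348_lc.UP (Rec up topI SolvMod Nm der)
open scoped commutatorElement Pointwise
open MulAction (stabilizer)

namespace Cidxy

/-- an invariant that separates the cosets bounds the index -/
theorem idx_le {Γ β : Type} [Group Γ] [Finite β] {K H : Subgroup Γ} (f : H → β)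
    (h : ∀ s t : H, f s = f t → (s : Γ)⁻¹ * t ∈ K) : K.relIndex H ≤ Nat.card β :=
  Nat.card_le_card_of_injective (fun q : H ⧸ K.subgroupOf H => f q.out) fun q q' e => by
    rw [← q.out_eq', ← q'.out_eq']
    exact QuotientGroup.eq.2 (h _ _ e)

variable {U : Type} [Group U]

/-- few generators over a subgroup of small index -/
theorem few {A : Subgroup U} (m : ℕ) : ∀ V : Subgroup U, V ≤ A → V.relIndex A = m → m ≠ 0 →
    ∃ l : List U, A = V ⊔ gen l ∧ 2 ^ l.length ≤ m := by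
  induction m using Nat.strong_induction_on with
  | _ m ih =>
    intro V hV hm h0
    by_cases e : A ≤ V
    · exact ⟨[], by rw [gen_nil, sup_bot_eq]; exact le_antisymm e hV, Nat.pos_of_ne_zero h0⟩
    obtain ⟨x, hx, hxV⟩ := SetLike.not_le_iff_exists.1 e
    have h1 : V ⊔ gen [x] ≤ A := sup_le hV (gen_le.2 (by simpa using hx))
    have h2 := Subgroup.relIndex_mul_relIndex V (V ⊔ gen [x]) A le_sup_left h1
    rw [hm] at h2
    have h3 : V.relIndex (V ⊔ gen [x]) ≠ 1 := fun e' =>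
      hxV (Subgroup.relIndex_eq_one.1 e' (Subgroup.mem_sup_right (mem_gen (by simp))))
    have h4 : V.relIndex (V ⊔ gen [x]) ≠ 0 := left_ne_zero_of_mul (h2 ▸ h0)
    have h5 : (V ⊔ gen [x]).relIndex A ≠ 0 := right_ne_zero_of_mul (h2 ▸ h0)
    have h6 : 2 * (V ⊔ gen [x]).relIndex A ≤ m :=
      h2 ▸ Nat.mul_le_mul_right _ (by omega)
    obtain ⟨l, a1, a2⟩ := ih _ (by omega) _ h1 rfl h5
    refine ⟨[x] ++ l, by rw [gen_append, ← sup_assoc]; exact a1, ?_⟩
    rw [List.singleton_append, List.length_cons, pow_succ]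
    omega

variable {O : ℕ → Subgroup U} {X V : Subgroup U} {s : FP U}

theorem cg_app (hs : s ∈ TG O) (hV : Mp s V V) (h1 : O 1 ≤ V) (h0 : V ≤ O 0) {a b : U}
    (ha : a ∈ O 0) (h : Cg V a b) : Cg V (s.app a) (s.app b) := by
  obtain ⟨v, hv, rfl⟩ := h.exists_eq
  exact (Cg.mul_mem ((hV v).2 hv) _).trans
    ((hs.2.mul 0 a ha v (h0 hv) (.inl ha)).mono h1).symm

theorem fx_of (hs : s ∈ TG O) (hX : Mp s X X) (hV : Mp s V V) (h1 : O 1 ≤ V) (h0 : X ≤ O 0)
    (hn : Nm X V) {l : List U} (e : X = V ⊔ gen l) (h : ∀ x ∈ l, Cg V x (s.app x)) :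
    s ∈ Fx X V := by
  have nm : ∀ c ∈ X, GI.Nm V c := fun c hc k hk => by simpa using hn _ (X.inv_mem hc) k hk
  have mul : ∀ x ∈ X, ∀ y ∈ X, Cg V (s.app (x * y)) (s.app x * s.app y) := fun x hx y hy =>
    (hs.2.mul 0 x (h0 hx) y (h0 hy) (.inl (h0 hx))).mono h1
  let Y : Subgroup U :=
    { carrier := {x | x ∈ X ∧ Cg V x (s.app x)}
      one_mem' := ⟨X.one_mem, Cg.one_iff.2 ((hV 1).2 V.one_mem)⟩
      mul_mem' := fun {x y} hx hy => ⟨X.mul_mem hx.1 hy.1,
        (hx.2.mul (nm y hy.1) hy.2).trans (mul x hx.1 y hy.1).symm⟩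
      inv_mem' := fun {x} hx => ⟨X.inv_mem hx.1, by
        have a1 := (mul x hx.1 _ (X.inv_mem hx.1)).mem_iff le_rfl
        rw [mul_inv_cancel] at a1
        have a2 := (hx.2.right (nm _ ((hX _).2 (X.inv_mem hx.1)))).mem_iff le_rfl
        simpa [Cg] using a2.2 (a1.1 ((hV 1).2 V.one_mem))⟩ }
  have hY : V ⊔ gen l ≤ Y := sup_le
    (fun v hv => ⟨e ▸ Subgroup.mem_sup_left hv, V.mul_mem (V.inv_mem hv) ((hV v).2 hv)⟩)
    (gen_le.2 fun x hx => ⟨e ▸ Subgroup.mem_sup_right (mem_gen hx), h x hx⟩)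
  exact ⟨hX, fun x hx => (hY (e ▸ hx)).2⟩

theorem idx (W : Subgroup U) [Finite X] (h1 : O 1 ≤ V) (h0 : X ≤ O 0) (hn : Nm X V) {l : List U}
    (e : X = V ⊔ gen l) :
    (KA (X, V, W)).relIndex (TG O ⊓ stabilizer (FP U) (pt3 (X, V, W))) ≤
      V.relIndex X ^ l.length := by
  have mp : ∀ s ∈ stabilizer (FP U) (pt3 (X, V, W)), Mp s X X ∧ Mp s V V := fun s hs =>
    ⟨smul_eq_iff_mp.1 (congrArg Prod.fst hs), smul_eq_iff_mp.1 (congrArg (fun q => q.2.1) hs)⟩
  have hl : ∀ x ∈ l, x ∈ X := fun x hx => e ▸ Subgroup.mem_sup_right (mem_gen hx)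
  refine (idx_le (H := TG O ⊓ stabilizer (FP U) (pt3 (X, V, W)))
    (fun s (i : Fin l.length) => (QuotientGroup.mk ⟨s.1.app l[i],
      ((mp _ s.2.2).1 _).2 (hl _ (List.getElem_mem _))⟩ : X ⧸ V.subgroupOf X))
    fun s t h => ?_).trans ?_
  swap
  · rw [Nat.card_fun, Nat.card_eq_fintype_card (α := Fin _), Fintype.card_fin]
    exact le_rfl
  have hu := mul_mem (inv_mem s.2) t.2
  refine ⟨hu.2, fx_of hu.1 (mp _ hu.2).1 (mp _ hu.2).2 h1 h0 hn e fun x hx => ?_⟩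
  obtain ⟨i, hi, rfl⟩ := List.getElem_of_mem hx
  have a1 : Cg V (s.1.app l[i]) (t.1.app l[i]) :=
    QuotientGroup.eq (s := V.subgroupOf X).1 (congrFun h ⟨i, hi⟩)
  have a2 := cg_app (inv_mem s.2.1) (mp _ s.2.2).2.inv h1 ((e ▸ le_sup_left : V ≤ X).trans h0)
    (h0 (((mp _ s.2.2).1 _).2 (hl _ hx))) a1
  simpa using a2

theorem arith {m k L : ℕ} (h1 : m ≤ L * L) (h2 : 2 ^ k ≤ m) : m ^ k ≤ 2 ^ (16 * L) := by
  have a0 : ∀ t : ℕ, t * t ≤ 2 ^ (t + 1) := fun t => by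
    induction t with
    | zero => simp
    | succ t ih =>
      have := @Nat.lt_two_pow_self t
      rw [pow_succ] at ih
      rw [pow_succ, pow_succ]
      nlinarith
  have a1 := Nat.lt_size_self L
  have a2 : m < 2 ^ (2 * L.size) := by rw [two_mul, pow_add]; nlinarith
  have a3 : k < 2 * L.size := (Nat.pow_lt_pow_iff_right (by norm_num)).1 (h2.trans_lt a2)
  obtain ⟨t, ht⟩ : ∃ t, L.size = t + 1 := ⟨L.size - 1, by omega⟩
  have a4 : 2 ^ t ≤ L := Nat.lt_size.1 (by omega)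
  have a5 := a0 (t + 1)
  rw [pow_succ, pow_succ, ← ht] at a5
  refine (Nat.pow_le_pow_left a2.le k).trans ?_
  rw [← pow_mul]
  exact Nat.pow_le_pow_right (by norm_num) (by nlinarith)

end Cidxy

open Cidxy in
theorem a_CIDX (h3 : S_C3) (hj : S_CJ) : S_CIDX := by
  intro U _ G O r p R TT Z A d n h t ht
  classical
  have := h.ser.fin
  have _ := hj
  have key : ∀ k, k ≤ (d + 16) * n.size → 2 ^ k ≤ 3 ^ ((d + 16) * n.size) := fun k hk =>
    (Nat.pow_le_pow_left (by norm_num) k).trans (Nat.pow_le_pow_right (by norm_num) hk)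
  have hAG : A ≤ G := h.za.AR.trans h.rd.le
  rcases ht with ⟨T, hT, rfl⟩ | ⟨B, hB, rfl⟩
  · obtain ⟨a1, l, a2, a3⟩ := h.rd.sub T hT
    have : Finite T := finite_of_le a1
    have a4 : R.relIndex T ≤ 2 ^ n.size :=
      ((Nat.le_of_dvd Nat.card_pos (Subgroup.index_dvd_card _)).trans
        (Subgroup.card_le_of_le a1)).trans (h.card.trans (Nat.lt_size_self n)).le
    refine (idx R (h.za.FZ.trans (h.za.le.trans h.za.AR)) (h.ser.zero ▸ a1)
      (fun g hg => h.rd.nml g (a1 hg)) a3).trans ((Nat.pow_le_pow_left a4 _).trans ?_)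
    rw [← pow_mul]
    exact key _ (by nlinarith)
  · have : Finite A := finite_of_le hAG
    have a0 := h3 U G O r p R TT Z A d n h B hB
    obtain ⟨j, hj1, v, hv, e⟩ := hB
    have a1 : O 1 ≤ B := fun x hx => e ▸ ⟨h.za.FZ hx, fun y => ⟨h.ser.nml _ x (h.ser.leG 1 hx) y,
      fun hy => by simpa [mul_assoc] using h.ser.nml _ _ (G.inv_mem (h.ser.leG 1 hx)) _ hy⟩,
      fun w hw => hw ▸ h.ser.cen j hj1 x hx v hv.1⟩
    have a2 : Z ≤ A ⊓ cenM B A := fun z hz => ⟨h.za.le hz,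
      Subgroup.le_normalizer_iff_commutator_le_right.2
        (((Subgroup.commutator_mono le_rfl (e ▸ inf_le_left : B ≤ Z)).trans h.za.zz).trans a1) hz,
      fun a ha => a1 (h.za.az (Subgroup.commutator_comm Z A ▸
        Subgroup.commutator_mem_commutator hz ha))⟩
    obtain ⟨l, b1, b2⟩ := few _ (A ⊓ cenM B A) inf_le_left rfl Subgroup.index_ne_zero_of_finite
    refine (idx B (h.za.FZ.trans a2) (h.ser.zero ▸ hAG) (fun g hg k hk => ?_) b1).trans
      ((arith a0 b2).trans (key _ (by nlinarith)))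
    have := mul_mem (a2 (h.za.aa (Subgroup.commutator_mem_commutator hg hk.1))) hk
    simpa only [commutatorElement_def, inv_mul_cancel_right] using this

end Pool.Agent.P.MP_f1a348_lc.AL
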