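import Pool.Agent.P.MP_f1a348_lc.AL.Iface

/-!
Project AL: conjugations lie in the triangular group; invariant subgroups.
-/

namespace Pool.Agent.P.MP_f1a348_lc.AL

open Pool.Agent.P.MP_f1a348_lc.GI hiding Nm Good
open Pool.Agent.P.MP_f1a348_lc.UP (Rec up topI SolvMod Nm der)
open Pool.Agent.P.MP_f1a348_lc.FA (Cls Sub MaxN)
open Pool.Agent.Lib.Helper47
open scoped commutatorElement Pointwise
open MulAction (stabilizer)

namespace Cjy
variable {U : Type} [Group U] {G : Subgroup U} {O : ℕ → Subgroup U} {r : ℕ} {p : ℕ → ℕ}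

theorem nm {T : Subgroup U} (h : Nm G T) {c : U} (hc : c ∈ G) : GI.Nm T c := fun e he => by
  simpa using h _ (G.inv_mem hc) e he

theorem conj_iff {T : Subgroup U} (h : Nm G T) {a : U} (ha : a ∈ G) (x : U) :
    a * x * a⁻¹ ∈ T ↔ x ∈ T :=
  ⟨fun hx => by simpa [mul_assoc] using h _ (G.inv_mem ha) _ hx, h a ha x⟩

theorem inn (h : Ser G O r p) {g : U} (hg : g ∈ G) :
    ∃ s ∈ TG O, ∀ x ∈ G, s.app x = g * x * g⁻¹ := by
  have := h.fin
  obtain ⟨s, h1, -, h3⟩ := exists_fp (f := fun x => g * x * g⁻¹) (X := G) (X' := G)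
    (Set.toFinite _) ⟨fun x hx => nm_self G g hg x hx, fun x _ y _ e => by simpa using e,
      fun y hy => ⟨g⁻¹ * y * g, mul_mem (mul_mem (inv_mem hg) hy) hg, by simp [mul_assoc]⟩⟩
  rw [Set.union_self] at h1
  obtain rfl := h.zero
  refine ⟨s, ⟨h1, fun j x => ?_, fun j x hx y hy => ?_, fun j x hx y hy _ => Cg.of_eq ?_⟩, h3⟩
  · by_cases hx : x ∈ O 0
    · rw [h3 x hx]
      exact conj_iff (h.nml j) hg x
    · rw [h1 x hx]
  · rw [h3 x hx, h3 y hy, Cg, Cg, ← conj_iff (h.nml j) hg (x⁻¹ * y)]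
    congr! 1
    group
  · rw [h3 _ (mul_mem hx hy), h3 x hx, h3 y hy]
    group

variable {s : FP U}

theorem mG (h : Ser G O r p) (hs : s ∈ TG O) {x : U} (hx : x ∈ G) : s.app x ∈ G := by
  obtain rfl := h.zero
  exact (hs.2.maps 0 x).2 hx

theorem mul (h : Ser G O r p) (hs : s ∈ TG O) (j : ℕ) {x y : U} (hx : x ∈ G) (hy : y ∈ G)
    (hj : x ∈ O j ∨ y ∈ O j) : Cg (O (j + 1)) (s.app (x * y)) (s.app x * s.app y) := by
  obtain rfl := h.zero
  exact hs.2.mul j x hx y hy hj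

theorem last (h : Ser G O r p) (hs : s ∈ TG O) (j : ℕ) {x y : U} (hx : x ∈ G) (hy : y ∈ O j) :
    Cg (O (j + 1)) (s.app y⁻¹) (s.app y)⁻¹ ∧
      Cg (O (j + 1)) (s.app (x * y * x⁻¹)) (s.app x * s.app y * (s.app x)⁻¹) ∧
      Cg (O (j + 1)) (s.app ⁅x, y⁆) ⁅s.app x, s.app y⁆ := by
  have yG := h.leG j hy
  have a1 : Cg (O (j + 1)) (s.app y⁻¹) (s.app y)⁻¹ := by
    have a := mul h hs j yG (inv_mem yG) (.inl hy)
    rw [mul_inv_cancel] at a
    have b := (a.mem_iff le_rfl).1 ((hs.2.maps (j + 1) 1).2 (one_mem _))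
    simpa [Cg] using inv_mem b
  have cy := h.nml j x hx y hy
  have a2 : Cg (O (j + 1)) (s.app (x * y * x⁻¹)) (s.app x * s.app y * (s.app x)⁻¹) := by
    have a := mul h hs j (h.leG j cy) hx (.inl cy)
    rw [inv_mul_cancel_right] at a
    simpa using (a.symm.trans (mul h hs j hx yG (.inr hy))).right
      (nm (h.nml _) (inv_mem (mG h hs hx)))
  exact ⟨a1, a2, (mul h hs j (h.leG j cy) (inv_mem yG) (.inl cy)).trans
    (a2.mul (nm (h.nml _) (mG h hs (inv_mem yG))) a1)⟩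

theorem mem0 (h : Ser G O r p) {x : U} (hx : x ∈ G) : x ∈ O 0 := h.zero ▸ hx

/-- the elements of `G` that are mapped into `Z` -/
def pre (h : Ser G O r p) (hs : s ∈ TG O) (Z : Subgroup U) (hZ : O 1 ≤ Z) : Subgroup U where
  carrier := {x | x ∈ G ∧ s.app x ∈ Z}
  one_mem' := ⟨one_mem _, hZ ((hs.2.maps 1 1).2 (one_mem _))⟩
  mul_mem' ha hb := ⟨mul_mem ha.1 hb.1,
    ((mul h hs 0 ha.1 hb.1 (.inl (mem0 h ha.1))).mem_iff hZ).2 (mul_mem ha.2 hb.2)⟩
  inv_mem' ha := ⟨inv_mem ha.1,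
    ((last h hs 0 ha.1 (mem0 h ha.1)).1.mem_iff hZ).2 (inv_mem ha.2)⟩

theorem nml (h : Ser G O r p) {X : Subgroup U} (hX : X ≤ G) (i : Inv (TG O) X) : Nm G X :=
  fun g hg x hx => by
    obtain ⟨s, hs, e⟩ := inn h hg
    exact e x (hX hx) ▸ i s hs x hx

end Cjy

open Cjy

theorem a_CJ : S_CJ := by
  intro U _ G O r p h
  refine ⟨fun g hg => inn h hg, fun X hX i => nml h hX i, fun X X' h1 hX hX' i i' s hs x hx => ?_,
    fun X X' hX hX' i i' s hs x hx => ?_, fun X X' h1 hX hX' i i' s hs x hx => ?_,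
    fun s hs j x hx y hy => last h hs j hx hy⟩
  · exact (sup_le (c := pre h hs (X ⊔ X') (h1.trans le_sup_left))
      (fun y hy => ⟨hX hy, Subgroup.mem_sup_left (i s hs y hy)⟩)
      (fun y hy => ⟨hX' hy, Subgroup.mem_sup_right (i' s hs y hy)⟩) hx).2
  · refine (sup_le (c := pre h hs (O 1 ⊔ ⁅X, X'⁆) le_sup_left)
      (fun y hy => ⟨h.leG 1 hy, Subgroup.mem_sup_left ((hs.2.maps 1 y).2 hy)⟩)
      (Subgroup.commutator_le.2 fun a ha b hb => ⟨?_, ?_⟩) hx).2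
    · exact mul_mem (mul_mem (mul_mem (hX ha) (hX' hb)) (inv_mem (hX ha))) (inv_mem (hX' hb))
    · exact ((last h hs 0 (hX ha) (mem0 h (hX' hb))).2.2.mem_iff le_sup_left).2
        (Subgroup.mem_sup_right (Subgroup.commutator_mem_commutator (i s hs a ha) (i' s hs b hb)))
  · have sx := mG h hs hx.1
    refine ⟨sx, fun y => (conj_iff (nml h hX i) sx y).symm, fun v hv => ?_⟩
    have w := i' _ (inv_mem hs) v hv
    have := ((last h hs 0 hx.1 (mem0 h (hX' w))).2.2.mem_iff h1).1 (i s hs _ (hx.2.2 _ w))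
    rwa [FP.app_app_inv] at this

end Pool.Agent.P.MP_f1a348_lc.AL
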