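import Pool.Agent.P.MP_f1a348_lc.AL.Iface

/-!
Project AL: conjugation on the union of the atoms, and the way back to isomorphisms.
-/

namespace Pool.Agent.P.MP_f1a348_lc.AL

open Pool.Agent.P.MP_f1a348_lc.GI hiding Nm Good
open Pool.Agent.P.MP_f1a348_lc.UP (Rec up topI SolvMod Nm der)
open Pool.Agent.P.MP_f1a348_lc.FA (Cls Sub MaxN)
open Pool.Agent.Lib.Helper47
open scoped commutatorElement Pointwise
open MulAction (stabilizer)

namespace Cjpy
variable {U : Type} [Group U] {D : Subgroup U} {T : ℕ → Subgroup U} {t d : ℕ}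

theorem om_le (h : At D T t d) {x : U} (hx : x ∈ Om T t) : x ∈ D := by
  obtain ⟨i, hi, hx⟩ := hx
  exact h.le i hi hx

theorem om_map (h : At D T t d) {β : FP U} (hβ : IsoP D D β) {x : U} (hx : x ∈ Om T t) :
    β.app x ∈ Om T t := by
  obtain ⟨i, hi, hx⟩ := hx
  obtain ⟨k, hk, h1⟩ := h.aut β hβ i hi
  exact ⟨k, hk, (h1 x).2 hx⟩

theorem mem_GG (h : At D T t d) {β s : FP U} (hβ : IsoP D D β) (hs : s ∈ Sup (Om T t))
    (e : ∀ x ∈ Om T t, s.app x = β.app x) : s ∈ GG T t := by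
  have key : ∀ i < t, ∀ k < t, Mp β (T i) (T k) → IsoP (T i) (T k) s := fun i hi k hk hm => by
    refine IsoP.congr ⟨hm, hβ.hm.mono (h.le i hi)⟩ (fun x => ?_) fun x hx => e x ⟨i, hi, hx⟩
    by_cases hx : x ∈ Om T t
    · rw [e x hx]
      exact hm x
    · rw [hs x hx]
      exact ⟨fun h1 => absurd ⟨k, hk, h1⟩ hx, fun h1 => absurd ⟨i, hi, h1⟩ hx⟩
  refine ⟨hs, fun i hi => ?_, fun k hk => ?_⟩
  · obtain ⟨k, hk, h1⟩ := h.aut β hβ i hi
    exact ⟨k, hk, key i hi k hk h1⟩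
  · obtain ⟨i, hi, h1⟩ := h.aut β⁻¹ hβ.inv k hk
    exact ⟨i, hi, key i hi k hk (by simpa using h1.inv)⟩

theorem ex_conj (h : Finite D) {g : U} (hg : g ∈ D) :
    ∃ β, IsoP D D β ∧ ∀ x ∈ D, β.app x = g * x * g⁻¹ := by
  have hb : Set.BijOn (fun x => g * x * g⁻¹) (D : Set U) D :=
    ⟨fun x hx => nm_self D g hg x hx, fun x _ y _ e => by simpa using e, fun y hy =>
      ⟨g⁻¹ * y * g⁻¹⁻¹, nm_self D _ (inv_mem hg) y hy, by simp [mul_assoc]⟩⟩
  obtain ⟨s, -, h1, h2⟩ := exists_fp (Set.toFinite (D : Set U)) hb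
  refine ⟨s, ⟨h1, fun x hx y hy => ?_⟩, h2⟩
  rw [h2 _ (mul_mem hx hy), h2 x hx, h2 y hy]
  simp [mul_assoc]

theorem om_conj (h : At D T t d) {g : U} (hg : g ∈ D) {x : U} (hx : x ∈ Om T t) :
    g * x * g⁻¹ ∈ Om T t := by
  obtain ⟨β, h1, h2⟩ := ex_conj h.fin hg
  exact h2 x (om_le h hx) ▸ om_map h h1 hx

variable [DecidableEq U] {l : List U}

theorem cj_app (hl : ∀ x, x ∈ l ↔ x ∈ Om T t) (g : U) {x : U} (hx : x ∈ Om T t) :
    (cjP l g).app x = g * x * g⁻¹ :=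
  FP.ofList_map (f := fun x => g * x * g⁻¹) (fun a _ b _ e => by simpa using e) ((hl x).2 hx)

theorem cj_sup (h : At D T t d) (hl : ∀ x, x ∈ l ↔ x ∈ Om T t) {g : U} (hg : g ∈ D) :
    cjP l g ∈ Sup (Om T t) := fun a ha => FP.ofList_fix fun p hp => by
  obtain ⟨x, hx, rfl⟩ := List.mem_map.1 hp
  exact ⟨fun e => ha (e ▸ (hl x).1 hx), fun e => ha (e ▸ om_conj h hg ((hl x).1 hx))⟩

theorem cjp (hb : S_BB) : S_CJP := by
  intro U _ _ c Ts D T t d bx
  have hl := (hb U c Ts D T t d bx).1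
  have h := bx.atm
  refine ⟨fun g hg => ?_, fun g hg k hk => FP.ext fun a => ?_, fun g hg k hk e => ?_,
    fun β hβ => ?_⟩
  · obtain ⟨β, h1, h2⟩ := ex_conj h.fin hg
    exact mem_GG h h1 (cj_sup h hl hg) fun x hx => by rw [cj_app hl g hx, h2 x (om_le h hx)]
  · by_cases ha : a ∈ Om T t
    · rw [FP.app_mul, cj_app hl _ ha, cj_app hl _ ha, cj_app hl _ (om_conj h hk ha)]
      simp [mul_assoc]
    · rw [FP.app_mul, cj_sup h hl (mul_mem hg hk) a ha, cj_sup h hl hk a ha, cj_sup h hl hg a ha]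
  · have h1 := h.faith (k⁻¹ * g) (mul_mem (inv_mem hk) hg) fun i hi x hx => by
      have h2 := cj_app hl g (x := x) ⟨i, hi, hx⟩
      rw [e, cj_app hl k (x := x) ⟨i, hi, hx⟩] at h2
      calc k⁻¹ * g * x = k⁻¹ * (g * x * g⁻¹) * g := by simp [mul_assoc]
        _ = x * (k⁻¹ * g) := by rw [← h2]; simp [mul_assoc]
    exact (inv_mul_eq_one.1 h1).symm
  · have h1 : cl c β ∈ Sup (Om T t) := fun a ha => cl_mem c β a fun h2 => ha ((hl a).1 h2)
    have h2 : ∀ x ∈ Om T t, (cl c β).app x = β.app x := fun x hx =>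
      cl_app (fun a ha => (hl _).2 (om_map h hβ ((hl a).1 ha))) ((hl x).2 hx)
    refine ⟨cl c β, mem_GG h hβ h1 h2, fun g hg => mul_inv_eq_iff_eq_mul.2 (FP.ext fun a => ?_)⟩
    by_cases ha : a ∈ Om T t
    · rw [FP.app_mul, FP.app_mul, cj_app hl _ ha, h2 _ (om_conj h hg ha), h2 a ha,
        cj_app hl _ (om_map h hβ ha), hβ.hm.conj hg (om_le h ha)]
    · rw [FP.app_mul, FP.app_mul, cj_sup h hl hg a ha, h1 a ha,
        cj_sup h hl ((hβ.maps g).2 hg) a ha]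

theorem bk : S_BK := by
  intro U Γ _ _ _ _ Y Y' G G' φ φ' s hY hY' m m' j j' hc
  let f : U → U := fun g => (((Y'.map fun g => (g, φ' g)).find?
    fun q => q.2 == s * φ g * s⁻¹).map Prod.fst).getD 1
  have e0 : bkP (Y.map fun g => (g, φ g)) (Y'.map fun g => (g, φ' g)) s =
      FP.ofList (Y.map fun g => (g, f g)) := by
    rw [bkP, List.map_map]
    rfl
  have hf : ∀ g ∈ G, f g ∈ G' ∧ φ' (f g) = s * φ g * s⁻¹ := fun g hg => by
    obtain ⟨g', hg', e⟩ := (hc (φ g)).2 ⟨g, hg, rfl⟩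
    cases h : (Y'.map fun g => (g, φ' g)).find? fun q => q.2 == s * φ g * s⁻¹ with
    | none =>
      exact absurd (beq_iff_eq.2 e)
        (List.find?_eq_none.1 h _ (List.mem_map_of_mem ((hY'.mem g').2 hg')))
    | some q =>
      obtain ⟨y, hy, rfl⟩ := List.mem_map.1 (List.mem_of_find?_eq_some h)
      have h1 : f g = y := by simp only [f, h, Option.map_some, Option.getD_some]
      have h2 := List.find?_some h
      rw [h1]
      exact ⟨(hY'.mem y).1 hy, beq_iff_eq.1 h2⟩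
  have hi : ∀ a ∈ Y, ∀ b ∈ Y, f a = f b → a = b := fun a ha b hb e => by
    have ha := (hY.mem a).1 ha
    have hb := (hY.mem b).1 hb
    have h1 := (hf a ha).2
    rw [e, (hf b hb).2] at h1
    exact (j b hb a ha (by simpa using h1)).symm
  have ea : ∀ g ∈ G, (FP.ofList (Y.map fun g => (g, f g))).app g = f g := fun g hg =>
    FP.ofList_map hi ((hY.mem g).2 hg)
  rw [e0]
  refine ⟨⟨fun x => ⟨fun hx => ?_, fun hx => ?_⟩, fun x hx y hy => ?_⟩,
    fun a ha => FP.ofList_fix fun p hp => ?_, fun g hg => by rw [ea g hg, (hf g hg).2]⟩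
  · obtain ⟨g, hg, e⟩ := (hc (s⁻¹ * φ' ((FP.ofList (Y.map fun g => (g, f g))).app x) * s)).1
      ⟨_, hx, by simp [mul_assoc]⟩
    have h1 := j' _ (hf g hg).1 _ hx (by rw [(hf g hg).2, e]; simp [mul_assoc])
    rwa [← FP.app_injective _ ((ea g hg).trans h1)]
  · rw [ea x hx]
    exact (hf x hx).1
  · have hxy := mul_mem hx hy
    rw [ea _ hxy, ea x hx, ea y hy]
    refine j' _ (hf _ hxy).1 _ (mul_mem (hf x hx).1 (hf y hy).1) ?_
    rw [m' _ (hf x hx).1 _ (hf y hy).1, (hf _ hxy).2, (hf x hx).2, (hf y hy).2, m x hx y hy]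
    simp [mul_assoc]
  · obtain ⟨x, hx, rfl⟩ := List.mem_map.1 hp
    have hx := (hY.mem x).1 hx
    exact ⟨fun e => ha (.inl (e ▸ hx)), fun e => ha (.inr (e ▸ (hf x hx).1))⟩

end Cjpy

theorem a_CJP (hb : S_BB) : S_CJP ∧ S_BK := ⟨Cjpy.cjp hb, Cjpy.bk⟩

end Pool.Agent.P.MP_f1a348_lc.AL
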