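import Pool.Agent.P.MP_f1a348_lc.AL.Iface

/-!
Project AL: the solver `cover`.
-/

namespace Pool.Agent.P.MP_f1a348_lc.AL

open Pool.Agent.P.MP_f1a348_lc.GI hiding Nm Good

theorem a_COVER : S_COVER := by
  intro Ω _ c m f0 f A Q St X T hc hm hi hX h0 h1 S x hS
  obtain ⟨a1, a2, a3⟩ := sub_spec hc (hS.trans inf_le_left) (fun u hu => hm u (hS hu))
    ((idx_mono hS inf_le_left).trans hi)
  have hS' : gen (sub c m S) ≤ W c ⊓ (A ⊓ Q) := by
    rw [a1]
    exact fun u hu => ⟨(hS hu.1).1, (hS hu.1).2, hu.2⟩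
  have k0 := fun t ht => (h0 _ t hS').2 (hS (a2 t ht)).1 (hS (a2 t ht)).2
  have k1 := (h0 _ 1 hS').1
  rw [a1] at k0 k1
  refine ⟨le_antisymm (gen_le.2 fun g hg => ?_) fun g hg => ?_, fun hx hx' => ?_⟩
  · rcases List.mem_append.1 hg with hg | hg
    · have : g ∈ gen S ⊓ Q ⊓ St := k1 ▸ mem_gen hg
      exact ⟨this.1.1, this.2⟩
    · obtain ⟨t, ht, e⟩ := List.mem_filterMap.1 hg
      obtain ⟨b1, b2⟩ := (k0 t ht).some g e
      exact ⟨by simpa using mul_mem (a2 t ht) b1.1, b2⟩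
  · obtain ⟨t, ht, h3⟩ := a3 g hg.1
    cases e : (f0 (sub c m S) t).2 with
    | none => exact absurd hg.2 ((k0 t ht).none e g h3)
    | some g' =>
      obtain ⟨b1, b2⟩ := (k0 t ht).some g' e
      have h5 : g'⁻¹ * g ∈ gen (f0 (sub c m S) 1).1 := by
        rw [k1]
        exact ⟨by simpa [mul_assoc] using mul_mem (inv_mem b1) h3,
          St.mul_mem (St.inv_mem b2) hg.2⟩
      have h6 : g' ∈ gen (cover c m f0 f S x).1 :=
        mem_gen (List.mem_append_right _ (List.mem_filterMap.2 ⟨t, ht, e⟩))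
      have h7 : g'⁻¹ * g ∈ gen (cover c m f0 f S x).1 :=
        gen_mono (fun y hy => List.mem_append_left _ hy) h5
      simpa using mul_mem h6 h7
  have k2 := fun t ht => (h1 _ (x * t) hS').2 (mul_mem hx (hS (a2 t ht)).1)
    (hX x hx' t (hS (a2 t ht)).2)
  rw [a1] at k2
  refine ⟨fun g hg => ?_, fun hn g hg hT => ?_⟩
  · obtain ⟨t, ht, e⟩ := List.mem_filterMap.1 (List.mem_of_mem_head? hg)
    obtain ⟨b1, b2⟩ := (k2 t ht).some g e
    exact ⟨by simpa [mul_assoc] using mul_mem (a2 t ht) b1.1, b2⟩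
  · obtain ⟨t, ht, h3⟩ := a3 _ hg
    exact (k2 t ht).none (List.filterMap_eq_nil_iff.1 (List.head?_eq_none_iff.1 hn) t ht) g
      (by simpa [mul_assoc] using h3) hT

end Pool.Agent.P.MP_f1a348_lc.AL
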