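import Pool.Agent.P.MP_f1a348_lc.AL.Iface

/-!
Project AL: the common kernel of all atoms is solvable modulo the kernel on `G / F`.
-/

namespace Pool.Agent.P.MP_f1a348_lc.AL

open Pool.Agent.P.MP_f1a348_lc.GI hiding Nm Good
open Pool.Agent.P.MP_f1a348_lc.UP (Rec up topI SolvMod Nm der)
open Pool.Agent.P.MP_f1a348_lc.FA (Cls Sub MaxN)
open Pool.Agent.Lib.Helper47
open scoped commutatorElement Pointwise
open MulAction (stabilizer)

namespace Csolvy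

variable {U : Type} [Group U]

/-- `q` is a homomorphism on `G` with kernel `X` -/
structure Qm (G X : Subgroup U) {Q : Type} [Group Q] (q : U → Q) : Prop where
  mul : ∀ {x y}, x ∈ G → y ∈ G → q (x * y) = q x * q y
  eq : ∀ {x y}, x ∈ G → y ∈ G → (q x = q y ↔ Cg X x y)

theorem exists_qm {G X : Subgroup U} (h : Nm G X) :
    ∃ (Q : Type) (_ : Group Q) (q : U → Q), Qm G X q := by
  classical
  have : (X.subgroupOf G).Normal := ⟨fun k hk g => h g g.2 k hk⟩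
  refine ⟨G ⧸ X.subgroupOf G, inferInstance,
    fun x => if hx : x ∈ G then QuotientGroup.mk ⟨x, hx⟩ else 1, fun {x y} hx hy => ?_,
    fun {x y} hx hy => ?_⟩
  · simp only [dif_pos hx, dif_pos hy, dif_pos (G.mul_mem hx hy)]; rfl
  · simp only [dif_pos hx, dif_pos hy]
    exact QuotientGroup.eq

section qm
variable {G X : Subgroup U} {Q : Type} [Group Q] {q : U → Q} {x y : U}

theorem Qm.one (h : Qm G X q) : q 1 = 1 := by simpa using h.mul G.one_mem G.one_mem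
theorem Qm.inv (h : Qm G X q) (hx : x ∈ G) : q x⁻¹ = (q x)⁻¹ :=
  eq_inv_of_mul_eq_one_left (by rw [← h.mul (G.inv_mem hx) hx, inv_mul_cancel, h.one])
theorem Qm.mem (h : Qm G X q) (hx : x ∈ G) : q x = 1 ↔ x ∈ X := by
  rw [← h.one, eq_comm, h.eq G.one_mem hx, Cg.one_iff]
theorem Qm.conj (h : Qm G X q) (hx : x ∈ G) (hy : y ∈ G) :
    q (x * y * x⁻¹) = q x * q y * (q x)⁻¹ := by
  rw [h.mul (G.mul_mem hx hy) (G.inv_mem hx), h.mul hx hy, h.inv hx]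
theorem com_mem (hx : x ∈ G) (hy : y ∈ G) : ⁅x, y⁆ ∈ G :=
  mul_mem (mul_mem (mul_mem hx hy) (inv_mem hx)) (inv_mem hy)
theorem Qm.com (h : Qm G X q) (hx : x ∈ G) (hy : y ∈ G) : q ⁅x, y⁆ = ⁅q x, q y⁆ := by
  rw [commutatorElement_def, h.mul (mul_mem (mul_mem hx hy) (inv_mem hx)) (inv_mem hy),
    h.conj hx hy, h.inv hy, commutatorElement_def]
theorem Qm.pow (h : Qm G X q) (hx : x ∈ G) (k : ℕ) : q (x ^ k) = q x ^ k := by
  induction k with
  | zero => simpa using h.one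
  | succ k ih => rw [pow_succ, h.mul (pow_mem hx k) hx, ih, pow_succ]
end qm

theorem com_le {Γ : Type} [Group Γ] (H : Subgroup Γ) : ⁅H, H⁆ ≤ H :=
  Subgroup.commutator_le.2 fun _ ha _ hb => com_mem ha hb

theorem der_le {Γ : Type} [Group Γ] (k : ℕ) (H : Subgroup Γ) : der k H ≤ H := by
  induction k with
  | zero => exact le_rfl
  | succ k ih => exact (com_le _).trans ih

theorem nm_norm {G N : Subgroup U} (h : Nm G N) {g : U} (hg : g ∈ G) :
    g ∈ Subgroup.normalizer (N : Set U) := fun k =>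
  ⟨h g hg k, fun hk => by simpa [mul_assoc] using h _ (G.inv_mem hg) _ hk⟩

theorem com_sup {G N Y Y' W : Subgroup U} (h : Nm G N) (hY : Y ≤ G) (hY' : Y' ≤ G)
    (h1 : ⁅Y, W⁆ ≤ N) (h2 : ⁅Y', W⁆ ≤ N) : ⁅Y ⊔ Y', W⁆ ≤ N := by
  rw [Subgroup.commutator_le] at *
  have : Y ⊔ Y' ≤ cenM N W :=
    sup_le (fun y hy => ⟨nm_norm h (hY hy), h1 y hy⟩) fun y hy => ⟨nm_norm h (hY' hy), h2 y hy⟩
  exact fun y hy => (this hy).2

theorem mp_of_inv {H : Subgroup (FP U)} {X : Subgroup U} (h : Inv H X) {s : FP U} (hs : s ∈ H) :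
    Mp s X X := fun x => ⟨fun hx => by simpa using h _ (H.inv_mem hs) _ hx, h s hs x⟩

theorem fx_com {X : Set U} {V : Subgroup U} {s t : FP U} (hs : Mp s X X) (ht : Mp t X X)
    (h : ∀ z ∈ X, Cg V (t.app (s.app z)) (s.app (t.app z))) : ⁅s, t⁆ ∈ Fx X V := by
  refine ⟨((hs.mul ht).mul hs.inv).mul ht.inv, fun x hx => ?_⟩
  simpa [commutatorElement_def] using h _ ((hs.inv _).2 ((ht.inv x).2 hx))

section tg
variable {O : ℕ → Subgroup U} {s t : FP U} {X : Subgroup U} {Q : Type} [Group Q] {q : U → Q}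

theorem tg_mem (hs : s ∈ TG O) {x : U} (hx : x ∈ O 0) : s.app x ∈ O 0 := (hs.2.maps 0 x).2 hx

theorem tg_mul (hs : s ∈ TG O) {x y : U} (hx : x ∈ O 0) (hy : y ∈ O 0) :
    Cg (O 1) (s.app (x * y)) (s.app x * s.app y) := hs.2.mul 0 x hx y hy (.inl hx)

/-- `q ∘ s` is multiplicative -/
theorem qs_mul {W : Subgroup U} (hs : s ∈ TG O) (hq : Qm W X q) (hF : O 1 ≤ X) (hW : W ≤ O 0)
    (hm : Mp s W W) {x y : U} (hx : x ∈ W) (hy : y ∈ W) :
    q (s.app (x * y)) = q (s.app x) * q (s.app y) := by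
  have hx' : s.app x ∈ W := (hm x).2 hx
  have hy' : s.app y ∈ W := (hm y).2 hy
  rw [← hq.mul hx' hy', hq.eq ((hm _).2 (W.mul_mem hx hy)) (W.mul_mem hx' hy')]
  exact (tg_mul hs (hW hx) (hW hy)).mono hF

/-- the computation behind (s1) and (s5) -/
theorem cen_of (hs : s ∈ TG O) (hX : Nm (O 0) X) (hF : O 1 ≤ X) {g x : U} (hg : g ∈ O 0)
    (hx : x ∈ O 0) (h1 : Cg X x (s.app x)) (h2 : Cg X (g * x * g⁻¹) (s.app (g * x * g⁻¹))) :
    ⁅g⁻¹ * s.app g, x⁆ ∈ X := by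
  obtain ⟨Q, _, q, hq⟩ := exists_qm hX
  have hc : g * x * g⁻¹ ∈ O 0 := nm_self _ g hg x hx
  have hg' := tg_mem hs hg
  have hh : g⁻¹ * s.app g ∈ O 0 := mul_mem (inv_mem hg) hg'
  have e := qs_mul hs hq hF le_rfl (hs.2.mp 0) hc hg
  rw [inv_mul_cancel_right, qs_mul hs hq hF le_rfl (hs.2.mp 0) hg hx,
    ← (hq.eq hx (tg_mem hs hx)).2 h1, ← (hq.eq hc (tg_mem hs hc)).2 h2, hq.conj hg hx] at e
  rw [← hq.mem (com_mem hh hx), hq.com hh hx, hq.mul (inv_mem hg) hg', hq.inv hg,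
    commutatorElement_eq_one_iff_mul_comm, mul_assoc, e]
  group

/-- the stabiliser of a series with two steps -/
theorem two_step {Y : Subgroup U} (hF : Nm (O 0) (O 1)) (hX : X ≤ O 0) (hY : Y ≤ X)
    (hYY : ⁅Y, Y⁆ ≤ O 1) : ⁅TG O ⊓ Fx X Y ⊓ Fx Y (O 1), TG O ⊓ Fx X Y ⊓ Fx Y (O 1)⁆ ≤
      Fx X (O 1) := by
  obtain ⟨Q, _, q, hq⟩ := exists_qm hF
  have key : ∀ s ∈ TG O ⊓ Fx X Y ⊓ Fx Y (O 1), ∀ t ∈ TG O ⊓ Fx X Y ⊓ Fx Y (O 1), ∀ z ∈ X,
      q (t.app (s.app z)) = q (t.app z) * q (z⁻¹ * s.app z) := fun s hs t ht z hz => by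
    have hy : z⁻¹ * s.app z ∈ Y := hs.1.2.2 z hz
    have hy' := hX (hY hy)
    rw [(hq.eq hy' (tg_mem ht.1.1 hy')).2 (ht.2.2 _ hy),
      ← qs_mul ht.1.1 hq le_rfl le_rfl (ht.1.1.2.mp 0) (hX hz) hy', mul_inv_cancel_left]
  refine Subgroup.commutator_le.2 fun s hs t ht => fx_com hs.1.2.1 ht.1.2.1 fun z hz => ?_
  have hz' := hX hz
  have hy : z⁻¹ * s.app z ∈ Y := hs.1.2.2 z hz
  have hy' : z⁻¹ * t.app z ∈ Y := ht.1.2.2 z hz
  have e := (hq.mem (com_mem (hX (hY hy)) (hX (hY hy')))).2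
    (hYY (Subgroup.commutator_mem_commutator hy hy'))
  rw [hq.com (hX (hY hy)) (hX (hY hy')), commutatorElement_eq_one_iff_mul_comm] at e
  rw [← hq.eq (tg_mem ht.1.1 (tg_mem hs.1.1 hz')) (tg_mem hs.1.1 (tg_mem ht.1.1 hz')),
    key s hs t ht z hz, key t ht s hs z hz, ← mul_inv_cancel_left z (t.app z),
    ← mul_inv_cancel_left z (s.app z), hq.mul hz' (hX (hY hy)), hq.mul hz' (hX (hY hy')),
    mul_inv_cancel_left, mul_inv_cancel_left, mul_assoc, mul_assoc, e]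

/-- on a cyclic section every element acts as a power map -/
theorem cyc {Z : Subgroup U} (hs : s ∈ TG O) (hq : Qm Z X q) (hF : O 1 ≤ X) (hZ : Z ≤ O 0)
    (hm : Mp s Z Z) (hm' : Mp s X X) {z0 : U} (h0 : z0 ∈ Z)
    (hc : ∀ z ∈ Z, ∃ k : ℕ, Cg X (z0 ^ k) z) : ∃ a : ℕ, ∀ z ∈ Z, q (s.app z) = q z ^ a := by
  obtain ⟨a, ha⟩ := hc _ ((hm z0).2 h0)
  rw [← hq.eq (pow_mem h0 a) ((hm z0).2 h0), hq.pow h0] at ha
  have h1 : ∀ k : ℕ, q (s.app (z0 ^ k)) = (q z0 ^ k) ^ a := fun k => by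
    induction k with
    | zero => simpa using (hq.mem ((hm 1).2 Z.one_mem)).2 ((hm' 1).2 X.one_mem)
    | succ k ih =>
      rw [pow_succ, qs_mul hs hq hF hZ hm (pow_mem h0 k) h0, ih, ← ha, ← pow_mul, ← pow_mul,
        ← pow_add, add_one_mul]
  refine ⟨a, fun z hz => ?_⟩
  obtain ⟨k, hk⟩ := hc z hz
  have hy : (z0 ^ k)⁻¹ * z ∈ Z := mul_mem (inv_mem (pow_mem h0 k)) hz
  have e := qs_mul hs hq hF hZ hm (pow_mem h0 k) hy
  rw [mul_inv_cancel_left, h1, (hq.mem ((hm _).2 hy)).2 ((hm' _).2 hk), mul_one] at e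
  rw [e, ← (hq.eq (pow_mem h0 k) hz).2 hk, hq.pow h0]
end tg

/-- the preimage of the image of `Y` -/
def pb {G X : Subgroup U} {Q : Type} [Group Q] {q : U → Q} (h : Qm G X q) (Y : Subgroup U)
    (hY : Y ≤ G) : Subgroup U where
  carrier := {x | x ∈ G ∧ ∃ y ∈ Y, q y = q x}
  one_mem' := ⟨one_mem _, 1, one_mem _, rfl⟩
  mul_mem' := fun ⟨ha, y, hy, e⟩ ⟨hb, y', hy', e'⟩ => ⟨mul_mem ha hb, y * y', mul_mem hy hy', by
    rw [h.mul (hY hy) (hY hy'), h.mul ha hb, e, e']⟩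
  inv_mem' := fun ⟨ha, y, hy, e⟩ => ⟨inv_mem ha, y⁻¹, inv_mem hy, by
    rw [h.inv (hY hy), h.inv ha, e]⟩

end Csolvy

open Csolvy in
theorem a_CSOLV (ha : S_C2A) (hc : S_C2C) (hj : S_CJ) : S_CSOLV := by
  intro U _ G O r p R TT Z A d n cx
  have ha := ha U G O r p R TT Z A d n cx
  have hc := hc U G O r p R TT Z A d n cx
  obtain ⟨j1, j2, j3, j4, j5, -⟩ := hj U G O r p cx.ser
  obtain ⟨ser, -, rd, za⟩ := cx
  obtain rfl := ser.zero
  have nF := ser.nml 1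
  have FG : O 1 ≤ O 0 := ser.anti 0
  have AG : A ≤ O 0 := za.AR.trans rd.le
  have ZG : Z ≤ O 0 := za.le.trans AG
  have FA : O 1 ≤ A := za.FZ.trans za.le
  have FR : O 1 ≤ R := FA.trans za.AR
  have nZ := j2 Z ZG za.iZ
  have nA := j2 A AG za.iA
  have iF : Inv (TG O) (O 1) := fun s hs x hx => (hs.2.maps 1 x).2 hx
  have iC := j5 (O 1) A le_rfl FG AG iF za.iA
  have iI : ∀ X, X ≤ O 0 → Inv (TG O) X → Inv (TG O) (X ⊓ cenM (O 1) A) :=
    fun X hX h s hs x hx => ⟨h s hs x hx.1, (iC s hs x ⟨hX hx.1, hx.2⟩).2⟩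
  have za' : ⁅Z, A⁆ ≤ O 1 := by rw [Subgroup.commutator_comm]; exact za.az
  have ZC : Z ≤ cenM (O 1) A := fun z hz =>
    ⟨nm_norm nF (ZG hz), fun v hv => za' (Subgroup.commutator_mem_commutator hz hv)⟩
  have cA : A ⊓ cenM (O 1) A ≤ Z := za.mZ _ (le_inf za.le ZC) (inf_le_left.trans za.AR)
    (iI A AG za.iA) (Subgroup.commutator_le.2 fun x hx y hy => hx.2.2 y hy.1)
  have cR : R ⊓ cenM (O 1) A ≤ Z := by
    by_contra hn
    obtain ⟨Q, _, q, hq⟩ := exists_qm nF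
    have dG : ∀ i, der i R ≤ O 0 := fun i => (der_le i R).trans rd.le
    have : ∀ i, ∃ X, X ≤ R ⊓ cenM (O 1) A ∧ Inv (TG O) X ∧ X ≤ pb hq (der i R) (dG i) ∧
        ¬ X ≤ Z := fun i => by
      induction i with
      | zero => exact ⟨_, le_rfl, iI R rd.le rd.inv, fun x hx => ⟨rd.le hx.1, x, hx.1, rfl⟩, hn⟩
      | succ i ih =>
        obtain ⟨X, h1, h2, h3, h4⟩ := ih
        have XR : X ≤ R := h1.trans inf_le_left
        have XG := XR.trans rd.le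
        have XA : ⁅X, A⁆ ≤ O 1 := Subgroup.commutator_le.2 fun x hx => (h1 hx).2.2
        refine ⟨O 1 ⊔ ⁅X, X⁆, sup_le (le_inf FR (za.FZ.trans ZC)) ((com_le X).trans h1),
          j4 X X XG XG h2 h2, sup_le (fun x hx => ⟨FG hx, 1, one_mem _, ?_⟩)
          (Subgroup.commutator_le.2 fun x hx x' hx' => ?_), fun h5 => h4 ?_⟩
        · rw [hq.one, (hq.mem (FG hx)).2 hx]
        · obtain ⟨-, y, hy, e⟩ := h3 hx
          obtain ⟨-, y', hy', e'⟩ := h3 hx'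
          exact ⟨com_mem (XG hx) (XG hx'), ⁅y, y'⁆, Subgroup.commutator_mem_commutator hy hy', by
            rw [hq.com (dG i hy) (dG i hy'), hq.com (XG hx) (XG hx'), e, e']⟩
        · have : A ⊔ X ≤ A := by
            refine za.mA _ le_sup_left (sup_le za.AR XR) (j3 A X FA AG XG za.iA h2)
              (com_sup nF AG XG za.az ((Subgroup.commutator_mono le_rfl za.le).trans XA))
              (com_sup nZ AG XG ?_ ?_) <;> rw [Subgroup.commutator_comm]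
            · exact com_sup nZ AG XG za.aa (XA.trans za.FZ)
            · refine com_sup nZ AG XG ?_ (le_sup_right.trans h5)
              rw [Subgroup.commutator_comm]; exact XA.trans za.FZ
          exact (le_inf (le_sup_right.trans this) (h1.trans inf_le_right)).trans cA
    obtain ⟨k, hk⟩ := rd.solv
    obtain ⟨X, -, -, h3, h4⟩ := this k
    refine h4 fun x hx => za.FZ ?_
    obtain ⟨hx, y, hy, e⟩ := h3 hx
    rw [← hq.mem hx, ← e, Subgroup.mem_bot.1 (hk hy), hq.one]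
  generalize hD : (TG O ⊓ ⨅ t ∈ Atm O R TT Z A, KA t) = D
  have DT : D ≤ TG O := hD ▸ inf_le_left
  have DK : ∀ s ∈ D, ∀ t ∈ Atm O R TT Z A, s ∈ KA t := fun s hs => by
    subst hD; simpa only [Subgroup.mem_iInf] using (Subgroup.mem_inf.1 hs).2
  have s1 : D ≤ Fx (O 0) R := fun s hs => by
    refine ⟨(DT hs).2.mp 0, fun g hg => rd.faith _ (mul_mem (inv_mem hg) (tg_mem (DT hs) hg))
      fun T hT t ht => ?_⟩
    obtain ⟨c, hc, e⟩ := j1 g hg
    obtain ⟨T', hT', hm⟩ := rd.aut c hc T hT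
    have tG := (rd.sub T hT).1 ht
    exact cen_of (DT hs) rd.nml FR hg tG ((DK s hs _ (.inl ⟨T, hT, rfl⟩)).2.2 t ht)
      ((DK s hs _ (.inl ⟨T', hT', rfl⟩)).2.2 _ (e t tG ▸ (hm t).2 ht))
  have s2 : ⁅D, D⁆ ≤ Fx Z (O 1) := Subgroup.commutator_le.2 fun s hs t ht => by
    have ms := mp_of_inv za.iZ (DT hs)
    have mt := mp_of_inv za.iZ (DT ht)
    refine fx_com ms mt fun z hz => ?_
    have h1 : t.app (s.app z) ∈ Z := (mt _).2 ((ms z).2 hz)
    have h2 : s.app (t.app z) ∈ Z := (ms _).2 ((mt z).2 hz)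
    refine ha _ (mul_mem (inv_mem h1) h2) fun B hB => ?_
    have FB : O 1 ≤ B := by
      obtain ⟨j, hj, v, hv, rfl⟩ := hB
      refine le_inf za.FZ fun x hx => ⟨nm_norm (ser.nml _) (FG hx), fun w hw => ?_⟩
      rw [Set.mem_singleton_iff.1 hw]; exact ser.cen j hj x hx v hv.1
    have BZ : B ≤ Z := by obtain ⟨j, hj, v, hv, rfl⟩ := hB; exact inf_le_left
    have nB : Nm Z B := fun g hg k hk => by
      simpa [commutatorElement_def] using
        mul_mem (FB (za.zz (Subgroup.commutator_mem_commutator hg (BZ hk)))) hk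
    have mB : ∀ u ∈ D, Mp u B B := fun u hu =>
      smul_eq_iff_mp.1 (congrArg (·.2.2) (DK u hu _ (.inr ⟨B, hB, rfl⟩)).1)
    obtain ⟨Q, _, q, hq⟩ := exists_qm nB
    obtain ⟨z0, h0, hz0⟩ := hc B hB
    obtain ⟨a, ea⟩ := cyc (DT hs) hq FB ZG ms (mB s hs) h0 hz0
    obtain ⟨b, eb⟩ := cyc (DT ht) hq FB ZG mt (mB t ht) h0 hz0
    refine (hq.eq h1 h2).1 ?_
    rw [eb _ ((ms z).2 hz), ea _ ((mt z).2 hz), ea z hz, eb z hz, ← pow_mul, ← pow_mul, mul_comm]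
  have s3 : D ≤ Fx A Z := fun s hs => by
    have ms := mp_of_inv za.iA (DT hs)
    refine ⟨ms, fun a ha' => ?_⟩
    have hh : a⁻¹ * s.app a ∈ A := mul_mem (inv_mem ha') ((ms a).2 ha')
    exact cA ⟨hh, nm_norm nF (AG hh), fun v hv =>
      ha _ (za.aa (Subgroup.commutator_mem_commutator hh hv)) fun B hB =>
        ((DK s hs _ (.inr ⟨B, hB, rfl⟩)).2.2 a ha').2.2 v hv⟩
  have l1 : ⁅D, D⁆ ≤ TG O ⊓ Fx A Z ⊓ Fx Z (O 1) := le_inf ((com_le D).trans (le_inf DT s3)) s2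
  have s4 : der 2 D ≤ Fx A (O 1) :=
    (Subgroup.commutator_mono l1 l1).trans (two_step nF AG za.le za.zz)
  have s5 : der 2 D ≤ Fx (O 0) Z := fun s hs => by
    have hD := der_le 2 D hs
    refine ⟨(s1 hD).1, fun g hg => cR ⟨(s1 hD).2 g hg,
      nm_norm nF (mul_mem (inv_mem hg) (tg_mem (DT hD) hg)), fun v hv => ?_⟩⟩
    exact cen_of (DT hD) nF le_rfl hg (AG hv) ((s4 hs).2 v hv) ((s4 hs).2 _ (nA g hg v hv))
  have l2 : der 2 D ≤ TG O ⊓ Fx (O 0) Z ⊓ Fx Z (O 1) :=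
    le_inf (le_inf ((der_le 2 D).trans DT) s5) ((com_le _).trans s2)
  exact (Subgroup.commutator_mono l2 l2).trans (two_step nF le_rfl ZG za.zz)

end Pool.Agent.P.MP_f1a348_lc.AL
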