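import Pool.Agent.P.MP_f1a348_lc.AL.Iface

/-!
Project AL: the step down to the quotient by the first term of the series.
-/

namespace Pool.Agent.P.MP_f1a348_lc.AL

open Pool.Agent.P.MP_f1a348_lc.GI hiding Nm Good
open Pool.Agent.P.MP_f1a348_lc.UP (Rec up topI SolvMod Nm der)
open Pool.Agent.P.MP_f1a348_lc.FA (Cls Sub MaxN)
open Pool.Agent.Lib.Helper47
open scoped commutatorElement Pointwise
open MulAction (stabilizer)

namespace Downy

variable {U : Type} [Group U] {G F Q : Subgroup U} {O : ℕ → Subgroup U} {r : ℕ} {p : ℕ → ℕ}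
  {π : U → U}

/-- the quotient map as a homomorphism -/
def hom (h : Qt G F Q π) : G →* U := MonoidHom.mk' (fun x => π x) fun x y => h.mul x x.2 y y.2

theorem card_eq (h : Qt G F Q π) (hF : F ≤ G) : Nat.card G = Nat.card Q * Nat.card F := by
  have e1 : (hom h).range = Q := Subgroup.ext fun q =>
    ⟨fun ⟨x, e⟩ => e ▸ h.maps x x.2, fun hq => (h.onto q hq).elim fun x e => ⟨⟨x, e.1⟩, e.2⟩⟩
  have e2 : (hom h).ker = F.subgroupOf G := Subgroup.ext fun x => h.ker x x.2
  rw [Subgroup.card_eq_card_quotient_mul_card_subgroup (hom h).ker,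
    Nat.card_congr (QuotientGroup.quotientKerEquivRange (hom h)).toEquiv, e1, e2,
    Nat.card_congr (Subgroup.subgroupOfEquivOfLe hF).toEquiv]

theorem bot_of_na (h : Ser G O r p) (hN : NA G) : O 1 = ⊥ := by
  have : ∀ m j, 1 ≤ j → r ≤ j + m → O j = ⊥ := by
    intro m
    induction m with
    | zero => exact fun j _ hj => h.bot j hj
    | succ m ih =>
      intro j h1 hj
      refine hN _ (h.leG j) (h.nml j) fun x hx y hy => ?_
      have := h.cen j h1 x (h.le h1 hx) y hy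
      rw [ih (j + 1) (by omega) (by omega), Subgroup.mem_bot] at this
      exact commutatorElement_eq_one_iff_mul_comm.1 this
  exact this r 1 le_rfl (by omega)

theorem na_of_bot (h : Ser G O r p) (e : O 1 = ⊥) : NA G := fun A hA hn hc => by
  refine le_bot_iff.1 fun k hk => e ▸ h.faith A hA hn ⟨1, ?_⟩ k hk fun j hj y hy => ?_
  · exact Subgroup.commutator_le.2 fun x hx y hy =>
      Subgroup.mem_bot.2 (commutatorElement_eq_one_iff_mul_comm.2 (hc x hx y hy))
  · have := h.le hj hy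
    rw [e, Subgroup.mem_bot] at this
    simp [this]

theorem na_image (h : Qt G ⊥ Q π) (hN : NA G) : NA Q := fun A hA hn hc => by
  have hP : ∀ x, x ∈ (A.comap (hom h)).map G.subtype ↔ x ∈ G ∧ π x ∈ A := fun x =>
    ⟨fun ⟨y, hy, e⟩ => e ▸ ⟨y.2, hy⟩, fun hx => ⟨⟨x, hx.1⟩, hx.2, rfl⟩⟩
  have hb := hN ((A.comap (hom h)).map G.subtype) (fun x hx => ((hP x).1 hx).1)
    (fun g hg x hx => by
      rw [hP] at hx ⊢
      refine ⟨mul_mem (mul_mem hg hx.1) (inv_mem hg), ?_⟩
      rw [h.mul _ (mul_mem hg hx.1) _ (inv_mem hg), h.mul _ hg _ hx.1, h.inv hg]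
      exact hn _ (h.maps g hg) _ hx.2)
    (fun x hx y hy => by
      rw [hP] at hx hy
      have := (h.eq_iff (mul_mem hx.1 hy.1) (mul_mem hy.1 hx.1)).1 (by
        rw [h.mul _ hx.1 _ hy.1, h.mul _ hy.1 _ hx.1, hc _ hx.2 _ hy.2])
      exact inv_mul_eq_one.1 (Subgroup.mem_bot.1 this))
  refine le_bot_iff.1 fun a ha => ?_
  obtain ⟨x, hx, rfl⟩ := h.onto a (hA ha)
  exact (h.ker x hx).2 (hb ▸ (hP x).2 ⟨hx, ha⟩)

end Downy

open Downy in
theorem a_DOWN : S_DOWN := by
  intro U _ G Q O r p π h hq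
  have hc := card_eq hq (h.leG 1)
  have := h.fin
  refine ⟨⟨_, hc⟩, fun hN => na_image (bot_of_na h hN ▸ hq) hN, fun hN => ?_,
    fun d hd => hd.image π hq.mul fun w => ⟨hq.onto w, fun ⟨x, hx, e⟩ => e ▸ hq.maps x hx⟩,
    fun j hj => ?_⟩
  · have : Finite (O 1) := Finite.of_injective _ (Subgroup.inclusion_injective (h.leG 1))
    have h1 : 1 < Nat.card (O 1) :=
      (Subgroup.one_lt_card_iff_ne_bot _).2 fun e => hN (na_of_bot h e)
    have h2 : 0 < Nat.card G := Nat.card_pos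
    rw [hc] at h2 ⊢
    exact lt_mul_of_one_lt_right (Nat.pos_of_mul_pos_right h2) h1
  · rcases h.pr j hj with e | ⟨hp, e⟩
    · exact .inl e
    refine (em (p j ∣ Nat.card G)).symm.imp (fun hd x hx => ?_) fun hd => ⟨hp, hd⟩
    obtain ⟨m, hm⟩ := exists_pow_eq_self_of_coprime (((Nat.Prime.coprime_iff_not_dvd hp).2
      hd).coprime_dvd_right (G.orderOf_dvd_natCard (h.leG j hx)))
    exact hm ▸ pow_mem (e x hx) m

end Pool.Agent.P.MP_f1a348_lc.AL
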