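import Pool.Agent.P.MP_f1a348_lc.AL.Iface

/-!
Project AL: dynamic programming over subsets.
-/

namespace Pool.Agent.P.MP_f1a348_lc.AL

open Pool.Agent.P.MP_f1a348_lc.GI hiding Nm Good

namespace Dpy

variable {Ω : Type}

theorem mem_subl {pad : List Unit} {I y : List ℕ} (hI : I.Nodup) (hp : 2 ^ I.length ≤ pad.length)
    (h : y.Sublist I) : y ∈ subl pad I := by
  have h1 : y.Sublist (I.filter fun a => decide (a ∈ y)) := by
    have := h.filter fun a => decide (a ∈ y)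
    rwa [List.filter_eq_self.2 fun a ha => decide_eq_true ha] at this
  have h2 : (I.filter fun a => decide (a ∈ y)).length ≤ y.length :=
    (List.subperm_of_subset (hI.filter _) fun a ha =>
      of_decide_eq_true (List.mem_filter.1 ha).2).length_le
  rw [h1.eq_of_length_le h2]
  exact subl_complete hp _

theorem look_map {L : List (List ℕ)} (f : List ℕ → Option (FP Ω)) {y : List ℕ} (h : y ∈ L) :
    look (L.map fun y => (y, f y)) y = f y := by
  induction L with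
  | nil => simp at h
  | cons a L ih =>
    by_cases e : a = y
    · subst e; simp [look]
    · have := ih ((List.mem_cons.1 h).resolve_left (Ne.symm e))
      simpa [look, List.find?_cons, e] using this

theorem base {K A : Subgroup (FP Ω)} {X : Set (FP Ω)} {T : List ℕ → Set (FP Ω)} {x : FP Ω}
    (hK : K ≤ A) (hc : Cl A X) (hx : x ∈ X) (hT : ∀ g ∈ X, ∀ y, g ∈ T y ↔ y = []) (y : List ℕ) :
    TOk K x (T y) (look [([], some x)] y) := by
  cases y with
  | nil =>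
    have e : look [([], some x)] [] = some x := by simp [look]
    rw [e]
    refine ⟨fun g hg => ?_, fun hn => by simp at hn⟩
    obtain rfl := Option.some.inj hg
    exact ⟨by simp, (hT _ hx _).2 rfl⟩
  | cons a y =>
    have e : look [([], some x)] (a :: y) = none := by simp [look]
    rw [e]
    refine ⟨fun g hg => by simp at hg, fun _ g hg h => ?_⟩
    have h1 : g ∈ X := by simpa using hc x hx _ (hK hg)
    simpa using (hT g h1 _).1 h

section row
variable {c : Cx Ω} {o : ℕ → List ℕ → ℕ → Sv Ω} {k : ℕ} {K A St St' : Subgroup (FP Ω)}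
  {X T' : Set (FP Ω)} {T : List ℕ → Set (FP Ω)} {S : List (FP Ω)} {tb : Tb Ω} {x : FP Ω}
  {y : List ℕ}

theorem call (hK : K ≤ W c ⊓ A) (hS : gen S = K ⊓ St) (hc : Cl A X) (hw : x ∈ W c) (hx : x ∈ X)
    {T0 : Set (FP Ω)} {f : Sv Ω} (hg : Good c f (A ⊓ St) (X ∩ T0) St' T') {h : FP Ω}
    (h1 : x⁻¹ * h ∈ K) (h2 : h ∈ T0) : h ∈ X ∧ TOk (gen S) h T' (f S h).2 := by
  have h3 : h ∈ X := by simpa using hc x hx _ (hK h1).2
  have h4 : h ∈ W c := by simpa using mul_mem hw (hK h1).1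
  refine ⟨h3, (hg S h ?_).2 h4 ⟨h3, h2⟩⟩
  rw [hS]
  exact fun u hu => ⟨(hK hu.1).1, (hK hu.1).2, hu.2⟩

theorem sound (hK : K ≤ W c ⊓ A) (hS : gen S = K ⊓ St) (hc : Cl A X) (hw : x ∈ W c) (hx : x ∈ X)
    (ht : ∀ b ∈ y, TOk K x (T (del y b)) (look tb (del y b)))
    (hg : ∀ b ∈ y, Good c (o k y b) (A ⊓ St) (X ∩ T (del y b)) St' T') {g : FP Ω}
    (h : g ∈ dpE o k S tb y) : x⁻¹ * g ∈ K ∧ g ∈ T' := by
  obtain ⟨b, hb, h1⟩ := List.mem_filterMap.1 h
  obtain ⟨t, h2, h3⟩ := Option.bind_eq_some_iff.1 h1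
  obtain ⟨h4, h5⟩ := (ht b hb).some t h2
  obtain ⟨h6, h7⟩ := (call hK hS hc hw hx (hg b hb) h4 h5).2.some g h3
  rw [hS] at h6
  exact ⟨by simpa [mul_assoc] using mul_mem h4 h6.1, h7⟩

theorem complete (hK : K ≤ W c ⊓ A) (hS : gen S = K ⊓ St) (hc : Cl A X) (hw : x ∈ W c)
    (hx : x ∈ X) (ht : ∀ b ∈ y, TOk K x (T (del y b)) (look tb (del y b)))
    (hg : ∀ b ∈ y, Good c (o k y b) (A ⊓ St) (X ∩ T (del y b)) St' T')
    (hr : ∀ y, Rc A X St (T y)) (hh : ∀ g ∈ X, g ∈ T' → ∃ b ∈ y, g ∈ T (del y b)) {g : FP Ω}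
    (h1 : x⁻¹ * g ∈ K) (h2 : g ∈ T') : ∃ g' ∈ dpE o k S tb y, g'⁻¹ * g ∈ K ⊓ St := by
  obtain ⟨b, hb, h3⟩ := hh g (by simpa using hc x hx _ (hK h1).2) h2
  cases h4 : look tb (del y b) with
  | none => exact absurd h3 ((ht b hb).none h4 g h1)
  | some t =>
    obtain ⟨h5, h6⟩ := (ht b hb).some t h4
    obtain ⟨h7, h8⟩ := call hK hS hc hw hx (hg b hb) h5 h6
    have h9 : t⁻¹ * g ∈ K := by simpa [mul_assoc] using mul_mem (inv_mem h5) h1
    have h10 : t⁻¹ * g ∈ gen S := by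
      rw [hS]
      exact ⟨h9, (hr _ t h7 h6 _ (hK h9).2).1 (by simpa using h3)⟩
    cases h11 : (o k y b S t).2 with
    | none => exact absurd h2 (h8.none h11 g h10)
    | some g' =>
      refine ⟨g', List.mem_filterMap.2 ⟨b, hb, by rw [h4]; exact h11⟩, ?_⟩
      rw [← hS]
      simpa [mul_assoc] using mul_mem (inv_mem (h8.some g' h11).1) h10

end row

variable [DecidableEq Ω]

theorem row {c : Cx Ω} {o : ℕ → List ℕ → ℕ → Sv Ω} {k r : ℕ} {K A St St' : Subgroup (FP Ω)}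
    {X : Set (FP Ω)} {T T' : List ℕ → Set (FP Ω)} {S : List (FP Ω)} {tb : Tb Ω} {x : FP Ω}
    (hp : 2 ^ r ≤ c.1.length) (hK : K ≤ W c ⊓ A) (hS : gen S = K ⊓ St) (hc : Cl A X)
    (hw : x ∈ W c) (hx : x ∈ X)
    (ht : ∀ y, y.Sublist (List.range r) → TOk K x (T y) (look tb y))
    (hr : ∀ y, Rc A X St (T y))
    (hg : ∀ y, y.Sublist (List.range r) → (∀ g ∈ X, g ∈ T' y → ∃ b ∈ y, g ∈ T (del y b)) ∧
      ∀ b ∈ y, Good c (o k y b) (A ⊓ St) (X ∩ T (del y b)) St' (T' y))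
    (y : List ℕ) (hy : y.Sublist (List.range r)) :
    TOk K x (T' y) (look (dpRow c o k S tb (List.range r)) y) := by
  have ht' : ∀ b ∈ y, TOk K x (T (del y b)) (look tb (del y b)) := fun b _ =>
    ht _ (List.filter_sublist.trans hy)
  rw [dpRow, look_map _ (mem_subl List.nodup_range (by simpa using hp) hy)]
  refine ⟨fun g h => ?_, fun h g h1 h2 => ?_⟩
  · obtain ⟨g', h1, rfl⟩ := Option.map_eq_some_iff.1 h
    obtain ⟨h2, h3⟩ := sound hK hS hc hw hx ht' (hg y hy).2 (List.mem_of_head? h1)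
    rw [cl_eq (by simpa using mul_mem hw (hK h2).1)]
    exact ⟨h2, h3⟩
  · obtain ⟨g', h3, -⟩ := complete hK hS hc hw hx ht' (hg y hy).2 hr (hg y hy).1 h1 h2
    rw [List.head?_eq_none_iff.1 (Option.map_eq_none_iff.1 h)] at h3
    simp at h3

theorem gens {c : Cx Ω} {o : ℕ → List ℕ → ℕ → Sv Ω} {k b : ℕ} {K A St St' : Subgroup (FP Ω)}
    {T' : Set (FP Ω)} {T : List ℕ → Set (FP Ω)} {S : List (FP Ω)} {tb : Tb Ω} {y : List ℕ}
    (hc : COk c) (hK : K ≤ W c ⊓ A) (hS : gen S = K ⊓ St) (hb : b ∈ y)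
    (ht : ∀ b ∈ y, TOk K 1 (T (del y b)) (look tb (del y b)))
    (hg : ∀ b ∈ y, Good c (o k y b) (A ⊓ St) (A ∩ T (del y b)) St' T')
    (hr : ∀ y, Rc A A St (T y)) (hh : ∀ g ∈ A, g ∈ T' → ∃ b ∈ y, g ∈ T (del y b))
    (hT : ∀ u ∈ A, u ∈ St' ↔ u ∈ T') :
    gen (red c ((o k y b S 1).1 ++ dpE o k S tb y)) = K ⊓ St' := by
  have h1 : gen (o k y b S 1).1 = K ⊓ St ⊓ St' := by
    rw [← hS]
    refine (hg b hb S 1 ?_).1
    rw [hS]
    exact fun u hu => ⟨(hK hu.1).1, (hK hu.1).2, hu.2⟩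
  have h2 : ∀ g ∈ dpE o k S tb y, g ∈ K ⊓ St' := fun g h => by
    obtain ⟨h3, h4⟩ := sound hK hS (cl_self A) (one_mem _) A.one_mem ht hg h
    have h5 : g ∈ K := by simpa using h3
    exact ⟨h5, (hT g (hK h5).2).2 h4⟩
  have h3 : gen ((o k y b S 1).1 ++ dpE o k S tb y) = K ⊓ St' := by
    rw [gen_append, h1]
    refine le_antisymm (sup_le (fun u hu => ⟨hu.1.1, hu.2⟩) (gen_le.2 h2)) fun g h => ?_
    obtain ⟨g', h4, h5⟩ := complete hK hS (cl_self A) (one_mem _) A.one_mem ht hg hr hh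
      (g := g) (by simpa using h.1) ((hT g (hK h.1).2).1 h.2)
    have h6 : g'⁻¹ * g ∈ K ⊓ St ⊓ St' := ⟨h5, St'.mul_mem (St'.inv_mem (h2 g' h4).2) h.2⟩
    simpa using mul_mem (Subgroup.mem_sup_right (mem_gen h4)) (Subgroup.mem_sup_left h6)
  rw [gen_red hc (h3 ▸ inf_le_left.trans (hK.trans inf_le_left)), h3]

end Dpy

theorem a_DP : S_DP := by
  intro Ω _ c o0 o r r' A X St T0 T hc hr hr' hX hSt h00 h0 hR hG0 hG S x hS
  have hA : gen S ≤ A := hS.trans inf_le_right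
  have key : ∀ k ≤ r, ∀ s, s = (List.range k).foldl
      (dpStep c o0 o (List.range r) (List.range r'))
      (red c S, [([], some 1)], [([], some (cl c x))]) → gen s.1 = gen S ⊓ St k ∧
      (∀ y, y.Sublist (List.range r) → TOk (gen S) 1 (T0 k y) (look s.2.1 y)) ∧
      (x ∈ W c → x ∈ X → ∀ y, y.Sublist (List.range r') →
        TOk (gen S) x (T k y) (look s.2.2 y)) := by
    intro k
    induction k with
    | zero =>
      rintro hk s rfl
      refine ⟨?_, fun y _ => Dpy.base hA (cl_self A) A.one_mem h00 y, fun hw hx y _ => ?_⟩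
      · refine (gen_red hc (hS.trans inf_le_left)).trans (inf_eq_left.2 fun u hu => ?_).symm
        exact (hSt 0 hk u (hA hu)).2 ((h00 u (hA hu) _).2 rfl)
      · rw [cl_eq hw]
        exact Dpy.base hA hX hx h0 y
    | succ k ih =>
      rintro hk s rfl
      obtain ⟨a1, a2, a3⟩ := ih (by omega) _ rfl
      rw [List.range_succ, List.foldl_append, List.foldl_cons, List.foldl_nil]
      have e : (List.range r).take (k + 1) = List.range (k + 1) := by
        rw [List.take_range, Nat.min_eq_left hk]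
      have hy : (List.range (k + 1)).Sublist (List.range r) := List.range_sublist.2 hk
      refine ⟨?_, Dpy.row hr hS a1 (cl_self A) (one_mem _) A.one_mem a2 (fun y => (hR k y).1)
        (hG0 k hk), fun hw hx => Dpy.row hr' hS a1 hX hw hx (a3 hw hx) (fun y => (hR k y).2)
        (hG k hk)⟩
      simp only [dpStep, e]
      exact Dpy.gens hc hS a1 (List.mem_range.2 (Nat.lt_succ_self k))
        (fun b _ => a2 _ (List.filter_sublist.trans hy)) (hG0 k hk _ hy).2 (fun y => (hR k y).1)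
        (hG0 k hk _ hy).1 (hSt _ hk)
  obtain ⟨a1, -, a3⟩ := key r le_rfl _ rfl
  exact ⟨a1, fun hw hx => a3 hw hx _ (List.Sublist.refl _)⟩

end Pool.Agent.P.MP_f1a348_lc.AL
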