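import Pool.Agent.P.MP_f1a348_lc.AL.Iface

/-!
Project AL: a graph on a part of a layer extends to the layer.
-/

namespace Pool.Agent.P.MP_f1a348_lc.AL

open Pool.Agent.P.MP_f1a348_lc.GI hiding Nm Good
open Pool.Agent.P.MP_f1a348_lc.UP (Rec up topI SolvMod Nm der)
open Pool.Agent.P.MP_f1a348_lc.FA (Cls Sub MaxN)
open Pool.Agent.Lib.Helper47
open scoped commutatorElement Pointwise
open MulAction (stabilizer)

namespace Exty

variable {U : Type} [Group U] {y y' : Ly U} {a : FP U}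

/-- the first projection of the normal closure -/
theorem fst_ncl (h : y.Ok) (h' : y'.Ok) (ha : IsoP y.Q y'.Q a) {V : Subgroup (U × U)}
    {W : Subgroup U} (hV : ∀ x, (∃ p ∈ V, p.1 = x) ↔ x ∈ W) (v u x : U) :
    (∃ p ∈ ncl (y.Pr y' a) V (v, u), p.1 = x) ↔ x ∈ ncl y.G W v := by
  constructor
  · rintro ⟨p, hp, rfl⟩
    have : ncl (y.Pr y' a) V (v, u) ≤ (ncl (y.G : Set U) W v).comap (MonoidHom.fst U U) := by
      refine ncl_le.2 ⟨fun q hq => ?_, fun q hq => ?_⟩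
      · exact le_ncl (G := (y.G : Set U)) (g := v) ((hV q.1).1 ⟨q, hq, rfl⟩)
      · exact conj_mem_ncl (G := (y.G : Set U)) (M := W) (g := v) (x := q.1) hq.1
    exact this hp
  · intro hx
    have : ncl (y.G : Set U) W v ≤ (ncl (y.Pr y' a) V (v, u)).map (MonoidHom.fst U U) := by
      refine ncl_le.2 ⟨fun z hz => ?_, fun g hg => ?_⟩
      · obtain ⟨q, hq, e⟩ := (hV z).2 hz
        exact ⟨q, le_ncl (G := y.Pr y' a) (g := (v, u)) hq, e⟩
      · obtain ⟨g', hg'⟩ := Ly.pr_right h h' ha hg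
        exact ⟨_, conj_mem_ncl (M := V) (g := (v, u)) hg', rfl⟩
    exact this hx

end Exty

open Exty in
theorem a_EXT (h1 : S_T1P) (h7 : S_T7) : S_EXT := by
  intro U _ _ l l' y y' a Vl V vs ws vs' hl hl' h h' ha
  obtain ⟨-, r1, r2, -⟩ := h1 U l l' y y' a hl hl' h h' ha
  induction ws generalizing vs Vl V with
  | nil =>
    intro s s' t g rep fst
    exact ⟨V, rep, le_rfl, (h7 U y y' a V vs [] vs' h h' ha s s' t g fst).1 rfl⟩
  | cons v ws ih =>
    intro s s' t g rep fst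
    have hv : v ∈ y.L := (s.1.min v (by simp)).1
    obtain ⟨u0, hu0, g0⟩ := (h7 U y y' a V vs _ vs' h h' ha s s' t g fst).2 v ws rfl
    have rp := fun u (hu : u ∈ y'.L) => r1 Vl V (v, u) rep g.le ⟨hv, hu⟩
    cases e : (l'.2.2.2.map fun u => grP l l' a Vl (v, u)).find? (grB l l') with
    | none =>
      exact absurd ((r2 _ _ (rp u0 hu0)).2 g0.ker)
        (List.find?_eq_none.1 e _ (List.mem_map_of_mem ((hl'.L.mem u0).2 hu0)))
    | some W =>
      obtain ⟨u, hu, rfl⟩ := List.mem_map.1 (List.mem_of_find?_eq_some e)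
      have hu := (hl'.L.mem u).1 hu
      obtain ⟨c1, c2, c3, -⟩ := Ly.gr_ncl h h' ha (p := (v, u)) g.le g.ge g.nm ⟨hv, hu⟩
      have e1 : vs ++ v :: ws = vs ++ [v] ++ ws := by simp
      obtain ⟨V', k1, k2, k3⟩ := ih _ _ (vs ++ [v]) (e1 ▸ s) s' (e1 ▸ t)
        ⟨c1, c2, (r2 _ _ (rp u hu)).1 (List.find?_some e), c3⟩ (rp u hu) fun x => by
          rw [fst_ncl h h' ha fst, Ly.Sp, Ly.Sp, List.foldl_append]; rfl
      refine ⟨V', ?_, le_ncl.trans k2, k3⟩
      rw [extP, List.foldl_cons, e]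
      exact k1

end Pool.Agent.P.MP_f1a348_lc.AL
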