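import Pool.Agent.P.MP_f1a348_lc.AL.Iface

/-!
Project AL: a nilpotent normal subgroup is generated by elements of the groups `Op`.
-/

namespace Pool.Agent.P.MP_f1a348_lc.AL

open Pool.Agent.P.MP_f1a348_lc.GI hiding Nm Good
open Pool.Agent.P.MP_f1a348_lc.UP (Rec up topI SolvMod Nm der)
open scoped commutatorElement Pointwise

namespace Fity

theorem mem_syl {K : Type} [Group K] [Finite K] [Group.IsNilpotent K] {q : ℕ} [Fact q.Prime]
    (P : Sylow q K) {x : K} {k : ℕ} (h : x ^ q ^ k = 1) : x ∈ (P : Subgroup K) := by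
  have hn := Sylow.normal_of_normalizerCondition Group.normalizerCondition_of_isNilpotent P
  have := Sylow.unique_of_normal P hn
  have hz : IsPGroup q (Subgroup.zpowers x) := by
    rintro ⟨_, j, rfl⟩
    refine ⟨k, Subtype.ext ?_⟩
    show (x ^ j) ^ q ^ k = 1
    rw [← zpow_natCast, ← zpow_mul, mul_comm, zpow_mul, zpow_natCast, h, one_zpow]
  obtain ⟨Q, hQ⟩ := hz.exists_le_sylow
  rw [Subsingleton.elim P Q]
  exact hQ (Subgroup.mem_zpowers x)

end Fity

theorem a_FIT : S_FIT := by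
  intro U _ G K _ hK hn _
  have : Finite K := Finite.of_injective _ (Subgroup.inclusion_injective hK)
  rw [← Subgroup.subgroupOf_eq_top, ← Subgroup.index_eq_one, Nat.eq_one_iff_not_exists_prime_dvd]
  intro q hq hd
  have := Fact.mk hq
  obtain ⟨P⟩ : Nonempty (Sylow q K) := inferInstance
  refine P.not_dvd_index (hd.trans (Subgroup.index_dvd_of_le fun x hx => ?_))
  refine Subgroup.subset_closure ⟨q, hK x.2, hq, ?_⟩
  have nm : Nm G ((P : Subgroup K).map K.subtype) := by
    rintro g hg _ ⟨y, hy, rfl⟩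
    obtain ⟨k, hk⟩ := P.isPGroup' ⟨y, hy⟩
    refine ⟨⟨g * y * g⁻¹, hn g hg y y.2⟩, Fity.mem_syl P (k := k) (Subtype.ext ?_), rfl⟩
    have e : (y : U) ^ q ^ k = 1 := congrArg (fun z : P.1 => ((z : K) : U)) hk
    show (g * y * g⁻¹) ^ q ^ k = 1
    rw [conj_pow, e, mul_one, mul_inv_cancel]
  exact (P.isPGroup'.map K.subtype).to_le (ncl_le_of_nm nm bot_le ⟨x, hx, rfl⟩)

end Pool.Agent.P.MP_f1a348_lc.AL
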