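import Pool.Agent.P.MP_f1a348_lc.AL.Iface

/-!
Project AL: the generators `genB` account for the action on the layers.
-/

namespace Pool.Agent.P.MP_f1a348_lc.AL

open Pool.Agent.P.MP_f1a348_lc.GI hiding Nm Good
open Pool.Agent.P.MP_f1a348_lc.UP (Rec up topI SolvMod Nm der)
open scoped commutatorElement Pointwise

namespace Genby

variable {U : Type} [Group U]

theorem fst_ncl {y y' : Ly U} {a : FP U} (h : y.Ok) (h' : y'.Ok) (ha : IsoP y.Q y'.Q a)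
    (V : Subgroup (U × U)) (p : U × U) :
    (ncl (y.Pr y' a) V p).map (MonoidHom.fst U U) = ncl y.G (V.map (MonoidHom.fst U U)) p.1 := by
  refine le_antisymm (Subgroup.map_le_iff_le_comap.2 (ncl_le.2 ⟨fun q hq => ?_, fun q hq => ?_⟩))
    (ncl_le.2 ⟨Subgroup.map_mono le_ncl, fun g hg => ?_⟩)
  · exact le_ncl (Subgroup.mem_map_of_mem _ hq)
  · exact conj_mem_ncl hq.1
  · obtain ⟨g', e⟩ := Ly.pr_right h h' ha hg
    exact ⟨_, conj_mem_ncl e, rfl⟩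

variable [DecidableEq U]

theorem fold (h1 : S_T1P) {l l' : LP U} {y y' : Ly U} {a : FP U} (r : LRep l y) (r' : LRep l' y')
    (h : y.Ok) (h' : y'.Ok) (ha : IsoP y.Q y'.Q a) {X : Subgroup (U × U)} (hX : y.Gr y' a X)
    (ps : List (U × U)) (hp : ∀ p ∈ ps, p ∈ X) {Vl : List (U × U)} {V : Subgroup (U × U)}
    (hr : Rep Vl V) (hle : V ≤ X) (hV : y.Gr y' a V) :
    ∃ V', Rep (ps.foldl (grP l l' a) Vl) V' ∧ V ≤ V' ∧ y.Gr y' a V' ∧ (∀ p ∈ ps, p ∈ V') ∧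
      V'.map (MonoidHom.fst U U) = y.Sp (V.map (MonoidHom.fst U U)) (ps.map Prod.fst) := by
  induction ps generalizing Vl V with
  | nil => exact ⟨V, hr, le_rfl, hV, by simp, rfl⟩
  | cons p ps ih =>
    have p1 := hp p List.mem_cons_self
    obtain ⟨a1, a2, a3, a4⟩ := Ly.gr_ncl h h' ha hV.le hV.ge hV.nm (hX.le p1)
    have le : ncl (y.Pr y' a) V p ≤ X := ncl_le.2 ⟨hle, fun q hq => hX.nm q hq p p1⟩
    obtain ⟨V', b1, b2, b3, b4, b5⟩ := ih (fun q hq => hp q (List.mem_cons_of_mem _ hq))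
      ((h1 U l l' y y' a r r' h h' ha).2.1 Vl V p hr hV.le (hX.le p1)) le
      ⟨a1, a2, fun q hq => hX.ker q (le hq), a3⟩
    refine ⟨V', b1, le_ncl.trans b2, b3, List.forall_mem_cons.2 ⟨b2 a4, b4⟩, ?_⟩
    rw [b5, fst_ncl h h' ha]; rfl

variable {s : SP U} {Ql : List U} {G Q : Subgroup U} {O : ℕ → Subgroup U} {r n : ℕ} {p : ℕ → ℕ}
  {H : Subgroup (FP U)}

theorem vh (hg : S_TGR) (x : SX s Ql G Q O r p n) {h : FP U} (h1 : h ∈ TG O)
    (h2 : h ∈ Fx G (O 1)) {j : ℕ} (hj : 1 ≤ j) :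
    ∃ V, (lyr O Q (ap s.2) j).Full (lyr O Q (ap s.2) j) 1 V ∧
      ∀ q, q ∈ V ↔ q.1 ∈ O j ∧ q.2 ∈ O j ∧ Cg (O (j + 1)) (h.app q.1) q.2 :=
  (hg U G G Q Q O O r r p p _ _ h x.ser x.ser x.qt x.qt h1.2).2.2 1
    (fun g hg => (x.qt.eq_iff ((h2.1 g).2 hg) hg).2 (h2.2 g hg).symm) j hj

theorem one (h1 : S_T1P) (h2 : S_EXT) (h5 : S_T5) (hb : S_LIFTB) (hg : S_TGR)
    (x : SX s Ql G Q O r p n) (hH : ∀ g ∈ genB s, g ∈ TG O → g ∈ H) {j : ℕ} (hj : j ∈ lays s.1)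
    {k : ℕ} (hk : k < (sumP (lyP s j)).length) {h : FP U} (a1 : h ∈ TG O) (a2 : h ∈ Fx G (O 1))
    (a3 : ∀ v ∈ (sumP (lyP s j)).take k, Cg (O (j + 1)) v (h.app v)) :
    ∃ b ∈ H ⊓ TG O, (∀ i, i ≠ j → b ∈ Fx (O i) (O (i + 1))) ∧
      ∀ v ∈ (sumP (lyP s j)).take (k + 1), Cg (O (j + 1)) v ((b⁻¹ * h).app v) := by
  have j1 := (mem_lays.1 hj).1
  have ok := x.ser.ok x.qt j1
  have lr := x.lrep j
  have sm := (h5 U _ _ lr ok).1
  have iso : IsoP Q Q 1 := .refl Q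
  obtain ⟨X, X1, X2⟩ := vh hg x a1 a2 j1
  have mem : ∀ v ∈ sumP (lyP s j), v ∈ O j := fun v hv => (sm.1.min v hv).1
  have e0 : (sumP (lyP s j)).getD k 1 = (sumP (lyP s j))[k] := List.getD_eq_getElem _ _ hk
  have mk : (sumP (lyP s j)).getD k 1 ∈ O j := e0 ▸ mem _ (List.getElem_mem hk)
  have et : (sumP (lyP s j)).take (k + 1) =
      (sumP (lyP s j)).take k ++ [(sumP (lyP s j)).getD k 1] := by
    rw [e0, List.take_succ_eq_append_getElem hk]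
  generalize hv : (sumP (lyP s j)).getD k 1 = v at mk et
  have mu : h.app v ∈ O j := (a1.2.maps j v).2 mk
  have g0 : (lyr O Q (ap s.2) j).Gr (lyr O Q (ap s.2) j) 1 ((O (j + 1)).prod (O (j + 1))) :=
    ⟨Subgroup.prod_mono ok.OL ok.OL, le_rfl, fun q hq => iff_of_true hq.1 hq.2, Ly.nm_bot ok ok⟩
  obtain ⟨V, b1, -, b3, b4, b5⟩ := fold h1 lr lr ok ok iso X1.gr
    (((sumP (lyP s j)).take k).map (fun v => (v, v)) ++ [(v, h.app v)]) (fun q hq => by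
      rcases List.mem_append.1 hq with hq | hq
      · obtain ⟨w, hw, rfl⟩ := List.mem_map.1 hq
        have := mem w (List.mem_of_mem_take hw)
        exact (X2 _).2 ⟨this, this, (a3 w hw).symm⟩
      · obtain rfl := List.mem_singleton.1 hq
        exact (X2 _).2 ⟨mk, mu, Cg.refl _⟩) (lr.O.prod lr.O) X1.gr.ge g0
  have ef : ((lyr O Q (ap s.2) j).O.prod (lyr O Q (ap s.2) j).O).map (MonoidHom.fst U U) =
      (lyr O Q (ap s.2) j).O :=
    le_antisymm (Subgroup.map_le_iff_le_comap.2 fun q hq => hq.1) fun z hz =>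
      ⟨(z, 1), ⟨hz, one_mem _⟩, rfl⟩
  have em : (((sumP (lyP s j)).take k).map (fun v => (v, v)) ++ [(v, h.app v)]).map Prod.fst =
      (sumP (lyP s j)).take (k + 1) := by
    rw [et]; simp [Function.comp_def]
  rw [ef, em] at b5
  obtain ⟨V', c1, c2, c3⟩ := h2 U _ _ _ _ 1 _ V ((sumP (lyP s j)).take (k + 1))
    ((sumP (lyP s j)).drop (k + 1)) (sumP (lyP s j)) lr lr ok ok iso
    (by rwa [List.take_append_drop]) sm
    (by rw [List.take_append_drop]; simp [PTr, Function.comp_def]) b3 b1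
    (fun z => by
      change z ∈ V.map (MonoidHom.fst U U) ↔ _
      rw [b5])
  have c1' : Rep (grK (lyP s j) k (h.app v)) V' := by rw [grK, hv]; exact c1
  obtain ⟨d1, d2, d3⟩ := hb U s Ql G Q O r n p j _ V' x hj c1' c3
  refine ⟨_, ⟨hH _ ?_ d1, d1⟩, d2, fun w hw => ?_⟩
  · exact List.mem_flatMap.2 ⟨j, hj, List.mem_flatMap.2 ⟨k, List.mem_range.2 hk,
      List.mem_map.2 ⟨_, ((x.rep j).mem _).2 mu, rfl⟩⟩⟩
  · generalize liftB s.1 j (grK (lyP s j) k (h.app v)) = b at d1 d2 d3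
    have mw := mem w (List.mem_of_mem_take hw)
    have key : ∀ z, (w, z) ∈ V → Cg (O (j + 1)) (b.app w) z := fun z hz =>
      (c3.gr.ker _ (V'.mul_mem (V'.inv_mem (d3 w mw)) (c2 hz))).1 (by simp)
    have k2 : Cg (O (j + 1)) (b.app w) (h.app w) := by
      rw [et] at hw
      rcases List.mem_append.1 hw with hw | hw
      · exact (key w (b4 _ (List.mem_append_left _ (List.mem_map.2 ⟨w, hw, rfl⟩)))).trans
          (a3 w hw)
      · obtain rfl := List.mem_singleton.1 hw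
        exact key _ (b4 _ (List.mem_append_right _ (List.mem_singleton.2 rfl)))
    have m0 : w ∈ O 0 := x.ser.le (Nat.zero_le j) mw
    have := (d1.2.inv.pv (j + 1) _ ((d1.2.maps 0 w).2 m0) _ ((a1.2.maps 0 w).2 m0)).2 k2
    rwa [FP.app_inv_app] at this

theorem layer (h1 : S_T1P) (h2 : S_EXT) (h5 : S_T5) (hb : S_LIFTB) (hg : S_TGR)
    (x : SX s Ql G Q O r p n) (hH : ∀ g ∈ genB s, g ∈ TG O → g ∈ H) {j : ℕ} (j1 : 1 ≤ j)
    {h : FP U} (a1 : h ∈ TG O) (a2 : h ∈ Fx G (O 1)) :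
    ∃ b ∈ H ⊓ TG O, (∀ i, i ≠ j → b ∈ Fx (O i) (O (i + 1))) ∧
      b⁻¹ * h ∈ Fx (O j) (O (j + 1)) := by
  by_cases hj : j ∈ lays s.1
  swap
  · have e : O j = ⊥ := x.ser.bot j (by
      rw [mem_lays, x.len] at hj
      omega)
    refine ⟨1, one_mem _, fun _ _ => one_mem _, ?_⟩
    rw [inv_one, one_mul]
    exact ⟨a1.2.mp j, fun z hz => (e.le.trans bot_le : O j ≤ O (j + 1))
      (mul_mem (inv_mem hz) ((a1.2.maps j z).2 hz))⟩
  have fx : ∀ b : FP U, (∀ i, i ≠ j → b ∈ Fx (O i) (O (i + 1))) → b⁻¹ * h ∈ Fx G (O 1) :=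
    fun b e => mul_mem (inv_mem (x.ser.zero ▸ e 0 (by omega))) a2
  have main : ∀ k ≤ (sumP (lyP s j)).length, ∃ b ∈ H ⊓ TG O,
      (∀ i, i ≠ j → b ∈ Fx (O i) (O (i + 1))) ∧
      ∀ v ∈ (sumP (lyP s j)).take k, Cg (O (j + 1)) v ((b⁻¹ * h).app v) := fun k => by
    induction k with
    | zero => exact fun _ => ⟨1, one_mem _, fun _ _ => one_mem _, by simp⟩
    | succ k ih =>
      intro hk
      obtain ⟨b, b1, b2, b3⟩ := ih (by omega)
      obtain ⟨c, c1, c2, c3⟩ := one h1 h2 h5 hb hg x hH hj hk (mul_mem (inv_mem b1.2) a1)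
        (fx b b2) b3
      refine ⟨b * c, mul_mem b1 c1, fun i hi => mul_mem (b2 i hi) (c2 i hi), ?_⟩
      rwa [mul_inv_rev, mul_assoc]
  obtain ⟨b, b1, b2, b3⟩ := main _ le_rfl
  rw [List.take_length] at b3
  have t : b⁻¹ * h ∈ TG O := (TG O).mul_mem ((TG O).inv_mem b1.2) a1
  obtain ⟨X, X1, X2⟩ := vh hg x t (fx b b2) j1
  have ok := x.ser.ok x.qt j1
  have sm := (h5 U _ _ (x.lrep j) ok).1
  have le : O j ≤ X.comap ((MonoidHom.id U).prod (MonoidHom.id U)) :=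
    sm.2.ge.trans (Ly.Sp_le.2 ⟨fun z hz => X1.gr.ge ⟨hz, hz⟩, fun v hv g hg =>
      X1.gr.nm (g, g) ⟨hg, hg, rfl⟩ (v, v)
        ((X2 _).2 ⟨(sm.1.min v hv).1, (sm.1.min v hv).1, (b3 v hv).symm⟩)⟩)
  exact ⟨b, b1, b2, t.2.mp j, fun z hz => ((X2 _).1 (le hz)).2.2.symm⟩

end Genby

open Genby in
theorem a_GENB (h1 : S_T1P) (h2 : S_EXT) (h5 : S_T5) (hb : S_LIFTB) (hg : S_TGR) : S_GENB := by
  intro U _ _ s Ql G Q O r n p H x hH h a1 a2
  have main : ∀ j, ∃ b ∈ H ⊓ TG O, ∀ i ≤ j, b⁻¹ * h ∈ Fx (O i) (O (i + 1)) := fun j => by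
    induction j with
    | zero =>
      refine ⟨1, one_mem _, fun i hi => ?_⟩
      obtain rfl := Nat.le_zero.1 hi
      rwa [inv_one, one_mul, x.ser.zero]
    | succ j ih =>
      obtain ⟨b, b1, b2⟩ := ih
      obtain ⟨c, c1, c2, c3⟩ := layer h1 h2 h5 hb hg x hH (Nat.succ_pos j)
        (mul_mem (inv_mem b1.2) a1) (x.ser.zero ▸ b2 0 (Nat.zero_le j))
      refine ⟨b * c, mul_mem b1 c1, fun i hi => ?_⟩
      rw [mul_inv_rev, mul_assoc]
      rcases Nat.lt_or_eq_of_le hi with hi | rfl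
      · exact mul_mem (inv_mem (c2 i hi.ne)) (b2 i (by omega))
      · exact c3
  obtain ⟨b, b1, b2⟩ := main r
  refine ⟨b, b1, fun j => ?_⟩
  rcases le_or_gt j r with hj | hj
  · exact b2 j hj
  · have t : b⁻¹ * h ∈ TG O := (TG O).mul_mem ((TG O).inv_mem b1.2) a1
    exact ⟨t.2.mp j, fun z hz => ((x.ser.bot j hj.le).le.trans bot_le : O j ≤ O (j + 1))
      (mul_mem (inv_mem hz) ((t.2.maps j z).2 hz))⟩

end Pool.Agent.P.MP_f1a348_lc.AL
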