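import Pool.Agent.P.MP_f1a348_lc.AL.Iface

/-!
Project AL: generators of the group of permutations of the atoms.
-/

namespace Pool.Agent.P.MP_f1a348_lc.AL

open Pool.Agent.P.MP_f1a348_lc.GI hiding Nm Good
open Pool.Agent.P.MP_f1a348_lc.UP (Rec up topI SolvMod Nm der)
open Pool.Agent.P.MP_f1a348_lc.FA (Cls Sub MaxN)
open Pool.Agent.Lib.Helper47
open scoped commutatorElement Pointwise
open MulAction (stabilizer)

namespace Ggy
variable {U : Type} [Group U] {A B : Subgroup U} {s τ : FP U}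

theorem iso_of_eq (h : IsoP A B s) (e : ∀ x ∈ A, τ.app x = s.app x) : IsoP A B τ :=
  h.congr (fun x => ⟨fun hx => by
    obtain ⟨y, hy, e1⟩ := h.mp.surj hx
    rwa [← τ.app_injective ((e y hy).trans e1)], fun hx => by
    rw [e x hx]; exact (h.maps x).2 hx⟩) e

/-- the graph of an isomorphism is generated by the pairs of the generators -/
theorem mem_graph (h : IsoP A B s) {xs : List U} (hx : gen xs = A) (p : U × U) :
    p ∈ gen (xs.zip (xs.map s.app)) ↔ p.1 ∈ A ∧ p.2 = s.app p.1 := by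
  rw [← List.map_prod_left_eq_zip]
  constructor
  · intro hp
    induction hp using Subgroup.closure_induction with
    | mem q hq =>
      obtain ⟨x, hx', rfl⟩ := List.mem_map.1 hq
      exact ⟨hx ▸ mem_gen hx', rfl⟩
    | one => exact ⟨one_mem _, h.hm.one.symm⟩
    | mul q r _ _ h1 h2 =>
      exact ⟨mul_mem h1.1 h2.1, by
        rw [Prod.fst_mul, Prod.snd_mul, h.hm _ h1.1 _ h2.1, h1.2, h2.2]⟩
    | inv q _ h1 => exact ⟨inv_mem h1.1, by rw [Prod.fst_inv, Prod.snd_inv, h.hm.inv h1.1, h1.2]⟩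
  · obtain ⟨x, y⟩ := p
    rintro ⟨h1, h2⟩
    dsimp only at h1 h2
    subst hx h2
    induction h1 using Subgroup.closure_induction with
    | mem q hq => exact mem_gen (List.mem_map_of_mem (f := fun x => (x, s.app x)) hq)
    | one => rw [h.hm.one]; exact one_mem _
    | mul q r hq hr h1 h2 => rw [h.hm _ hq _ hr]; exact mul_mem h1 h2
    | inv q hq h1 => rw [h.hm.inv hq]; exact inv_mem h1

variable [DecidableEq U] {a b : List U}

theorem mem_clo (ha : Rep a A) (hb : Rep b B) (h : IsoP A B s) {xs : List U} (hx : gen xs = A)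
    (p : U × U) : p ∈ clo (prodL a b) (xs.zip (xs.map s.app)) ↔ p.1 ∈ A ∧ p.2 = s.app p.1 := by
  rw [(clo_rep (ha.prod hb) fun g hg => ?_).mem, mem_graph h hx]
  obtain ⟨h1, h2⟩ := (mem_graph h hx g).1 (mem_gen hg)
  exact ⟨h1, h2 ▸ (h.maps _).2 h1⟩

/-- the values of `tauP` -/
theorem tau_spec (ha : Rep a A) (hb : Rep b B) (h : IsoP A B s) {xs : List U} (hx : gen xs = A)
    (hd : a ≠ b → A ⊓ B = ⊥) :
    (∀ x ∈ A, (tauP a b xs (xs.map s.app)).app x = s.app x) ∧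
    (a ≠ b → ∀ x ∈ B, (tauP a b xs (xs.map s.app)).app x = s⁻¹.app x) ∧
    ∀ x, x ∉ A → x ∉ B → (tauP a b xs (xs.map s.app)).app x = x := by
  have hm : ∀ p : U × U, p ∈ clo (prodL a b) (xs.zip (xs.map s.app)) ++
      (bif a == b then [] else (clo (prodL a b) (xs.zip (xs.map s.app))).map fun p => (p.2, p.1)) ↔
      (p.1 ∈ A ∧ p.2 = s.app p.1) ∨ (a ≠ b ∧ p.2 ∈ A ∧ p.1 = s.app p.2) := fun p => by
    rw [List.mem_append, mem_clo ha hb h hx]
    refine or_congr_right ?_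
    cases e : a == b
    · have e' : a ≠ b := by simpa using e
      simp only [cond_false, List.mem_map, mem_clo ha hb h hx]
      exact ⟨fun ⟨q, hq, e1⟩ => e1 ▸ ⟨e', hq⟩, fun hq => ⟨(p.2, p.1), hq.2, rfl⟩⟩
    · have e' : a = b := by simpa using e
      simp [e']
  have key : ∀ {x y : U}, a ≠ b → x ∈ A → y ∈ A → x = s.app y → x = 1 ∧ y = 1 :=
    fun {x y} e hx hy e1 => by
      have h1 : x = 1 := Subgroup.mem_bot.1 (hd e ▸ (⟨hx, e1 ▸ (h.maps _).2 hy⟩ : x ∈ A ⊓ B))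
      exact ⟨h1, s.app_injective (by rw [← e1, h1, h.hm.one])⟩
  have inj := fun p hp => FP.ofList_app (p := p) (fun p hp q hq => by
    rcases (hm p).1 hp with ⟨p1, p2⟩ | ⟨e, p1, p2⟩ <;>
      rcases (hm q).1 hq with ⟨q1, q2⟩ | ⟨e, q1, q2⟩
    · rw [p2, q2]; exact s.app_injective.eq_iff.symm
    · refine ⟨fun e1 => ?_, fun e1 => ?_⟩
      · obtain ⟨h1, h2⟩ := key e p1 q1 (e1.trans q2)
        rw [p2, h1, h2, h.hm.one]
      · obtain ⟨h1, h2⟩ := key e q1 p1 (e1.symm.trans p2)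
        rw [q2, h1, h2, h.hm.one]
    · refine ⟨fun e1 => ?_, fun e1 => ?_⟩
      · obtain ⟨h1, h2⟩ := key e q1 p1 (e1.symm.trans p2)
        rw [q2, h1, h2, h.hm.one]
      · obtain ⟨h1, h2⟩ := key e p1 q1 (e1.trans q2)
        rw [p2, h1, h2, h.hm.one]
    · rw [p2, q2]; exact s.app_injective.eq_iff) ((hm p).2 hp)
  refine ⟨fun x hx => inj (x, s.app x) (.inl ⟨hx, rfl⟩), fun e x hx => inj (x, s⁻¹.app x)
    (.inr ⟨e, (h.inv.maps x).2 hx, (FP.app_app_inv s x).symm⟩), fun x h1 h2 => ?_⟩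
  refine FP.ofList_fix fun p hp => ?_
  rcases (hm p).1 hp with ⟨p1, p2⟩ | ⟨-, p1, p2⟩
  · exact ⟨fun e => h1 (e ▸ p1), fun e => h2 (e ▸ p2 ▸ (h.maps _).2 p1)⟩
  · exact ⟨fun e => h2 (e ▸ p2 ▸ (h.maps _).2 p1), fun e => h1 (e ▸ p1)⟩

variable {c : Cx U} {Ts : List (List U)} {D : Subgroup U} {T : ℕ → Subgroup U} {t d : ℕ}

omit [DecidableEq U] in
theorem mem_Ts {a : List U} : a ∈ Ts ↔ ∃ i < Ts.length, gO Ts i = a := by
  rw [List.mem_iff_getElem]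
  exact ⟨fun ⟨i, hi, e⟩ => ⟨i, hi, (List.getD_eq_getElem _ _ hi).trans e⟩,
    fun ⟨i, hi, e⟩ => ⟨i, hi, (List.getD_eq_getElem _ _ hi).symm.trans e⟩⟩

theorem ggB_iff (h : BX c Ts D T t d) : ggB Ts s = true ↔
    (∀ i < t, ∃ k < t, IsoP (T i) (T k) s) ∧ ∀ k < t, ∃ i < t, IsoP (T i) (T k) s := by
  simp only [ggB, Bool.and_eq_true, List.all_eq_true, List.any_eq_true, mem_Ts, h.len]
  refine and_congr ⟨fun H i hi => ?_, ?_⟩ ⟨fun H i hi => ?_, ?_⟩
  · obtain ⟨_, ⟨k, hk, rfl⟩, e⟩ := H _ ⟨i, hi, rfl⟩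
    exact ⟨k, hk, (isoB_iff (h.rep i hi) (h.rep k hk)).1 e⟩
  · rintro H _ ⟨i, hi, rfl⟩
    obtain ⟨k, hk, e⟩ := H i hi
    exact ⟨_, ⟨k, hk, rfl⟩, (isoB_iff (h.rep i hi) (h.rep k hk)).2 e⟩
  · obtain ⟨_, ⟨k, hk, rfl⟩, e⟩ := H _ ⟨i, hi, rfl⟩
    exact ⟨k, hk, (isoB_iff (h.rep k hk) (h.rep i hi)).1 e⟩
  · rintro H _ ⟨i, hi, rfl⟩
    obtain ⟨k, hk, e⟩ := H i hi
    exact ⟨_, ⟨k, hk, rfl⟩, (isoB_iff (h.rep k hk) (h.rep i hi)).2 e⟩

theorem short (h : BX c Ts D T t d) {i : ℕ} (hi : i < t) : (gO Ts i).length ^ d ≤ c.1.length := by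
  have := h.atm.fin
  rw [← (h.rep i hi).card]
  exact ((Nat.pow_le_pow_left (Subgroup.card_le_of_le (h.atm.le i hi)) _).trans
    (Nat.pow_le_pow_right Nat.card_pos (by omega))).trans h.pad

/-- a generator that agrees with a given isomorphism between two atoms -/
theorem exists_tau (h : BX c Ts D T t d) {i k : ℕ} (hi : i < t) (hk : k < t)
    (hs : IsoP (T i) (T k) s) {ud : List Unit} (hu : ud.length = d) :
    ∃ q ∈ prodL (tuples c.1 (gO Ts i) ud) (tuples c.1 (gO Ts k) ud),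
      tauP (gO Ts i) (gO Ts k) q.1 q.2 ∈ GG T t ∧
      (∀ x ∈ T i, (tauP (gO Ts i) (gO Ts k) q.1 q.2).app x = s.app x) ∧
      ∀ m < t, m ≠ i → m ≠ k → ∀ x ∈ T m, (tauP (gO Ts i) (gO Ts k) q.1 q.2).app x = x := by
  obtain ⟨l, hl, e⟩ := h.atm.gen i hi
  obtain ⟨xs, x1, x2, x3⟩ := exists_pad l 1 hl
  have hx : gen xs = T i := le_antisymm (gen_le.2 fun x hx => (x3 x hx).elim
    (fun h1 => e ▸ mem_gen h1) fun h1 => h1 ▸ one_mem _) (e ▸ gen_mono x2)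
  have hne : i ≠ k → gO Ts i ≠ gO Ts k := fun hik e1 => h.atm.ne i hi (by
    rw [← h.atm.dis i hi k hk hik, ← (h.rep i hi).unique (W := T k) (e1 ▸ h.rep k hk), inf_idem])
  obtain ⟨t1, t2, t3⟩ := tau_spec (h.rep i hi) (h.rep k hk) hs hx
    fun e1 => h.atm.dis i hi k hk fun e2 => e1 (by rw [e2])
  have t4 : ∀ m < t, m ≠ i → m ≠ k → ∀ x ∈ T m,
      (tauP (gO Ts i) (gO Ts k) xs (xs.map s.app)).app x = x := fun m hm h1 h2 x hx => by
    by_cases e1 : x = 1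
    · rw [e1, t1 1 (one_mem _), hs.hm.one]
    · exact t3 x
        (fun h3 => e1 (Subgroup.mem_bot.1 (h.atm.dis m hm i hi h1 ▸ (⟨hx, h3⟩ : x ∈ T m ⊓ T i))))
        (fun h3 => e1 (Subgroup.mem_bot.1 (h.atm.dis m hm k hk h2 ▸ (⟨hx, h3⟩ : x ∈ T m ⊓ T k))))
  have i1 := iso_of_eq hs t1
  have i2 := fun hik => iso_of_eq hs.inv (t2 (hne hik))
  have i3 := fun m hm h1 h2 => iso_of_eq (IsoP.refl (T m)) (t4 m hm h1 h2)
  refine ⟨(xs, xs.map s.app), mem_prodL.2 ⟨tuples_complete (hu ▸ short h hi) (x1.trans hu.symm)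
    fun x h1 => ((h.rep i hi).mem x).2 (hx ▸ mem_gen h1), tuples_complete (hu ▸ short h hk)
    ((List.length_map _).trans (x1.trans hu.symm)) fun y h1 => ?_⟩,
    ⟨fun x h1 => t3 x (fun h2 => h1 ⟨i, hi, h2⟩) fun h2 => h1 ⟨k, hk, h2⟩, fun m hm => ?_,
      fun m hm => ?_⟩, t1, t4⟩
  · obtain ⟨x, h2, rfl⟩ := List.mem_map.1 h1
    exact ((h.rep k hk).mem _).2 ((hs.maps x).2 (hx ▸ mem_gen h2))
  · by_cases h1 : m = i
    · exact ⟨k, hk, h1 ▸ i1⟩
    · by_cases h2 : m = k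
      · exact ⟨i, hi, h2 ▸ i2 fun e1 => h1 (h2.trans e1.symm)⟩
      · exact ⟨m, hm, i3 m hm h1 h2⟩
  · by_cases h2 : m = k
    · exact ⟨i, hi, h2 ▸ i1⟩
    · by_cases h1 : m = i
      · exact ⟨k, hk, h1 ▸ i2 fun e1 => h2 (h1.trans e1)⟩
      · exact ⟨m, hm, i3 m hm h1 h2⟩

omit [DecidableEq U] in
/-- stripping -/
theorem strip (h : At D T t d) {H : Subgroup (FP U)}
    (hH : ∀ s, ∀ i < t, ∀ k < t, IsoP (T i) (T k) s → ∃ τ ∈ H, τ ∈ GG T t ∧
      (∀ x ∈ T i, τ.app x = s.app x) ∧ ∀ m < t, m ≠ i → m ≠ k → ∀ x ∈ T m, τ.app x = x) :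
    GG T t ≤ H := by
  have key : ∀ n a, a + n = t → ∀ s ∈ GG T t, (∀ m < a, ∀ x ∈ T m, s.app x = x) → s ∈ H := by
    intro n
    induction n with
    | zero =>
      intro a ha s hs hf
      rw [show s = 1 from FP.ext fun x => ?_]
      · exact one_mem _
      · by_cases hx : x ∈ Om T t
        · obtain ⟨m, hm, h1⟩ := hx
          exact hf m (by omega) x h1
        · exact hs.1 x hx
    | succ n ih =>
      intro a ha s hs hf
      have hat : a < t := by omega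
      obtain ⟨b, hb, hi⟩ := hs.2.1 a hat
      have hab : a ≤ b := by
        by_contra h1
        refine h.ne b hb ?_
        rw [← h.dis b hb a hat (by omega), eq_comm, inf_eq_left]
        exact fun x hx => (hi.maps x).1 (by rwa [hf b (by omega) x hx])
      obtain ⟨τ, h1, h2, h3, h4⟩ := hH s a hat b hb hi
      have := ih (a + 1) (by omega) (τ⁻¹ * s) (mul_mem (inv_mem h2) hs) fun m hm x hx => by
        refine τ.app_injective ?_
        rw [FP.app_mul, FP.app_app_inv]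
        by_cases e : m = a
        · exact (h3 x (e ▸ hx)).symm
        · rw [hf m (by omega) x hx, h4 m (by omega) e (by omega) x hx]
      simpa using mul_mem h1 this
  exact fun s hs => key t 0 (by omega) s hs fun m hm => absurd hm (Nat.not_lt_zero m)

end Ggy

theorem a_GG (hb : S_BB) : S_GG := by
  intro U _ _ c Ts D T t d h ud hu
  obtain ⟨b1, b2, -⟩ := hb U c Ts D T t d h
  have hW : W c = Sup (Om T t) := congrArg Sup (Set.ext b1)
  have hle : gen (((prodL Ts Ts).flatMap fun p => (prodL (tuples c.1 p.1 ud)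
      (tuples c.1 p.2 ud)).map fun q => cl c (tauP p.1 p.2 q.1 q.2)).filter (ggB Ts)) ≤ GG T t :=
    gen_le.2 fun s hs => by
      obtain ⟨h1, h2⟩ := List.mem_filter.1 hs
      obtain ⟨p, -, h3⟩ := List.mem_flatMap.1 h1
      obtain ⟨q, -, rfl⟩ := List.mem_map.1 h3
      exact ⟨hW ▸ cl_mem c _, (Ggy.ggB_iff h).1 h2⟩
  rw [ggP, gen_red h.ok (hle.trans b2)]
  refine le_antisymm hle (Ggy.strip h.atm fun s i hi k hk hs => ?_)
  obtain ⟨q, h1, h2, h3⟩ := Ggy.exists_tau h hi hk hs hu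
  refine ⟨_, mem_gen (List.mem_filter.2 ⟨List.mem_flatMap.2 ⟨(gO Ts i, gO Ts k), mem_prodL.2
    ⟨Ggy.mem_Ts.2 ⟨i, h.len ▸ hi, rfl⟩, Ggy.mem_Ts.2 ⟨k, h.len ▸ hk, rfl⟩⟩,
    List.mem_map.2 ⟨q, h1, cl_eq (b2 h2)⟩⟩, (Ggy.ggB_iff h).2 h2.2⟩), h2, h3⟩

end Pool.Agent.P.MP_f1a348_lc.AL
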