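import Pool.Agent.P.MP_f1a348_lc.AL.Iface

/-!
Project AL: the invariant closure of a list.
-/

namespace Pool.Agent.P.MP_f1a348_lc.AL

open Pool.Agent.P.MP_f1a348_lc.GI hiding Nm Good
open Pool.Agent.P.MP_f1a348_lc.UP (Rec up topI SolvMod Nm der)
open Pool.Agent.P.MP_f1a348_lc.FA (Cls Sub MaxN)
open Pool.Agent.Lib.Helper47
open scoped commutatorElement Pointwise
open MulAction (stabilizer)

namespace Icly
variable {U : Type} [Group U] [DecidableEq U] {Y : List U} {S : List (FP U)} {G : Subgroup U}

/-- the list that is closed in one round -/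
def ext (S : List (FP U)) (X : List U) : List U := X ++ S.flatMap fun s => X.map s.app

omit [Group U] [DecidableEq U] in
theorem mem_ext {X : List U} {y : U} :
    y ∈ ext S X ↔ y ∈ X ∨ ∃ s ∈ S, ∃ x ∈ X, s.app x = y := by simp [ext]

omit [DecidableEq U] in
theorem ext_le {X : List U} {Z : Subgroup U} (hZ : Inv (gen S) Z) (hX : ∀ x ∈ X, x ∈ Z) :
    ∀ y ∈ ext S X, y ∈ Z := fun y hy => by
  rcases mem_ext.1 hy with h | ⟨s, hs, x, hx, rfl⟩
  exacts [hX y h, hZ s (mem_gen hs) x (hX x hx)]

theorem step_rep (hY : Rep Y G) (hG : Inv (gen S) G) {X : List U} (hX : ∀ x ∈ X, x ∈ G) :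
    Rep (iclStep Y S X) (gen (ext S X)) := clo_rep hY (ext_le hG hX)

omit [DecidableEq U] in
theorem inv_of_fin {Z : Subgroup U} [Finite Z] (h : ∀ s ∈ S, ∀ x ∈ Z, s.app x ∈ Z) :
    Inv (gen S) Z := by
  intro s hs
  induction hs using Subgroup.closure_induction with
  | mem s hs => exact h s hs
  | one => exact fun x hx => hx
  | mul a b _ _ ha hb => exact fun x hx => ha _ (hb x hx)
  | inv a _ ha =>
    intro x hx
    have hi : Function.Injective (fun z : Z => (⟨a.app z, ha z z.2⟩ : Z)) := fun u v e =>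
      Subtype.ext (a.app_injective (congrArg Subtype.val e))
    obtain ⟨z, hz⟩ := Finite.surjective_of_injective hi ⟨x, hx⟩
    have : a.app z = x := congrArg Subtype.val hz
    rw [← this, FP.app_inv_app]
    exact z.2

end Icly

open Icly in
theorem a_ICL : S_ICL := by
  intro U _ _ Y X S G hY hG hX
  set L : ℕ → List U := fun i => (iclStep Y S)^[i] X with hL
  have hs : ∀ i, L (i + 1) = iclStep Y S (L i) := fun i => Function.iterate_succ_apply' _ _ _
  have inG : ∀ i, ∀ x ∈ L i, x ∈ G := by
    intro i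
    induction i with
    | zero => exact hX
    | succ i ih =>
      intro x hx
      rw [hs, (step_rep hY hG ih).mem] at hx
      exact gen_le.2 (ext_le hG ih) hx
  set W : ℕ → Subgroup U := fun i => gen (ext S (L i)) with hW
  have rp : ∀ i, Rep (L (i + 1)) (W i) := fun i => hs i ▸ step_rep hY hG (inG i)
  have sub : ∀ i, ∀ x ∈ L i, x ∈ W i := fun i x hx => mem_gen (mem_ext.2 (Or.inl hx))
  have mono : ∀ i, W i ≤ W (i + 1) := fun i x hx => sub _ x (((rp i).mem x).2 hx)
  have leG : ∀ i, W i ≤ G := fun i => gen_le.2 (ext_le hG (inG i))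
  have := hY.finite
  have fin : ∀ i, Finite (W i) := fun i => (rp i).finite
  have stab : ∀ i, W i = W (i + 1) → W (i + 1) = W (i + 2) := fun i e => by
    refine le_antisymm (mono _) (gen_mono fun y hy => ?_)
    have q : ∀ x, x ∈ L (i + 2) → x ∈ L (i + 1) := fun x hx =>
      ((rp i).mem x).2 (e ▸ ((rp (i + 1)).mem x).1 hx)
    rcases mem_ext.1 hy with h | ⟨s, h1, x, hx, rfl⟩
    exacts [mem_ext.2 (Or.inl (q y h)), mem_ext.2 (Or.inr ⟨s, h1, x, q x hx, rfl⟩)]
  have grow : ∀ i, W i = W (i + 1) ∨ Nat.card (W i) < Nat.card (W (i + 1)) := fun i => by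
    by_contra hc
    rw [not_or, not_lt] at hc
    have := fin (i + 1)
    exact hc.1 (Subgroup.eq_of_le_of_card_ge (mono i) hc.2)
  have key : ∀ i, W i = W (i + 1) ∨ i + 1 < Nat.card (W (i + 1)) := by
    intro i
    induction i with
    | zero =>
      have := fin 0
      exact (grow 0).imp id fun h => lt_of_le_of_lt Nat.card_pos h
    | succ i ih =>
      rcases ih with h | h
      · exact Or.inl (stab i h)
      · exact (grow (i + 1)).imp id fun h' => by omega
  obtain ⟨n, hn⟩ : ∃ n, Y.length = n + 1 := ⟨Y.length - 1, by have := hY.length_pos; omega⟩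
  have e : W n = W (n + 1) := (key n).resolve_right (by
    have := Subgroup.card_le_of_le (leG (n + 1))
    rw [hY.card] at this
    omega)
  have up : ∀ i, W 0 ≤ W i := fun i => by
    induction i with
    | zero => exact le_rfl
    | succ i ih => exact ih.trans (mono i)
  refine ⟨W n, ?_, fun x hx => up n (sub 0 x hx), ?_, fun Z hZ hI => ?_⟩
  · rw [iclP, hn]; exact rp n
  · have := fin n
    refine inv_of_fin fun s h x hx => ?_
    rw [e]
    exact mem_gen (mem_ext.2 (Or.inr ⟨s, h, x, ((rp n).mem x).2 hx, rfl⟩))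
  · have : ∀ i, W i ≤ Z := fun i => by
      induction i with
      | zero => exact gen_le.2 (ext_le hI hZ)
      | succ i ih => exact gen_le.2 (ext_le hI fun x hx => ih (((rp i).mem x).1 hx))
    exact this n

end Pool.Agent.P.MP_f1a348_lc.AL
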