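import Pool.Agent.P.MP_f1a348_lc.AL.Iface

/-!
Project AL: the inner solver of the base.
-/

namespace Pool.Agent.P.MP_f1a348_lc.AL

open Pool.Agent.P.MP_f1a348_lc.GI hiding Nm Good
open scoped Pointwise
open MulAction (stabilizer)

namespace Inny

theorem fix_cj {Ω : Type} {g w : FP Ω} {X X' : Set Ω} (h : Mp g X X') (hw : w ∈ Fix X) :
    g * w * g⁻¹ ∈ Fix X' := fun x hx => by
  rw [FP.app_mul, FP.app_mul, hw _ ((h.inv x).2 hx), FP.app_app_inv]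

theorem mp_fix {Ω : Type} {u : FP Ω} {X : Set Ω} (h : u ∈ Fix X) : Mp u X X := fun x =>
  ⟨fun hx => by rwa [u.app_injective (h _ hx)] at hx, fun hx => by rwa [h x hx]⟩

theorem fix_com {Ω : Type} {u y : FP Ω} {X X' : Set Ω} (h : u ∈ Fix X) (h' : u ∈ Fix X')
    (hy : Mp y X X') : y⁻¹ * (u * y * u⁻¹) ∈ Fix X := fun x hx => by
  rw [FP.app_mul, FP.app_mul, FP.app_mul, (Fix X).inv_mem h x hx, h' _ ((hy x).2 hx),
    FP.app_inv_app]

section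
variable {Γ : Type} [Group Γ] {Y0 : Subgroup Γ} {y u : Γ}

/-- a left coset -/
def Co (Y0 : Subgroup Γ) (y : Γ) : Cn Γ := {z | y⁻¹ * z ∈ Y0}

theorem mem_st (hu : u ∈ Subgroup.normalizer (Y0 : Set Γ)) :
    u ∈ stabilizer Γ (Co Y0 y) ↔ y⁻¹ * (u * y * u⁻¹) ∈ Y0 := by
  rw [MulAction.mem_stabilizer_iff, Cn.smul_eq]
  refine ⟨fun h => (h y).2 (show y⁻¹ * y ∈ Y0 by simp), fun h z => ?_⟩
  change y⁻¹ * (u * z * u⁻¹) ∈ Y0 ↔ y⁻¹ * z ∈ Y0
  rw [Subgroup.mem_normalizer_iff.1 hu (y⁻¹ * z), ← Y0.mul_mem_cancel_left (y := u * _ * _) h]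
  simp only [mul_assoc, inv_mul_cancel_left, mul_inv_cancel_left]

theorem cs_cj (y e : Γ) : Cs (Subgroup.centralizer {y}) {s | s * y * s⁻¹ = e} := fun g hg h => by
  rw [Subgroup.mem_centralizer_singleton_iff, Set.mem_ofPred_eq, ← show g * y * g⁻¹ = e from hg]
  constructor <;> intro h1
  · calc g⁻¹ * h * y = g⁻¹ * (h * y * h⁻¹) * h := by group
      _ = _ := by rw [h1]; group
  · calc h * y * h⁻¹ = g * (g⁻¹ * h * y) * h⁻¹ := by group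
      _ = _ := by rw [h1]; group

theorem cj_len {g : Γ} {l l' : List Γ} (h : l.Nodup) (h' : l'.Nodup) :
    (∀ z, g * z * g⁻¹ ∈ l' ↔ z ∈ l) ↔ l.length = l'.length ∧ ∀ z ∈ l, g * z * g⁻¹ ∈ l' := by
  have hn : (l.map fun z => g * z * g⁻¹).Nodup := h.map fun x y e => by simpa using e
  constructor
  · refine fun a => ⟨?_, fun z => (a z).2⟩
    rw [← ((List.perm_ext_iff_of_nodup hn h').2 fun z => ?_).length_eq, List.length_map]
    rw [List.mem_map]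
    exact ⟨fun ⟨x, hx, e⟩ => e ▸ (a x).2 hx, fun hz =>
      ⟨g⁻¹ * z * g, (a _).1 (by simpa [mul_assoc] using hz), by group⟩⟩
  · refine fun a z => ⟨fun hz => ?_, a.2 z⟩
    have := (hn.subperm (l₂ := l') fun x hx => by
      obtain ⟨w, hw, rfl⟩ := List.mem_map.1 hx
      exact a.2 w hw).perm_of_length_le (by simp [a.1])
    obtain ⟨w, hw, e⟩ := List.mem_map.1 (this.mem_iff.2 hz)
    rwa [← show w = z by simpa using e]
end

theorem zp_smul {U : Type} [Group U] {T : ℕ → Subgroup U} {Y Y' : Subgroup (FP U)} {a e b e' : ℕ}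
    {s : FP U} : s • zp T Y a e = zp T Y' b e' ↔ Mp s (T e) (T e') ∧ ∀ y,
      s * y * s⁻¹ ∈ Y' ∧ Mp (s * y * s⁻¹) (T b) (T e') ↔ y ∈ Y ∧ Mp y (T a) (T e) :=
  Prod.ext_iff.trans (and_congr smul_eq_iff_mp Cn.smul_eq)

end Inny
open Inny

theorem a_INN (hb : S_BB) (hc : S_CENT) (hs : S_SEQ2 ∧ S_SEQ ∧ S_UNI) : S_INN := by
  intro U _ _ c Ts D T t d hB Y0l Yl Yl' Y Y' a b hO e he e' he'
  set Y0 : Subgroup (FP U) := Y ⊓ Fix (T a : Set U) with hY0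
  set A := oA T t Y a ⊓ (Fix (T a : Set U) ⊓ Fix (T e : Set U))
  set X := oX T t Y Y' a b ∩ {x | Mp x (T a) (T b)}
  have im : ∀ i < t, ∀ k < t, ∀ s : FP U, imB s (gO Ts i) (gO Ts k) = true ↔ Mp s (T i) (T k) :=
    fun i hi k hk s => imB_iff (hB.rep i hi).mem (hB.rep k hk).mem
  have hE : ∀ y, y ∈ eP Ts Yl a e ↔ y ∈ Y ∧ Mp y (T a) (T e) := fun y => by
    rw [eP, List.mem_filter, hO.r.mem, im a hO.a e he]
  have hE' : ∀ y, y ∈ eP Ts Yl' b e' ↔ y ∈ Y' ∧ Mp y (T b) (T e') := fun y => by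
    rw [eP, List.mem_filter, hO.r'.mem, im b hO.b e' he']
  have hCl : Cl A X := fun x hx u hu => ⟨⟨mul_mem hx.1.1 hu.1.1, fun y => by
    have := (hx.1.2 (u * y * u⁻¹)).trans (hu.1.2 y).symm
    simpa only [mul_inv_rev, mul_assoc] using this⟩, hx.2.mul (mp_fix hu.2.1)⟩
  set T1 : Set (FP U) :=
    {g | Mp g (T e) (T e') ∧ (eP Ts Yl a e).length = (eP Ts Yl' b e').length} with hT1
  have r1 : Rc A X ⊤ T1 := fun g _ hg u hu =>
    ⟨fun _ => trivial, fun _ => ⟨hg.1.mul (mp_fix hu.2.2), hg.2⟩⟩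
  have g1 : Good c (small c (fun _ => true) fun g => imB g (gO Ts e) (gO Ts e') &&
      (eP Ts Yl a e).length == (eP Ts Yl' b e').length) A X ⊤ T1 :=
    good_small hB.ok (fun _ _ => by simp) (fun g _ _ => by simp [im e he e' he', hT1]) r1 hCl (by
      rw [Subgroup.relIndex_top_left]
      exact (Nat.one_le_two_pow).trans (hb U c Ts D T t d hB).2.2.1)
  have key : ∀ y ∈ eP Ts Yl a e, ∀ u ∈ A, u ∈ stabilizer (FP U) (Co Y0 y) ↔ u * y * u⁻¹ ∈ Y :=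
    fun y hy u hu => by
      rw [mem_st hu.1.2]
      exact ⟨fun h => by simpa using Y.mul_mem ((hE y).1 hy).1 h.1, fun h =>
        ⟨Y.mul_mem (Y.inv_mem ((hE y).1 hy).1) h, fix_com hu.2.1 hu.2.2 ((hE y).1 hy).2⟩⟩
  have hCl' : Cl (A ⊓ ⊤) (X ∩ T1) := fun x hx u hu =>
    ⟨hCl x hx.1 u hu.1, (r1 x hx.1 hx.2 u hu.1).2 trivial⟩
  have g2 := hs.2.1 U (FP U) c (cosP c Ts Y0l Yl') (eP Ts Yl a e) (A ⊓ ⊤) (X ∩ T1)
    (fun y => stabilizer (FP U) (Co Y0 y)) (fun y => {g | g * y * g⁻¹ ∈ Y'}) hB.ok hCl'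
    fun y hy => ⟨fun g hg hT u hu => ?_, ?_⟩
  · refine (hs.1 U c _ _ A _ _ X _ _ hCl r1 g1 g2).mono inf_le_right (fun _ _ h => h)
      (fun u hu => ?_) fun x _ hx u hu => ?_
    · rw [top_inf_eq, MulAction.mem_stabilizer_iff, zp_smul]
      simp only [Subgroup.mem_iInf]
      have cj : ∀ v ∈ A, ∀ y, Mp y (T a) (T e) → Mp (v * y * v⁻¹) (T a) (T e) := fun v hv y h =>
        ((mp_fix hv.2.2).mul h).mul (mp_fix hv.2.1).inv
      refine ⟨fun h => ⟨mp_fix hu.2.2.2, fun y => ⟨fun h1 => ?_, fun h1 =>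
        ⟨(key y ((hE y).2 h1) u hu.2).1 (h y ((hE y).2 h1)), cj u hu.2 y h1.2⟩⟩⟩,
        fun h y hy => (key y hy u hu.2).2 ((h.2 y).2 ((hE y).1 hy)).1⟩
      have h2 := (key _ ((hE _).2 h1) _ (A.inv_mem hu.2)).1 (inv_mem (h _ ((hE _).2 h1)))
      have h3 := cj _ (A.inv_mem hu.2) _ h1.2
      simp only [mul_assoc, inv_mul_cancel_left, inv_inv, inv_mul_cancel, mul_one] at h2 h3
      exact ⟨h2, h3⟩
    · have hg := hCl x hx u hu.2
      generalize x * u = g at hg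
      rw [Set.mem_ofPred_eq, zp_smul]
      simp only [← hE, ← hE']
      have n1 : (eP Ts Yl a e).Nodup := hO.r.nodup.filter _
      have n2 : (eP Ts Yl' b e').Nodup := hO.r'.nodup.filter _
      rw [cj_len n1 n2]
      refine ⟨fun h => ⟨h.1.1, h.1.2, fun z hz => (hE' _).2 ⟨h.2 z hz, ?_⟩⟩,
        fun h => ⟨⟨h.1, h.2.1⟩, fun z hz => ((hE' _).1 (h.2.2 z hz)).1⟩⟩
      exact (h.1.1.mul ((hE z).1 hz).2).mul (Mp.inv hg.2)
  · rw [mem_st hu.1.1.2]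
    have e1 : g * u * y * (g * u)⁻¹ = g * y * g⁻¹ * (g * (y⁻¹ * (u * y * u⁻¹)) * g⁻¹) := by group
    rw [Set.mem_ofPred_eq, e1, Y'.mul_mem_cancel_left hT]
    exact ⟨fun h => (hg.1.1.2 _).1 ⟨h, fix_cj hg.1.2 (fix_com hu.1.2.1 hu.1.2.2 ((hE y).1 hy).2)⟩,
      fun h => ((hg.1.1.2 _).2 h).1⟩
  · have hy' := ((hE y).1 hy).1
    have gc := fun w hw => hc U c Ts D T t d hB y (hO.le hy') w hw
    refine hs.2.2 U (FP U) c (centP c Ts y) _ _ _ (Subgroup.centralizer {y}) _ _ _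
      (fun w => {s | s * y * s⁻¹ = w}) hCl' (fun w hw => ⟨(cs_cj y w).rc _ _, ?_⟩)
      (fun w hw => ?_) (fun u hu => ?_) (fun u hu => ?_) fun g _ => ?_
    · obtain ⟨z, hz, rfl⟩ := List.mem_map.1 hw
      exact (gc _ (hO.le (Y.mul_mem hy' ((hO.r0.mem z).1 hz).1))).mono (fun _ h => h.2.1.1.1)
        (fun _ _ h => h.1.1.1) (fun _ _ => Iff.rfl) fun _ _ _ _ _ => Iff.rfl
    · exact (gc _ (hO.le' ((hO.r'.mem w).1 hw))).mono (fun _ h => h.2.1.1.1)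
        (fun _ _ h => h.1.1.1) (fun _ _ => Iff.rfl) fun _ _ _ _ _ => Iff.rfl
    · refine (mem_st hu.1.1.1.2).2 ?_
      rw [Subgroup.mem_centralizer_singleton_iff.1 hu.2]
      simp
    · rw [mem_st hu.1.1.2]
      simp only [List.mem_map, hO.r0.mem, Set.mem_ofPred_eq]
      exact ⟨fun h => ⟨_, ⟨_, h, rfl⟩, by group⟩, fun ⟨_, ⟨z, hz, e1⟩, e2⟩ => by
        rwa [e2, ← e1, inv_mul_cancel_left]⟩
    · simp [hO.r'.mem]

end Pool.Agent.P.MP_f1a348_lc.AL
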