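import Pool.Agent.P.MP_f1a348_lc.AL.Iface

/-!
Project AL: a layer as a module.
-/

namespace Pool.Agent.P.MP_f1a348_lc.AL

open Pool.Agent.P.MP_f1a348_lc.GI hiding Nm Good
open Pool.Agent.P.MP_f1a348_lc.UP (Nm)
open scoped commutatorElement

namespace Layy

/-- conjugation on a normal subgroup -/
def cj {U : Type} [Group U] {G L : Subgroup U} (hL : Nm G L) (g : G) : L →* L :=
  MonoidHom.mk' (fun x => ⟨g * x * (g : U)⁻¹, hL g g.2 x x.2⟩) fun a b =>
    Subtype.ext (by simp [mul_assoc])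

end Layy

theorem a_LAY : S_LAY := by
  classical
  intro U _ G O L hG hOL hLG hO hL hc
  have : Finite L := finite_of_le hLG
  have hn : (O.subgroupOf L).Normal := ⟨fun x hx g => hO g (hLG g.2) x hx⟩
  let cg : CommGroup (L ⧸ O.subgroupOf L) :=
    { (inferInstance : Group (L ⧸ O.subgroupOf L)) with
      mul_comm := fun a b => by
        obtain ⟨x, rfl⟩ := QuotientGroup.mk_surjective a
        obtain ⟨y, rfl⟩ := QuotientGroup.mk_surjective b
        rw [← QuotientGroup.mk_mul, ← QuotientGroup.mk_mul, QuotientGroup.eq,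
          Subgroup.mem_subgroupOf]
        simpa [commutatorElement_def, mul_assoc] using hc _ (L.inv_mem y.2) _ (L.inv_mem x.2) }
  let f : G → Module.End ℤ (Additive (L ⧸ O.subgroupOf L)) := fun g =>
    (MonoidHom.toAdditive (QuotientGroup.map (O.subgroupOf L) (O.subgroupOf L)
      (Layy.cj hL g) fun x hx => hO g g.2 x hx)).toIntLinearMap
  have hf : ∀ (g : G) (x : L), f g (Additive.ofMul (x : L ⧸ O.subgroupOf L)) =
      Additive.ofMul ((Layy.cj hL g x : L) : L ⧸ O.subgroupOf L) := fun _ _ => rfl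
  have hs : ∀ v : Additive (L ⧸ O.subgroupOf L), ∃ x : L,
      Additive.ofMul (x : L ⧸ O.subgroupOf L) = v := fun v => QuotientGroup.mk_surjective v.toMul
  refine ⟨Additive (L ⧸ O.subgroupOf L), inferInstance, inferInstance,
    ⟨⟨f, LinearMap.ext fun v => ?_⟩, fun a b => LinearMap.ext fun v => ?_⟩,
    fun x => if h : x ∈ L then Additive.ofMul ((⟨x, h⟩ : L) : L ⧸ O.subgroupOf L) else 0,
    fun x hx y hy => ?_, fun x hx => ?_, fun v => ?_, fun g x hx => ?_, ?_⟩
  · obtain ⟨x, rfl⟩ := hs v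
    have e : Layy.cj hL 1 x = x := Subtype.ext (by simp [Layy.cj])
    rw [hf, e]
    rfl
  · obtain ⟨x, rfl⟩ := hs v
    have e : Layy.cj hL (a * b) x = Layy.cj hL a (Layy.cj hL b x) :=
      Subtype.ext (by simp [Layy.cj, mul_assoc])
    rw [Module.End.mul_apply, hf, hf, hf, e]
  · simp only [dif_pos hx, dif_pos hy, dif_pos (L.mul_mem hx hy)]
    rfl
  · simp only [dif_pos hx]
    exact QuotientGroup.eq_one_iff (N := O.subgroupOf L) ⟨x, hx⟩
  · obtain ⟨x, rfl⟩ := hs v
    exact ⟨x, x.2, dif_pos x.2⟩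
  · have h : (g : U) * x * ((g⁻¹ : G) : U) ∈ L := hL g g.2 x hx
    simp only [dif_pos hx, dif_pos h]
    rfl
  · rw [Subgroup.card_eq_card_quotient_mul_card_subgroup (O.subgroupOf L),
      Nat.card_congr (Subgroup.subgroupOfEquivOfLe hOL).toEquiv]
    rfl

end Pool.Agent.P.MP_f1a348_lc.AL
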