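import Pool.Agent.P.MP_f1a348_lc.AL.Iface

/-!
Project AL: lifting systems of graphs to elements of `T₁`.
-/

namespace Pool.Agent.P.MP_f1a348_lc.AL

open Pool.Agent.P.MP_f1a348_lc.GI hiding Nm Good
open Pool.Agent.P.MP_f1a348_lc.UP (Rec up topI SolvMod Nm der)
open Pool.Agent.P.MP_f1a348_lc.FA (Cls Sub MaxN)
open Pool.Agent.Lib.Helper47
open scoped commutatorElement Pointwise
open MulAction (stabilizer)

namespace Liftay

variable {U : Type} [Group U] [DecidableEq U] {s s' : SP U} {Ql Ql' : List U}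
  {G G' Q Q' : Subgroup U} {O O' : ℕ → Subgroup U} {r n : ℕ} {p p' : ℕ → ℕ} {a : FP U}

theorem core (h8 : S_T8) (h : SX s Ql G Q O r p n) (h' : SX s' Ql' G' Q' O' r p' n)
    (ha : IsoP Q Q' a) (V : ℕ → Subgroup (U × U)) (D : ℕ → List (U × U))
    (hV : ∀ j, 1 ≤ j → (lyr O Q (ap s.2) j).Full (lyr O' Q' (ap s'.2) j) a (V j))
    (h0 : ∀ q ∈ D 0, q ∈ (lyr O Q (ap s.2) 1).Pr (lyr O' Q' (ap s'.2) 1) a)
    (hD : ∀ j ≤ r, 1 ≤ j → ∀ q ∈ D j, q ∈ V j)
    (hD' : ∀ j ≤ r, ∀ x ∈ O j, ∃ q ∈ D j, q.1 = x) {t : FP U}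
    (ht : t = liftP (gO s.1 0) ((List.range s.1.length).map fun i => (gO s.1 (i + 1), D i))) :
    Tri O O' t ∧ t ∈ Sup ((O 0 : Set U) ∪ O' 0) ∧
      (∀ x ∈ O 0, ap s'.2 (t.app x) = a.app (ap s.2 x)) ∧
      ∀ j, 1 ≤ j → ∀ x ∈ O j, (x, t.app x) ∈ V j := by
  have ok := h.ser.ok h.qt le_rfl
  have ok' := h'.ser.ok h'.qt le_rfl
  let W : ℕ → Subgroup (U × U) := fun j => match j with
    | 0 => Ly.PrS ok ok' ha
    | j + 1 => V (j + 1)
  have hG : Gs O O' W := by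
    refine ⟨fun j => ?_, fun j => ?_, fun j => ?_, fun j => ?_, fun j => ?_⟩
    all_goals rcases j with _ | j
    · exact fun q hq => ⟨hq.1, hq.2.1⟩
    · exact (hV _ j.succ_pos).gr.le
    · intro q hq
      have e1 := ok.FG hq.1
      have e2 := ok'.FG hq.2
      exact ⟨e1, e2, by rw [(ok.qt.ker _ e1).2 hq.1, (ok'.qt.ker _ e2).2 hq.2, ha.hm.one]⟩
    · exact (hV _ j.succ_pos).gr.ge
    · intro q hq
      refine (ok.qt.ker _ hq.1).symm.trans (Iff.trans ?_ (ok'.qt.ker _ hq.2.1))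
      rw [hq.2.2]
      exact ⟨fun e => by rw [e, ha.hm.one], fun e => a.app_injective (e.trans ha.hm.one.symm)⟩
    · exact (hV _ j.succ_pos).gr.ker
    · exact fun x hx => (Ly.pr_left ok ok' ha hx).elim fun g hg => ⟨_, hg, rfl⟩
    · exact (hV _ j.succ_pos).snd
    · exact nm_self _
    · exact (hV _ j.succ_pos).gr.nm
  have key := h8 U O O' W (gO s.1 0)
    ((List.range s.1.length).map fun i => (gO s.1 (i + 1), D i)) (h.rep 0)
    (fun _ _ => h.ser.le) (fun _ _ => h'.ser.le) (fun j hj => by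
      rw [List.length_map, List.length_range, h.len] at hj
      exact ⟨h.ser.bot j (by omega), h'.ser.bot j (by omega)⟩) hG fun j hj => by
      rw [List.getElem_map, List.getElem_range]
      rw [List.length_map, List.length_range, h.len] at hj
      refine ⟨h.rep _, ?_, hD' j (by omega)⟩
      rcases j with _ | j
      · exact h0
      · exact hD _ (by omega) j.succ_pos
  rw [← ht] at key
  refine ⟨key.1, key.2.1, fun x hx => (key.2.2 0 x hx).2.2, fun j hj => ?_⟩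
  rcases j with _ | j
  · omega
  · exact key.2.2 (j + 1)

omit [DecidableEq U] in
theorem full_bot {y y' : Ly U} (h : y.Ok) (h' : y'.Ok) (e : y.L = ⊥) (e' : y'.L = ⊥) :
    y.Full y' a (y.O.prod y'.O) :=
  ⟨⟨Subgroup.prod_mono h.OL h'.OL, le_rfl, fun _ hq => iff_of_true hq.1 hq.2, Ly.nm_bot h h'⟩,
    fun x hx => ⟨1, one_mem _, by rw [e] at hx; exact (Subgroup.mem_bot.1 hx).symm⟩,
    fun x hx => ⟨1, one_mem _, by rw [e'] at hx; exact (Subgroup.mem_bot.1 hx).symm⟩⟩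

theorem liftA_ok (h1 : S_T1P) (h2 : S_EXT) (h5 : S_T5) (h8 : S_T8) : S_LIFTA := by
  intro U _ _ s s' Ql Ql' G G' Q Q' O O' r n p p' a h h' ha hP
  have ok := fun j (hj : 1 ≤ j) => h.ser.ok h.qt hj
  have ok' := fun j (hj : 1 ≤ j) => h'.ser.ok h'.qt hj
  let E : ℕ → List (U × U) := fun j => extP (lyP s j) (lyP s' j) a
    (prodL (gO s.1 (j + 1)) (gO s'.1 (j + 1))) (sumP (lyP s j))
  have hV : ∀ j, ∃ V, 1 ≤ j → (lyr O Q (ap s.2) j).Full (lyr O' Q' (ap s'.2) j) a V ∧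
      (j ≤ r → Rep (E j) V) := by
    intro j
    by_cases hj : 1 ≤ j
    swap
    · exact ⟨⊥, fun e => absurd e hj⟩
    by_cases hr : j ≤ r
    swap
    · exact ⟨_, fun _ => ⟨full_bot (ok j hj) (ok' j hj) (h.ser.bot j (by omega))
        (h'.ser.bot j (by omega)), fun e => absurd e hr⟩⟩
    obtain ⟨V, r1, -, r2⟩ := h2 U _ _ _ _ a (prodL (gO s.1 (j + 1)) (gO s'.1 (j + 1)))
      ((O (j + 1)).prod (O' (j + 1))) [] (sumP (lyP s j)) (sumP (lyP s' j)) (h.lrep j) (h'.lrep j)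
      (ok j hj) (ok' j hj) ha (h5 U _ _ (h.lrep j) (ok j hj)).1 (h5 U _ _ (h'.lrep j) (ok' j hj)).1
      (hP j (mem_lays.2 ⟨hj, by rw [h.len]; omega⟩))
      ⟨Subgroup.prod_mono (ok j hj).OL (ok' j hj).OL, le_rfl, fun _ hq => iff_of_true hq.1 hq.2,
        Ly.nm_bot (ok j hj) (ok' j hj)⟩
      ⟨nodup_prodL (h.rep _).nodup (h'.rep _).nodup, fun q =>
        mem_prodL.trans (and_congr ((h.rep _).mem _) ((h'.rep _).mem _))⟩
      fun x => ⟨fun ⟨q, hq, e⟩ => e ▸ hq.1, fun hx => ⟨(x, 1), ⟨hx, one_mem _⟩, rfl⟩⟩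
    exact ⟨V, fun _ => ⟨r2, fun _ => r1⟩⟩
  choose V hV using hV
  have hrel := (h1 U _ _ _ _ a (h.lrep 1) (h'.lrep 1) (ok 1 le_rfl) (ok' 1 le_rfl) ha).1
  let D : ℕ → List (U × U) := fun j => match j with
    | 0 => relP (lyP s 1) (lyP s' 1) a
    | j + 1 => E (j + 1)
  have key := core h8 h h' ha V D (fun j hj => (hV j hj).1) (fun q hq => (hrel q).1 hq)
    (fun j hr hj q hq => by
      rcases j with _ | j
      · omega
      · exact (((hV _ hj).2 hr).mem q).1 hq)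
    (fun j hr x hx => by
      rcases j with _ | j
      · obtain ⟨g, hg⟩ := Ly.pr_right (ok 1 le_rfl) (ok' 1 le_rfl) ha hx
        exact ⟨_, (hrel _).2 hg, rfl⟩
      · obtain ⟨q, hq, e⟩ := (hV _ j.succ_pos).1.fst x hx
        exact ⟨q, (((hV _ j.succ_pos).2 hr).mem q).2 hq, e⟩) (t := liftA s s' a) (by
      rw [liftA, lays, h.len, List.range_succ_eq_map, List.tail_cons, List.map_cons, List.map_map,
        List.map_map]
      rfl)
  rw [h.ser.zero, h'.ser.zero] at key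
  exact ⟨key.1, key.2.1, key.2.2.1⟩

theorem liftB_ok (h8 : S_T8) (hg : S_TGR) : S_LIFTB := by
  intro U _ _ s Ql G Q O r n p j Vl V h hj hR hF
  have hj1 := (mem_lays.1 hj).1
  have hd := (hg U G G Q Q O O r r p p _ _ 1 h.ser h.ser h.qt h.qt (.refl O)).2.2 1 fun _ _ => rfl
  have hW : ∀ i, ∃ W, 1 ≤ i → (lyr O Q (ap s.2) i).Full (lyr O Q (ap s.2) i) 1 W ∧
      (i = j → W = V) ∧ (i ≠ j → ∀ q, q ∈ W ↔ q.1 ∈ O i ∧ q.2 ∈ O i ∧ Cg (O (i + 1)) q.1 q.2) := by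
    intro i
    by_cases hi : 1 ≤ i
    swap
    · exact ⟨⊥, fun e => absurd e hi⟩
    by_cases e : i = j
    · exact ⟨V, fun _ => ⟨e ▸ hF, fun _ => rfl, fun e' => absurd e e'⟩⟩
    · obtain ⟨W, w1, w2⟩ := hd i hi
      exact ⟨W, fun _ => ⟨w1, fun e' => absurd e' e, fun _ => w2⟩⟩
  choose W hW using hW
  let D : ℕ → List (U × U) := fun i => bif i == j then Vl else (gO s.1 i).map fun x => (x, x)
  have d1 : D j = Vl := by simp [D]
  have d2 : ∀ i, i ≠ j → ∀ q, q ∈ D i ↔ ∃ x ∈ O i, (x, x) = q := by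
    intro i hi q
    have : (i == j) = false := by simpa using hi
    simp only [D, this, cond_false, List.mem_map, gO, (h.rep i).mem]
  have key := core h8 h h (.refl Q) W D (fun i hi => (hW i hi).1)
    (fun q hq => by
      obtain ⟨x, hx, rfl⟩ := (d2 0 (by omega) q).1 hq
      exact ⟨hx, hx, rfl⟩)
    (fun i _ hi q hq => by
      by_cases e : i = j
      · rw [(hW i hi).2.1 e, ← hR.mem, ← d1, ← e]; exact hq
      · obtain ⟨x, hx, rfl⟩ := (d2 i e q).1 hq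
        exact ((hW i hi).2.2 e _).2 ⟨hx, hx, Cg.refl x⟩)
    (fun i _ x hx => by
      by_cases e : i = j
      · subst e
        obtain ⟨q, hq, e⟩ := hF.fst x hx
        exact ⟨q, d1 ▸ (hR.mem q).2 hq, e⟩
      · exact ⟨_, (d2 i e _).2 ⟨x, hx, rfl⟩, rfl⟩) (t := liftB s.1 j Vl) rfl
  obtain ⟨k1, k2, k3, k4⟩ := key
  rw [Set.union_self] at k2
  refine ⟨⟨k2, k1⟩, fun i hi => ⟨k1.mp i, fun x hx => ?_⟩,
    fun x hx => (hW j hj1).2.1 rfl ▸ k4 j hj1 x hx⟩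
  rcases Nat.eq_zero_or_pos i with rfl | hi1
  · exact (h.qt.eq_iff (h.ser.leG 0 hx) (h.ser.leG 0 ((k1.maps 0 x).2 hx))).1 (k3 x hx).symm
  · exact (((hW i hi1).2.2 hi _).1 (k4 i hi1 x hx)).2.2

end Liftay

theorem a_LIFTA (h1 : S_T1P) (h2 : S_EXT) (h5 : S_T5) (h8 : S_T8) (hg : S_TGR) :
    S_LIFTA ∧ S_LIFTB :=
  ⟨Liftay.liftA_ok h1 h2 h5 h8, Liftay.liftB_ok h8 hg⟩

end Pool.Agent.P.MP_f1a348_lc.AL
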