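import Pool.Agent.P.MP_f1a348_lc.AL.Iface

/-!
Project AL: the main loop decides isomorphism.
-/

namespace Pool.Agent.P.MP_f1a348_lc.AL

open Pool.Agent.P.MP_f1a348_lc.GI hiding Nm Good
open Pool.Agent.P.MP_f1a348_lc.UP (Rec up topI SolvMod Nm der)
open Pool.Agent.P.MP_f1a348_lc.FA (Cls Sub MaxN)
open Pool.Agent.Lib.Helper47
open scoped commutatorElement Pointwise
open MulAction (stabilizer)

namespace Mainy

theorem equiv_of_iso {U : Type} [Group U] {G G' : Subgroup U} {s : FP U} (h : IsoP G G' s) :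
    Nonempty (G ≃* G') := by
  refine ⟨MulEquiv.ofBijective (MonoidHom.mk' (fun x : G => (⟨s.app x, (h.maps x).2 x.2⟩ : G'))
    fun x y => Subtype.ext (h.hm x x.2 y y.2)) ⟨fun x y e => ?_, fun y => ?_⟩⟩
  · exact Subtype.ext (s.app_injective (congrArg Subtype.val e))
  · obtain ⟨x, hx, e⟩ := h.mp.surj y.2
    exact ⟨⟨x, hx⟩, Subtype.ext e⟩

theorem iso_of_equiv {U : Type} [Group U] {G G' : Subgroup U} (hf : Finite G) (e : G ≃* G') :
    ∃ s, IsoP G G' s := by
  classical
  let f : U → U := fun x => if hx : x ∈ G then (e ⟨x, hx⟩ : U) else 1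
  have ef : ∀ x (hx : x ∈ G), f x = e ⟨x, hx⟩ := fun x hx => dif_pos hx
  have hb : Set.BijOn f (G : Set U) G' := by
    refine ⟨fun x hx => ?_, fun x hx y hy h => ?_, fun y hy => ?_⟩
    · rw [ef x hx]
      exact (e ⟨x, hx⟩).2
    · rw [ef x hx, ef y hy] at h
      exact congrArg Subtype.val (e.injective (Subtype.ext h))
    · refine ⟨e.symm ⟨y, hy⟩, (e.symm ⟨y, hy⟩).2, ?_⟩
      rw [ef _ (e.symm ⟨y, hy⟩).2]
      simp
  obtain ⟨s, -, h1, h2⟩ := exists_fp (Set.toFinite (G : Set U)) hb
  refine ⟨s, h1, fun x hx y hy => ?_⟩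
  rw [h2 _ (mul_mem hx hy), h2 x hx, h2 y hy, ef _ (mul_mem hx hy), ef x hx, ef y hy,
    ← Subgroup.coe_mul, ← map_mul]
  rfl

theorem fold_down {σ : Type} (P : ℕ → σ → Prop) (f : σ → ℕ → σ) (n : ℕ)
    (h : ∀ i < n, ∀ s, P (i + 1) s → P i (f s i)) (s : σ) (hs : P n s) :
    P 0 ((List.range n).reverse.foldl f s) := by
  induction n generalizing s with
  | zero => exact hs
  | succ n ih =>
    rw [List.range_succ, List.reverse_append, List.reverse_singleton, List.singleton_append,
      List.foldl_cons]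
    exact ih (fun i hi => h i (hi.trans (Nat.lt_succ_self n))) _ (h n (Nat.lt_succ_self n) s hs)

theorem dnN_eq (R : List ℕ) (p : List UU × List UU) (u : List ℕ) :
    dnN R p u = ((quoQ R)^[u.length] p.1, (quoQ R)^[u.length] p.2) := by
  induction u generalizing p with
  | nil => rfl
  | cons a u ih =>
    rw [dnN, List.foldl_cons, ← dnN, ih]
    rfl

variable {ok : ℕ → Prop} {d n : ℕ} {Y : List UU} {G : Subgroup UU}

theorem down (h1 : S_SER) (h3 : S_SERP) (h4 : S_QUO) (h5 : S_DOWN) (h : Inp ok d n Y G) :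
    Inp ok d n (quoQ (List.range n) Y) (gen (quoQ (List.range n) Y)) ∧
      (NA G → NA (gen (quoQ (List.range n) Y))) ∧
      (¬ NA G → Nat.card (gen (quoQ (List.range n) Y)) < Nat.card G) := by
  have sr := h1 _ G n h.rep.finite (h.rep.card ▸ h.lt)
  have q := h4 Y _ G _ h.rep ((h3 _ Y G n h.rep h.lt).1 1) (sr.leG 1) (sr.nml 1)
  have dn := h5 _ G _ _ _ _ _ sr q.2
  refine ⟨⟨q.1, ?_, dn.2.2.2.1 d h.cd, fun r hr hd => h.ok r hr (hd.trans dn.1)⟩, dn.2.1,
    dn.2.2.1⟩
  have h6 := dn.1
  rw [q.1.card, h.rep.card] at h6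
  exact (Nat.le_of_dvd h.rep.length_pos h6).trans_lt h.lt

theorem levels (h1 : S_SER) (h3 : S_SERP) (h4 : S_QUO) (h5 : S_DOWN) (h : Inp ok d n Y G)
    (i : ℕ) : Inp ok d n ((quoQ (List.range n))^[i] Y) (gen ((quoQ (List.range n))^[i] Y)) ∧
      (NA (gen ((quoQ (List.range n))^[i] Y)) ∨
        Nat.card (gen ((quoQ (List.range n))^[i] Y)) + i < n) := by
  induction i with
  | zero =>
    rw [Function.iterate_zero_apply, h.rep.gen_eq]
    exact ⟨h, .inr (h.rep.card ▸ h.lt)⟩
  | succ i ih =>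
    rw [Function.iterate_succ_apply']
    obtain ⟨a, b, c⟩ := down h1 h3 h4 h5 ih.1
    refine ⟨a, ?_⟩
    by_cases na : NA (gen ((quoQ (List.range n))^[i] Y))
    · exact .inl (b na)
    · have h6 := c na
      have h7 := ih.2.resolve_left na
      exact .inr (by omega)

end Mainy

open Mainy in
theorem a_MAIN (h1 : S_SER) (h3 : S_SERP) (h4 : S_QUO) (h5 : S_DOWN) (hb : S_BASE)
    (hs : S_STEP) : S_MAIN := by
  intro ok C stage pad ud n Y Y' G G' hst inp hY' hpad
  have hn : 2 ≤ n := by
    have h6 := inp.rep.length_pos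
    have h7 := inp.lt
    omega
  constructor
  · intro h
    obtain ⟨m, rfl⟩ : ∃ m, n = m + 1 := ⟨n - 1, by omega⟩
    have e : (List.range (m + 1)).reverse = ((List.range m).map Nat.succ).reverse ++ [0] := by
      rw [List.range_succ_eq_map, List.reverse_cons]
    rw [mainP, e, List.foldl_append, List.foldl_cons, List.foldl_nil, List.take_zero] at h
    generalize List.foldl _ _ _ = st at h
    change (finP pad Y Y' _).2.isSome = true at h
    generalize stage _ _ _ _ _ _ _ _ = o at h
    rw [finP, clO, Option.isSome_map] at h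
    cases hi : isoB Y Y' o.2
    · simp [hi] at h
    · exact equiv_of_iso ((isoB_iff inp.rep hY').1 hi)
  · rintro ⟨e⟩
    have hc : Nat.card G' = Nat.card G := (Nat.card_congr e.toEquiv).symm
    have inp' : Inp ok ud.length n Y' G' :=
      ⟨hY', by rw [← hY'.card, hc, inp.rep.card]; exact inp.lt, inp.cd.of_equiv e,
        fun q hq hd => inp.ok q hq (hc ▸ hd)⟩
    have L := levels h1 h3 h4 h5 inp
    have L' := levels h1 h3 h4 h5 inp'
    have bg : Bg n ud.length pad := ⟨hn, le_trans (Nat.pow_le_pow_right (by omega)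
      (Nat.mul_le_mul_right _ (Nat.le_add_left _ _))) hpad⟩
    have key := fold_down (fun i st => StOk (gen ((quoQ (List.range n))^[i] Y))
      (gen ((quoQ (List.range n))^[i] Y')) ud.length n st)
      (fun st i => stepP stage pad ud (List.range n) st
        (dnN (List.range n) (Y, Y') ((List.range n).take i))) n (fun i hi st h => ?_)
      (baseP pad ud (dnN (List.range n) (Y, Y') (List.range n)).1
        (dnN (List.range n) (Y, Y') (List.range n)).2) ?_
    · rw [Function.iterate_zero_apply, Function.iterate_zero_apply, inp.rep.gen_eq,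
        hY'.gen_eq] at key
      obtain ⟨s, hs⟩ := iso_of_equiv inp.rep.finite e
      exact Option.isSome_iff_ne_none.2 fun h => key.iso.none h s hs
    · rw [Function.iterate_succ_apply', Function.iterate_succ_apply'] at h
      rw [dnN_eq, List.length_take, List.length_range, min_eq_left hi.le]
      exact hs ok C stage pad ud n _ _ _ _ st hst (L i).1 (L' i).1 hn hpad h
    · rw [dnN_eq, List.length_range]
      exact hb _ pad ud _ _ _ _ n (L n).1.rep (L' n).1.rep
        ((L n).2.resolve_right (by omega)) ((L' n).2.resolve_right (by omega)) (L n).1.cd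
        (L' n).1.cd (L n).1.lt (L' n).1.lt bg

end Pool.Agent.P.MP_f1a348_lc.AL
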