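import Pool.Agent.P.MP_f1a348_lc.AL.Iface

/-!
Project AL: the solver for multisets of points.
-/

namespace Pool.Agent.P.MP_f1a348_lc.AL

open Pool.Agent.P.MP_f1a348_lc.GI hiding Nm Good
open MulAction (stabilizer)

namespace Msety

variable {Γ Ξ : Type} [Group Γ] [MulAction Γ Ξ]

theorem perm_del {z : List ℕ} (hz : z.Nodup) {b : ℕ} (hb : b ∈ z) : z.Perm (b :: del z b) := by
  have := List.perm_cons_erase hb
  rw [hz.erase_eq_filter b] at this
  exact this

theorem perm_range (y : ℕ → Ξ) (k : ℕ) :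
    ((List.range (k + 1)).map y).Perm (y k :: (List.range k).map y) := by
  rw [List.range_succ, List.map_append]
  exact List.perm_append_singleton _ _

theorem ptr_iff {g : Γ} {L L' M M' : List Ξ} {a b : Ξ} (hM : M.Perm (a :: L))
    (hM' : M'.Perm (b :: L')) :
    g ∈ PTr Γ M M' ↔ (g • a :: L.map fun y => g • y).Perm (b :: L') :=
  ⟨fun h => ((hM.map fun y => g • y).symm.trans h).trans hM',
    fun h => ((hM.map fun y => g • y).trans h).trans hM'.symm⟩

theorem key {g : Γ} {L L' M M' : List Ξ} {a b : Ξ} (hM : M.Perm (a :: L))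
    (hM' : M'.Perm (b :: L')) (h : g ∈ PTr Γ L L') : g • a = b ↔ g ∈ PTr Γ M M' := by
  rw [ptr_iff hM hM']
  refine ⟨fun e => e ▸ List.Perm.cons _ h, fun e => ?_⟩
  have h1 : ([g • a] ++ L').Perm ([b] ++ L') := (List.Perm.cons _ (List.Perm.symm h)).trans e
  exact List.singleton_perm_singleton.1 ((List.perm_append_right_iff _).1 h1)

theorem her {g : Γ} {y y' : ℕ → Ξ} {k : ℕ} {z : List ℕ} (hz : z.Nodup)
    (h : g ∈ PTr Γ ((List.range (k + 1)).map y) (z.map y')) :
    ∃ b ∈ z, g ∈ PTr Γ ((List.range k).map y) ((del z b).map y') := by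
  have h1 : g • y k ∈ z.map y' := (List.Perm.mem_iff h).1
    (List.mem_map_of_mem (List.mem_map_of_mem (List.mem_range.2 k.lt_succ_self)))
  obtain ⟨b, hb, e⟩ := List.mem_map.1 h1
  have h2 := (ptr_iff (perm_range y k) ((perm_del hz hb).map y')).1 h
  rw [← e] at h2
  exact ⟨b, hb, h2.cons_inv⟩

theorem orc {Ω : Type} [MulAction (FP Ω) Ξ] {c : Cx Ω} {f : Sv Ω} {A : Subgroup (FP Ω)}
    {X : Set (FP Ω)} {y y' : ℕ → Ξ} {k b : ℕ} {z : List ℕ} (hz : z.Nodup) (hb : b ∈ z)
    (h : Good c f A X (stabilizer (FP Ω) (y k)) {g | g • y k = y' b}) :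
    Good c f (A ⊓ PSt (FP Ω) ((List.range k).map y))
      (X ∩ PTr (FP Ω) ((List.range k).map y) ((del z b).map y'))
      (PSt (FP Ω) ((List.range (k + 1)).map y))
      (PTr (FP Ω) ((List.range (k + 1)).map y) (z.map y')) :=
  h.mono (inf_le_right.trans inf_le_left) (fun _ _ hx => hx.1)
    (fun _ hu => key (perm_range y k) (perm_range y k) hu.2.2)
    fun x _ hx u hu => key (perm_range y k) ((perm_del hz hb).map y')
      ((cs_ptr _ _ x hx.2 _).2 (by rw [inv_mul_cancel_left]; exact hu.2.2))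

end Msety

open Msety in
theorem a_MSET (h : S_DP) : S_MSET := by
  intro Ω Ξ _ _ c p0 p r r' y y' A X hc hr hr' hX h0 h1
  refine h Ω c _ _ r r' A X (fun k => PSt (FP Ω) ((List.range k).map y))
    (fun k z => PTr (FP Ω) ((List.range k).map y) (z.map y))
    (fun k z => PTr (FP Ω) ((List.range k).map y) (z.map y')) hc hr hr' hX
    (fun _ _ _ _ => Iff.rfl) (fun u _ z => by simp [PTr]) (fun u _ z => by simp [PTr])
    (fun _ _ => ⟨(cs_ptr _ _).rc _ _, (cs_ptr _ _).rc _ _⟩) (fun k hk z hz => ?_)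
    fun k hk z hz => ?_
  all_goals have hn := List.nodup_range.sublist hz
  · exact ⟨fun g _ hg => her hn hg,
      fun b hb => orc hn hb (h0 k hk b (List.mem_range.1 (hz.subset hb)))⟩
  · exact ⟨fun g _ hg => her hn hg,
      fun b hb => orc hn hb (h1 k hk b (List.mem_range.1 (hz.subset hb)))⟩

end Pool.Agent.P.MP_f1a348_lc.AL
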