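import Pool.Agent.P.MP_f1a348_lc.AL.TINN

/-!
Project AL: the outer dynamic program.
-/

namespace Pool.Agent.P.MP_f1a348_lc.AL

open Pool.Agent.P.MP_f1a348_lc.GI hiding Nm Good
open scoped Pointwise
open MulAction (stabilizer)
open Inny

namespace Orcy

theorem perm_del {y : List ℕ} {b : ℕ} (h : y.Nodup) (hb : b ∈ y) : y.Perm (del y b ++ [b]) := by
  rw [del, ← h.erase_eq_filter]
  exact (List.perm_cons_erase hb).trans (List.perm_append_singleton _ _).symm

theorem del_range (k : ℕ) : del (List.range (k + 1)) k = List.range k := by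
  rw [del, List.range_succ, List.filter_append, List.filter_eq_self.2 fun a ha => by
    simpa using (List.mem_range.1 ha).ne]
  simp

section
variable {Γ Ξ : Type} [Group Γ] [MulAction Γ Ξ] {f : ℕ → Ξ} {g : Γ} {k b : ℕ} {y : List ℕ}

theorem ptr_succ (h : y.Nodup) (hb : b ∈ y) :
    g ∈ PTr Γ ((List.range (k + 1)).map f) (y.map f) ↔
      ((((List.range k).map f).map fun y => g • y) ++ [g • f k]).Perm
        ((del y b).map f ++ [f b]) := by
  have := (perm_del h hb).map f
  simp only [PTr, Set.mem_ofPred_eq, List.range_succ, List.map_append, List.map_cons,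
    List.map_nil] at this ⊢
  exact ⟨fun e => e.trans this, fun e => e.trans this.symm⟩

theorem ptr_iff (h : y.Nodup) (hb : b ∈ y)
    (hg : g ∈ PTr Γ ((List.range k).map f) ((del y b).map f)) :
    g • f k = f b ↔ g ∈ PTr Γ ((List.range (k + 1)).map f) (y.map f) := by
  rw [ptr_succ h hb]
  exact ⟨fun e => e ▸ List.Perm.append_right _ hg, fun e => by
    simpa using (List.perm_append_left_iff _).1 ((List.Perm.append_right _ hg).symm.trans e)⟩

theorem ptr_pred (h : y.Nodup) (hg : g ∈ PTr Γ ((List.range (k + 1)).map f) (y.map f)) :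
    ∃ b ∈ y, g • f k = f b ∧ g ∈ PTr Γ ((List.range k).map f) ((del y b).map f) := by
  obtain ⟨b, hb, e⟩ := List.mem_map.1 ((List.Perm.mem_iff (a := g • f k) hg).1
    (List.mem_map_of_mem (List.mem_map_of_mem (List.self_mem_range_succ))))
  refine ⟨b, hb, e.symm, ?_⟩
  rw [ptr_succ h hb, ← e] at hg
  exact (List.perm_append_right_iff _).1 hg

theorem cs_cj (E E' : Set Γ) : Cs (Subgroup.normalizer E) {g | Cj g E E'} := fun g hg h =>
  ⟨fun hh z => (hh z).symm.trans (by simpa [mul_assoc] using hg (g⁻¹ * h * z * (g⁻¹ * h)⁻¹)),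
    fun hh z => by simpa [mul_assoc] using (hg (g⁻¹ * h * z * (g⁻¹ * h)⁻¹)).trans (hh z).symm⟩
end

variable {U : Type} [Group U] {T : ℕ → Subgroup U} {t k b : ℕ} {Y Y' : Subgroup (FP U)}
  {y : List ℕ} {s : FP U}

theorem mem_YD : s ∈ YD T t Y y ↔ s ∈ Y ∧ ∀ i < t, i ∉ y → s ∈ Fix (T i : Set U) :=
  and_congr_right fun _ => ⟨fun h i hi hy x hx => h x ⟨i, hi, hy, hx⟩,
    fun h x ⟨i, hi, hy, hx⟩ => h i hi hy x hx⟩

theorem yd_del (hb : b < t) : YD T t Y y ⊓ Fix (T b : Set U) = YD T t Y (del y b) := by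
  ext s
  simp only [Subgroup.mem_inf, mem_YD, del, List.mem_filter, bne_iff_ne, not_and, not_not]
  exact ⟨fun h => ⟨h.1.1, fun i hi e => by
    by_cases hy : i ∈ y
    exacts [e hy ▸ h.2, h.1.2 i hi hy]⟩, fun h =>
    ⟨⟨h.1, fun i hi e => h.2 i hi fun e' => absurd e' e⟩, h.2 b hb fun _ => rfl⟩⟩

theorem yd_all : YD T t Y (List.range t) = Y := Subgroup.ext fun _ =>
  mem_YD.trans (and_iff_left fun _ hi h => absurd (List.mem_range.2 hi) h)

theorem yd_nil (h : Y ≤ GG T t) : YD T t Y [] = ⊥ := (Subgroup.eq_bot_iff_forall _).2 fun s hs =>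
  FP.ext fun x => by
    by_cases hx : x ∈ Om T t
    · obtain ⟨i, hi, hx⟩ := hx
      exact hs.2 x ⟨i, hi, List.not_mem_nil, hx⟩
    · exact (h hs.1).1 x hx

omit [Group U] in
theorem cj_fix {X X' : Set U} (h : Cj s (Y : Set (FP U)) Y') (hm : Mp s X X') :
    Cj s (Y ⊓ Fix X : Subgroup (FP U)) (Y' ⊓ Fix X' : Subgroup (FP U)) := fun y =>
  and_congr (h y) ⟨fun e => by simpa [mul_assoc] using fix_cj hm.inv e, fix_cj hm⟩

theorem cs_oT : Cs (oSt T t Y k) (oT T t Y Y' k y) := fun g hg h =>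
  and_congr (cs_ptr _ _ g hg.1 h) (cs_cj _ _ g hg.2 h)

theorem oT_zero (h : Y ≤ GG T t) (h' : Y' ≤ GG T t) : s ∈ oT T t Y Y' 0 y ↔ y = [] :=
  ⟨fun e => by simpa using List.Perm.length_eq e.1 |>.symm, fun e => ⟨by simp [e, PTr], by
    rw [e, List.range_zero, yd_nil h, yd_nil h']
    intro y
    simp⟩⟩

theorem rep_yd [DecidableEq U] {c : Cx U} {Ts : List (List U)} {D : Subgroup U} {d : ℕ}
    (hB : BX c Ts D T t d) {Yl : List (FP U)} (h : Rep Yl Y) (y : List ℕ) :
    Rep (ydP Ts Yl y) (YD T t Y y) := h.filter fun s => by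
  simp only [mem_YD, hB.len, List.all_eq_true, List.mem_range, Bool.or_eq_true,
    List.contains_iff_mem, or_iff_not_imp_left]
  exact and_congr_right fun _ => forall₂_congr fun i hi =>
    imp_congr_right fun _ => (fixB_iff (hB.rep i hi).mem).symm

end Orcy
open Orcy

theorem a_ORC (hb : S_BB) (ho : S_ORCQ) (hd : S_DP) : S_ORC ∧ S_OUT := by
  have P : S_ORC := by
    intro U _ _ c Ts D T t d hB Yl Yl' Y Y' r r' le le' k hk y hy
    have hn : y.Nodup := hy.nodup List.nodup_range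
    have hlt : ∀ b ∈ y, b < t := fun b h => List.mem_range.1 (hy.subset h)
    have e0 : YD T t Y (List.range (k + 1)) ⊓ Fix (T k : Set U) = YD T t Y (List.range k) := by
      rw [yd_del hk, del_range]
    refine ⟨fun g _ hg => ?_, fun b hb => ?_⟩
    · obtain ⟨b, hb, h1, h2⟩ := ptr_pred hn hg.1
      refine ⟨b, hb, h2, ?_⟩
      rw [← e0, ← yd_del (hlt b hb)]
      exact cj_fix hg.2 (smul_eq_iff_mp.1 h1)
    · rw [orcP, hB.len, List.take_range, List.take_range, min_eq_left hk.le, min_eq_left hk]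
      refine (ho U c Ts D T t d hB _ _ _ (YD T t Y (List.range (k + 1))) (YD T t Y' y) k b
        ⟨e0 ▸ rep_yd hB r _, rep_yd hB r _, rep_yd hB r' _, inf_le_left.trans le,
          inf_le_left.trans le', hk, hlt b hb⟩).mono (fun u hu => ⟨hu.2.1, e0 ▸ hu.2.2.2⟩)
        (fun x _ hx => ⟨hx.1, by rw [e0, yd_del (hlt b hb)]; exact hx.2.2⟩)
        (fun u hu => and_congr_left' ?_) fun x _ hx u hu => and_congr_left' ?_
      · exact ptr_iff (f := fun i => (T i : Set U)) List.nodup_range List.self_mem_range_succ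
          (by rw [del_range]; exact hu.2.2.1)
      · exact smul_eq_iff_mp.symm.trans (ptr_iff (f := fun i => (T i : Set U)) hn hb
          ((cs_ptr _ _ x hx.2.1 _).2 (by simpa using hu.2.2.1)))
  refine ⟨P, ?_⟩
  intro U _ _ c Ts D T t d hB Yl Yl' Y Y' r r' le le'
  obtain ⟨-, -, b3, -, -, b6⟩ := hb U c Ts D T t d hB
  have all : ∀ s ∈ GG T t, s ∈ PTr (FP U) ((List.range t).map fun i => (T i : Set U))
      ((List.range t).map fun i => (T i : Set U)) := fun s hs =>
    b6 _ _ _ s hs fun _ _ _ _ => smul_eq_iff_mp.2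
  rw [outP, hB.len]
  refine (hd U c _ _ t t (GG T t) (GG T t) (oSt T t Y) (oT T t Y Y) (oT T t Y Y') hB.ok b3 b3
    (cl_self _) (fun k _ u _ => and_congr_right fun _ => forall_congr' fun _ => Iff.comm)
    (fun _ _ _ => oT_zero le le) (fun _ _ _ => oT_zero le le')
    (fun _ _ => ⟨cs_oT.rc _ _, cs_oT.rc _ _⟩) (P U c Ts D T t d hB _ _ Y Y r r le le)
    (P U c Ts D T t d hB _ _ Y Y' r r' le le')).mono inf_le_right (fun _ _ h => h)
    (fun u hu => ?_) fun x _ hx u hu => ?_
  · rw [oSt, yd_all]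
    exact and_iff_right (all u hu.2)
  · rw [oT, yd_all, yd_all]
    exact and_iff_right (all _ (mul_mem hx hu.2))

end Pool.Agent.P.MP_f1a348_lc.AL
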