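import Pool.Agent.P.MP_f1a348_lc.AL.PSv

/-!
Project AL: the base and the certificate run in polynomial time.
-/

namespace Pool.Agent.P.MP_f1a348_lc.AL

open Pool.Agent.P.MP_f1a348_lc.GI hiding Nm Good
open Pool.Agent.Lib.Helper47

set_option linter.unusedSectionVars false

namespace Pbasey
variable {α U : Type} [Enc α] [Group U] [DecidableEq U] [Enc U] [PG U] {A B C D : α → List U}
  {c : α → Cx U} {Ts : α → List (List U)} {Y0 Y Y' S : α → List (FP U)} {y y' : α → FP U}
  {a b e e' : α → ℕ}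

@[fun_prop] theorem pt_socP (h : PT A) : PT fun a => socP (A a) := by unfold socP; fun_prop

@[fun_prop] theorem pt_atomsP (h : PT A) : PT fun a => atomsP (A a) := by unfold atomsP; fun_prop

@[fun_prop] theorem pt_ggB (h : PT Ts) (h' : PT y) : PT fun a => ggB (Ts a) (y a) := by
  unfold ggB; fun_prop

@[fun_prop] theorem pt_tauP (h1 : PT A) (h2 : PT B) (h3 : PT C) (h4 : PT D) :
    PT fun a => tauP (A a) (B a) (C a) (D a) := by
  unfold tauP; fun_prop

@[fun_prop] theorem pt_ggP {ud : α → List Unit} (h1 : PT c) (h2 : PT ud) (h3 : PT Ts) :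
    PT fun a => ggP (c a) (ud a) (Ts a) := by
  unfold ggP; fun_prop

@[fun_prop] theorem pt_cjP {g : α → U} (h1 : PT A) (h2 : PT g) : PT fun a => cjP (A a) (g a) := by
  unfold cjP; fun_prop

@[fun_prop] theorem pt_ydP {z : α → List ℕ} (h1 : PT Ts) (h2 : PT Y) (h3 : PT z) :
    PT fun a => ydP (Ts a) (Y a) (z a) := by
  unfold ydP; fun_prop

@[fun_prop] theorem pt_eP (h1 : PT Ts) (h2 : PT Y) (h3 : PT a) (h4 : PT e) :
    PT fun x => eP (Ts x) (Y x) (a x) (e x) := by
  unfold eP; fun_prop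

theorem pv_resS (h1 : PT c) (h2 : PT Ts) (h3 : PT y) (h4 : PT y') (h5 : PT a) (h6 : PT b) :
    PV fun x => resS (c x) (Ts x) (y x) (y' x) (a x) (b x) :=
  pv_small h1 (by fun_prop) (by fun_prop)

theorem pv_centP (h1 : PT c) (h2 : PT Ts) (h3 : PT y) (h4 : PT y') :
    PV fun x => centP (c x) (Ts x) (y x) (y' x) :=
  pv_mset h1 (pv_resS (by fun_prop) (by fun_prop) (by fun_prop) (by fun_prop) (by fun_prop)
    (by fun_prop)) (pv_resS (by fun_prop) (by fun_prop) (by fun_prop) (by fun_prop) (by fun_prop)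
    (by fun_prop)) (by fun_prop) (by fun_prop)

theorem pv_cosP (h1 : PT c) (h2 : PT Ts) (h3 : PT Y0) (h4 : PT Y') (h5 : PT y) :
    PV fun x => cosP (c x) (Ts x) (Y0 x) (Y' x) (y x) :=
  pv_uni (pv_centP (by fun_prop) (by fun_prop) (by fun_prop) (by fun_prop)) (by fun_prop) h4

theorem pv_innP (h1 : PT c) (h2 : PT Ts) (h3 : PT Y0) (h4 : PT Y) (h5 : PT a) (h6 : PT e)
    (h7 : PT Y') (h8 : PT b) (h9 : PT e') :
    PV fun x => innP (c x) (Ts x) (Y0 x) (Y x) (a x) (e x) (Y' x) (b x) (e' x) :=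
  pv_seq2 (pv_small h1 (by fun_prop) (by fun_prop)) (pv_seq h1 (pv_cosP (by fun_prop)
    (by fun_prop) (by fun_prop) (by fun_prop) (by fun_prop)) (by fun_prop))

theorem pv_ptzP (h1 : PT c) (h2 : PT Ts) (h3 : PT Y0) (h4 : PT Y) (h5 : PT a) (h7 : PT Y')
    (h8 : PT b) (h6 : PT e) (h9 : PT e') :
    PV fun x => ptzP (c x) (Ts x) (Y0 x) (Y x) (a x) (Y' x) (b x) (e x) (e' x) :=
  pv_cover h1 (by fun_prop) (pv_innP h1 h2 h3 h4 h5 h6 h4 h5 h6)
    (pv_innP h1 h2 h3 h4 h5 h6 h7 h8 h9)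

theorem pv_orcQ (h1 : PT c) (h2 : PT Ts) (h3 : PT Y0) (h4 : PT Y) (h5 : PT a) (h7 : PT Y')
    (h8 : PT b) : PV fun x => orcQ (c x) (Ts x) (Y0 x) (Y x) (a x) (Y' x) (b x) :=
  pv_seq2 (pv_small h1 (by fun_prop) (by fun_prop)) (pv_mset h1
    (pv_ptzP (by fun_prop) (by fun_prop) (by fun_prop) (by fun_prop) (by fun_prop) (by fun_prop)
      (by fun_prop) (by fun_prop) (by fun_prop))
    (pv_ptzP (by fun_prop) (by fun_prop) (by fun_prop) (by fun_prop) (by fun_prop) (by fun_prop)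
      (by fun_prop) (by fun_prop) (by fun_prop)) (by fun_prop) (by fun_prop))

theorem pv_orcP {z : α → List ℕ} (h1 : PT c) (h2 : PT Ts) (h4 : PT Y) (h7 : PT Y') (h5 : PT a)
    (h6 : PT z) (h8 : PT b) : PV fun x => orcP (c x) (Ts x) (Y x) (Y' x) (a x) (z x) (b x) :=
  pv_orcQ h1 h2 (by fun_prop) (by fun_prop) h5 (by fun_prop) h8

theorem pv_outP (h1 : PT c) (h2 : PT Ts) (h4 : PT Y) (h7 : PT Y') :
    PV fun x => outP (c x) (Ts x) (Y x) (Y' x) :=
  pv_dp h1 (pv_orcP (by fun_prop) (by fun_prop) (by fun_prop) (by fun_prop) (by fun_prop)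
    (by fun_prop) (by fun_prop)) (pv_orcP (by fun_prop) (by fun_prop) (by fun_prop) (by fun_prop)
    (by fun_prop) (by fun_prop) (by fun_prop)) (by fun_prop) (by fun_prop)

@[fun_prop] theorem pt_bkP {Γ : Type} [Group Γ] [DecidableEq Γ] [Enc Γ] [PG Γ]
    {t t' : α → List (U × Γ)} {s : α → Γ} (h1 : PT t) (h2 : PT t') (h3 : PT s) :
    PT fun a => bkP (t a) (t' a) (s a) := by
  unfold bkP; fun_prop

@[fun_prop] theorem pt_baseR {c : α → Cx (U × U)} {ud : α → List Unit}
    {Ts : α → List (List (U × U))} {t t' : α → List (U × FP (U × U))} (h1 : PT c) (h2 : PT ud)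
    (h3 : PT Ts) (h4 : PT t) (h5 : PT t') : PT fun a => baseR (c a) (ud a) (Ts a) (t a) (t' a) := by
  have h : PT fun a => outP (c a) (Ts a) ((t a).map Prod.snd) ((t' a).map Prod.snd)
      (ggP (c a) (ud a) (Ts a)) 1 :=
    (pv_outP h1 h3 (by fun_prop) (by fun_prop)).app PT.id (by fun_prop) (by fun_prop)
  exact PT.prodMk (PT.map (by fun_prop) (PT.fst h)) (PT.optMap (PT.snd h) (by fun_prop))

@[fun_prop] theorem pt_iclP (h1 : PT A) (h2 : PT S) (h3 : PT B) :
    PT fun a => iclP (A a) (S a) (B a) :=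
  PT.iterate_inv (f := fun a X => iclStep (A a) (S a) X) (by unfold iclStep; fun_prop) h1 h3
    (fun a X => size X ≤ size (A a) + size (B a)) (fun _ => Nat.le_add_left _ _)
    (fun _ _ _ => (size_sublist (clo_sublist _ _)).trans (Nat.le_add_right _ _)) _
    (h1.size_le.add h3.size_le) fun _ _ h => h

theorem size_iclP (Y : List U) (S : List (FP U)) (X : List U) :
    size (iclP Y S X) ≤ size Y ∨ iclP Y S X = X := by
  unfold iclP
  cases Y.length with
  | zero => exact .inr rfl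
  | succ k => rw [Function.iterate_succ_apply']; exact .inl (size_sublist (clo_sublist _ _))

theorem pt_grdP {ok : α → List U → Bool} (h1 : PT A) (h2 : PT S)
    (h3 : PT fun p : α × List U => ok p.1 p.2) (h4 : PT B) (h5 : PT C) :
    PT fun a => grdP (A a) (S a) (ok a) (B a) (C a) :=
  PT.foldl_add (f := fun a X g => bif ok a (iclP (A a) (S a) (g :: X)) then
      iclP (A a) (S a) (g :: X) else X)
    (PT.cond (pt_app2 h3 (by fun_prop) (by fun_prop)) (by fun_prop) (by fun_prop)) h5 h4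
    (fun a => size (A a) + size (C a)) (h1.size_le.add h5.size_le) fun a X g hg => by
      have h6 := size_lt_of_mem hg
      have h7 : size (iclP (A a) (S a) (g :: X)) ≤ size X + (size (A a) + size (C a)) :=
        (size_iclP (A a) (S a) (g :: X)).elim (fun h => by omega) fun h => by rw [h, size_cons]; omega
      cases ok a (iclP (A a) (S a) (g :: X))
      exacts [Nat.le_add_right _ _, h7]

@[fun_prop] theorem pt_zP (h1 : PT A) (h2 : PT S) (h4 : PT B) (h5 : PT C) :
    PT fun a => zP (A a) (S a) (B a) (C a) := pt_grdP h1 h2 (by fun_prop) h4 h5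

@[fun_prop] theorem pt_aP (h1 : PT A) (h2 : PT S) (h4 : PT B) (h5 : PT C) (h6 : PT D) :
    PT fun a => aP (A a) (S a) (B a) (C a) (D a) := pt_grdP h1 h2 (by fun_prop) h6 h5

@[fun_prop] theorem pt_bbP (h1 : PT Ts) (h2 : PT A) : PT fun a => bbP (Ts a) (A a) := by
  unfold bbP gdB cm; fun_prop

@[fun_prop] theorem pt_atP {Os : α → List (List U)} (h1 : PT Os) (h2 : PT A) (h3 : PT Ts)
    (h4 : PT B) (h5 : PT C) : PT fun a => atP (Os a) (A a) (Ts a) (B a) (C a) := by
  unfold atP cm; fun_prop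

end Pbasey

open Pbasey

theorem a_PBASE : P_BASE := fun U _ _ _ _ => by unfold baseP baseQ; fun_prop

theorem a_PCERT : P_CERT := fun U _ _ _ _ => ⟨by unfold atQ; fun_prop,
  pt_treeP (by unfold mv3; fun_prop) (by unfold kt3; fun_prop) (by fun_prop) (by fun_prop)
    (by fun_prop)⟩

end Pool.Agent.P.MP_f1a348_lc.AL
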