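import Pool.Agent.P.MP_f1a348_lc.AL.PSv

/-!
Project AL: the main loop runs in polynomial time.
-/

namespace Pool.Agent.P.MP_f1a348_lc.AL

open Pool.Agent.P.MP_f1a348_lc.GI hiding Nm Good
open Pool.Agent.Lib.Helper47

set_option linter.unusedSectionVars false

namespace Pmainy
variable {α : Type} [Enc α] {R z : α → List ℕ} {pad ud : α → List Unit} {Y Y' F : α → List UU}
  {x : α → UU} {p : α → List UU × List UU} {stage : StageTy}

@[fun_prop] theorem pt_prsP (h : PT R) : PT fun a => prsP (R a) := by unfold prsP; fun_prop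

@[fun_prop] theorem pt_ucP (h1 : PT ud) (h2 : PT R) : PT fun a => ucP (ud a) (R a) := by
  unfold ucP; fun_prop

@[fun_prop] theorem pt_idxP (h1 : PT Y) (h2 : PT F) (h3 : PT x) :
    PT fun a => idxP (Y a) (F a) (x a) := by
  unfold idxP; fun_prop

@[fun_prop] theorem pt_piP (h1 : PT Y) (h2 : PT F) (h3 : PT x) :
    PT fun a => piP (Y a) (F a) (x a) := by
  unfold piP; fun_prop

@[fun_prop] theorem pt_tbP (h1 : PT Y) (h2 : PT F) : PT fun a => tbP (Y a) (F a) := by
  unfold tbP; fun_prop

@[fun_prop] theorem pt_sideP (h1 : PT R) (h2 : PT Y) : PT fun a => sideP (R a) (Y a) := by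
  unfold sideP; fun_prop

@[fun_prop] theorem pt_quoQ (h1 : PT R) (h2 : PT Y) : PT fun a => quoQ (R a) (Y a) := by
  unfold quoQ quoP; fun_prop

theorem pt_finP {o : α → List (FP UU) × FP UU} (h1 : PT pad) (h2 : PT Y) (h3 : PT Y') (h4 : PT o) :
    PT fun a => finP (pad a) (Y a) (Y' a) (o a) := by
  unfold finP; fun_prop

theorem pt_stepQ {Os TT : α → List (List UU)} {top : α → List (FP UU) × FP UU} (hc : P_CERT)
    (hs : P_STAGE stage) (h1 : PT pad) (h2 : PT ud) (h3 : PT R) (h4 : PT Y) (h5 : PT Y')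
    (h6 : PT Os) (h7 : PT top) (h8 : PT F) (h9 : PT TT) : PT fun a =>
      stepQ stage (pad a) (ud a) (R a) (Y a) (Y' a) (Os a) (top a) (F a) (TT a) := by
  have k1 : PT fun q : α × List (FP UU) => atQ (Os q.1) (top q.1).1 (F q.1) (TT q.1) :=
    (hc UU).1.comp (g := fun q : α × List (FP UU) => (Os q.1, (top q.1).1, F q.1, TT q.1))
      (by fun_prop)
  have k2 : PT fun q : α × List (FP UU) =>
      cfP (pad q.1) (Y q.1) (atQ (Os q.1) (top q.1).1 (F q.1) (TT q.1)) q.2 :=
    (hc UU).2.comp (g := fun q : α × List (FP UU) =>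
      (pad q.1, Y q.1, atQ (Os q.1) (top q.1).1 (F q.1) (TT q.1), q.2))
      (PT.prodMk (by fun_prop) (PT.prodMk (by fun_prop) (PT.prodMk k1 (by fun_prop))))
  exact PT.prodMk (pt_finP h1 h4 h5 (hs α _ _ _ _ _
    (fun a => cfP (pad a) (Y a) (atQ (Os a) (top a).1 (F a) (TT a))) _ _ h1 (pt_ucP h2 h3) h3 h6
    (pt_prsP h3) k2 (PT.fst h7) (PT.snd h7))) (PT.prodMk h8 h9)

theorem pt_stepP {st : α → St UU} (ht : P_TOP) (hc : P_CERT) (hs : P_STAGE stage) (h1 : PT pad)
    (h2 : PT ud) (h3 : PT R) (h4 : PT st) (h5 : PT p) :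
    PT fun a => stepP stage (pad a) (ud a) (R a) (st a) (p a) :=
  pt_stepQ hc hs h1 h2 h3 (PT.fst h5) (PT.snd h5) (by fun_prop)
    ((ht UU).comp (g := fun a => (pad a, sideP (R a) (p a).1, sideP (R a) (p a).2,
      quoQ (R a) (p a).1, quoQ (R a) (p a).2, (st a).1)) (by fun_prop)) (by fun_prop) (by fun_prop)

theorem size_piP {Y : List UU} (F : List UU) (g : UU) {n : ℕ} (h : Y.length < n) :
    size (piP Y F g) ≤ b1 (size (List.range n)) :=
  FP.size_le fun a ha => by_contra fun hn => ha (FP.ofList_fix fun q hq => by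
    obtain ⟨x, -, rfl⟩ := List.mem_map.1 hq
    have k : ∀ y, idxP Y F y ≠ a := fun y e =>
      hn (List.mem_range.2 (e ▸ lt_of_le_of_lt List.findIdx_le_length h))
    exact ⟨k _, k _⟩)

theorem size_quoQ (R : List ℕ) {Y : List UU} {n : ℕ} (h : Y.length < n) :
    (quoQ R Y).length < n ∧ size (quoQ R Y) ≤ b2 (size (List.range n)) := by
  have h1 : (quoQ R Y).Sublist (Y.map (piP Y (gO (serP R Y) 1))) := (ded_spec _).2.1
  have h2 := h1.length_le
  have h3 := length_lt_size (List.range n)
  rw [List.length_map] at h2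
  rw [List.length_range] at h3
  refine ⟨h2.trans_lt h, (size_list_le (B := b1 (size (List.range n))) fun x hx => ?_).trans
    (Nat.add_le_add_right (Nat.mul_le_mul_right _ (by omega)) _)⟩
  obtain ⟨g, -, rfl⟩ := List.mem_map.1 (h1.subset hx)
  exact size_piP _ _ h

/-- a bound for all levels -/
noncomputable def bd (p : List UU × List UU) : ℕ :=
  size p + 2 * b2 (size (List.range (1 :: (p.1 ++ p.2)).length)) + 1

theorem ps_bd (h : PT p) : PS fun a => bd (p a) :=
  (h.size_le.add ((PB.const 2).mul (pb_b2 (PT.size_le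
    (f := fun a => List.range (1 :: ((p a).1 ++ (p a).2)).length) (by fun_prop))))).add (PB.const 1)

theorem size_dnN (R : List ℕ) (p : List UU × List UU) (u : List ℕ) : size (dnN R p u) ≤ bd p := by
  have key : (dnN R p u).1.length < (1 :: (p.1 ++ p.2)).length ∧
      (dnN R p u).2.length < (1 :: (p.1 ++ p.2)).length ∧ size (dnN R p u) ≤ bd p := by
    induction u using List.reverseRecOn with
    | nil =>
      simp only [dnN, List.foldl_nil, List.length_cons, List.length_append, bd]
      omega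
    | append_singleton u x ih =>
      rw [show dnN R p (u ++ [x]) = (quoQ R (dnN R p u).1, quoQ R (dnN R p u).2) from
        List.foldl_append, size_pair, bd]
      have h1 := size_quoQ R ih.1
      have h2 := size_quoQ R ih.2.1
      exact ⟨h1.1, h2.1, by omega⟩
  exact key.2.2

@[fun_prop] theorem pt_dnN (h1 : PT R) (h2 : PT p) (h3 : PT z) :
    PT fun a => dnN (R a) (p a) (z a) :=
  PT.foldl (f := fun a (q : List UU × List UU) (_ : ℕ) => (quoQ (R a) q.1, quoQ (R a) q.2))
    (by fun_prop) h3 h2 _ (ps_bd h2) fun a u _ => size_dnN (R a) (p a) u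

theorem b3_mono {m n : ℕ} (h : m ≤ n) : b3 m ≤ b3 n := by
  unfold b3 b2 b1; gcongr

theorem size_stepP (stage : StageTy) (pad ud : List Unit) (R : List ℕ) (st : St UU)
    {q : List UU × List UU} {D n : ℕ} (h : size q ≤ D) (hn : st.2.2.length ≤ n) :
    (stepP stage pad ud R st q).2.2.length ≤ n ∧
      size (stepP stage pad ud R st q) ≤ b3 (size pad + D) + D + n * (D + 1) + 3 := by
  have h1 := size_prod q
  have h2 := size_append q.1 q.2
  have h3 : ∀ X, size (preP q.1 (sideP R q.1).2 X) ≤ D := fun X =>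
    (size_sublist List.filter_sublist).trans (by omega)
  have h4 : size (stepP stage pad ud R st q).1 ≤ b3 (size pad + D) :=
    (size_clO _ _).trans (b3_mono (by rw [size_pair]; omega))
  have h5 : size (stepP stage pad ud R st q).2.1 ≤ D := h3 _
  have h6 : (stepP stage pad ud R st q).2.2.length ≤ n := (List.length_map _).trans_le hn
  have h7 : size (stepP stage pad ud R st q).2.2 ≤ n * (D + 1) + 1 :=
    (size_list_le (B := D) fun x hx => by
      obtain ⟨X, -, rfl⟩ := List.mem_map.1 hx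
      exact h3 X).trans (Nat.add_le_add_right (Nat.mul_le_mul_right _ h6) _)
  refine ⟨h6, ?_⟩
  rw [size_prod, size_prod (stepP stage pad ud R st q).2]
  omega

theorem pt_loop {s : α → St UU} (ht : P_TOP) (hc : P_CERT) (hs : P_STAGE stage) (h1 : PT pad)
    (h2 : PT ud) (h3 : PT R) (h4 : PT s) (h5 : PT p) : PT fun a => (R a).reverse.foldl
      (fun st i => stepP stage (pad a) (ud a) (R a) st (dnN (R a) (p a) ((R a).take i))) (s a) := by
  have s1 := h4.size_le
  have s2 := ps_bd h5
  refine PT.foldl_inv (f := fun a st i =>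
      stepP stage (pad a) (ud a) (R a) st (dnN (R a) (p a) ((R a).take i)))
    (pt_stepP ht hc hs (by fun_prop) (by fun_prop) (by fun_prop) (by fun_prop) (by fun_prop))
    (PT.reverse h3) h4 (fun a t => t.2.2.length ≤ size (s a) ∧ size t ≤ size (s a) +
      (b3 (size (pad a) + bd (p a)) + bd (p a) + size (s a) * (bd (p a) + 1) + 3))
    (fun a => ⟨?_, Nat.le_add_right _ _⟩) (fun a t i _ h => ?_) _
    (s1.add ((((pb_b3 (h1.size_le.add s2)).add s2).add (s1.mul (s2.add (PB.const 1)))).add
      (PB.const 3))) fun _ _ h => h.2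
  · have := length_lt_size (s a).2.2
    rw [size_prod (s a), size_prod (s a).2]
    omega
  · exact (size_stepP stage _ _ _ t (size_dnN _ _ _) h.1).imp_right
      fun e => e.trans (Nat.le_add_left _ _)

end Pmainy

open Pmainy in
theorem a_PMAIN (h1 : P_TOP) (h2 : P_CERT) (h3 : P_BASE) : P_MAIN := fun _ hs =>
  PT.isSome (PT.snd (PT.fst (pt_loop h1 h2 hs (by fun_prop) (by fun_prop) (by fun_prop)
    ((h3 UU).comp (g := fun a : List Unit × List Unit × List ℕ × List UU × List UU =>
      (a.1, a.2.1, dnN a.2.2.1 a.2.2.2 a.2.2.1)) (by fun_prop)) (by fun_prop))))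

end Pool.Agent.P.MP_f1a348_lc.AL
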