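import Pool.Agent.P.MP_f1a348_lc.AL.TINN

/-!
Project AL: the oracle of the outer dynamic program.
-/

namespace Pool.Agent.P.MP_f1a348_lc.AL

open Pool.Agent.P.MP_f1a348_lc.GI hiding Nm Good
open scoped Pointwise
open MulAction (stabilizer)
open Inny

namespace Ptzy
variable {U : Type} [Group U] {T : ℕ → Subgroup U} {t a b : ℕ} {Y Y' : Subgroup (FP U)}

theorem cl_o : Cl (oA T t Y a) (oX T t Y Y' a b) := fun x hx u hu =>
  ⟨mul_mem hx.1 hu.1, fun y => by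
    simpa only [mul_inv_rev, mul_assoc] using (hx.2 (u * y * u⁻¹)).trans (hu.2 y).symm⟩

theorem cl_o' : Cl (oA T t Y a ⊓ stabilizer (FP U) (T a : Set U))
    (oX T t Y Y' a b ∩ {x | Mp x (T a) (T b)}) := fun x hx u hu =>
  ⟨cl_o x hx.1 u hu.1, hx.2.mul (smul_eq_iff_mp.1 hu.2)⟩

theorem self_o {u : FP U} (h : u ∈ oA T t Y a ⊓ stabilizer (FP U) (T a : Set U)) :
    u ∈ oX T t Y Y a a ∩ {x | Mp x (T a) (T a)} :=
  ⟨⟨h.1.1, fun y => (h.1.2 y).symm⟩, smul_eq_iff_mp.1 h.2⟩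

theorem OX.self {Y0l Yl Yl' : List (FP U)} (h : OX T t Y0l Yl Yl' Y Y' a b) :
    OX T t Y0l Yl Yl Y Y a a := ⟨h.r0, h.r, h.r, h.le, h.le, h.a, h.a⟩

theorem cj_of_ptr {s : FP U} (h : Y ≤ GG T t) (h' : Y' ≤ GG T t) (ha : a < t) (hb : b < t)
    (hs : s ∈ PTr (FP U) ((List.range t).map (zp T Y a)) ((List.range t).map (zp T Y' b))) :
    Cj s (Y : Set (FP U)) Y' := fun y => by
  have e := fun z => List.Perm.mem_iff (a := z) hs
  simp only [List.mem_map, List.mem_range, exists_exists_and_eq_and] at e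
  refine ⟨fun hy => ?_, fun hy => ?_⟩
  · obtain ⟨k, hk, h1⟩ := (h' hy).2.1 b hb
    obtain ⟨i, -, h2⟩ := (e _).2 ⟨k, hk, rfl⟩
    exact (((zp_smul.1 h2).2 y).1 ⟨hy, h1.mp⟩).1
  · obtain ⟨k, hk, h1⟩ := (h hy).2.1 a ha
    obtain ⟨i, -, h2⟩ := (e _).1 ⟨k, hk, rfl⟩
    exact (((zp_smul.1 h2.symm).2 y).2 ⟨hy, h1.mp⟩).1

theorem zp_of_cj {s : FP U} {i k : ℕ} (h : Cj s (Y : Set (FP U)) Y') (h1 : Mp s (T a) (T b))
    (h2 : Mp s (T i) (T k)) : s • zp T Y a i = zp T Y' b k :=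
  zp_smul.2 ⟨h2, fun y => and_congr (h y) ⟨fun h3 => by
    simpa [mul_assoc] using (h2.inv.mul h3).mul h1, fun h3 => (h2.mul h3).mul h1.inv⟩⟩

end Ptzy
open Ptzy

theorem a_PTZ (hb : S_BB) (hi : S_INN) (hc : S_COVER) (hm : S_MSET) (h2 : S_SEQ2) :
    S_PTZ ∧ S_ORCQ := by
  have P : S_PTZ := by
    intro U _ _ c Ts D T t d hB Y0l Yl Yl' Y Y' a b hO e he e' he'
    obtain ⟨-, b2, -, b4, -⟩ := hb U c Ts D T t d hB
    refine hc U c _ _ _ _ (Fix (T a : Set U) ⊓ Fix (T e : Set U)) _ _ _ hB.ok (fun u _ => ?_)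
      (le_trans (idx_mono (fun _ h => h.2.1.1) b2) (b4 a hO.a e he)) cl_o' ?_ ?_
    · rw [Bool.and_eq_true, fixB_iff (A := T a) (hB.rep a hO.a).mem,
        fixB_iff (A := T e) (hB.rep e he).mem, Subgroup.mem_inf]
    · exact (hi U c Ts D T t d hB _ _ _ _ _ _ _ (OX.self hO) e he e he).mono
        (fun _ h => ⟨h.2.1.1, h.2.2⟩) (fun _ _ h => self_o h) (fun _ _ => Iff.rfl)
        fun _ _ _ _ _ => Iff.rfl
    · exact (hi U c Ts D T t d hB _ _ _ _ _ _ _ hO e he e' he').mono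
        (fun _ h => ⟨h.2.1.1, h.2.2⟩) (fun _ _ h => h) (fun _ _ => Iff.rfl)
        fun _ _ _ _ _ => Iff.rfl
  refine ⟨P, ?_⟩
  intro U _ _ c Ts D T t d hB Y0l Yl Yl' Y Y' a b hO
  obtain ⟨-, b2, b3, b4, -, b6⟩ := hb U c Ts D T t d hB
  have im : ∀ i < t, ∀ k < t, ∀ s : FP U, imB s (gO Ts i) (gO Ts k) = true ↔ Mp s (T i) (T k) :=
    fun i hi k hk s => imB_iff (hB.rep i hi).mem (hB.rep k hk).mem
  have r1 : Rc (oA T t Y a) (oX T t Y Y' a b) (stabilizer (FP U) (T a : Set U))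
      {x | Mp x (T a) (T b)} := by
    simpa only [smul_eq_iff_mp] using (cs_smul (Γ := FP U) (T a : Set U) (T b : Set U)).rc _ _
  have : Finite (GG T t) := finite_of_le b2
  have g1 := good_small (m := fun s => imB s (gO Ts a) (gO Ts a))
    (q := fun s => imB s (gO Ts a) (gO Ts b)) hB.ok
    (fun u _ => (im a hO.a a hO.a u).trans smul_eq_iff_mp.symm)
    (fun g _ _ => im a hO.a b hO.b g) r1 cl_o
    (le_trans (idx_mono (L := GG T t) (fun _ h => h.2.1) b2) (le_trans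
      (Subgroup.relIndex_le_of_le_left (H := Fix (T a : Set U) ⊓ Fix (T a : Set U))
      (fun _ h => smul_eq_iff_mp.2 (mp_fix h.1)) Subgroup.index_ne_zero_of_finite)
      (b4 a hO.a a hO.a)))
  have g2 := hm U _ c _ _ t t (zp T Y a) (zp T Y' b) _ _ hB.ok b3 b3 cl_o'
    (fun k hk e he => (P U c Ts D T t d hB _ _ _ _ _ _ _ (OX.self hO) k hk e he).mono inf_le_right
      (fun _ _ h => self_o h) (fun _ _ => Iff.rfl) fun _ _ _ _ _ => Iff.rfl)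
    fun k hk e he => P U c Ts D T t d hB _ _ _ _ _ _ _ hO k hk e he
  rw [orcQ, hB.len]
  refine (h2 U c _ _ _ _ _ _ _ _ cl_o r1 g1 g2).mono inf_le_right (fun _ _ h => h)
    (fun u hu => and_congr_right fun h => ⟨fun h1 y => ?_, fun h1 => ?_⟩)
    fun x _ hx u hu => and_congr_right fun h => ⟨cj_of_ptr hO.le hO.le' hO.a hO.b, fun h1 => ?_⟩
  · exact (cj_of_ptr hO.le hO.le hO.a hO.a h1 y).symm
  · exact b6 _ _ _ u hu.2.1 fun i _ k _ => zp_of_cj (fun y => (h1 y).symm) (smul_eq_iff_mp.1 h)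
  · exact b6 _ _ _ _ (mul_mem hx.1 hu.2.1) fun i _ k _ => zp_of_cj h1 h

end Pool.Agent.P.MP_f1a348_lc.AL
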