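import Pool.Agent.P.MP_f1a348_lc.AL.Iface

/-!
Project AL: the quotient as a permutation group.
-/

namespace Pool.Agent.P.MP_f1a348_lc.AL

open Pool.Agent.P.MP_f1a348_lc.GI hiding Nm Good
open Pool.Agent.P.MP_f1a348_lc.UP (Nm)

namespace Quoy
variable {Y F : List UU} {G f : Subgroup UU}

theorem idx_eq (hY : Rep Y G) (hF : Rep F f) {x y : UU} (hx : x ∈ G) :
    idxP Y F x = idxP Y F y ↔ Cg f x y := by
  refine ⟨fun e => ?_, fun h => congrArg (List.findIdx · Y) (funext fun z => ?_)⟩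
  · have h1 : idxP Y F x < Y.length :=
      List.findIdx_lt_length_of_exists ⟨x, (hY.mem x).2 hx, by simp [hF.mem]⟩
    have h2 : Cg f Y[idxP Y F x] x :=
      (hF.mem _).1 (List.contains_iff_mem.1 (List.findIdx_getElem (w := h1)))
    have h3 : Cg f (Y[idxP Y F y]'(e ▸ h1)) y :=
      (hF.mem _).1 (List.contains_iff_mem.1 (List.findIdx_getElem (w := e ▸ h1)))
    simp only [← e] at h3
    exact h2.symm.trans h3
  · rw [Bool.eq_iff_iff, List.contains_iff_mem, List.contains_iff_mem, hF.mem, hF.mem]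
    exact ⟨fun e => Cg.trans e h, fun e => Cg.trans e h.symm⟩

theorem pi_app (hY : Rep Y G) (hF : Rep F f) {g x : UU} (hg : g ∈ G) (hx : x ∈ G) :
    (piP Y F g).app (idxP Y F x) = idxP Y F (g * x) := by
  refine FP.ofList_app (p := (idxP Y F x, idxP Y F (g * x))) (fun p hp q hq => ?_)
    (List.mem_map_of_mem ((hY.mem x).2 hx))
  obtain ⟨a, ha, rfl⟩ := List.mem_map.1 hp
  obtain ⟨b, -, rfl⟩ := List.mem_map.1 hq
  rw [idx_eq hY hF ((hY.mem a).1 ha), idx_eq hY hF (G.mul_mem hg ((hY.mem a).1 ha))]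
  exact ⟨Cg.left g, Cg.cancel_left g⟩

theorem pi_ext (hY : Rep Y G) {g : UU} (hg : g ∈ G) {a : ℕ} (h : ∀ x ∈ G, idxP Y F x ≠ a) :
    (piP Y F g).app a = a := FP.ofList_fix fun p hp => by
  obtain ⟨x, hx, rfl⟩ := List.mem_map.1 hp
  exact ⟨h _ ((hY.mem x).1 hx), h _ (G.mul_mem hg ((hY.mem x).1 hx))⟩

theorem pi_mul (hY : Rep Y G) (hF : Rep F f) {g h : UU} (hg : g ∈ G) (hh : h ∈ G) :
    piP Y F (g * h) = piP Y F g * piP Y F h := FP.ext fun a => by
  by_cases e : ∀ x ∈ G, idxP Y F x ≠ a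
  · rw [FP.app_mul, pi_ext hY hh e, pi_ext hY hg e, pi_ext hY (G.mul_mem hg hh) e]
  · push Not at e
    obtain ⟨x, hx, rfl⟩ := e
    rw [FP.app_mul, pi_app hY hF hh hx, pi_app hY hF hg (G.mul_mem hh hx),
      pi_app hY hF (G.mul_mem hg hh) hx, mul_assoc]

theorem ap_tb (hY : Rep Y G) {x : UU} (hx : x ∈ G) : ap (tbP Y F) x = piP Y F x := by
  unfold ap
  cases e : (tbP Y F).find? fun p => p.1 == x with
  | none =>
    exact absurd (by simp) (List.find?_eq_none.1 e _ (List.mem_map_of_mem ((hY.mem x).2 hx)))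
  | some q =>
    obtain ⟨y, -, rfl⟩ := List.mem_map.1 (List.mem_of_find?_eq_some e)
    obtain rfl : y = x := by simpa using List.find?_some e
    rfl

end Quoy

open Quoy in
theorem a_QUO : S_QUO := fun Y F G f hY hF _ hn => by
  have one : piP Y F 1 = 1 := by simpa using pi_mul hY hF G.one_mem G.one_mem
  let Q : Subgroup UU :=
    { carrier := {q | ∃ x ∈ G, piP Y F x = q}
      one_mem' := ⟨1, G.one_mem, one⟩
      mul_mem' := fun ⟨x, hx, e⟩ ⟨y, hy, e'⟩ => ⟨_, G.mul_mem hx hy, e ▸ e' ▸ pi_mul hY hF hx hy⟩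
      inv_mem' := fun ⟨x, hx, e⟩ => ⟨_, G.inv_mem hx, e ▸ eq_inv_of_mul_eq_one_left (by
        rw [← pi_mul hY hF (G.inv_mem hx) hx, inv_mul_cancel, one])⟩ }
  have r : Rep (quoP Y F) Q := ⟨(ded_spec _).1, fun q => by
    simp only [quoP, mem_ded, List.mem_map, hY.mem]; rfl⟩
  rw [r.gen_eq]
  refine ⟨r, fun x hx y hy => ?_, fun x hx => ⟨x, hx, (ap_tb hY hx).symm⟩,
    fun q ⟨x, hx, e⟩ => ⟨x, hx, (ap_tb hY hx).trans e⟩, fun x hx => ?_⟩
  · rw [ap_tb hY hx, ap_tb hY hy, ap_tb hY (G.mul_mem hx hy), pi_mul hY hF hx hy]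
  rw [ap_tb hY hx]
  refine ⟨fun e => ?_, fun h => FP.ext fun a => ?_⟩
  · have := pi_app hY hF hx G.one_mem
    rw [e, mul_one] at this
    exact Cg.one_iff.1 ((idx_eq hY hF G.one_mem).1 this)
  by_cases e : ∀ x ∈ G, idxP Y F x ≠ a
  · exact pi_ext hY hx e
  · push Not at e
    obtain ⟨y, hy, rfl⟩ := e
    rw [pi_app hY hF hx hy]
    exact ((idx_eq hY hF hy).2 (by simpa [Cg, mul_assoc] using hn _ (G.inv_mem hy) x h)).symm

end Pool.Agent.P.MP_f1a348_lc.AL
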