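import Pool.Agent.P.MP_f1a348_lc.AL.Iface

/-!
Project AL: the data of the certificate are pulled back from the quotient.
-/

namespace Pool.Agent.P.MP_f1a348_lc.AL

open Pool.Agent.P.MP_f1a348_lc.GI hiding Nm Good
open Pool.Agent.P.MP_f1a348_lc.UP (Rec up topI SolvMod Nm der)
open Pool.Agent.P.MP_f1a348_lc.FA (Cls Sub MaxN)
open Pool.Agent.Lib.Helper47
open scoped commutatorElement Pointwise
open MulAction (stabilizer)

namespace Rdupy

variable {U : Type} [Group U] {G F Q : Subgroup U} {π : U → U}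

/-- the preimage -/
def pre (h : Qt G F Q π) (X : Subgroup U) : Subgroup U where
  carrier := {x | x ∈ G ∧ π x ∈ X}
  one_mem' := ⟨one_mem _, by rw [h.one]; exact one_mem _⟩
  mul_mem' ha hb := ⟨mul_mem ha.1 hb.1, by rw [h.mul _ ha.1 _ hb.1]; exact mul_mem ha.2 hb.2⟩
  inv_mem' ha := ⟨inv_mem ha.1, by rw [h.inv ha.1]; exact inv_mem ha.2⟩

/-- the image -/
def img (h : Qt G F Q π) (W : Subgroup U) (hW : W ≤ G) : Subgroup U where
  carrier := {q | ∃ w ∈ W, π w = q}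
  one_mem' := ⟨1, one_mem _, h.one⟩
  mul_mem' := by
    rintro _ _ ⟨a, ha, rfl⟩ ⟨b, hb, rfl⟩
    exact ⟨_, mul_mem ha hb, h.mul _ (hW ha) _ (hW hb)⟩
  inv_mem' := by
    rintro _ ⟨a, ha, rfl⟩
    exact ⟨_, inv_mem ha, h.inv (hW ha)⟩

theorem conj (h : Qt G F Q π) {x y : U} (hx : x ∈ G) (hy : y ∈ G) :
    π (x * y * x⁻¹) = π x * π y * (π x)⁻¹ := by
  rw [h.mul _ (mul_mem hx hy) _ (inv_mem hx), h.mul _ hx _ hy, h.inv hx]

theorem comm (h : Qt G F Q π) {x y : U} (hx : x ∈ G) (hy : y ∈ G) : π ⁅x, y⁆ = ⁅π x, π y⁆ := by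
  rw [commutatorElement_def, commutatorElement_def,
    h.mul _ (mul_mem (mul_mem hx hy) (inv_mem hx)) _ (inv_mem hy), conj h hx hy, h.inv hy]

theorem le_pre (h : Qt G F Q π) (hF : F ≤ G) (X : Subgroup U) : F ≤ pre h X := fun x hx =>
  ⟨hF hx, by rw [(h.ker x (hF hx)).2 hx]; exact one_mem _⟩

theorem der_pre (h : Qt G F Q π) (X : Subgroup U) (k : ℕ) : der k (pre h X) ≤ pre h (der k X) := by
  induction k with
  | zero => exact le_rfl
  | succ k ih =>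
    refine Subgroup.commutator_le.2 fun x hx y hy => ?_
    have ex := ih hx
    have ey := ih hy
    refine ⟨mul_mem (mul_mem (mul_mem ex.1 ey.1) (inv_mem ex.1)) (inv_mem ey.1), ?_⟩
    rw [comm h ex.1 ey.1]
    exact Subgroup.commutator_mem_commutator ex.2 ey.2

theorem lift (h : Qt G F Q π) (l : List U) (hl : ∀ q ∈ l, q ∈ Q) :
    ∃ m : List U, (∀ x ∈ m, x ∈ G) ∧ m.map π = l := by
  induction l with
  | nil => exact ⟨[], by simp, rfl⟩
  | cons q l ih =>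
    obtain ⟨m, h1, rfl⟩ := ih fun x hx => hl x (List.mem_cons_of_mem _ hx)
    obtain ⟨x, hx, rfl⟩ := h.onto q (hl q List.mem_cons_self)
    exact ⟨x :: m, List.forall_mem_cons.2 ⟨hx, h1⟩, rfl⟩

theorem pre_sup (h : Qt G F Q π) (hF : F ≤ G) {R : Subgroup U} (hR : R ≤ Q) {m : List U}
    (hm : ∀ x ∈ m, x ∈ G) : pre h (R ⊔ gen (m.map π)) = pre h R ⊔ gen m := by
  refine le_antisymm (fun x hx => ?_) (sup_le (fun x hx => ⟨hx.1, Subgroup.mem_sup_left hx.2⟩)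
    (gen_le.2 fun x hx => ⟨hm x hx, Subgroup.mem_sup_right (mem_gen (List.mem_map_of_mem hx))⟩))
  have hW : pre h R ⊔ gen m ≤ G := sup_le (fun _ hx => hx.1) (gen_le.2 hm)
  have : R ⊔ gen (m.map π) ≤ img h _ hW := by
    refine sup_le (fun q hq => ?_) (gen_le.2 fun q hq => ?_)
    · obtain ⟨y, hy, rfl⟩ := h.onto q (hR hq)
      exact ⟨y, Subgroup.mem_sup_left ⟨hy, hq⟩, rfl⟩
    · obtain ⟨y, hy, rfl⟩ := List.mem_map.1 hq
      exact ⟨y, Subgroup.mem_sup_right (mem_gen hy), rfl⟩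
  obtain ⟨w, hw, e⟩ := this hx.2
  exact (((h.eq_iff (hW hw) hx.1).1 e).mem_iff ((le_pre h hF R).trans le_sup_left)).1 hw

theorem rd_up (hg : S_TGR) {O : ℕ → Subgroup U} {r d n : ℕ} {p : ℕ → ℕ} {R : Subgroup U}
    {TT : List (Subgroup U)} (hS : Ser G O r p) (h : Qt G (O 1) Q π)
    (hR : RD Q R TT d n (AutG Q)) : RD G (pre h R) (TT.map (pre h)) d n (TG O) := by
  have hu : ∀ s ∈ TG O, ∃ u ∈ AutG Q, ∀ g ∈ G, π (s.app g) = u.app (π g) := fun s hs => by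
    simpa using (hg U G G Q Q O O r r p p π π s hS hS h h hs.2).2.1 1 (.refl Q)
  have hm : ∀ s ∈ TG O, ∀ x, s.app x ∈ G ↔ x ∈ G := fun s hs x => hS.zero ▸ hs.2.maps 0 x
  refine ⟨fun _ hx => hx.1, fun g hg k hk => ⟨nm_self G g hg k hk.1, ?_⟩, ?_, fun T hT => ?_,
    fun s hs x hx => ⟨(hm s hs x).2 hx.1, ?_⟩, fun s hs T hT => ?_, fun g hg hc => ⟨hg, ?_⟩,
    by simpa using hR.len⟩
  · rw [conj h hg hk.1]
    exact hR.nml _ (h.maps g hg) _ hk.2
  · obtain ⟨k, hk⟩ := hR.solv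
    have : ∀ j, der (k + j) (pre h R) ≤ O (j + 1) := by
      intro j
      induction j with
      | zero =>
        intro x hx
        have e := der_pre h R k hx
        exact (h.ker x e.1).1 (Subgroup.mem_bot.1 (hk e.2))
      | succ j ih =>
        exact Subgroup.commutator_le.2 fun x hx y hy =>
          hS.cen _ j.succ_pos x (hS.le j.succ_pos (ih hx)) y (ih hy)
    exact ⟨k + r, hS.bot (r + 1) r.le_succ ▸ this r⟩
  · obtain ⟨T0, hT0, rfl⟩ := List.mem_map.1 hT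
    obtain ⟨h1, l, h2, rfl⟩ := hR.sub T0 hT0
    obtain ⟨m, h3, rfl⟩ := lift h l fun q hq => h1 (Subgroup.mem_sup_right (mem_gen hq))
    exact ⟨fun _ hx => hx.1, m, by simpa using h2, pre_sup h (hS.leG 1) hR.le h3⟩
  · obtain ⟨u, h1, h2⟩ := hu s hs
    rw [h2 x hx.1]
    exact hR.inv u h1 _ hx.2
  · obtain ⟨T0, hT0, rfl⟩ := List.mem_map.1 hT
    obtain ⟨u, h1, h2⟩ := hu s hs
    obtain ⟨T', hT', e⟩ := hR.aut u h1 T0 hT0
    refine ⟨_, List.mem_map_of_mem hT', fun x => ⟨fun hx => ?_, fun hx => ?_⟩⟩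
    · have := (hm s hs x).1 hx.1
      exact ⟨this, (e _).1 (h2 x this ▸ hx.2)⟩
    · exact ⟨(hm s hs x).2 hx.1, (h2 x hx.1).symm ▸ (e _).2 hx.2⟩
  · refine hR.faith _ (h.maps g hg) fun T hT t ht => ?_
    obtain ⟨y, hy, rfl⟩ := h.onto t ((hR.sub T hT).1 ht)
    rw [← comm h hg hy]
    exact (hc _ (List.mem_map_of_mem hT) y ⟨hy, ht⟩).2

theorem rep_pre [DecidableEq U] {Y X : List U} {tb : List (U × U)} {Z : Subgroup U}
    (h : Qt G F Q (ap tb)) (hY : Rep Y G) (hX : Rep X Z) : Rep (preP Y tb X) (pre h Z) :=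
  hY.filter fun _ => and_congr_right fun _ => (hX.contains _).symm

end Rdupy

theorem a_RDUP (hg : S_TGR) : S_RDUP := by
  intro U _ _ G Q O r p d n Y Rl tb TT hS hY h hR hT hD
  have e := (Rdupy.rep_pre h hY hR).gen_eq
  have e' : (TT.map (preP Y tb)).map gen = (TT.map gen).map (Rdupy.pre h) := by
    rw [List.map_map, List.map_map]
    exact List.map_congr_left fun T hT' => (Rdupy.rep_pre h hY (hT T hT')).gen_eq
  rw [e, e']
  refine ⟨Rdupy.rep_pre h hY hR, fun T hT' => ?_, Rdupy.le_pre h (hS.leG 1) _,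
    Rdupy.rd_up hg hS h hD⟩
  obtain ⟨T0, hT0, rfl⟩ := List.mem_map.1 hT'
  have := Rdupy.rep_pre h hY (hT T0 hT0)
  exact this.gen_eq.symm ▸ this

end Pool.Agent.P.MP_f1a348_lc.AL
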