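import Pool.Agent.P.MP_f1a348_lc.AL.Iface

/-!
Project AL: the canonical series has the properties `Ser`.
-/

namespace Pool.Agent.P.MP_f1a348_lc.AL

open Pool.Agent.P.MP_f1a348_lc.GI hiding Nm Good
open Pool.Agent.P.MP_f1a348_lc.UP (Rec up topI SolvMod Nm der)
open scoped commutatorElement Pointwise

namespace Sery

variable {U : Type} [Group U] {G M : Subgroup U}

theorem der_le (k : ℕ) (Y : Subgroup U) : der k Y ≤ Y := by
  induction k with
  | zero => exact le_rfl
  | succ k ih =>
    exact Subgroup.commutator_le.2 fun a ha b hb => ih (mul_mem (mul_mem (mul_mem ha hb)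
      (inv_mem ha)) (inv_mem hb))

theorem der_mono (k : ℕ) {Y Y' : Subgroup U} (h : Y ≤ Y') : der k Y ≤ der k Y' := by
  induction k with
  | zero => exact h
  | succ k ih => exact Subgroup.commutator_mono ih ih

theorem nm_der (k : ℕ) {H Y : Subgroup U} (h : Nm H Y) : Nm H (der k Y) := by
  induction k with
  | zero => exact h
  | succ k ih =>
    intro g hg
    change ⁅der k Y, der k Y⁆ ≤ (⁅der k Y, der k Y⁆).comap (MulAut.conj g).toMonoidHom
    refine Subgroup.commutator_le.2 fun a ha b hb => ?_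
    rw [Subgroup.mem_comap, map_commutatorElement]
    exact Subgroup.commutator_mem_commutator (ih g hg a ha) (ih g hg b hb)

theorem norm_mem (h : Nm G M) {g : U} (hg : g ∈ G) : g ∈ Subgroup.normalizer (M : Set U) :=
  fun x => ⟨h g hg x, fun hx => by simpa [mul_assoc] using h _ (G.inv_mem hg) _ hx⟩

theorem cm_swap {x y : U} (h : ⁅x, y⁆ ∈ M) : ⁅y, x⁆ ∈ M := by
  rw [← commutatorElement_inv]; exact M.inv_mem h

theorem pow_mul_mem (h : Nm G M) {x y : U} (hx : x ∈ G) (hy : y ∈ G) (hc : ⁅x, y⁆ ∈ M) {q : ℕ}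
    (h1 : x ^ q ∈ M) (h2 : y ^ q ∈ M) : (x * y) ^ q ∈ M := by
  have : (M.subgroupOf G).Normal := ⟨fun a ha g => h g g.2 a ha⟩
  have key : ∀ z : G, QuotientGroup.mk' (M.subgroupOf G) z = 1 ↔ (z : U) ∈ M := fun z => by
    rw [QuotientGroup.mk'_apply, QuotientGroup.eq_one_iff, Subgroup.mem_subgroupOf]
  have c : Commute (QuotientGroup.mk' (M.subgroupOf G) ⟨x, hx⟩)
      (QuotientGroup.mk' (M.subgroupOf G) ⟨y, hy⟩) := by
    rw [← commutatorElement_eq_one_iff_commute, ← map_commutatorElement, key]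
    exact hc
  refine (key ((⟨x, hx⟩ * ⟨y, hy⟩) ^ q)).1 ?_
  rw [map_pow, map_mul, c.mul_pow, ← map_pow, ← map_pow, (key _).2 h1, (key _).2 h2, one_mul]

theorem up_le (G : Subgroup U) (n t : ℕ) :
    Up G n t ≤ Subgroup.closure {g | ∃ q, g ∈ Op G q} := by
  induction t with
  | zero => exact bot_le
  | succ t ih => exact sup_le ih (Subgroup.closure_mono fun g hg => ⟨_, hg.1⟩)

theorem ser_cases (G : Subgroup U) (n : ℕ) {j : ℕ} (hj : 1 ≤ j) :
    ser G n j = nxt G (prm n j) (ser G n (j + 1)) ∨ ser G n j = ⊥ := by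
  have e : j ≠ 0 := by omega
  rw [ser, ser, if_neg e, if_neg (Nat.succ_ne_zero j)]
  rcases le_or_gt j (n * n) with h | h
  · left
    rw [show n * n + 1 - j = n * n - j + 1 by omega, show n * n + 1 - (j + 1) = n * n - j by omega]
    rfl
  · right
    rw [show n * n + 1 - j = 0 by omega]; rfl

/-- the elements of the `Op` centralise the layer `nxt G q M / M` -/
theorem cen_nxt (h1 : S_UPA) (hf : Finite G) (hle : M ≤ G) (hM : Nm G M) (q : ℕ) {x y : U}
    (hx : x ∈ Subgroup.closure {g | ∃ q, g ∈ Op G q}) (hy : y ∈ nxt G q M) : ⁅x, y⁆ ∈ M := by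
  refine ((Subgroup.closure_le (cenM M (nxt G q M))).2 ?_ hx).2 y hy
  rintro z ⟨q', hz⟩
  refine ⟨norm_mem hM hz.1, fun v hv => cm_swap ((?_ : nxt G q M ≤ cenM M {z}) hv |>.2 z rfl)⟩
  refine sup_le (fun m hm => ⟨norm_mem hM (hle hm), fun w hw => ?_⟩)
    ((Subgroup.closure_le _).2 fun g hg => ⟨norm_mem hM hg.1.1, fun w hw => ?_⟩)
  · obtain rfl : w = z := hw
    simpa [commutatorElement_def, mul_assoc] using M.mul_mem hm (hM w hz.1 _ (M.inv_mem hm))
  · obtain rfl : w = z := hw
    exact cm_swap ((h1 U G M q g hf hle hM hg.1 hg.2).1 q' w hz g self_mem_ncl)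

end Sery

open Sery in
theorem a_SER (h1 : S_UPA) (h2 : S_UPB) (h3 : S_FIT) : S_SER := by
  intro U _ G n hf hc
  obtain ⟨a1, a2⟩ := h2 U G n hf hc
  have hb : ∀ j, ser G n j ≤ G ∧ Nm G (ser G n j) := fun j => by
    unfold ser
    split_ifs
    · exact ⟨le_rfl, nm_self G⟩
    · exact a1 _
  have h1e : ser G n 1 = Up G n (n * n) := by simp [ser]
  have hbot : ∀ j, n * n + 1 ≤ j → ser G n j = ⊥ := fun j hj => by
    rw [ser, if_neg (by omega), show n * n + 1 - j = 0 by omega]; rfl
  have cen : ∀ j, 1 ≤ j → ∀ x ∈ ser G n 1, ∀ y ∈ ser G n j, ⁅x, y⁆ ∈ ser G n (j + 1) := by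
    intro j hj x hx y hy
    rcases ser_cases G n hj with e | e
    · exact cen_nxt h1 hf (hb _).1 (hb _).2 _ (up_le G n _ (h1e ▸ hx)) (e ▸ hy)
    · rw [e, Subgroup.mem_bot] at hy
      simp [hy]
  have anti : ∀ j, ser G n (j + 1) ≤ ser G n j := fun j => by
    rcases Nat.eq_zero_or_pos j with rfl | hj
    · exact (hb _).1
    · rcases le_or_gt j (n * n) with h | h
      · rw [ser, ser, if_neg (Nat.succ_ne_zero j), if_neg hj.ne',
          show n * n + 1 - j = n * n - j + 1 by omega,
          show n * n + 1 - (j + 1) = n * n - j by omega]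
        exact le_sup_left
      · rw [hbot _ (by omega)]; exact bot_le
  refine ⟨hf, rfl, hbot, anti, fun j => (hb j).2, cen, fun j hj => ?_, fun j hj => ?_,
    fun j => Nat.div_le_div_right (by omega), fun R hR hn ⟨i, hi⟩ k hk ht => ?_⟩
  · rcases ser_cases G n hj with e | e
    · refine e.le.trans (sup_le_sup_left (Subgroup.closure_mono fun g hg => ?_) _)
      exact ⟨e.ge (Subgroup.mem_sup_right (Subgroup.subset_closure hg)), hg.2⟩
    · exact e.le.trans bot_le
  · rcases ser_cases G n hj with e | e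
    · by_cases hp : (prm n j).Prime
      · have l1 : ser G n j ≤ ser G n 1 := antitone_nat_of_succ_le anti hj
        let P : Subgroup U :=
          { carrier := {x | x ∈ ser G n j ∧ x ^ prm n j ∈ ser G n (j + 1)}
            one_mem' := ⟨one_mem _, by simp⟩
            mul_mem' := fun {a b} ha hb' => ⟨mul_mem ha.1 hb'.1, pow_mul_mem (hb _).2
              ((hb j).1 ha.1) ((hb j).1 hb'.1) (cen j hj a (l1 ha.1) b hb'.1) ha.2 hb'.2⟩
            inv_mem' := fun {a} ha => ⟨inv_mem ha.1, by rw [inv_pow]; exact inv_mem ha.2⟩ }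
        refine .inr ⟨hp, fun x hx => (e.le.trans (?_ : _ ≤ P) hx).2⟩
        refine sup_le (fun m hm => ⟨anti j hm, pow_mem hm _⟩)
          ((Subgroup.closure_le _).2 fun g hg => ⟨e.ge (Subgroup.mem_sup_right
            (Subgroup.subset_closure hg)), ?_⟩)
        exact (h1 U G _ _ g hf (hb _).1 (hb _).2 hg.1 hg.2).2 g self_mem_ncl
      · exact .inl (e.le.trans (sup_le le_rfl
          ((Subgroup.closure_le _).2 fun g hg => (hp hg.1.2.1).elim)))
    · exact .inl (e.le.trans bot_le)
  · let K : Subgroup U := R ⊓ ⨅ j, cenM (ser G n (j + 1 + 1)) (ser G n (j + 1))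
    have mK : ∀ x, x ∈ K ↔ x ∈ R ∧ ∀ j, ∀ y ∈ ser G n (j + 1), ⁅x, y⁆ ∈ ser G n (j + 1 + 1) :=
      fun x => by
        rw [Subgroup.mem_inf, Subgroup.mem_iInf]
        exact and_congr_right fun hx =>
          ⟨fun h j => (h j).2, fun h j => ⟨norm_mem (hb _).2 (hR hx), h j⟩⟩
    have nK : Nm G K := fun g hg x hx => by
      rw [mK] at hx ⊢
      refine ⟨hn g hg x hx.1, fun j y hy => ?_⟩
      have := (hb _).2 g hg _ (hx.2 j _ ((hb _).2 _ (G.inv_mem hg) y hy))
      simpa [commutatorElement_def, mul_assoc] using this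
    have step : ∀ i, der (i + 1) K ≤ ser G n 1 → der i K ≤ ser G n 1 := fun i h => by
      have l : ∀ j, (der i K).lowerCentralSeries (j + 1) ≤ ser G n (j + 1) := fun j => by
        induction j with
        | zero => exact h
        | succ j ih =>
          exact Subgroup.commutator_le.2 fun a ha b hb' =>
            cm_swap (((mK b).1 (der_le i K hb')).2 j a (ih ha))
      have nil : Group.IsNilpotent (der i K) := (Subgroup.isNilpotent_iff_lowerCentralSeries _).2
        ⟨n * n + 1, le_bot_iff.1 ((l _).trans (hbot _ le_rfl).le)⟩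
      refine (h3 U G _ hf ((der_le i K).trans (inf_le_left.trans hR)) (nm_der i nK) nil).trans ?_
      exact (Subgroup.closure_le _).2 fun g ⟨q, hg⟩ => h1e.ge (a2 q g hg)
    have all : ∀ i, der i K ≤ ser G n 1 → K ≤ ser G n 1 := fun i => by
      induction i with
      | zero => exact id
      | succ i ih => exact fun h => ih (step i h)
    exact all i (((der_mono i inf_le_left).trans hi).trans bot_le)
      ((mK k).2 ⟨hk, fun j => ht (j + 1) (Nat.succ_pos j)⟩)

end Pool.Agent.P.MP_f1a348_lc.AL
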