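import Pool.Agent.P.MP_f1a348_lc.AL.Iface

/-!
Project AL: the program for the canonical series.
-/

namespace Pool.Agent.P.MP_f1a348_lc.AL

open Pool.Agent.P.MP_f1a348_lc.GI hiding Nm Good
open Pool.Agent.P.MP_f1a348_lc.UP (Rec up topI SolvMod Nm der)
open scoped commutatorElement Pointwise

namespace Serpy

theorem primeB_iff {n q : ℕ} (h : q < n) : primeB (List.range n) q = true ↔ q.Prime := by
  simp only [primeB, Bool.and_eq_true, Nat.ble_eq, List.all_eq_true, List.mem_range,
    Bool.or_eq_true, bne_iff_ne, beq_iff_eq, Nat.prime_def]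
  refine and_congr_right fun h2 => ⟨fun e m hm => ?_, fun e a _ => ?_⟩
  · have := Nat.le_of_dvd (by omega) hm
    rcases e m (by omega) with (a | a) | a
    exacts [absurd (Nat.mod_eq_zero_of_dvd hm) a, .inl a, .inr a]
  · by_cases ha : q % a = 0
    · exact (e a (Nat.dvd_of_mod_eq_zero ha)).imp_left .inr
    · exact .inl (.inl ha)

theorem ppB_iff {n q m : ℕ} (hq : q.Prime) (h0 : 0 < m) (h : m < n) :
    ppB (List.range n) q m = true ↔ ∃ k, m = q ^ k := by
  simp only [ppB, List.all_eq_true, List.mem_range, Bool.or_eq_true, bne_iff_ne, beq_iff_eq]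
  refine ⟨fun e => ⟨_, Nat.eq_prime_pow_of_unique_prime_dvd h0.ne' fun {d} hd hm => ?_⟩, ?_⟩
  · have := Nat.le_of_dvd h0 hm
    rcases e d (by omega) with (a | a) | a
    · exact absurd (Nat.mod_eq_zero_of_dvd hm) a
    · exact absurd a hd.ne_one
    · exact ((Nat.prime_dvd_prime_iff_eq hq hd).1 (Nat.dvd_of_mod_eq_zero a)).symm
  · rintro ⟨k, rfl⟩ a _
    by_cases ha : q ^ k % a = 0
    · obtain ⟨j, -, rfl⟩ := (Nat.dvd_prime_pow hq).1 (Nat.dvd_of_mod_eq_zero ha)
      cases j with
      | zero => exact .inl (.inr rfl)
      | succ j => exact .inr (Nat.mod_eq_zero_of_dvd (dvd_pow_self q j.succ_ne_zero))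
    · exact .inl (.inl ha)

theorem fst_prodL (n a : ℕ) : (prodL (List.range a) (List.range n)).map Prod.fst =
    (List.range (a * n)).map (· / n) := by
  induction a with
  | zero => simp [prodL]
  | succ a ih =>
    rw [Nat.succ_mul, List.range_add (n := a * n), List.map_append, ← ih, List.range_succ, prodL,
      List.flatMap_append, List.map_append, ← prodL]
    congr 1
    rw [List.flatMap_singleton, List.map_map, List.map_map]
    refine List.map_congr_left fun i hi => ?_
    have hi := List.mem_range.1 hi
    show a = (a * n + i) / n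
    rw [mul_comm, Nat.mul_add_div (by omega), Nat.div_eq_of_lt hi, add_zero]

variable {U : Type} [Group U] [DecidableEq U] {Y M : List U} {G m : Subgroup U} {n : ℕ}

theorem nxtP_rep (h : Rep Y G) (hn : Y.length < n) (hm : Rep M m) (hle : m ≤ G) {q : ℕ}
    (hq : q < n) : Rep (nxtP (List.range n) Y q M) (nxt G q m) := by
  have e : gen (Y.filter fun g => primeB (List.range n) q &&
      ppB (List.range n) q (nclP Y Y [1] g).length && minB Y M g) =
      Subgroup.closure {g | g ∈ Op G q ∧ MinO G m g} := by
    unfold gen
    congr 1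
    ext g
    simp only [Set.mem_ofPred_eq, List.mem_filter, h.mem, Bool.and_eq_true, primeB_iff hq, Op,
      and_assoc]
    refine and_congr_right fun hg => and_congr_right fun hp => and_congr ?_ (minB_iff h hm hle hg)
    have r := nclP_rep' h rep_one bot_le hg
    have := Fact.mk hp
    have := r.finite
    rw [ppB_iff hp r.length_pos ((r.length_le h (ncl_le_of_nm (nm_self G) bot_le hg)).trans_lt hn),
      IsPGroup.iff_card, r.card]
  rw [nxt, ← e]
  exact clo_over h hm hle fun x hx => (h.mem x).1 (List.mem_filter.1 hx).1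

omit [DecidableEq U] in
theorem up_le (G : Subgroup U) (n t : ℕ) : Up G n t ≤ G := by
  induction t with
  | zero => exact bot_le
  | succ t ih => exact sup_le ih ((Subgroup.closure_le _).2 fun g hg => hg.1.1)

theorem fold_rep (h : Rep Y G) (hn : Y.length < n) (t : ℕ) (ht : t ≤ n * n) :
    (((List.range t).map (· / n)).foldl
      (fun L q => nxtP (List.range n) Y q (L.headD [1]) :: L) [[1]]).length = t + 1 ∧
    ∀ j, Rep ((((List.range t).map (· / n)).foldl
      (fun L q => nxtP (List.range n) Y q (L.headD [1]) :: L) [[1]]).getD j [1])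
        (Up G n (t - j)) := by
  induction t with
  | zero =>
    refine ⟨rfl, fun j => ?_⟩
    rw [Nat.zero_sub]
    cases j <;> exact rep_one
  | succ t ih =>
    obtain ⟨i1, i2⟩ := ih (by omega)
    rw [List.range_succ, List.map_append, List.foldl_append]
    refine ⟨congrArg (· + 1) i1, fun j => ?_⟩
    cases j with
    | zero =>
      have := i2 0
      rw [List.getD_eq_getElem?_getD, ← List.head?_eq_getElem?, ← List.headD_eq_head?_getD] at this
      exact nxtP_rep h hn this (up_le G n t) (Nat.div_lt_of_lt_mul (by omega))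
    | succ j =>
      rw [Nat.succ_sub_succ]
      exact i2 j

end Serpy

open Serpy

theorem a_SERP : S_SERP := by
  intro U _ _ Y G n h hn
  obtain ⟨i1, i2⟩ := fold_rep h hn (n * n) le_rfl
  rw [← fst_prodL, List.foldl_map] at i1 i2
  refine ⟨fun j => ?_, congrArg (· + 1) i1, by simp [prsP, length_prodL], fun j hj => ?_⟩
  · cases j with
    | zero => exact h
    | succ j =>
      rw [ser, if_neg j.succ_ne_zero, Nat.succ_sub_succ]
      exact i2 j
  · rw [prsP, fst_prodL, prm]
    cases j with
    | zero => simp [Nat.mul_div_cancel _ (show 0 < n by omega)]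
    | succ j =>
      have hj' : j < n * n := by omega
      rw [List.getD_cons_succ, List.getD_eq_getElem _ _ (by simpa using hj'), List.getElem_reverse,
        List.getElem_map, List.getElem_range, List.length_map, List.length_range]
      congr 1
      omega

end Pool.Agent.P.MP_f1a348_lc.AL
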