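import Pool.Agent.P.MP_f1a348_lc.AL.Iface

/-!
Project AL: one step of the main loop.
-/

namespace Pool.Agent.P.MP_f1a348_lc.AL

open Pool.Agent.P.MP_f1a348_lc.GI hiding Nm Good
open Pool.Agent.P.MP_f1a348_lc.UP (Rec up topI SolvMod Nm der)
open scoped commutatorElement Pointwise

namespace Stepy

variable {U : Type} [Group U]

theorem tri_congr {O O' : ℕ → Subgroup U} {s t : FP U} (h : Tri O O' s) (hO : ∀ j, O j ≤ O 0)
    (hO' : ∀ j, O' j ≤ O' 0) (hm : Mp t (O 0) (O' 0)) (e : ∀ x ∈ O 0, t.app x = s.app x) :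
    Tri O O' t := by
  refine ⟨fun j x => ⟨fun hx => ?_, fun hx => ?_⟩, fun j x hx y hy => ?_, fun j x hx y hy hj => ?_⟩
  · have := e x ((hm x).1 (hO' j hx))
    exact (h.mp j x).1 (this ▸ hx)
  · rw [e x (hO j hx)]; exact (h.mp j x).2 hx
  · rw [e x hx, e y hy]; exact h.pv j x hx y hy
  · rw [e x hx, e y hy, e _ (mul_mem hx hy)]; exact h.mul j x hx y hy hj

theorem rd_mono {G R : Subgroup U} {TT : List (Subgroup U)} {d n : ℕ} {A A' : Subgroup (FP U)}
    (h : RD G R TT d n A) (hle : A' ≤ A) : RD G R TT d n A' :=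
  ⟨h.le, h.nml, h.solv, h.sub, fun s hs => h.inv s (hle hs), fun s hs => h.aut s (hle hs), h.faith,
    h.len⟩

theorem uc_len (ud : List Unit) (n : ℕ) :
    (ucP ud (List.range n)).length = (ud.length + 35) * n.size := by
  have e : ∀ (l : List Unit) (m : List Unit), (l.flatMap fun _ => m).length = l.length * m.length :=
    fun l m => by
      induction l with
      | nil => simp
      | cons a l ih => rw [List.flatMap_cons, List.length_append, ih, List.length_cons]; ring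
  rw [ucP, e, List.length_append, List.length_replicate, List.length_map, List.length_range,
    Nat.size_eq_bits_len]

theorem three_pow {n : ℕ} (hn : 2 ≤ n) : 3 ^ n.size ≤ n ^ 4 := by
  have h1 : 2 ^ (n.size - 1) ≤ n := Nat.lt_size.1 (by
    have := Nat.size_pos.2 (show 0 < n by omega)
    omega)
  have h2 : 2 ^ n.size ≤ n * n := by
    have : n.size = n.size - 1 + 1 := by
      have := Nat.size_pos.2 (show 0 < n by omega)
      omega
    rw [this, pow_succ]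
    exact Nat.mul_le_mul h1 hn
  calc 3 ^ n.size ≤ (2 * 2) ^ n.size := Nat.pow_le_pow_left (by norm_num) _
    _ = 2 ^ n.size * 2 ^ n.size := mul_pow _ _ _
    _ ≤ (n * n) * (n * n) := Nat.mul_le_mul h2 h2
    _ = n ^ 4 := by ring

theorem bud {n C d : ℕ} (hn : 2 ≤ n) :
    n ^ C * 3 ^ (C * ((d + 35) * n.size)) ≤ n ^ ((141 * C + 70) * (d + 1)) := by
  calc n ^ C * 3 ^ (C * ((d + 35) * n.size)) = n ^ C * (3 ^ n.size) ^ (C * (d + 35)) := by
        rw [← pow_mul]; congr 2; ring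
    _ ≤ n ^ C * (n ^ 4) ^ (C * (d + 35)) :=
        Nat.mul_le_mul_left _ (Nat.pow_le_pow_left (three_pow hn) _)
    _ = n ^ (C + 4 * (C * (d + 35))) := by rw [← pow_mul, ← pow_add]
    _ ≤ _ := Nat.pow_le_pow_right (by omega) (by nlinarith [Nat.zero_le (C * d)])

theorem sx (h1 : S_SER) (h3 : S_SERP) (h4 : S_QUO) {n : ℕ} {Y : List UU} {G : Subgroup UU}
    (hY : Rep Y G) (hl : Y.length < n) :
    SX (sideP (List.range n) Y) (quoQ (List.range n) Y) G (gen (quoQ (List.range n) Y)) (ser G n)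
      (n * n + 1) (prm n) n := by
  have hc : Nat.card G < n := hY.card ▸ hl
  have s := h1 UU G n hY.finite hc
  obtain ⟨a1, a2, -⟩ := h3 UU Y G n hY hl
  obtain ⟨b1, b2⟩ := h4 Y (gO (serP (List.range n) Y) 1) G (ser G n 1) hY (a1 1) (s.leG 1)
    (s.nml 1)
  exact ⟨s, a1, a2, b2, b1, hc⟩

theorem fin_ok {pad : List Unit} {Y Y' : List UU} {G G' : Subgroup UU}
    {o : List (FP UU) × FP UU} (hY : Rep Y G) (hY' : Rep Y' G') (co : COk (pad, Y ++ Y'))
    (ga : gen o.1 = AutG G)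
    (key : ∀ φ, IsoP G G' φ → IsoP G G' o.2 ∧ o.2 ∈ Sup ((G : Set UU) ∪ G')) :
    IsoOut G G' (finP pad Y Y' o) := by
  have hW : W (pad, Y ++ Y') = Sup ((G : Set UU) ∪ G') := by
    unfold W
    congr 1
    ext a
    simp [hY.mem, hY'.mem]
  have e1 : (finP pad Y Y' o).1 = red (pad, Y ++ Y') o.1 := by rw [finP, clO]
  have e2 : (finP pad Y Y' o).2 =
      (bif isoB Y Y' o.2 then some o.2 else none).map (cl (pad, Y ++ Y')) := by rw [finP, clO]
  refine ⟨?_, fun x hx => ?_, fun hx φ hφ => ?_⟩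
  · rw [e1, gen_red co, ga]
    rw [ga, hW]
    exact fun g hg => Sup.mono Set.subset_union_left hg.1
  · rw [e2] at hx
    cases hb : isoB Y Y' o.2
    · rw [hb] at hx; cases hx
    · have k := key _ ((isoB_iff hY hY').1 hb)
      rw [hb, cond_true, Option.map_some, cl_eq (hW.ge k.2)] at hx
      cases hx
      exact k
  · rw [e2, (isoB_iff hY hY').2 (key φ hφ).1] at hx
    cases hx

theorem iso_key (h2 : S_SERI) {n r : ℕ} {p : ℕ → ℕ} {Y : List UU} {G G' : Subgroup UU}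
    {x0 z : FP UU} (hY : Rep Y G) (hs : Ser G (ser G n) r p)
    (t2 : (∃ t, Tri (ser G n) (ser G' n) t) →
      Tri (ser G n) (ser G' n) x0 ∧ x0 ∈ Sup ((G : Set UU) ∪ G'))
    (s2 : (∃ g ∈ TG (ser G n), Hm G (x0 * g)) → x0⁻¹ * z ∈ TG (ser G n) ∧ Hm G z) (φ : FP UU)
    (hφ : IsoP G G' φ) : IsoP G G' z ∧ z ∈ Sup ((G : Set UU) ∪ G') := by
  have tφ := h2 UU G G' n φ hφ
  obtain ⟨u1, u2⟩ := t2 ⟨φ, tφ⟩
  have tf := u1.inv.comp tφ
  have mf : Mp (x0⁻¹ * φ) G G := tf.mp 0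
  have fG : (G : Set UU).Finite := Set.finite_coe_iff.1 hY.finite
  obtain ⟨g, g1, g2, g3⟩ := exists_fp (f := (x0⁻¹ * φ).app) (X := G) (X' := G) fG
    ⟨fun x hx => (mf x).2 hx, fun _ _ _ _ e => FP.app_injective _ e,
      fun y hy => (Mp.surj mf hy).imp fun _ h => h⟩
  rw [Set.union_self] at g1
  have e : ∀ x ∈ G, (x0 * g).app x = φ.app x := fun x hx => by
    rw [FP.app_mul, g3 x hx, FP.app_mul, FP.app_app_inv]
  obtain ⟨v1, v2⟩ := s2 ⟨g, ⟨g1, tri_congr tf hs.leG hs.leG g2 g3⟩,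
    fun x hx y hy => by rw [e x hx, e y hy, e _ (mul_mem hx hy), hφ.hm x hx y hy]⟩
  have m := (u1.mp 0).mul (v1.2.mp 0)
  have m' := mul_mem u2 (Sup.mono Set.subset_union_left v1.1)
  rw [mul_inv_cancel_left] at m m'
  exact ⟨⟨m, v2⟩, m'⟩

end Stepy

open Stepy in
theorem a_STEP (h1 : S_SER) (h2 : S_SERI) (h3 : S_SERP) (h4 : S_QUO) (h5 : S_DOWN) (h6 : S_TOP)
    (h7 : S_CERT) (h8 : S_RDUP) : S_STEP := by
  intro ok C stage pad ud n Y Y' G G' st hs hI hI' hn hp hst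
  have x1 := sx h1 h3 h4 hI.rep hI.lt
  have x2 := sx h1 h3 h4 hI'.rep hI'.lt
  have bg : Bg n ud.length pad := ⟨hn, le_trans (Nat.pow_le_pow_right (by omega)
    (Nat.mul_le_mul_right _ (by omega))) hp⟩
  obtain ⟨t1, t2⟩ := h6 UU pad _ _ _ _ G G' _ _ _ _ _ n _ _ _ st.1 x1 x2 bg hst.iso
  obtain ⟨r1, r2, r3, r4⟩ := h8 UU G _ _ _ _ _ n Y st.2.1 _ st.2.2 x1.ser hI.rep x1.qt hst.R hst.T
    hst.rd
  have ce := h7 UU G _ _ _ _ _ n pad _ _ _ _ x1.ser x1.card x1.rep x1.len r1 r2 r4 r3 t1 bg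
  obtain ⟨-, -, p1, p2⟩ := h3 UU Y G n hI.rep hI.lt
  rw [← uc_len] at ce
  obtain ⟨s1, s2⟩ := hs pad _ _ (prsP (List.range n)) _ _
    (topP pad (sideP (List.range n) Y) (sideP (List.range n) Y') (quoQ (List.range n) Y)
      (quoQ (List.range n) Y') st.1).2 G _ _ n _ x1.ser x1.card rfl x1.rep x1.len p1 p2
    (fun j => Nat.div_le_of_le_mul (Nat.sub_le _ _))
    (fun j hj => ((h5 UU G _ _ _ _ _ x1.ser x1.qt).2.2.2.2 j hj).imp id fun h => hI.ok _ h.1 h.2)
    t1 ce (by rw [uc_len]; exact (bud hn).trans hp)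
  have au : AutG G ≤ TG (ser G n) := fun g hg => ⟨hg.1, h2 UU G G n g hg.2⟩
  refine ⟨?_, r1, r2, rd_mono r4 au⟩
  change IsoOut G G' (finP pad Y Y' _)
  have co : COk (pad, Y ++ Y') := by
    have l1 := hI.lt
    have l2 := hI'.lt
    have l3 : (Y ++ Y').length ≤ n * n := by rw [List.length_append]; nlinarith
    refine le_trans ?_ bg.2
    calc (Y ++ Y').length * (Y ++ Y').length ≤ (n * n) * (n * n) := Nat.mul_le_mul l3 l3
      _ = n ^ 4 := by ring
      _ ≤ _ := Nat.pow_le_pow_right (by omega) (by omega)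
  refine fin_ok hI.rep hI'.rep co ?_ ?_
  · exact Subgroup.ext fun g => (s1 g).trans
      ⟨fun h => ⟨h.1.1, h.1.2.mp 0, h.2⟩, fun h => ⟨au h, h.2.hm⟩⟩
  · exact iso_key h2 hI.rep x1.ser t2 s2

end Pool.Agent.P.MP_f1a348_lc.AL
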