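import Pool.Agent.P.MP_f1a348_lc.AL.Iface

/-! Project AL: types of summands and graphs of isomorphisms. -/

namespace Pool.Agent.P.MP_f1a348_lc.AL

open Pool.Agent.P.MP_f1a348_lc.GI hiding Nm Good
open Pool.Agent.P.MP_f1a348_lc.UP (Nm)

namespace T1y

variable {U : Type} [Group U] {y y' : Ly U} {a : FP U} {V : Subgroup (U × U)} {p : U × U}

/-- products of conjugates -/
def cp {Γ : Type} [Group Γ] (v : Γ) (w : List Γ) : Γ := (w.map fun g => g * v * g⁻¹).prod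

theorem cp_fst (p : U × U) (w : List (U × U)) : (cp p w).1 = cp p.1 (w.map Prod.fst) := by
  induction w with
  | nil => rfl
  | cons g w ih => exact congrArg (_ * ·) ih

theorem cp_snd (p : U × U) (w : List (U × U)) : (cp p w).2 = cp p.2 (w.map Prod.snd) := by
  induction w with
  | nil => rfl
  | cons g w ih => exact congrArg (_ * ·) ih

theorem cp_mem {Γ : Type} [Group Γ] {G : Set Γ} {W : Subgroup Γ} {u : Γ}
    (hW : ∀ g ∈ G, g * u * g⁻¹ ∈ W) {w : List Γ} (hw : ∀ g ∈ w, g ∈ G) : cp u w ∈ W :=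
  Subgroup.list_prod_mem _ (List.forall_mem_map.2 fun g hg => hW g (hw g hg))

theorem nm' {G W : Subgroup U} (h : Nm G W) {g : U} (hg : g ∈ G) : GI.Nm W g := fun e he => by
  simpa using h _ (G.inv_mem hg) e he

theorem word {qs : List (U × U)} (h : ∀ q ∈ qs, q ∈ y.Pr y' a) :
    (qs.map Prod.snd).map y'.π = ((qs.map Prod.fst).map y.π).map a.app := by
  simp only [List.map_map]
  exact List.map_congr_left fun q hq => (h q hq).2.2

/-- modulo `O` the product only depends on the word in the quotient -/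
theorem dep (h : y.Ok) {v : U} (hv : v ∈ y.L) (w : List U) : ∀ w' : List U, (∀ g ∈ w, g ∈ y.G) →
    (∀ g ∈ w', g ∈ y.G) → w.map y.π = w'.map y.π → Cg y.O (cp v w) (cp v w') := by
  induction w with
  | nil => intro w' _ _ e; rw [List.map_eq_nil_iff.1 e.symm]; exact Cg.refl _
  | cons g w ih =>
    rintro (_ | ⟨g', w'⟩) h1 h2 e
    · exact absurd e (List.cons_ne_nil _ _)
    obtain ⟨a1, a2⟩ := List.forall_mem_cons.1 h1
    obtain ⟨b1, b2⟩ := List.forall_mem_cons.1 h2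
    obtain ⟨e1, e2⟩ := List.cons.inj e
    refine Cg.mul (nm' h.nO (cp_mem (fun g hg => nm_self _ g hg v (h.LG hv)) a2)) ?_
      (ih w' a2 b2 e2)
    have := h.nO _ (mul_mem a1 (inv_mem (h.LG hv))) _ (h.cen _ ((h.qt.eq_iff a1 b1).1 e1) v hv)
    simpa [Cg, commutatorElement_def, mul_assoc] using this

theorem ann_iff (h : y.Ok) {v : U} (hv : v ∈ y.L) {w : List U} (hw : ∀ g ∈ w, g ∈ y.G) :
    w.map y.π ∈ y.Ann v ↔ cp v w ∈ y.O :=
  ⟨fun ⟨w', a, b, c⟩ => ((dep h hv w' w a hw b).mem_iff le_rfl).1 c, fun e => ⟨w, hw, rfl, e⟩⟩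

theorem ann (h : y.Ok) (h' : y'.Ok) (ha : IsoP y.Q y'.Q a) (hV : y.Gr y' a V) (hp : p ∈ V) :
    List.map a.app '' y.Ann p.1 = y'.Ann p.2 := by
  have key : ∀ qs : List (U × U), (∀ q ∈ qs, q ∈ y.Pr y' a) →
      (cp p.1 (qs.map Prod.fst) ∈ y.O ↔ cp p.2 (qs.map Prod.snd) ∈ y'.O) := fun qs hq => by
    rw [← cp_fst, ← cp_snd]
    exact hV.ker _ (cp_mem (fun q hq => hV.nm q hq p hp) hq)
  refine Set.Subset.antisymm ?_ ?_
  · rintro _ ⟨_, ⟨w, b, rfl, c⟩, rfl⟩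
    choose! f hf using fun g (hg : g ∈ y.G) => Ly.pr_right h h' ha hg
    have e1 : ∀ q ∈ w.map fun g => (g, f g), q ∈ y.Pr y' a :=
      List.forall_mem_map.2 fun g hg => hf g (b g hg)
    have e2 : (w.map fun g => (g, f g)).map Prod.fst = w := by simp [Function.comp_def]
    exact ⟨_, List.forall_mem_map.2 fun q hq => (e1 q hq).2.1, by rw [word e1, e2],
      (key _ e1).1 (e2.symm ▸ c)⟩
  · rintro _ ⟨w, b, rfl, c⟩
    choose! f hf using fun g (hg : g ∈ y'.G) => Ly.pr_left h h' ha hg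
    have e1 : ∀ q ∈ w.map fun g => (f g, g), q ∈ y.Pr y' a :=
      List.forall_mem_map.2 fun g hg => hf g (b g hg)
    have e2 : (w.map fun g => (f g, g)).map Prod.snd = w := by simp [Function.comp_def]
    exact ⟨_, ⟨_, List.forall_mem_map.2 fun q hq => (e1 q hq).1, rfl, (key _ e1).2 (e2.symm ▸ c)⟩,
      by rw [← word e1, e2]⟩

/-- partners inside the summands -/
theorem part (h : y.Ok) (h' : y'.Ok) (ha : IsoP y.Q y'.Q a) (hV : y.Gr y' a V) (hp : p ∈ V) :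
    (∀ x ∈ ncl y.G y.O p.1, ∃ x' ∈ ncl y'.G y'.O p.2, (x, x') ∈ V) ∧
    ∀ x' ∈ ncl y'.G y'.O p.2, ∃ x ∈ ncl y.G y.O p.1, (x, x') ∈ V := by
  have e : ncl (y.Pr y' a) (y.O.prod y'.O) p ≤
      V ⊓ (ncl y.G y.O p.1).prod (ncl y'.G y'.O p.2) :=
    ncl_le.2 ⟨le_inf hV.ge (Subgroup.prod_mono le_ncl le_ncl),
      fun q hq => ⟨hV.nm q hq p hp, conj_mem_ncl hq.1, conj_mem_ncl hq.2.1⟩⟩
  refine ⟨fun x hx => ?_, fun x hx => ?_⟩
  · obtain ⟨q, hq, rfl⟩ := (ncl_le (W := (ncl (y.Pr y' a) (y.O.prod y'.O) p).map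
      (MonoidHom.fst U U))).2
      ⟨fun o ho => ⟨(o, 1), le_ncl (Subgroup.mem_prod.2 ⟨ho, one_mem _⟩), rfl⟩,
        fun g hg => (Ly.pr_right h h' ha hg).elim fun _ e => ⟨_, conj_mem_ncl e, rfl⟩⟩ hx
    exact ⟨q.2, (e hq).2.2, (e hq).1⟩
  · obtain ⟨q, hq, rfl⟩ := (ncl_le (W := (ncl (y.Pr y' a) (y.O.prod y'.O) p).map
      (MonoidHom.snd U U))).2
      ⟨fun o ho => ⟨(1, o), le_ncl (Subgroup.mem_prod.2 ⟨one_mem _, ho⟩), rfl⟩,
        fun g hg => (Ly.pr_left h h' ha hg).elim fun _ e => ⟨_, conj_mem_ncl e, rfl⟩⟩ hx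
    exact ⟨q.1, (e hq).2.1, (e hq).1⟩

theorem nf (h : y.Ok) (h' : y'.Ok) (hp : p ∈ y.G.prod y'.G) {x : U × U}
    (hx : x ∈ ncl (y.Pr y' a) (y.O.prod y'.O) p) :
    ∃ qs : List (U × U), (∀ q ∈ qs, q ∈ y.Pr y' a) ∧ Cg (y.O.prod y'.O) (cp p qs) x := by
  have := h.fin
  have := h'.fin
  have : Finite (y.G.prod y'.G) := .of_equiv _ (Subgroup.prodEquiv y.G y'.G).symm.toEquiv
  have e1 : ∀ q ∈ y.Pr y' a, q * p * q⁻¹ ∈ y.G.prod y'.G := fun q hq =>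
    nm_self _ q (Subgroup.mem_prod.2 ⟨hq.1, hq.2.1⟩) p hp
  have e2 := Subgroup.prod_mono (h.OL.trans h.LG) (h'.OL.trans h'.LG)
  rw [ncl, ← Subgroup.closure_eq (y.O.prod y'.O), ← Subgroup.closure_union,
    ← Subgroup.mem_toSubmonoid, Subgroup.closure_toSubmonoid_of_isOfFinOrder] at hx
  · induction hx using Submonoid.closure_induction with
    | mem x hx =>
      rcases hx with e | ⟨q, hq, rfl⟩
      · exact ⟨[], by simp, Cg.one_iff.2 e⟩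
      · exact ⟨[q], by simpa using hq, Cg.of_eq (by simp [cp])⟩
    | one => exact ⟨[], by simp, Cg.refl _⟩
    | mul x z _ _ i1 i2 =>
      obtain ⟨q1, a1, a2⟩ := i1
      obtain ⟨q2, b1, b2⟩ := i2
      refine ⟨q1 ++ q2, List.forall_mem_append.2 ⟨a1, b1⟩, ?_⟩
      rw [cp, List.map_append, List.prod_append]
      have := cp_mem e1 b1
      exact a2.mul (fun e he => ⟨nm' h.nO this.1 _ he.1, nm' h'.nO this.2 _ he.2⟩) b2
  · intro x hx
    have : x ∈ y.G.prod y'.G := hx.elim (fun e => e2 e) fun ⟨q, hq, e⟩ => e ▸ e1 q hq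
    exact Submonoid.isOfFinOrder_coe.2 (isOfFinOrder_of_finite (⟨x, this⟩ : y.G.prod y'.G))

end T1y

open T1y in
theorem a_T1 : S_T1 := by
  intro U _ y y' a h h' ha
  refine ⟨fun V hV p hp hm => ⟨⟨(hV.le hp).2, h'.LG (hV.le hp).2,
    fun e => hm.2.2.1 ((hV.ker p hp).2 e), fun x' hx' e => ?_⟩, ?_⟩, fun v v' hv hv' e => ?_⟩
  · obtain ⟨x, a1, a2⟩ := (part h h' ha hV hp).2 x' hx'
    obtain ⟨k, b1, b2⟩ := (part h h' ha hV a2).1 _ (hm.2.2.2 x a1 fun d => e ((hV.ker _ a2).1 d))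
    have : Cg y'.O k p.2 := (hV.ker _ (mul_mem (inv_mem b2) hp)).1 (by simp)
    exact (this.mem_iff le_ncl).1 b1
  · rw [Ty.smul_def]
    refine Set.Subset.antisymm ?_ ?_
    · rintro _ ⟨_, ⟨x, a1, a2, rfl⟩, rfl⟩
      obtain ⟨x', b1, b2⟩ := (part h h' ha hV hp).1 x a1
      exact ⟨x', b1, fun d => a2 ((hV.ker _ b2).2 d), ann h h' ha hV b2⟩
    · rintro _ ⟨x', a1, a2, rfl⟩
      obtain ⟨x, b1, b2⟩ := (part h h' ha hV hp).2 x' a1
      exact ⟨_, ⟨x, b1, fun d => a2 ((hV.ker _ b2).1 d), rfl⟩, ann h h' ha hV b2⟩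
  · rw [Ty.smul_def] at e
    obtain ⟨u, a1, -, a2⟩ := (Set.ext_iff.1 e _).1 ⟨_, ⟨v, self_mem_ncl, hv.2.2.1, rfl⟩, rfl⟩
    have a3 : u ∈ y'.L := ncl_le_of_nm h'.nL h'.OL hv'.1 a1
    obtain ⟨b1, b2, b3, -⟩ := Ly.gr_ncl h h' ha (p := (v, u)) (Subgroup.prod_mono h.OL h'.OL) le_rfl
      (Ly.nm_bot h h') ⟨hv.1, a3⟩
    refine ⟨u, a1, b1, b2, fun p hp => ?_, b3⟩
    obtain ⟨qs, c1, c2⟩ := nf h h' (p := (v, u)) ⟨h.LG hv.1, h'.LG a3⟩ hp
    rw [← Cg.mem_iff (a := (cp (v, u) qs).1) c2.1 le_rfl,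
      ← Cg.mem_iff (a := (cp (v, u) qs).2) c2.2 le_rfl, cp_fst, cp_snd,
      ← ann_iff h hv.1 (List.forall_mem_map.2 fun q hq => (c1 q hq).1),
      ← ann_iff h' a3 (List.forall_mem_map.2 fun q hq => (c1 q hq).2.1), word c1, ← a2]
    exact ((List.map_injective_iff.2 a.app_injective).mem_set_image).symm

end Pool.Agent.P.MP_f1a348_lc.AL
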