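import Pool.Agent.P.MP_f1a348_lc.AL.Iface

/-!
Project AL: the test for types of summands.
-/

namespace Pool.Agent.P.MP_f1a348_lc.AL

open Pool.Agent.P.MP_f1a348_lc.GI hiding Nm Good

theorem a_T1P (h : S_T1) : S_T1P := by
  intro U _ _ l l' y y' a r r' hy hy' ha
  obtain ⟨t1, t2⟩ := h U y y' a hy hy' ha
  have p1 : ∀ q, q ∈ relP l l' a ↔ q ∈ y.Pr y' a := fun q => by
    rw [relP, List.mem_filter, mem_prodL, r.G.mem, r'.G.mem, beq_iff_eq, ← r.π, ← r'.π, and_assoc]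
    rfl
  have p2 : ∀ Vl V p, Rep Vl V → V ≤ y.L.prod y'.L → p ∈ y.L.prod y'.L →
      Rep (grP l l' a Vl p) (ncl (y.Pr y' a) V p) := fun Vl V p hV le hp =>
    nclP_rep (r.L.prod r'.L) p1 hV
      (ncl_le.2 ⟨le, fun _ hq => ⟨hy.nL _ hq.1 _ hp.1, hy'.nL _ hq.2.1 _ hp.2⟩⟩)
  have p3 : ∀ Vl V, Rep Vl V → (grB l l' Vl = true ↔ ∀ p ∈ V, p.1 ∈ y.O ↔ p.2 ∈ y'.O) :=
    fun Vl V hV => by
      simp only [grB, List.all_eq_true, beq_iff_eq, hV.mem]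
      refine forall₂_congr fun p _ => ?_
      rw [← r.O.contains, ← r'.O.contains]
      exact Bool.eq_iff_iff
  refine ⟨p1, p2, p3, fun v v' hv hv' => ?_⟩
  have le : y.O.prod y'.O ≤ y.L.prod y'.L := Subgroup.prod_mono hy.OL hy'.OL
  have hp : ∀ u ∈ ncl y'.G y'.O v', (v, u) ∈ y.L.prod y'.L := fun u hu =>
    ⟨hv.1, ncl_le_of_nm hy'.nL hy'.OL hv'.1 hu⟩
  have e := fun u hu => p3 _ _ (p2 _ _ _ (r.O.prod r'.O) le (hp u hu))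
  simp only [tyB, List.any_eq_true, (nclP_rep' r'.G r'.O (hy'.OL.trans hy'.LG) hv'.2.1).mem]
  refine ⟨fun ⟨u, hu, hg⟩ => ?_, fun e1 => (t2 v v' hv hv' e1).imp fun u hu =>
    ⟨hu.1, (e u hu.1).2 hu.2.ker⟩⟩
  obtain ⟨a1, a2, a3, a4⟩ := Ly.gr_ncl hy hy' ha le le_rfl (Ly.nm_bot hy hy') (hp u hu)
  obtain ⟨b1, b2⟩ := t1 _ ⟨a1, a2, (e u hu).1 hg, a3⟩ _ a4 hv
  have e2 : ncl y'.G y'.O u = ncl y'.G y'.O v' :=
    le_antisymm (ncl_le_of_nm (nm_ncl hy'.nO) le_ncl hu)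
      (ncl_le_of_nm (nm_ncl hy'.nO) le_ncl (hv'.2.2.2 u hu b1.2.2.1))
  rw [b2, Ly.ty, Ly.ty, e2]

end Pool.Agent.P.MP_f1a348_lc.AL
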