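import Pool.Agent.P.MP_f1a348_lc.AL.Iface

/-! Project AL: summands that agree modulo a normal subgroup have the same type. -/

namespace Pool.Agent.P.MP_f1a348_lc.AL

open Pool.Agent.P.MP_f1a348_lc.GI hiding Nm Good
open Pool.Agent.P.MP_f1a348_lc.UP (Nm)

namespace T2y

variable {U : Type} [Group U] {y : Ly U} {G O W : Subgroup U} {u u1 v v1 : U}

theorem nm' (h : Nm G W) {g : U} (hg : g ∈ G) : GI.Nm W g := fun e he => by
  simpa using h _ (G.inv_mem hg) e he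

/-- the product of a subgroup of `G` with a subgroup that `G` normalises -/
def prd (hW : Nm G W) (N : Subgroup U) (hG : N ≤ G) : Subgroup U where
  carrier := {x | ∃ u ∈ N, Cg W u x}
  one_mem' := ⟨1, one_mem _, Cg.refl 1⟩
  mul_mem' := by
    rintro _ _ ⟨a, a1, a2⟩ ⟨b, b1, b2⟩
    exact ⟨_, mul_mem a1 b1, a2.mul (nm' hW (hG b1)) b2⟩
  inv_mem' := by
    rintro _ ⟨a, a1, a2⟩
    exact ⟨_, inv_mem a1, a2.inv (nm' hW (inv_mem (hG a1)))⟩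

theorem dec (hW : Nm G W) (hO : O ≤ G) (hv : v ∈ G) {x : U} (hx : x ∈ ncl G W v) :
    ∃ u ∈ ncl G O v, Cg W u x :=
  (ncl_le (W := prd hW _ (ncl_le_of_nm (nm_self G) hO hv))).2
    ⟨fun _ hw => ⟨1, one_mem _, Cg.one_iff.2 hw⟩, fun _ hg => ⟨_, conj_mem_ncl hg, Cg.refl _⟩⟩ hx

theorem inter (hW : Nm y.G W) (hO : y.O ≤ W) (hv : y.Min v) (h : v ∉ W) {x : U}
    (h1 : x ∈ ncl y.G y.O v) (h2 : x ∈ W) : x ∈ y.O :=
  by_contra fun e => h (ncl_le_of_nm hW hO h2 (hv.2.2.2 x h1 e))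

theorem prod_mem (hW : Nm G W) (hu : u ∈ W) {w : List U} (hw : ∀ g ∈ w, g ∈ G) :
    (w.map fun g => g * u * g⁻¹).prod ∈ W :=
  Subgroup.list_prod_mem _ (List.forall_mem_map.2 fun g hg => hW g (hw g hg) u hu)

theorem prod_cg (hW : Nm G W) (hu : u ∈ G) (e : Cg W u u1) {w : List U} (hw : ∀ g ∈ w, g ∈ G) :
    Cg W (w.map fun g => g * u * g⁻¹).prod (w.map fun g => g * u1 * g⁻¹).prod := by
  induction w with
  | nil => exact Cg.refl _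
  | cons g w ih =>
    obtain ⟨h1, h2⟩ := List.forall_mem_cons.1 hw
    exact ((e.left g).right (nm' hW (inv_mem h1))).mul (nm' hW (prod_mem (nm_self G) hu h2)) (ih h2)

theorem ann_le (hy : y.Ok) (hW : Nm y.G W) (hO : y.O ≤ W) (hv : y.Min v1) (h : v1 ∉ W)
    (hu : u ∈ y.G) (h1 : u1 ∈ ncl y.G y.O v1) (e : Cg W u u1) : y.Ann u ⊆ y.Ann u1 :=
  fun _ ⟨w, a, b, c⟩ => ⟨w, a, b, inter hW hO hv h (prod_mem (nm_ncl hy.nO) h1 a)
    (((prod_cg hW hu e a).mem_iff le_rfl).1 (hO c))⟩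

theorem ty_le (hy : y.Ok) (hW : Nm y.G W) (hO : y.O ≤ W) (hv : y.Min v) (hv1 : y.Min v1)
    (h : v ∈ ncl y.G W v1) (h0 : v ∉ W) (h1 : v1 ∉ W) :
    ∀ A : Set (List U), A ∈ (show Set _ from y.ty v) → A ∈ (show Set _ from y.ty v1) := by
  rintro _ ⟨u, a, b, rfl⟩
  have hG := hy.OL.trans hy.LG
  obtain ⟨u1, c, e⟩ := dec hW hG hv1.2.1 (ncl_le_of_nm (nm_ncl hW) (hO.trans le_ncl) h a)
  exact ⟨u1, c, fun d => b (inter hW hO hv h0 a ((e.mem_iff le_rfl).1 (hO d))),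
    (ann_le hy hW hO hv1 h1 (ncl_le_of_nm (nm_self _) hG hv.2.1 a) c e.symm).antisymm
      (ann_le hy hW hO hv h0 (ncl_le_of_nm (nm_self _) hG hv1.2.1 c) a e)⟩

end T2y

theorem a_T2 : S_T2 := by
  intro U _ y W v v1 hy hW hO hv hv1 h h0
  have h1 : v1 ∉ W := fun e => h0 (ncl_le_of_nm hW le_rfl e h)
  obtain ⟨u, a, e⟩ := T2y.dec hW (hy.OL.trans hy.LG) hv1.2.1 h
  have h2 : v1 ∈ ncl y.G W v := ncl_le_of_nm (nm_ncl hW) (hO.trans le_ncl)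
    ((e.mem_iff le_ncl).2 self_mem_ncl)
    (hv1.2.2.2 u a fun d => h0 ((e.mem_iff le_rfl).1 (hO d)))
  exact ⟨Set.Subset.antisymm (T2y.ty_le hy hW hO hv hv1 h h0 h1)
    (T2y.ty_le hy hW hO hv1 hv h2 h1 h0), h2⟩

end Pool.Agent.P.MP_f1a348_lc.AL
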