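import Pool.Agent.P.MP_f1a348_lc.AL.Iface

/-! Project AL: the exchange lemma for summands of a layer. -/

namespace Pool.Agent.P.MP_f1a348_lc.AL

open Pool.Agent.P.MP_f1a348_lc.GI hiding Nm Good
open Pool.Agent.P.MP_f1a348_lc.UP (Nm)

namespace T3y

theorem split {U : Type} [Group U] (y : Ly U) {v : U} (J : List U) : ∀ W : Subgroup U,
    v ∈ y.Sp W J → v ∉ W → ∃ J1 v1 J2, J = J1 ++ v1 :: J2 ∧ v ∉ y.Sp W J1 ∧
      v ∈ ncl y.G (y.Sp W J1) v1 := by
  induction J with
  | nil => exact fun W a b => absurd a b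
  | cons j J ih =>
    intro W a b
    by_cases e : v ∈ ncl y.G W j
    · exact ⟨[], j, J, rfl, b, e⟩
    · obtain ⟨J1, v1, J2, rfl, h⟩ := ih _ a e
      exact ⟨j :: J1, v1, J2, rfl, h⟩

end T3y

theorem a_T3 (h : S_T2) : S_T3 := by
  intro U _ y W I J hy
  induction I generalizing W J with
  | nil => exact fun _ _ _ _ _ => List.nil_subperm
  | cons v I ih =>
    intro hW hO hI hJ hle
    have hv : v ∈ y.Sp W J := by
      simpa using hle ((Ly.Sp_le.1 le_rfl).2 v List.mem_cons_self 1 (one_mem _))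
    obtain ⟨J1, v1, J2, rfl, a1, a2⟩ := T3y.split y J W hv hI.2.1
    obtain ⟨b1, b2⟩ := h U y _ v v1 hy (Ly.nm_Sp hW J1) (hO.trans (Ly.Sp_le.1 le_rfl).1) hI.1
      (hJ v1 (by simp)) a2 a1
    obtain ⟨c1, c2⟩ := (Ly.Sp_le (y := y) (W := ncl y.G W v) (vs := J1 ++ J2)).1 le_rfl
    have c3 := le_ncl.trans c1
    have c4 := ih (ncl y.G W v) (J1 ++ J2) (nm_ncl hW) (hO.trans le_ncl) hI.2.2
      (fun u hu => hJ u (by rw [List.mem_append] at hu ⊢; exact hu.imp_right (.tail _)))
      (hle.trans (Ly.Sp_le.2 ⟨c3, fun u hu => by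
        rcases List.mem_append.1 hu with e | e
        · exact c2 u (List.mem_append_left _ e)
        · rcases List.mem_cons.1 e with rfl | e
          · exact fun g hg => Ly.nm_Sp (nm_ncl hW) _ g hg _ (ncl_le.2 ⟨Ly.Sp_le.2 ⟨c3,
              fun x hx => c2 x (List.mem_append_left _ hx)⟩, fun x hx => c1 (conj_mem_ncl hx)⟩ b2)
          · exact c2 u (List.mem_append_right _ e)⟩))
    rw [List.map_cons, b1, List.map_append, List.map_cons]
    rw [List.map_append] at c4
    exact ((List.subperm_cons _).2 c4).trans List.perm_middle.symm.subperm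

end Pool.Agent.P.MP_f1a348_lc.AL
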