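import Pool.Agent.P.MP_f1a348_lc.AL.Iface

/-!
Project AL: the number of twists of a simple summand.
-/

namespace Pool.Agent.P.MP_f1a348_lc.AL

open Pool.Agent.P.MP_f1a348_lc.GI hiding Nm Good
open scoped commutatorElement

namespace T4y

section abs
variable {Γ V : Type} [Group Γ] [AddCommGroup V] {ρ ρ' : Γ → Module.End ℤ V}
  {W : AddSubgroup (Γ → V)}

/-- simple actions -/
structure Ac (ρ : Γ → Module.End ℤ V) : Prop where
  mul : ∀ g h, ρ (g * h) = ρ g * ρ h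
  one : ρ 1 = 1
  sim : ∀ N : AddSubgroup V, (∀ g, ∀ x ∈ N, ρ g x ∈ N) → N = ⊥ ∨ N = ⊤

/-- the embedding into the functions -/
def em (ρ : Γ → Module.End ℤ V) : V →+ (Γ → V) :=
  AddMonoidHom.mk' (fun x q => ρ q x) fun x y => funext fun _ => map_add _ x y

def Stb (W : AddSubgroup (Γ → V)) : Prop := ∀ g, ∀ φ ∈ W, (fun q => φ (q * g)) ∈ W

def An (ρ : Γ → Module.End ℤ V) (x : V) : Set (List Γ) := {w | (w.map fun q => ρ q x).sum = 0}

def ty (ρ : Γ → Module.End ℤ V) : Set (Set (List Γ)) := {A | ∃ x ≠ 0, A = An ρ x}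

theorem em_app (h : Ac ρ) (g : Γ) (x : V) : em ρ (ρ g x) = fun q => em ρ x (q * g) :=
  funext fun q => by simp [em, h.mul]

theorem stb_sup (h : Ac ρ) (hW : Stb W) : Stb (W ⊔ (em ρ).range) := fun g φ hφ => by
  obtain ⟨w, hw, _, ⟨x, rfl⟩, rfl⟩ := AddSubgroup.mem_sup.1 hφ
  exact AddSubgroup.mem_sup.2 ⟨_, hW g w hw, _, ⟨ρ g x, em_app h g x⟩, rfl⟩

theorem dich (h : Ac ρ) (hW : Stb W) (hn : ¬ (em ρ).range ≤ W) (x : V) (hx : em ρ x ∈ W) :
    x = 0 := by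
  rcases h.sim (W.comap (em ρ)) (fun g x hx => by
    rw [AddSubgroup.mem_comap, em_app h]; exact hW g _ hx) with e | e
  · exact e.le hx
  · exact (hn fun _ ⟨y, hy⟩ => hy ▸ e.ge (AddSubgroup.mem_top y)).elim

theorem ty_le (h : Ac ρ) (h' : Ac ρ') (hW : Stb W) (hle : (em ρ).range ≤ W ⊔ (em ρ').range)
    (hn : ¬ (em ρ).range ≤ W) (hn' : ¬ (em ρ').range ≤ W) : ty ρ ⊆ ty ρ' := by
  have z : ∀ x x', em ρ x - em ρ' x' ∈ W → (x = 0 ↔ x' = 0) := fun x x' e =>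
    ⟨fun e' => dich h' hW hn' _ (by simpa [e'] using e),
      fun e' => dich h hW hn _ (by simpa [e'] using e)⟩
  rintro _ ⟨x, hx, rfl⟩
  obtain ⟨w, hw, _, ⟨x', rfl⟩, e⟩ := AddSubgroup.mem_sup.1 (hle ⟨x, rfl⟩)
  have r : em ρ x - em ρ' x' ∈ W := by rwa [← e, add_sub_cancel_right]
  refine ⟨x', fun e' => hx ((z x x' r).2 e'), Set.ext fun w => z _ _ ?_⟩
  induction w with
  | nil => simp
  | cons g w ih =>
    rw [List.map_cons, List.map_cons, List.sum_cons, List.sum_cons, map_add, map_add,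
      add_sub_add_comm, em_app h, em_app h']
    exact W.add_mem (hW g _ r) ih

theorem exch (h : Ac ρ) (h' : Ac ρ') (hW : Stb W) (hle : (em ρ).range ≤ W ⊔ (em ρ').range)
    (hn : ¬ (em ρ).range ≤ W) : ty ρ = ty ρ' := by
  have hn' : ¬ (em ρ').range ≤ W := fun e => hn (hle.trans (sup_le le_rfl e))
  refine (ty_le h h' hW hle hn hn').antisymm (ty_le h' h hW (by_contra fun e => hn ?_) hn' hn)
  rintro _ ⟨x, rfl⟩
  obtain ⟨w, hw, _, ⟨x', rfl⟩, e'⟩ := AddSubgroup.mem_sup.1 (hle ⟨x, rfl⟩)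
  rwa [← e', dich h' (stb_sup h hW) e x' (AddSubgroup.mem_sup.2 ⟨-w, neg_mem hw, _, ⟨x, rfl⟩, by
    rw [← e', neg_add_cancel_left]⟩), map_zero, add_zero]

theorem count [Finite Γ] [Finite V] [Nontrivial V] {ι T : Type} {ρ : ι → Γ → Module.End ℤ V}
    (h : ∀ i, Ac (ρ i)) {lb : ι → T} (hl : ∀ i j, ty (ρ i) = ty (ρ j) → lb i = lb j)
    (s : Finset T) (hs : ∀ τ ∈ s, ∃ i, lb i = τ) : ∃ W : AddSubgroup (Γ → V), Stb W ∧
      2 ^ s.card ≤ Nat.card W ∧ ∀ i, (em (ρ i)).range ≤ W → lb i ∈ s := by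
  classical
  induction s using Finset.induction_on with
  | empty =>
    refine ⟨⊥, fun g φ e => by rw [AddSubgroup.mem_bot.1 e]; rfl, by simp, fun i e => ?_⟩
    obtain ⟨x, hx⟩ := exists_ne (0 : V)
    exact (hx (by simpa [em, (h i).one] using congrFun (AddSubgroup.mem_bot.1 (e ⟨x, rfl⟩)) 1)).elim
  | insert τ s hτ ih =>
    obtain ⟨W, h1, h2, h3⟩ := ih fun τ e => hs τ (Finset.mem_insert_of_mem e)
    obtain ⟨i, rfl⟩ := hs τ (Finset.mem_insert_self _ _)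
    refine ⟨_, stb_sup (h i) h1, ?_, fun j e => Finset.mem_insert.2 (or_iff_not_imp_right.2
      fun e' => hl _ _ (exch (h j) (h i) h1 e fun e'' => e' (h3 j e'')))⟩
    obtain ⟨k, hk⟩ := AddSubgroup.card_dvd_of_le (le_sup_left : W ≤ W ⊔ (em (ρ i)).range)
    have k0 : k ≠ 0 := fun e => Nat.card_pos.ne' (by simpa [e] using hk)
    have k1 : k ≠ 1 := fun e => hτ (h3 i (le_sup_right.trans (AddSubgroup.eq_of_le_of_card_ge
      (le_sup_left : W ≤ W ⊔ (em (ρ i)).range) (by simp [hk, e])).ge))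
    rw [Finset.card_insert_of_notMem hτ, pow_succ, hk]
    exact Nat.mul_le_mul h2 (by omega)
end abs

end T4y
open T4y

theorem a_T4 (h : S_LAY) : S_T4 := by
  intro U _ y v n hy hv hn
  classical
  have ML : ncl y.G y.O v ≤ y.L := ncl_le_of_nm hy.nL hy.OL hv.1
  have := hy.fin
  obtain ⟨V, _, _, ρ, κ, k1, k2, k3, k4, k5⟩ := h U y.G y.O (ncl y.G y.O v) hy.fin le_ncl
    (ML.trans hy.LG) hy.nO (nm_ncl hy.nO) fun x hx z hz => hy.cen x (hy.LF (ML hx)) z (ML hz)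
  set M := ncl y.G y.O v
  have nM : UP.Nm y.G M := nm_ncl hy.nO
  have fac : ∀ g g' : y.G, y.π g = y.π g' → ρ g = ρ g' := fun g g' e => by
    have : ρ (g⁻¹ * g') = 1 := LinearMap.ext fun x => by
      obtain ⟨u, hu, rfl⟩ := k3 x
      have h1 := hy.cen _ ((hy.qt.eq_iff g.2 g'.2).1 e) u (ML hu)
      have h2 := k1 _ (le_ncl h1) u hu
      rw [(k2 _ (le_ncl h1)).2 h1, zero_add, commutatorElement_def, inv_mul_cancel_right] at h2
      exact (k4 _ u hu).symm.trans h2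
    rw [← mul_inv_cancel_left g g', map_mul, this, mul_one]
  choose l l1 l2 using fun q : y.Q => hy.qt.onto q q.2
  let pq : y.G → y.Q := fun g => ⟨y.π g, hy.qt.maps _ g.2⟩
  let tw : AutG y.Q → y.Q → y.Q := fun a q => ⟨a.1.app q, (a.2.2.maps _).2 q.2⟩
  let σ : AutG y.Q → y.Q → Module.End ℤ V := fun a q => ρ ⟨l (tw a⁻¹ q), l1 _⟩
  have s1 : ∀ a g, σ a (tw a (pq g)) = ρ g := fun a g => fac _ _ (by simp [l2, tw, pq])
  have k0 : κ 1 = 0 := (k2 1 M.one_mem).2 y.O.one_mem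
  have ac : ∀ a, Ac (σ a) := fun a => ⟨fun g g' => (fac _ _ (by
      rw [Subgroup.coe_mul, hy.qt.mul _ (l1 _) _ (l1 _), l2, l2, l2]
      exact a⁻¹.2.2.hm _ g.2 _ g'.2)).trans (map_mul ρ _ _), (fac _ 1 (by
      rw [l2, Subgroup.coe_one, hy.qt.one]; exact a⁻¹.2.2.hm.one)).trans (map_one ρ),
    fun N hN => or_iff_not_imp_left.2 fun e => by
      obtain ⟨⟨x, hx⟩, h1⟩ := AddSubgroup.ne_bot_iff_exists_ne_zero.1 e
      obtain ⟨u, hu, rfl⟩ := k3 x
      let K : Subgroup U := ⟨⟨⟨{m | m ∈ M ∧ κ m ∈ N}, fun {a b} ha hb => ⟨mul_mem ha.1 hb.1, by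
        rw [k1 a ha.1 b hb.1]; exact add_mem ha.2 hb.2⟩⟩, one_mem _, k0 ▸ zero_mem _⟩,
        fun {a} ha => ⟨inv_mem ha.1, by
          have := k1 a ha.1 _ (inv_mem ha.1)
          rw [mul_inv_cancel, k0] at this
          rw [eq_neg_of_add_eq_zero_right this.symm]; exact neg_mem ha.2⟩⟩
      have nK : UP.Nm y.G K := fun g hg m hm => ⟨nM g hg m hm.1, by
        rw [show κ (g * m * g⁻¹) = _ from k4 ⟨g, hg⟩ m hm.1, ← s1 a]; exact hN _ _ hm.2⟩
      have OK : y.O ≤ K := fun o ho => ⟨le_ncl ho, (k2 o (le_ncl ho)).2 ho ▸ zero_mem _⟩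
      refine (AddSubgroup.eq_top_iff' _).2 fun z => ?_
      obtain ⟨m, hm, rfl⟩ := k3 z
      exact (ncl_le_of_nm nK OK (ncl_le_of_nm nK OK ⟨hu, hx⟩ (hv.2.2.2 u hu fun ho =>
        h1 (Subtype.ext ((k2 u hu).2 ho)))) hm).2⟩
  have key : ∀ u ∈ M, ∀ w : List y.G, (w.map fun g : y.G => g.1 * u * g.1⁻¹).prod ∈ M ∧
      κ (w.map fun g : y.G => g.1 * u * g.1⁻¹).prod = (w.map fun g => ρ g (κ u)).sum :=
    fun u hu w => by
      induction w with
      | nil => exact ⟨one_mem _, k0⟩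
      | cons g w ih =>
        simp only [List.map_cons, List.prod_cons, List.sum_cons]
        exact ⟨mul_mem (nM g g.2 u hu) ih.1, by
          rw [k1 _ (nM g g.2 u hu) _ ih.1, ih.2, ← k4 g u hu]; rfl⟩
  have an : ∀ a : AutG y.Q, ∀ u ∈ M,
      List.map a.1.app '' y.Ann u = List.map Subtype.val '' An (σ a) (κ u) := fun a u hu => by
    refine Set.Subset.antisymm ?_ ?_
    · rintro _ ⟨_, ⟨w, h1, rfl, h2⟩, rfl⟩
      lift w to List y.G using h1
      refine ⟨w.map fun g => tw a (pq g), ?_, by simp [tw, pq]⟩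
      rw [List.map_map] at h2
      simpa only [An, Set.mem_ofPred_eq, List.map_map, Function.comp_def, s1, ← (key u hu w).2]
        using (k2 _ (key u hu w).1).2 h2
    · rintro _ ⟨w, h1, rfl⟩
      refine ⟨_, ⟨w.map fun q => l (tw a⁻¹ q), List.forall_mem_map.2 fun q _ => l1 _, rfl, ?_⟩,
        by simp [l2, tw, Function.comp_def]⟩
      have := key u hu (w.map fun q => ⟨l (tw a⁻¹ q), l1 _⟩)
      simp only [List.map_map, Function.comp_def] at this ⊢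
      exact (k2 _ this.1).1 (this.2.trans h1)
  have lb : ∀ a : AutG y.Q, a.1 • y.ty v = (fun A => List.map Subtype.val '' A) '' ty (σ a) :=
    fun a => Set.Subset.antisymm (by
      rintro _ ⟨_, ⟨u, h1, h2, rfl⟩, rfl⟩
      exact ⟨_, ⟨κ u, fun e => h2 ((k2 u h1).1 e), rfl⟩, (an a u h1).symm⟩) (by
      rintro _ ⟨_, ⟨x, h1, rfl⟩, rfl⟩
      obtain ⟨u, hu, rfl⟩ := k3 x
      exact ⟨_, ⟨u, hu, fun e => h1 ((k2 u hu).2 e), rfl⟩, an a u hu⟩)
  have sj : Function.Surjective pq := fun q => ⟨⟨l q, l1 q⟩, Subtype.ext (l2 q)⟩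
  have : Finite y.Q := .of_surjective _ sj
  have : Nontrivial V := ⟨κ v, 0, fun e => hv.2.2.1 ((k2 v self_mem_ncl).1 e)⟩
  change (MulAction.stabilizer (AutG y.Q) (y.ty v)).index ≤ _
  rw [MulAction.index_stabilizer]
  by_cases hf : (MulAction.orbit (AutG y.Q) (y.ty v)).Finite
  · obtain ⟨W, -, h2, -⟩ := count ac (lb := fun a => a.1 • y.ty v)
      (fun a b e => by rw [lb, lb, e]) hf.toFinset fun τ e => hf.mem_toFinset.1 e
    have : Finite y.O := finite_of_le (hy.OL.trans hy.LG)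
    have c1 : Nat.card V ≤ 2 ^ n := ((Nat.le_mul_of_pos_right _ Nat.card_pos).trans (k5.le.trans
      ((Subgroup.card_le_of_le (ML.trans hy.LG)).trans hn))).trans Nat.lt_two_pow_self.le
    have c2 : Nat.card y.Q ≤ n := (Nat.card_le_card_of_surjective _ sj).trans hn
    rw [Set.ncard_eq_toFinset_card _ hf, ← Nat.pow_le_pow_iff_right one_lt_two, pow_mul]
    refine h2.trans ((AddSubgroup.card_le_card_addGroup W).trans ?_)
    rw [Nat.card_fun]
    exact (Nat.pow_le_pow_left c1 _).trans (Nat.pow_le_pow_right (by positivity) c2)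
  · rw [Set.Infinite.ncard hf]
    exact Nat.zero_le _

end Pool.Agent.P.MP_f1a348_lc.AL
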