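import Pool.Agent.P.MP_f1a348_lc.AL.Iface

/-! Project AL: the list of summands of a layer. -/

namespace Pool.Agent.P.MP_f1a348_lc.AL

open Pool.Agent.P.MP_f1a348_lc.GI hiding Nm Good

namespace T5y

variable {U : Type} [Group U] {y : Ly U}

theorem dbl {W X : Subgroup U} [Finite X] (h : W ≤ X) {v : U} (h1 : v ∈ X) (h2 : v ∉ W) :
    2 * Nat.card W ≤ Nat.card X := by
  obtain ⟨k, hk⟩ := Subgroup.card_dvd_of_le h
  have h0 : 0 < Nat.card X := Nat.card_pos
  rcases k with _ | _ | k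
  · omega
  · exact absurd (Subgroup.eq_of_le_of_card_ge h (by omega) ▸ h1) h2
  · rw [hk, mul_comm]
    exact Nat.mul_le_mul_left _ (by omega)

theorem card (h : y.Ok) (vs : List U) : ∀ W : Subgroup U, W ≤ y.G → y.Ind W vs →
    2 ^ vs.length * Nat.card W ≤ Nat.card y.G := by
  have := h.fin
  induction vs with
  | nil => exact fun W hW _ => by simpa using Subgroup.card_le_of_le hW
  | cons v vs ih =>
    intro W hW hi
    have h1 : ncl y.G W v ≤ y.G := ncl_le_of_nm (nm_self _) hW hi.1.2.1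
    have : Finite (ncl y.G W v) := Finite.of_injective _ (Subgroup.inclusion_injective h1)
    refine le_trans ?_ (ih _ h1 hi.2.2)
    rw [List.length_cons, pow_succ, mul_assoc]
    exact Nat.mul_le_mul_left _ (dbl le_ncl self_mem_ncl hi.2.1)

theorem sp_le (h : y.Ok) {vs : List U} (hi : y.Ind y.O vs) : y.Sp y.O vs ≤ y.L :=
  Ly.Sp_le.2 ⟨h.OL, fun v hv g hg => h.nL g hg v (hi.min v hv).1⟩

theorem fold [DecidableEq U] {l : LP U} (hl : LRep l y) (h : y.Ok) (u : List U) :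
    ∀ s r : List U × List U, (∀ v ∈ u, v ∈ y.L) → Rep s.1 (y.Sp y.O s.2) → y.Ind y.O s.2 →
    u.foldl (fun s v => bif minB l.1 l.2.2.1 v && !s.1.contains v then
      (nclP l.1 l.1 s.1 v, s.2 ++ [v]) else s) s = r →
    y.Ind y.O r.2 ∧ y.Sp y.O s.2 ≤ y.Sp y.O r.2 ∧ ∀ v ∈ u, y.Min v → v ∈ y.Sp y.O r.2 := by
  induction u with
  | nil =>
    rintro s _ - - hi rfl
    exact ⟨hi, le_rfl, by simp⟩
  | cons v u ih =>
    intro s r hu hr hi e
    obtain ⟨hv, hu⟩ := List.forall_mem_cons.1 hu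
    have hm := minB_iff hl.G hl.O (h.OL.trans h.LG) (h.LG hv)
    rw [List.foldl_cons] at e
    cases hb : (minB l.1 l.2.2.1 v && !s.1.contains v) with
    | false =>
      rw [hb, cond_false] at e
      obtain ⟨a1, a2, a3⟩ := ih s r hu hr hi e
      refine ⟨a1, a2, List.forall_mem_cons.2 ⟨fun h1 => a2 ?_, a3⟩⟩
      rw [hm.2 h1.2] at hb
      exact (hr.mem v).1 (by simpa using hb)
    | true =>
      rw [hb, cond_true] at e
      rw [Bool.and_eq_true, hm] at hb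
      have h1 : v ∉ y.Sp y.O s.2 := fun h1 => by simpa [(hr.mem v).2 h1] using hb.2
      have h2 : y.Sp y.O (s.2 ++ [v]) = ncl y.G (y.Sp y.O s.2) v := by
        simp [Ly.Sp]
      obtain ⟨a1, a2, a3⟩ := ih (nclP l.1 l.1 s.1 v, s.2 ++ [v]) r hu
        (by rw [h2]; exact nclP_rep' hl.G hr ((sp_le h hi).trans h.LG) (h.LG hv))
        (Ly.ind_append.2 ⟨hi, ⟨hv, hb.1⟩, h1, trivial⟩) e
      rw [h2] at a2
      exact ⟨a1, le_ncl.trans a2, List.forall_mem_cons.2 ⟨fun _ => a2 self_mem_ncl, a3⟩⟩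

end T5y

theorem a_T5 : S_T5 := by
  intro U _ _ l y hl h
  obtain ⟨a1, a2, a3⟩ := T5y.fold hl h l.2.2.2 (l.2.2.1, []) _ (fun v hv => (hl.L.mem v).1 hv)
    hl.O trivial rfl
  refine ⟨⟨a1, le_antisymm (T5y.sp_le h a1) (h.ss.trans (sup_le a2 ?_))⟩, ?_⟩
  · exact (Subgroup.closure_le _).2 fun v hv => a3 v ((hl.L.mem v).2 hv.1) hv
  · have := h.fin
    have : Finite y.O := finite_of_le (h.OL.trans h.LG)
    exact (Nat.le_mul_of_pos_right _ Nat.card_pos).trans (T5y.card h _ _ (h.OL.trans h.LG) a1)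

end Pool.Agent.P.MP_f1a348_lc.AL
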