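import Pool.Agent.P.MP_f1a348_lc.AL.Iface

/-! Project AL: isomorphic layers have matching lists of types. -/

namespace Pool.Agent.P.MP_f1a348_lc.AL

open Pool.Agent.P.MP_f1a348_lc.GI hiding Nm Good

theorem a_T6 (h1 : S_PART) (h3 : S_T3) : S_T6 := by
  intro U _ y y' a V vs vs' h h' ha hV hs hs'
  have e : ∀ v, ∃ p : U × U, v ∈ y.L → p ∈ V ∧ p.1 = v := fun v => by
    by_cases hv : v ∈ y.L
    · exact (hV.fst v hv).imp fun _ e _ => e
    · exact ⟨1, fun e => absurd e hv⟩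
  choose f hf using e
  have e1 : (vs.map f).map Prod.fst = vs := by
    rw [List.map_map]
    exact (List.map_congr_left fun v hv => (hf v (hs.1.min v hv).1).2).trans (List.map_id _)
  obtain ⟨k1, k2, k3, -⟩ := h1 U y y' a V (vs.map f) h h' ha hV.gr
    (List.forall_mem_map.2 fun v hv => (hf v (hs.1.min v hv).1).1) (e1.symm ▸ hs.1)
  rw [e1] at k2 k3
  have k4 : y'.L ≤ y'.Sp y'.O ((vs.map f).map Prod.snd) := fun x hx => by
    obtain ⟨p, hp, rfl⟩ := hV.snd x hx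
    exact (k3 p hp).1 (hs.2.symm ▸ (hV.gr.le hp).1)
  have k5 : y'.Sp y'.O ((vs.map f).map Prod.snd) ≤ y'.L :=
    Ly.Sp_le.2 ⟨h'.OL, fun v hv g hg => h'.nL g hg v (k1.min v hv).1⟩
  have k6 := (h3 U y' _ _ _ h' h'.nO le_rfl k1 hs'.1.min (hs'.2.symm ▸ k5)).antisymm
    (h3 U y' _ _ _ h' h'.nO le_rfl hs'.1 k1.min (hs'.2.symm ▸ k4))
  rw [← k2] at k6
  exact k6

end Pool.Agent.P.MP_f1a348_lc.AL
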