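import Pool.Agent.P.MP_f1a348_lc.AL.Iface

/-!
Project AL: extension of a graph by one summand.
-/

namespace Pool.Agent.P.MP_f1a348_lc.AL

open Pool.Agent.P.MP_f1a348_lc.GI hiding Nm Good
open Pool.Agent.P.MP_f1a348_lc.UP (Rec up topI SolvMod Nm der)
open Pool.Agent.P.MP_f1a348_lc.FA (Cls Sub MaxN)
open Pool.Agent.Lib.Helper47
open scoped commutatorElement Pointwise
open MulAction (stabilizer)

namespace T7y
variable {U : Type} [Group U] {y y' : Ly U} {a : FP U}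

theorem ind_sub {l vs : List U} (hs : l.Sublist vs) :
    ∀ {W W' : Subgroup U}, W' ≤ W → y.Ind W vs → y.Ind W' l := by
  induction hs with
  | slnil => exact fun _ h => trivial
  | cons v _ ih => exact fun hW h => ih (hW.trans le_ncl) h.2.2
  | cons_cons v _ ih =>
    exact fun hW h => ⟨h.1, fun e => h.2.1 (hW e),
      ih (ncl_le.2 ⟨hW.trans le_ncl, fun x hx => conj_mem_ncl hx⟩) h.2.2⟩

theorem le_Sp (W : Subgroup U) (vs : List U) : W ≤ y.Sp W vs := (Ly.Sp_le.1 le_rfl).1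

theorem mem_Sp (W : Subgroup U) {vs : List U} {v : U} (hv : v ∈ vs) : v ∈ y.Sp W vs := by
  simpa using (Ly.Sp_le.1 (le_refl (y.Sp W vs))).2 v hv 1 y.G.one_mem

theorem Sp_le_nm {W X : Subgroup U} {vs : List U} (hX : Nm y.G X) (hW : W ≤ X)
    (h : ∀ v ∈ vs, v ∈ X) : y.Sp W vs ≤ X :=
  Ly.Sp_le.2 ⟨hW, fun v hv g hg => hX g hg v (h v hv)⟩

theorem inf_min {W : Subgroup U} {v x : U} (hv : y.Min v) (hW : Nm y.G W) (hO : y.O ≤ W)
    (hvW : v ∉ W) (hx : x ∈ ncl y.G y.O v) (hxW : x ∈ W) : x ∈ y.O :=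
  by_contra fun h => hvW (ncl_le_of_nm hW hO hxW (hv.2.2.2 x hx h))

theorem pr_of_L (h : y.Ok) (h' : y'.Ok) (ha : IsoP y.Q y'.Q a) {q : U × U}
    (hq : q ∈ y.L.prod y'.L) : q ∈ y.Pr y' a :=
  ⟨h.LG hq.1, h'.LG hq.2, by
    rw [(h.qt.ker _ (h.LG hq.1)).2 (h.LF hq.1), (h'.qt.ker _ (h'.LG hq.2)).2 (h'.LF hq.2),
      ha.hm.one]⟩

/-- the product of two subgroups, the second normalising the first -/
def prd {Γ : Type} [Group Γ] (V V1 : Subgroup Γ) (h : ∀ q ∈ V1, ∀ p ∈ V, q * p * q⁻¹ ∈ V) :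
    Subgroup Γ where
  carrier := {r | ∃ p ∈ V, ∃ q ∈ V1, r = p * q}
  one_mem' := ⟨1, one_mem _, 1, one_mem _, (mul_one _).symm⟩
  mul_mem' := by
    rintro _ _ ⟨p, hp, q, hq, rfl⟩ ⟨p', hp', q', hq', rfl⟩
    exact ⟨_, mul_mem hp (h q hq p' hp'), _, mul_mem hq hq', by group⟩
  inv_mem' := by
    rintro _ ⟨p, hp, q, hq, rfl⟩
    exact ⟨_, h _ (inv_mem hq) _ (inv_mem hp), _, inv_mem hq, by group⟩

theorem ext_step (h : y.Ok) (h' : y'.Ok) (ha : IsoP y.Q y'.Q a) {V : Subgroup (U × U)}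
    {W W' : Subgroup U} {v v' u : U} (hV : y.Gr y' a V) (hW : Nm y.G W) (hW' : Nm y'.G W')
    (hO : y.O ≤ W) (hO' : y'.O ≤ W') (hVW : ∀ p ∈ V, p.1 ∈ W ∧ p.2 ∈ W') (hv : y.Min v)
    (hv' : y'.Min v') (hn : v ∉ W) (hn' : v' ∉ W') (hu : u ∈ ncl y'.G y'.O v')
    (h1 : y.Gr y' a (ncl (y.Pr y' a) (y.O.prod y'.O) (v, u))) :
    u ∈ y'.L ∧ y.Gr y' a (ncl (y.Pr y' a) V (v, u)) := by
  have huL : u ∈ y'.L := ncl_le_of_nm h'.nL h'.OL hv'.1 hu
  obtain ⟨b1, b2, b3, -⟩ := Ly.gr_ncl h h' ha hV.le hV.ge hV.nm (p := (v, u)) ⟨hv.1, huL⟩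
  refine ⟨huL, b1, b2, fun r hr => ?_, b3⟩
  have hle : ncl (y.Pr y' a) V (v, u) ≤ prd V (ncl (y.Pr y' a) (y.O.prod y'.O) (v, u))
      (fun q hq => hV.nm q (pr_of_L h h' ha (h1.le hq))) :=
    ncl_le.2 ⟨fun p hp => ⟨p, hp, 1, one_mem _, (mul_one _).symm⟩,
      fun x hx => ⟨1, one_mem _, _, conj_mem_ncl hx, (one_mul _).symm⟩⟩
  have hle1 : ncl (y.Pr y' a) (y.O.prod y'.O) (v, u) ≤
      (ncl y.G y.O v).prod (ncl y'.G y'.O v') :=
    ncl_le.2 ⟨Subgroup.prod_mono le_ncl le_ncl,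
      fun x hx => ⟨conj_mem_ncl hx.1, nm_ncl h'.nO _ hx.2.1 _ hu⟩⟩
  obtain ⟨p, hp, q, hq, rfl⟩ := hle hr
  obtain ⟨c1, c2⟩ := hVW p hp
  obtain ⟨d1, d2⟩ := hle1 hq
  rw [Prod.fst_mul, Prod.snd_mul]
  constructor
  · intro e
    have e1 : q.1 ∈ y.O := inf_min hv hW hO hn d1 ((mul_mem_cancel_left c1).1 (hO e))
    exact mul_mem ((hV.ker p hp).1 ((mul_mem_cancel_right e1).1 e)) ((h1.ker q hq).1 e1)
  · intro e
    have e1 : q.2 ∈ y'.O := inf_min hv' hW' hO' hn' d2 ((mul_mem_cancel_left c2).1 (hO' e))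
    exact mul_mem ((hV.ker p hp).2 ((mul_mem_cancel_right e1).1 e)) ((h1.ker q hq).2 e1)

theorem partners {V : Subgroup (U × U)} (vs : List U) (h : ∀ v ∈ vs, ∃ p ∈ V, p.1 = v) :
    ∃ ps : List (U × U), (∀ p ∈ ps, p ∈ V) ∧ ps.map Prod.fst = vs := by
  induction vs with
  | nil => exact ⟨[], by simp, rfl⟩
  | cons v vs ih =>
    obtain ⟨p, hp, rfl⟩ := h v List.mem_cons_self
    obtain ⟨ps, h1, rfl⟩ := ih fun w hw => h w (List.mem_cons_of_mem _ hw)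
    exact ⟨p :: ps, List.forall_mem_cons.2 ⟨hp, h1⟩, rfl⟩

end T7y

open T7y in
theorem a_T7 (h1 : S_T1) (h2 : S_PART) (h3 : S_T3) : S_T7 := by
  intro U _ y y' a V vs ws vs' h h' ha hs hs' hp hV hx
  classical
  obtain ⟨ps, hps, rfl⟩ := partners (V := V) vs fun v hv => (hx v).2 (mem_Sp _ hv)
  obtain ⟨i1, i2⟩ := Ly.ind_append.1 hs.1
  obtain ⟨a1, a2, a3, a4⟩ := h2 U y y' a V ps h h' ha hV hps i1
  have hp' : ((((ps.map Prod.fst ++ ws).map y.ty).map fun t => a • t)).Perm (vs'.map y'.ty) := hp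
  have hW := Ly.nm_Sp h.nO (ps.map Prod.fst)
  have hW' := Ly.nm_Sp h'.nO (ps.map Prod.snd)
  refine ⟨?_, ?_⟩
  · rintro rfl
    rw [List.append_nil] at hs hp'
    refine ⟨hV, fun x hxL => (hx x).2 (hs.2 ▸ hxL), fun x hxL => a4 x ?_⟩
    refine Sp_le_nm hW' (le_Sp _ _) (fun v' hv' => by_contra fun hn => ?_) (hs'.2 ▸ hxL)
    have i3 : y'.Ind y'.O (ps.map Prod.snd ++ [v']) :=
      Ly.ind_append.2 ⟨a1, hs'.1.min v' hv', hn, trivial⟩
    have := (h3 U y' y'.O _ vs' h' h'.nO le_rfl i3 hs'.1.min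
      (hs'.2 ▸ Sp_le_nm h'.nL h'.OL fun v hv => (i3.min v hv).1)).length_le
    have e := hp'.length_eq
    simp only [List.length_map, List.length_append, List.length_singleton] at this e
    omega
  · rintro v ws' rfl
    have key : ∃ v' ∈ vs', a • y.ty v = y'.ty v' ∧ v' ∉ y'.Sp y'.O (ps.map Prod.snd) := by
      by_contra hn
      push Not at hn
      have i3 : y'.Ind y'.O (vs'.filter fun v' => y'.ty v' == a • y.ty v) :=
        ind_sub List.filter_sublist le_rfl hs'.1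
      have c1 := (h3 U y' y'.O _ _ h' h'.nO le_rfl i3 a1.min
        (Sp_le_nm hW' (le_Sp _ _) fun v' hv' => hn v' (List.mem_filter.1 hv').1
          (eq_of_beq (List.mem_filter.1 hv').2).symm)).count_le (a • y.ty v)
      have c2 := hp'.count_eq (a • y.ty v)
      have c3 : ((vs'.filter fun v' => y'.ty v' == a • y.ty v).map y'.ty).count (a • y.ty v)
          = (vs'.map y'.ty).count (a • y.ty v) := by
        simp only [List.count_eq_countP, List.countP_map, List.countP_filter, Function.comp_def,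
          Bool.and_self]
      rw [List.map_append, List.map_append, List.count_append, a2, List.map_cons, List.map_cons,
        List.count_cons_self] at c2
      omega
    obtain ⟨v', hv', e, hn⟩ := key
    obtain ⟨u, hu, g1⟩ := (h1 U y y' a h h' ha).2 v v' i2.1 (hs'.1.min v' hv') e
    exact ⟨u, ext_step h h' ha hV hW hW' (le_Sp _ _) (le_Sp _ _)
      (fun p hp => ⟨(hx _).1 ⟨p, hp, rfl⟩, (a3 p hp).1 ((hx _).1 ⟨p, hp, rfl⟩)⟩) i2.1
      (hs'.1.min v' hv') i2.2.1 hn hu g1⟩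

end Pool.Agent.P.MP_f1a348_lc.AL
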