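import Pool.Agent.P.MP_f1a348_lc.AL.Iface

/-!
Project AL: the lift of a system of graphs.
-/

namespace Pool.Agent.P.MP_f1a348_lc.AL

open Pool.Agent.P.MP_f1a348_lc.GI hiding Nm Good
open Pool.Agent.P.MP_f1a348_lc.UP (Rec up topI SolvMod Nm der)

namespace T8y

theorem down {p : ℕ → Prop} (r : ℕ) (h0 : ∀ j, r ≤ j → p j) (h1 : ∀ j, p (j + 1) → p j) (j : ℕ) :
    p j := by
  induction h : r - j generalizing j with
  | zero => exact h0 j (by omega)
  | succ k ih => exact h1 j (ih _ (by omega))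

variable {U : Type} [Group U]

/-- normal forms `N` built from picks `P` -/
structure NF (O O' : ℕ → Subgroup U) (V : ℕ → Subgroup (U × U)) (r : ℕ) (P : ℕ → U → U × U)
    (N : ℕ → U → U) : Prop where
  a : Antitone O
  a' : Antitone O'
  bot : ∀ j, r ≤ j → O j = ⊥ ∧ O' j = ⊥
  gs : Gs O O' V
  top : ∀ j, r ≤ j → ∀ x, N j x = 1
  eq : ∀ j x, N j x = (P j x).2 * N (j + 1) ((P j x).1⁻¹ * x)
  mem : ∀ j, ∀ x ∈ O j, P j x ∈ V j ∧ (P j x).1⁻¹ * x ∈ O (j + 1)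
  cg : ∀ j x y, Cg (O (j + 1)) x y → P j x = P j y
  one : ∀ j, P j 1 = (1, 1)

variable {O O' : ℕ → Subgroup U} {V : ℕ → Subgroup (U × U)} {r : ℕ} {P : ℕ → U → U × U}
  {N : ℕ → U → U}

theorem kr (g : Gs O O' V) {j : ℕ} {x y a b : U} (h1 : (x, a) ∈ V j) (h2 : (y, b) ∈ V j) :
    Cg (O (j + 1)) x y ↔ Cg (O' (j + 1)) a b :=
  g.ker j _ (mul_mem (inv_mem h1) h2)

theorem NF.gr (h : NF O O' V r P N) (j : ℕ) : ∀ x ∈ O j, (x, N j x) ∈ V j := by
  refine down (p := fun j => ∀ x ∈ O j, (x, N j x) ∈ V j) r (fun j hj x hx => ?_)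
    (fun j ih x hx => ?_) j
  · rw [(h.bot j hj).1, Subgroup.mem_bot] at hx
    rw [hx, h.top j hj]
    exact (V j).one_mem
  · obtain ⟨h1, h2⟩ := h.mem j x hx
    have := mul_mem h1 (h.gs.ge j (h.gs.le _ (ih _ h2)))
    rw [h.eq j x]
    convert this using 1
    ext <;> simp

theorem NF.st (h : NF O O' V r P N) {j : ℕ} {x : U} (hx : x ∈ O (j + 1)) :
    N j x = N (j + 1) x := by
  rw [h.eq j x, ← h.cg j 1 x (Cg.one_iff.2 hx), h.one]
  simp

theorem NF.st0 (h : NF O O' V r P N) {x : U} (i : ℕ) (hx : x ∈ O i) : N 0 x = N i x := by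
  induction i with
  | zero => rfl
  | succ i ih => rw [ih (h.a (Nat.le_succ i) hx), h.st hx]

theorem NF.gr0 (h : NF O O' V r P N) (i : ℕ) (x : U) (hx : x ∈ O i) : (x, N 0 x) ∈ V i :=
  h.st0 i hx ▸ h.gr i x hx

theorem NF.pv (h : NF O O' V r P N) (i j : ℕ) :
    ∀ x ∈ O j, ∀ y ∈ O j, Cg (O' i) (N j x) (N j y) ↔ Cg (O i) x y := by
  refine down (p := fun j => ∀ x ∈ O j, ∀ y ∈ O j, Cg (O' i) (N j x) (N j y) ↔ Cg (O i) x y) r
    (fun j hj x hx y hy => ?_) (fun j ih x hx y hy => ?_) j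
  · rw [(h.bot j hj).1, Subgroup.mem_bot] at hx hy
    rw [hx, hy]
    exact iff_of_true (Cg.refl _) (Cg.refl _)
  · rcases le_or_gt i j with hi | hi
    · exact iff_of_true (h.a' hi (mul_mem (inv_mem (h.gs.le j (h.gr j x hx)).2)
        (h.gs.le j (h.gr j y hy)).2)) (h.a hi (mul_mem (inv_mem hx) hy))
    · have key : Cg (O (j + 1)) x y → (Cg (O' i) (N j x) (N j y) ↔ Cg (O i) x y) := fun e => by
        have := ih _ (h.mem j x hx).2 _ (h.mem j y hy).2
        rw [h.cg j x y e] at this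
        rw [h.eq j x, h.eq j y, h.cg j x y e]
        exact ⟨fun c => (this.1 (c.cancel_left _)).cancel_left _,
          fun c => (this.2 (c.left _)).left _⟩
      exact ⟨fun c => (key ((kr h.gs (h.gr j x hx) (h.gr j y hy)).2 (c.mono (h.a' hi)))).1 c,
        fun c => (key (c.mono (h.a hi))).2 c⟩

theorem NF.onto (h : NF O O' V r P N) (j : ℕ) : ∀ z ∈ O' j, ∃ x ∈ O j, N j x = z := by
  refine down (p := fun j => ∀ z ∈ O' j, ∃ x ∈ O j, N j x = z) r (fun j hj z hz => ?_)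
    (fun j ih z hz => ?_) j
  · rw [(h.bot j hj).2, Subgroup.mem_bot] at hz
    exact ⟨1, one_mem _, by rw [hz, h.top j hj]⟩
  · obtain ⟨p, hp, rfl⟩ := h.gs.snd j z hz
    obtain ⟨h1, h2⟩ := h.mem j p.1 (h.gs.le j hp).1
    obtain ⟨u, hu, e⟩ := ih _ ((h.gs.ker j _ (mul_mem (inv_mem h1) hp)).1 h2)
    have e1 : P j ((P j p.1).1 * u) = P j p.1 :=
      h.cg _ _ _ (by simpa [Cg, mul_assoc] using mul_mem (inv_mem hu) h2)
    refine ⟨(P j p.1).1 * u, mul_mem (h.gs.le j h1).1 (h.a (Nat.le_succ j) hu), ?_⟩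
    rw [h.eq, e1, inv_mul_cancel_left, e]
    simp

theorem NF.mulR (h : NF O O' V r P N) (i j : ℕ) :
    j ≤ i → ∀ x ∈ O j, ∀ y ∈ O i, Cg (O' (i + 1)) (N j (x * y)) (N j x * N j y) := by
  refine down (p := fun j => j ≤ i → ∀ x ∈ O j, ∀ y ∈ O i,
    Cg (O' (i + 1)) (N j (x * y)) (N j x * N j y)) r (fun j hj _ x _ y _ => ?_)
    (fun j ih hj x hx y hy => ?_) j
  · simp only [h.top j hj, mul_one, Cg.refl]
  · rcases hj.eq_or_lt with rfl | hj
    · exact (kr h.gs (y := x * y) (h.gr _ _ (mul_mem hx hy))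
        (mul_mem (h.gr _ x hx) (h.gr _ y hy))).1 (Cg.refl _)
    · have hy' := h.a hj hy
      rw [h.eq j (x * y), h.eq j x, ← h.cg j x (x * y) (Cg.mul_mem hy' x), h.st hy', mul_assoc,
        ← mul_assoc _ x]
      exact (ih hj _ (h.mem j x hx).2 y hy).left _

theorem NF.mulL (h : NF O O' V r P N) (i : ℕ) {x y : U} (hx : x ∈ O i) (hy : y ∈ O 0) :
    Cg (O' (i + 1)) (N 0 (x * y)) (N 0 x * N 0 y) := by
  have h1 := h.gs.nm i _ (inv_mem (h.gr 0 y hy)) _ (h.gr0 i x hx)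
  rw [inv_inv] at h1
  have h2 : y⁻¹ * x * y ∈ O i := (h.gs.le i h1).1
  have h3 := (kr h.gs (y := y⁻¹ * x * y) (b := (N 0 y)⁻¹ * N 0 x * N 0 y) (h.gr0 i _ h2) h1).1
    (Cg.refl _)
  simpa [mul_assoc] using (h.mulR i 0 (Nat.zero_le i) y hy _ h2).trans (h3.left _)

theorem NF.tri (h : NF O O' V r P N) {s : FP U} (e : ∀ x ∈ O 0, s.app x = N 0 x) : Tri O O' s := by
  have e1 : N 0 1 = 1 := (h.st0 r (one_mem _)).trans (h.top r le_rfl 1)
  have mp : ∀ j, ∀ x ∈ O 0, s.app x ∈ O' j ↔ x ∈ O j := fun j x hx => by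
    have := h.pv j 0 1 (one_mem _) x hx
    rwa [e1, Cg.one_iff, Cg.one_iff, ← e x hx] at this
  refine ⟨fun j x => ⟨fun hx => ?_, fun hx => (mp j x (h.a (Nat.zero_le j) hx)).2 hx⟩,
    fun j x hx y hy => ?_, fun j x hx y hy hj => ?_⟩
  · obtain ⟨y, hy, e2⟩ := h.onto 0 _ (h.a' (Nat.zero_le j) hx)
    obtain rfl := s.app_injective ((e y hy).trans e2)
    exact (mp j y hy).1 hx
  · rw [e x hx, e y hy]
    exact h.pv j 0 x hx y hy
  · rw [e x hx, e y hy, e _ (mul_mem hx hy)]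
    exact hj.elim (fun hj => h.mulL j hj hy) fun hj => h.mulR j 0 (Nat.zero_le j) x hx y hj

variable [DecidableEq U]

theorem fold_acc (L : List (List U × List (U × U))) (x a : U) :
    (L.foldl nfStep (x, a)).2 = a * (L.foldl nfStep (x, 1)).2 := by
  induction L generalizing x a with
  | nil => simp
  | cons d L ih =>
    have e1 := ih ((nfPick x d).1⁻¹ * x) (a * (nfPick x d).2)
    have e2 := ih ((nfPick x d).1⁻¹ * x) (1 * (nfPick x d).2)
    refine e1.trans ((congrArg (a * ·) e2).trans ?_).symm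
    simp only [one_mul, mul_assoc]

theorem pick_spec {x : U} {d : List U × List (U × U)} {q : U × U} (hq : q ∈ d.2)
    (h : q.1⁻¹ * x ∈ d.1) : nfPick x d ∈ (1, 1) :: d.2 ∧ (nfPick x d).1⁻¹ * x ∈ d.1 := by
  unfold nfPick
  cases e : ((1, 1) :: d.2).find? fun p : U × U => d.1.contains (p.1⁻¹ * x) with
  | none =>
    exact absurd (List.contains_iff_mem.2 h) (List.find?_eq_none.1 e q (List.mem_cons_of_mem _ hq))
  | some p =>
    have := List.find?_some e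
    exact ⟨List.mem_of_find?_eq_some e, List.contains_iff_mem.1 this⟩

theorem nf {ds : List (List U × List (U × U))} (a : Antitone O) (a' : Antitone O')
    (hb : ∀ j, ds.length ≤ j → O j = ⊥ ∧ O' j = ⊥) (gs : Gs O O' V)
    (hd : ∀ j (h : j < ds.length), Rep ds[j].1 (O (j + 1)) ∧ (∀ q ∈ ds[j].2, q ∈ V j) ∧
      ∀ x ∈ O j, ∃ q ∈ ds[j].2, q.1 = x) :
    NF O O' V ds.length (fun j x => if h : j < ds.length then nfPick x ds[j] else (1, 1))
      fun j x => ((ds.drop j).foldl nfStep (x, 1)).2 := by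
  refine ⟨a, a', hb, gs, fun j hj x => by rw [List.drop_eq_nil_of_le hj]; rfl, fun j x => ?_,
    fun j x hx => ?_, fun j x y e => ?_, fun j => ?_⟩
  all_goals by_cases hj : j < ds.length
  all_goals simp only [hj, dite_true, dite_false]
  · rw [List.drop_eq_getElem_cons hj]
    exact (fold_acc _ ((nfPick x ds[j]).1⁻¹ * x) (1 * (nfPick x ds[j]).2)).trans
      (by rw [one_mul])
  · rw [List.drop_eq_nil_of_le (not_lt.1 hj), List.drop_eq_nil_of_le (by omega)]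
    simp
  · obtain ⟨h1, h2, h3⟩ := hd j hj
    obtain ⟨q, hq, rfl⟩ := h3 x hx
    obtain ⟨h4, h5⟩ := pick_spec (x := q.1) hq ((h1.mem _).2 (by simp))
    exact ⟨(List.mem_cons.1 h4).elim (fun e => e ▸ (V j).one_mem) (h2 _), (h1.mem _).1 h5⟩
  · rw [(hb j (not_lt.1 hj)).1, Subgroup.mem_bot] at hx
    exact ⟨(V j).one_mem, by simp [hx]⟩
  · unfold nfPick
    congr 2
    funext p
    rw [Bool.eq_iff_iff, List.contains_iff_mem, List.contains_iff_mem, (hd j hj).1.mem,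
      (hd j hj).1.mem]
    exact (e.left _).mem_iff le_rfl
  · simp [nfPick, (hd j hj).1.mem]

end T8y

theorem a_T8 : S_T8 := by
  intro U _ _ O O' V Y ds hY a a' hb gs hd
  have h := T8y.nf a a' hb gs hd
  have e : ∀ x ∈ O 0, (liftP Y ds).app x = (ds.foldl nfStep (x, 1)).2 := fun x hx =>
    FP.ofList_map (f := fun x => (ds.foldl nfStep (x, 1)).2) (fun x hx y hy e => by
      have := (h.pv ds.length 0 x ((hY.mem x).1 hx) y ((hY.mem y).1 hy)).1 (Cg.of_eq e)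
      rwa [Cg, (hb _ le_rfl).1, Subgroup.mem_bot, inv_mul_eq_one] at this) ((hY.mem x).2 hx)
  refine ⟨h.tri e, fun z hz => FP.ofList_fix fun p hp => ?_, fun j x hx => ?_⟩
  · obtain ⟨x, hx, rfl⟩ := List.mem_map.1 hp
    have hx := (hY.mem x).1 hx
    exact ⟨fun e => hz (.inl (e ▸ hx)), fun e => hz (.inr (e ▸ (gs.le 0 (h.gr 0 x hx)).2))⟩
  · rw [e x (a (Nat.zero_le j) hx)]
    exact h.gr0 j x hx

end Pool.Agent.P.MP_f1a348_lc.AL
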