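import Pool.Agent.P.MP_f1a348_lc.AL.Iface

/-!
Project AL: the graphs and the isomorphism of the quotients induced by a map of series.
-/

namespace Pool.Agent.P.MP_f1a348_lc.AL

open Pool.Agent.P.MP_f1a348_lc.GI hiding Nm Good
open Pool.Agent.P.MP_f1a348_lc.UP (Nm)
open scoped commutatorElement

namespace Tgry

variable {U : Type} [Group U] {G G' Q Q' : Subgroup U} {O O' : ℕ → Subgroup U} {r r' : ℕ}
  {p p' : ℕ → ℕ} {π π' : U → U} {s : FP U}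

theorem nm {M : Subgroup U} (h : Nm G M) {c : U} (hc : c ∈ G) : GI.Nm M c := fun e he => by
  simpa using h _ (G.inv_mem hc) e he

theorem finQ (hs : Ser G O r p) (hq : Qt G (O 1) Q π) : (Q : Set U).Finite := by
  have := hs.fin
  exact ((Set.toFinite (G : Set U)).image π).subset fun q hq' => hq.onto q hq'

/-- the induced isomorphism of the quotients -/
theorem ind (hs : Ser G O r p) (hs' : Ser G' O' r' p') (hq : Qt G (O 1) Q π)
    (hq' : Qt G' (O' 1) Q' π') (ht : Tri O O' s) :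
    ∃ a, IsoP Q Q' a ∧ ∀ g ∈ G, π' (s.app g) = a.app (π g) := by
  obtain rfl := hs.zero
  obtain rfl := hs'.zero
  have hm : ∀ g ∈ O 0, s.app g ∈ O' 0 := fun g hg => (ht.maps 0 g).2 hg
  have e : ∀ g ∈ O 0, ∀ h ∈ O 0, π' (s.app g) = π' (s.app h) ↔ π g = π h := fun g hg h hh => by
    rw [hq'.eq_iff (hm g hg) (hm h hh), ht.pv 1 g hg h hh, hq.eq_iff hg hh]
  choose! l hl hl' using hq.onto
  have k : ∀ g ∈ O 0, π' (s.app (l (π g))) = π' (s.app g) := fun g hg =>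
    (e _ (hl _ (hq.maps g hg)) g hg).2 (hl' _ (hq.maps g hg))
  have hb : Set.BijOn (fun q => π' (s.app (l q))) Q Q' := by
    refine ⟨fun q h => hq'.maps _ (hm _ (hl q h)), fun q h q' h' e1 => ?_, fun q h => ?_⟩
    · rw [← hl' q h, ← hl' q' h']
      exact (e _ (hl q h) _ (hl q' h')).1 e1
    · obtain ⟨g', hg', rfl⟩ := hq'.onto q h
      obtain ⟨g, hg, rfl⟩ := (ht.mp 0).surj hg'
      exact ⟨π g, hq.maps g hg, k g hg⟩
  obtain ⟨a, -, a1, a2⟩ := exists_fp (finQ hs hq) hb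
  have a3 : ∀ g ∈ O 0, π' (s.app g) = a.app (π g) := fun g hg => by
    rw [a2 _ (hq.maps g hg), k g hg]
  refine ⟨a, ⟨a1, fun x hx y hy => ?_⟩, a3⟩
  obtain ⟨g, hg, rfl⟩ := hq.onto x hx
  obtain ⟨h, hh, rfl⟩ := hq.onto y hy
  rw [← hq.mul g hg h hh, ← a3 _ (mul_mem hg hh), ← a3 g hg, ← a3 h hh,
    ← hq'.mul _ (hm g hg) _ (hm h hh),
    hq'.eq_iff (hm _ (mul_mem hg hh)) (mul_mem (hm g hg) (hm h hh))]
  exact ht.mul 0 g hg h hh (.inl hg)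

/-- the graph on the layer number `j` -/
def gr (hs : Ser G O r p) (hs' : Ser G' O' r' p') (ht : Tri O O' s) (j : ℕ) :
    Subgroup (U × U) where
  carrier := {q | q.1 ∈ O j ∧ q.2 ∈ O' j ∧ Cg (O' (j + 1)) (s.app q.1) q.2}
  one_mem' := ⟨one_mem _, one_mem _, (Cg.one_iff.2 ((ht.maps _ 1).2 (one_mem _))).symm⟩
  mul_mem' {a b} ha hb := ⟨mul_mem ha.1 hb.1, mul_mem ha.2.1 hb.2.1,
    (ht.mul j _ (hs.le j.zero_le ha.1) _ (hs.le j.zero_le hb.1) (.inl ha.1)).trans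
      (ha.2.2.mul (nm (hs'.nml _) (hs'.leG j ((ht.maps j _).2 hb.1))) hb.2.2)⟩
  inv_mem' {a} ha := ⟨inv_mem ha.1, inv_mem ha.2.1, by
    have h1 := (ht.mul j _ (hs.le j.zero_le (inv_mem ha.1)) _ (hs.le j.zero_le ha.1)
      (.inr ha.1)).trans (ha.2.2.left _)
    rw [inv_mul_cancel] at h1
    have h2 := (h1.mem_iff le_rfl).1 ((ht.maps _ 1).2 (one_mem _))
    simpa [Cg, mul_assoc] using inv_mem (hs'.nml (j + 1) _ (hs'.leG j ha.2.1) _ h2)⟩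

theorem full (hs : Ser G O r p) (hs' : Ser G' O' r' p') (hq' : Qt G' (O' 1) Q' π')
    (ht : Tri O O' s) {a : FP U} (ha : ∀ g ∈ G, π' (s.app g) = a.app (π g)) {j : ℕ}
    (hj : 1 ≤ j) : (lyr O Q π j).Full (lyr O' Q' π' j) a (gr hs hs' ht j) := by
  refine ⟨⟨fun q h => ⟨h.1, h.2.1⟩, fun q h => ⟨hs.anti j h.1, hs'.anti j h.2,
    mul_mem (inv_mem ((ht.maps _ _).2 h.1)) h.2⟩,
    fun q h => (ht.maps _ _).symm.trans (h.2.2.mem_iff le_rfl), ?_⟩,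
    fun x hx => ⟨(x, s.app x), ⟨hx, (ht.maps j x).2 hx, Cg.refl _⟩, rfl⟩, fun x' hx' => ?_⟩
  · rintro ⟨g, g'⟩ ⟨h1, h2, h3⟩ ⟨x, x'⟩ ⟨k1, k2, k3⟩
    obtain rfl := hs.zero
    obtain rfl := hs'.zero
    change g ∈ O 0 at h1
    change g' ∈ O' 0 at h2
    change π' g' = a.app (π g) at h3
    change x ∈ O j at k1
    change x' ∈ O' j at k2
    change Cg (O' (j + 1)) (s.app x) x' at k3
    have h4 : s.app g ∈ O' 0 := (ht.maps 0 g).2 h1
    have k4 : g * x * g⁻¹ ∈ O j := hs.nml j g h1 x k1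
    refine ⟨k4, hs'.nml j g' h2 x' k2, ?_⟩
    change Cg (O' (j + 1)) (s.app (g * x * g⁻¹)) (g' * x' * g'⁻¹)
    obtain ⟨f, hf, rfl⟩ := ((hq'.eq_iff h4 h2).1 ((ha g h1).trans h3.symm)).exists_eq
    have c1 := ht.mul j _ (hs.leG j k4) g h1 (.inl k4)
    rw [inv_mul_cancel_right] at c1
    have c2 : Cg (O' (j + 1)) (f * x' * f⁻¹) x' := by
      simpa [Cg, commutatorElement_def, mul_assoc] using hs'.cen j hj f hf _ (inv_mem k2)
    have c3 := (c1.symm.trans ((ht.mul j g h1 x (hs.leG j k1) (.inr k1)).trans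
      ((k3.trans c2.symm).left _))).right (nm (hs'.nml (j + 1)) (inv_mem h4))
    simpa [mul_assoc] using c3
  · obtain ⟨x, hx, rfl⟩ := (ht.mp j).surj hx'
    exact ⟨(x, s.app x), ⟨hx, hx', Cg.refl _⟩, rfl⟩

end Tgry

theorem a_TGR : S_TGR := by
  intro U _ G G' Q Q' O O' r r' p p' π π' s hs hs' hq hq' ht
  obtain ⟨a, h1, h2⟩ := Tgry.ind hs hs' hq hq' ht
  refine ⟨⟨a, h1⟩, fun x hx => ?_, fun b hb j hj =>
    ⟨_, Tgry.full hs hs' hq' ht hb hj, fun _ => Iff.rfl⟩⟩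
  have h3 := hx.inv.mul h1
  obtain ⟨u, u1, u2, u3⟩ := exists_fp (f := (x⁻¹ * a).app) (X' := Q) (Tgry.finQ hs hq)
    ⟨fun q h => (h3.maps q).2 h, (FP.app_injective _).injOn, fun q h => h3.mp.surj h⟩
  refine ⟨u, ⟨by simpa using u1, h3.congr u2 u3⟩, fun g hg => ?_⟩
  rw [h2 g hg, FP.app_mul, u3 _ (hq.maps g hg), FP.app_mul, FP.app_app_inv]

end Pool.Agent.P.MP_f1a348_lc.AL
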