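import Pool.Agent.P.MP_f1a348_lc.AL.Iface

/-!
Project AL: the generators of the top group and an element of its coset.
-/

namespace Pool.Agent.P.MP_f1a348_lc.AL

open Pool.Agent.P.MP_f1a348_lc.GI hiding Nm Good

namespace Topy

variable {U : Type} [Group U] [DecidableEq U] {pad : List Unit} {s s' : SP U} {Ql Ql' : List U}
  {G G' Q Q' : Subgroup U} {O O' : ℕ → Subgroup U} {r n d : ℕ} {p p' : ℕ → ℕ}

/-- the isomorphism of the quotients induced by a map of series respects the types -/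
theorem typ (hg : S_TGR) (h5 : S_T5) (h6 : S_T6) (h : SX s Ql G Q O r p n)
    (h' : SX s' Ql' G' Q' O' r p' n) {t x : FP U} (ht : Tri O O' t) (hx : IsoP Q Q' x) :
    ∃ u ∈ AutG Q, (∀ g ∈ G, ap s'.2 (t.app g) = (x * u).app (ap s.2 g)) ∧
      ∀ j ∈ lays s.1, x * u ∈ PTr (FP U) (tys s O Q j) (tys s' O' Q' j) := by
  obtain ⟨-, a2, a3⟩ := hg U G G' Q Q' O O' r r p p' _ _ t h.ser h'.ser h.qt h'.qt ht
  obtain ⟨u, hu, e⟩ := a2 x hx
  refine ⟨u, hu, e, fun j hj => ?_⟩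
  have hj1 := (mem_lays.1 hj).1
  obtain ⟨V, hV, -⟩ := a3 _ e j hj1
  have o1 := h.ser.ok h.qt hj1
  have o2 := h'.ser.ok h'.qt hj1
  exact h6 U _ _ _ V _ _ o1 o2 (hx.mul hu.2) hV (h5 U _ _ (h.lrep j) o1).1
    (h5 U _ _ (h'.lrep j) o2).1

theorem cok (h : SX s Ql G Q O r p n) (hb : Bg n d pad) : COk (pad, gO s.1 0) := by
  have h1 : (gO s.1 0).length < n := by
    have := (h.rep 0).card
    rw [h.ser.zero] at this
    exact this ▸ h.card
  refine le_trans ?_ hb.2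
  calc (gO s.1 0).length * (gO s.1 0).length ≤ n * n := Nat.mul_le_mul h1.le h1.le
    _ = n ^ 2 := (sq n).symm
    _ ≤ _ := Nat.pow_le_pow_right (by have := hb.1; omega) (by omega)

theorem top (ha : S_LIFTA) (hb : S_GENB) (hc : S_GENC) (ht : S_TRIB) (hg : S_TGR) (h5 : S_T5)
    (h6 : S_T6) (h : SX s Ql G Q O r p n) (bg : Bg n d pad) {S : List (FP U)}
    (hS : gen S = AutG Q ⊓ ⨅ j ∈ lays s.1, PSt (FP U) (tys s O Q j)) :
    gen (topG pad s S) = TG O := by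
  have hW : W (pad, gO s.1 0) = Sup (O 0 : Set U) := congrArg Sup (Set.ext (h.rep 0).mem)
  have hT := fun g => ht U s.1 O r g h.rep h.len h.ser.bot
  set L := ((S.map (liftA s s) ++ genB s ++ genC s.1).map (cl (pad, gO s.1 0))).filter
    (triB s.1) with hL
  have le : gen L ≤ TG O := gen_le.2 fun g hg => by
    obtain ⟨h1, h2⟩ := List.mem_filter.1 hg
    obtain ⟨y, -, rfl⟩ := List.mem_map.1 h1
    exact ⟨hW ▸ cl_mem _ y, (hT _).1 h2⟩
  have cand : ∀ g ∈ S.map (liftA s s) ++ genB s ++ genC s.1, g ∈ TG O → g ∈ gen L :=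
    fun g hg h1 => mem_gen (List.mem_filter.2
      ⟨List.mem_map.2 ⟨g, hg, cl_eq (hW.symm ▸ h1.1)⟩, (hT g).2 h1.2⟩)
  have mp : ∀ b ∈ TG O, ∀ g ∈ G, b.app g ∈ G := fun b hb g hg =>
    h.ser.zero ▸ (hb.2.maps 0 g).2 (h.ser.zero.symm ▸ hg)
  have lift : ∀ u ∈ gen S, ∃ b ∈ gen L, ∀ g ∈ G, ap s.2 (b.app g) = u.app (ap s.2 g) := by
    intro u hu
    induction hu using Subgroup.closure_induction with
    | mem u hu =>
      have h1 : u ∈ AutG Q ⊓ ⨅ j ∈ lays s.1, PSt (FP U) (tys s O Q j) := hS ▸ mem_gen hu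
      obtain ⟨b1, b2, b3⟩ := ha U s s Ql Ql G G Q Q O O r n p p u h h h1.1.2 fun j hj =>
        Subgroup.mem_iInf.1 (Subgroup.mem_iInf.1 h1.2 j) hj
      refine ⟨_, cand _ (List.mem_append_left _ (List.mem_append_left _
        (List.mem_map_of_mem hu))) ⟨?_, b1⟩, b3⟩
      rwa [Set.union_self, ← h.ser.zero] at b2
    | one => exact ⟨1, one_mem _, fun _ _ => rfl⟩
    | mul u v _ _ iu iv =>
      obtain ⟨b, b1, b2⟩ := iu
      obtain ⟨c, c1, c2⟩ := iv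
      exact ⟨b * c, mul_mem b1 c1, fun g hg => by
        rw [FP.app_mul, FP.app_mul, b2 _ (mp c (le c1) g hg), c2 g hg]⟩
    | inv u _ iu =>
      obtain ⟨b, b1, b2⟩ := iu
      exact ⟨b⁻¹, inv_mem b1, fun g hg => u.app_injective (by
        rw [← b2 _ (mp _ (inv_mem (le b1)) g hg), FP.app_app_inv, FP.app_app_inv])⟩
  have e : gen (topG pad s S) = gen L :=
    gen_red (cok h bg) (le.trans fun g hg => hW.symm ▸ hg.1)
  rw [e]
  refine le_antisymm le fun t hh => ?_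
  obtain ⟨u, u1, u2, u3⟩ := typ hg h5 h6 h h hh.2 (IsoP.refl Q)
  rw [one_mul] at u2 u3
  obtain ⟨b, b1, b2⟩ := lift u (hS.symm ▸ ⟨u1, Subgroup.mem_iInf.2 fun j =>
    Subgroup.mem_iInf.2 fun hj => u3 j hj⟩)
  have k1 : b⁻¹ * t ∈ TG O := mul_mem (inv_mem (le b1)) hh
  have k2 : b⁻¹ * t ∈ Fx G (O 1) := ⟨h.ser.zero ▸ k1.2.mp 0, fun x hx =>
    (h.qt.eq_iff hx (mp _ k1 x hx)).1 (u.app_injective (by
      rw [← b2 _ (mp _ k1 x hx), FP.app_mul, FP.app_app_inv, u2 x hx]))⟩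
  obtain ⟨c, c1, c2⟩ := hb U s Ql G Q O r n p (gen L) h (fun g hg => cand g
    (List.mem_append_left _ (List.mem_append_right _ hg))) _ k1 k2
  have k3 := hc U s.1 G O r p (gen L) h.ser h.rep h.len
    (fun g hg => cand g (List.mem_append_right _ hg)) _ (mul_mem (inv_mem c1.2) k1) c2
  simpa using mul_mem b1 (mul_mem c1.1 k3)

end Topy

theorem a_TOP (h0 : S_A0) (ha : S_LIFTA) (hb : S_GENB) (hc : S_GENC) (ht : S_TRIB) (hg : S_TGR)
    (h5 : S_T5) (h6 : S_T6) : S_TOP := by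
  intro U _ _ pad s s' Ql Ql' G G' Q Q' O O' r n d p p' o h h' bg ho
  have hW : Sup ((Q : Set U) ∪ Q') ≤ W (pad, Ql ++ Ql') := Sup.mono fun a ha =>
    List.mem_append.2 (ha.imp (h.Q.mem a).2 (h'.Q.mem a).2)
  obtain ⟨a1, a2⟩ := h0 U pad s s' Ql Ql' G G' Q Q' O O' r n d p p' h h' bg o.1 (o.2.getD 1)
    (ho.aut.symm ▸ le_inf (fun u hu => hW (Sup.mono Set.subset_union_left hu.1)) le_rfl)
  rw [ho.aut] at a1 a2
  refine ⟨Topy.top ha hb hc ht hg h5 h6 h bg a1, fun ⟨t, tt⟩ => ?_⟩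
  obtain ⟨⟨x0, hx0⟩, -⟩ := hg U G G' Q Q' O O' r r p p' _ _ t h.ser h'.ser h.qt h'.qt tt
  obtain ⟨x, hx⟩ := Option.ne_none_iff_exists'.1 fun e => ho.none e x0 hx0
  obtain ⟨x1, x2⟩ := ho.some x hx
  have e : o.2.getD 1 = x := by rw [hx]; rfl
  obtain ⟨u, u1, -, u3⟩ := Topy.typ hg h5 h6 h h' tt x1
  obtain ⟨b1, b2⟩ := a2 (e.symm ▸ hW x2) (e.symm ▸ x1)
  obtain ⟨a, e1⟩ := Option.ne_none_iff_exists'.1 fun e1 =>
    b2 e1 (x * u) (by rwa [e, inv_mul_cancel_left]) u3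
  obtain ⟨c1, c2⟩ := b1 a e1
  rw [e] at c1
  have e2 : (topP pad s s' Ql Ql' o).2 = liftA s s' a := by
    simp only [topP, e1, Option.getD_some]
  obtain ⟨d1, d2, -⟩ := ha U s s' Ql Ql' G G' Q Q' O O' r n p p' a h h'
    (by simpa using x1.mul c1.2) c2
  exact e2.symm ▸ ⟨d1, d2⟩

end Pool.Agent.P.MP_f1a348_lc.AL
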