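import Pool.Agent.P.MP_f1a348_lc.AL.Iface

/-!
Project AL: the dyadic tree.
-/

namespace Pool.Agent.P.MP_f1a348_lc.AL

open Pool.Agent.P.MP_f1a348_lc.GI hiding Nm Good
open Pool.Agent.P.MP_f1a348_lc.UP (Rec up topI SolvMod Nm der)
open Pool.Agent.P.MP_f1a348_lc.FA (Cls Sub MaxN)
open Pool.Agent.Lib.Helper47
open scoped commutatorElement Pointwise
open MulAction (stabilizer)

namespace Treey

section grp
variable {Γ : Type} [Group Γ]

theorem tk_append {b c : ℕ} {G : Subgroup Γ} {F F' : List (Rec Γ)} (h : TK b c G F)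
    (h' : TK b c G F') : TK b c G (F ++ F') := by
  induction h with
  | nil c G => exact h'
  | cons c c0 c1 G K P sub rest h1 h2 h3 h4 h5 h6 h7 _ _ i2 =>
    rw [List.cons_append, List.append_assoc]
    exact .cons c c0 c1 G K P sub _ h1 h2 h3 h4 h5 h6 h7 (i2 h')

theorem mem_topI {F : List (Rec Γ)} {g : Γ} : g ∈ topI F ↔ ∀ r ∈ F, r.1 = 0 → g ∈ r.2.1 := by
  simp only [topI, Subgroup.mem_iInf]

theorem topI_append (F F' : List (Rec Γ)) : topI (F ++ F') = topI F ⊓ topI F' := by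
  ext g
  simp only [mem_topI, Subgroup.mem_inf, List.forall_mem_append]

theorem topI_cons (K P : Subgroup Γ) (F : List (Rec Γ)) : topI ((0, K, P) :: up F) = K := by
  ext g
  rw [mem_topI, List.forall_mem_cons]
  refine ⟨fun h => h.1 rfl, fun h => ⟨fun _ => h, fun r hr h0 => ?_⟩⟩
  obtain ⟨r', -, rfl⟩ := List.mem_map.1 hr
  exact absurd h0 (Nat.succ_ne_zero _)

theorem toRec_up (F : List (ℕ × List Γ × List Γ)) : toRec (up F) = up (toRec F) := by
  simp [toRec, up]

theorem toRec_append (F F' : List (ℕ × List Γ × List Γ)) :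
    toRec (F ++ F') = toRec F ++ toRec F' := by
  simp [toRec]

theorem idx_orbit {Ξ : Type} [MulAction Γ Ξ] (G : Subgroup Γ) (y : Ξ) {F : Set Ξ}
    (hF : F.Finite) (h : ∀ g ∈ G, g • y ∈ F) : (stabilizer Γ y).relIndex G ≤ F.ncard := by
  have e : (stabilizer Γ y).subgroupOf G = stabilizer G y := by
    ext g
    rfl
  rw [Subgroup.relIndex, e, MulAction.index_stabilizer]
  refine Set.ncard_le_ncard ?_ hF
  rintro _ ⟨g, rfl⟩
  exact h g g.2

end grp

/-- the points with index in `I` -/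
def Xs {Ξ : Type} (x : ℕ → Ξ) (I : List ℕ) : Set Ξ := {y | y ∈ I.map x}

section pts
variable {Γ Ξ : Type} [Group Γ] [MulAction Γ Ξ] {x : ℕ → Ξ}

theorem xs_fin (I : List ℕ) : (Xs x I).Finite := List.finite_toSet _

theorem xs_card (I : List ℕ) : (Xs x I).ncard ≤ I.length := by
  classical
  have : Xs x I = ((I.map x).toFinset : Set Ξ) := by
    ext y
    simp [Xs]
  rw [this, Set.ncard_coe_finset]
  exact (List.toFinset_card_le _).trans (by simp)

theorem mem_xs {I : List ℕ} {y : Ξ} : y ∈ Xs x I ↔ ∃ i ∈ I, x i = y := List.mem_map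

theorem st_iff {I : List ℕ} {s : Γ} :
    s ∈ stabilizer Γ (Xs x I) ↔ ∀ i ∈ I, ∃ k ∈ I, s • x i = x k := by
  rw [MulAction.mem_stabilizer_iff]
  constructor
  · intro h i hi
    have : s • x i ∈ s • Xs x I := Set.smul_mem_smul_set (mem_xs.2 ⟨i, hi, rfl⟩)
    rw [h] at this
    exact (mem_xs.1 this).imp fun k hk => ⟨hk.1, hk.2.symm⟩
  · intro h
    refine Set.eq_of_subset_of_ncard_le ?_ (by rw [Set.ncard_smul_set]) (xs_fin I)
    rintro _ ⟨y, hy, rfl⟩
    obtain ⟨i, hi, rfl⟩ := mem_xs.1 hy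
    obtain ⟨k, hk, e⟩ := h i hi
    exact mem_xs.2 ⟨k, hk, e.symm⟩

theorem st_idx {I J : List ℕ} {G : Subgroup Γ} (hG : G ≤ stabilizer Γ (Xs x J))
    (hI : ∀ i ∈ I, i ∈ J) : (stabilizer Γ (Xs x I)).relIndex G ≤ 2 ^ J.length := by
  refine (idx_orbit G (Xs x I) (F := 𝒫 (Xs x J)) (xs_fin J).powerset fun g hg => ?_).trans ?_
  · rintro _ ⟨y, hy, rfl⟩
    obtain ⟨i, hi, rfl⟩ := mem_xs.1 hy
    obtain ⟨k, hk, e⟩ := st_iff.1 (hG hg) i (hI i hi)
    exact mem_xs.2 ⟨k, hk, e.symm⟩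
  · rw [Set.ncard_powerset _ (xs_fin J)]
    exact Nat.pow_le_pow_right two_pos (xs_card J)

end pts

theorem mem_half {I : List ℕ} {i : ℕ} : i ∈ I ↔ i ∈ h1 I ∨ i ∈ h2 I := by
  rw [← List.mem_append, h1, h2, List.take_append_drop]

theorem len_half {I : List ℕ} {h : ℕ} (hI : I.length ≤ 2 ^ (h + 1)) :
    (h1 I).length ≤ 2 ^ h ∧ (h2 I).length ≤ 2 ^ h := by
  simp only [h1, h2, List.length_take, List.length_drop]
  rw [pow_succ] at hI
  omega

section prog
variable {Ω : Type} [DecidableEq Ω] (c : Cx Ω) (mv : ℕ → ℕ → FP Ω → Bool)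
  (kt : ℕ → FP Ω → Bool)

/-- the tree by recursion -/
noncomputable def tr : ℕ → List (FP Ω) → List ℕ → Fo Ω
  | 0, G, I => [(0, kerP c mv kt G I, kerP c mv kt G I)]
  | h + 1, G, I => (0, kerP c mv kt G I, pinP c mv G I) ::
      up (tr h (pinP c mv G I) (h1 I) ++ tr h (pinP c mv G I) (h2 I))

/-- one round -/
noncomputable def ex (L : List (Nd Ω)) : List (Nd Ω) := L.flatMap (exp1 c mv kt)

theorem ex_append (h : ℕ) (L L' : List (Nd Ω)) :
    (ex c mv kt)^[h] (L ++ L') = (ex c mv kt)^[h] L ++ (ex c mv kt)^[h] L' := by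
  induction h generalizing L L' with
  | zero => rfl
  | succ h ih =>
    simp only [Function.iterate_succ_apply]
    rw [← ih, ex, List.flatMap_append]
    rfl

theorem ex_closed (h d : ℕ) (A B : List (FP Ω)) (I : List ℕ) :
    (ex c mv kt)^[h] [(d, true, A, B, I)] = [(d, true, A, B, I)] :=
  Function.iterate_fixed (by simp [ex, exp1]) h

theorem ex_open (h : ℕ) : ∀ (d : ℕ) (G B : List (FP Ω)) (I : List ℕ),
    ((ex c mv kt)^[h] [(d, false, G, B, I)]).map (cls1 c mv kt) =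
      (tr c mv kt h G I).map fun r => (r.1 + d, r.2) := by
  induction h with
  | zero => intro d G B I; simp [tr, cls1]
  | succ h ih =>
    intro d G B I
    have e : ex c mv kt [(d, false, G, B, I)] =
        [(d, true, kerP c mv kt G I, pinP c mv G I, [])] ++
          ([(d + 1, false, pinP c mv G I, [], h1 I)] ++
            [(d + 1, false, pinP c mv G I, [], h2 I)]) := by
      simp [ex, exp1]
    rw [Function.iterate_succ_apply, e, ex_append, ex_append, ex_closed, List.map_append,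
      List.map_append, ih, ih, tr]
    simp [cls1, up, Function.comp_def, add_assoc, add_comm 1 d]

theorem tr_len (h : ℕ) : ∀ (G : List (FP Ω)) (I : List ℕ),
    (tr c mv kt h G I).length + 1 = 2 ^ (h + 1) := by
  induction h with
  | zero => intro G I; rfl
  | succ h ih =>
    intro G I
    have a1 := ih (pinP c mv G I) (h1 I)
    have a2 := ih (pinP c mv G I) (h2 I)
    simp only [tr, up, List.length_cons, List.length_map, List.length_append]
    rw [pow_succ 2 (h + 1)]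
    omega

theorem fold_eq {α β : Type} (E : List α → List α) (n : ℕ) (l : List β) : ∀ L : List α,
    (∀ j ≤ l.length, (E^[j] L).length ≤ n) →
    l.foldl (fun L _ => (E L).take n) L = E^[l.length] L := by
  induction l with
  | nil => intro L _; rfl
  | cons a l ih =>
    intro L h
    have h1 : (E L).take n = E L := List.take_of_length_le (h 1 (by simp))
    rw [List.foldl_cons, h1, List.length_cons, Function.iterate_succ_apply]
    exact ih _ fun j hj => h (j + 1) (by simpa using hj)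

theorem size_bd (m : ℕ) : 2 ^ m.size ≤ 2 * m + 1 := by
  cases h : m.size with
  | zero => simp
  | succ k =>
    have : 2 ^ k ≤ m := Nat.lt_size.1 (by omega)
    rw [pow_succ]
    omega

theorem tree_eq (G : List (FP Ω)) (I : List ℕ) (hc : 4 * I.length + 1 ≤ c.1.length) :
    treeP c mv kt G I = tr c mv kt I.length.size (red c G) I := by
  have := fold_eq (ex c mv kt) c.1.length I.length.bits [(0, false, red c G, [], I)] (by
    intro j hj
    rw [Nat.size_eq_bits_len] at hj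
    have a1 := congrArg List.length (ex_open c mv kt j 0 (red c G) [] I)
    have a2 := tr_len c mv kt j (red c G) I
    have a3 := size_bd I.length
    have a4 : 2 ^ j ≤ 2 ^ I.length.size := Nat.pow_le_pow_right two_pos hj
    simp only [List.length_map] at a1
    rw [pow_succ] at a2
    omega)
  rw [treeP]
  refine (congrArg _ this).trans ?_
  rw [ex_open, Nat.size_eq_bits_len]
  simp

end prog

/-- the hypotheses -/
structure Hy {Ω Ξ : Type} [MulAction (FP Ω) Ξ] (c : Cx Ω) (mv : ℕ → ℕ → FP Ω → Bool)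
    (kt : ℕ → FP Ω → Bool) (m b c1 : ℕ) (x : ℕ → Ξ) (K : ℕ → Subgroup (FP Ω))
    (H : Subgroup (FP Ω)) : Prop where
  ok : COk c
  le : H ≤ W c
  b2 : 2 ≤ b
  l1 : b ^ c1 ≤ c.1.length
  l2 : 2 ^ m ≤ c.1.length
  l3 : 4 * m + 1 ≤ c.1.length
  mv : ∀ s ∈ H, ∀ i < m, ∀ k < m, mv i k s = true ↔ s • x i = x k
  kt : ∀ s ∈ H, ∀ i < m, s • x i = x i → (kt i s = true ↔ s ∈ K i)
  st : ∀ i < m, K i ≤ stabilizer (FP Ω) (x i)
  pm : ∀ s ∈ H, ∀ i < m, ∃ k < m, s • x i = x k
  cj : ∀ s ∈ H, ∀ i < m, ∀ k < m, s • x i = x k → ∀ u ∈ H ⊓ K i, s * u * s⁻¹ ∈ K k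
  ix : ∀ i < m, (K i).relIndex (H ⊓ stabilizer (FP Ω) (x i)) ≤ b ^ c1

namespace Hy
variable {Ω Ξ : Type} [DecidableEq Ω] [MulAction (FP Ω) Ξ] {c : Cx Ω}
  {mv : ℕ → ℕ → FP Ω → Bool} {kt : ℕ → FP Ω → Bool} {m b c1 : ℕ} {x : ℕ → Ξ}
  {K : ℕ → Subgroup (FP Ω)} {H : Subgroup (FP Ω)}

omit [DecidableEq Ω] in
theorem all (y : Hy c mv kt m b c1 x K H) : H ≤ stabilizer (FP Ω) (Xs x (List.range m)) :=
  fun s hs => st_iff.2 fun i hi =>
    (y.pm s hs i (List.mem_range.1 hi)).imp fun _ h => ⟨List.mem_range.2 h.1, h.2⟩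

theorem step (y : Hy c mv kt m b c1 x K H) {S : List (FP Ω)} (hS : gen S ≤ H) {i : ℕ}
    (hi : i < m) : gen (sub c (kt i) (sub c (mv i i) S)) = gen S ⊓ K i := by
  have a1 : gen (sub c (mv i i) S) = gen S ⊓ stabilizer (FP Ω) (x i) := by
    refine (sub_spec y.ok (hS.trans y.le) (fun u hu => y.mv u (hS hu) i hi i hi) ?_).1
    refine (idx_orbit _ _ (xs_fin (x := x) (List.range m)) fun g hg => ?_).trans ?_
    · obtain ⟨k, hk, e⟩ := y.pm g (hS hg) i hi
      exact mem_xs.2 ⟨k, List.mem_range.2 hk, e.symm⟩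
    · have := xs_card (x := x) (List.range m)
      have := y.l3
      rw [List.length_range] at *
      omega
  have a2 : gen (sub c (mv i i) S) ≤ H ⊓ stabilizer (FP Ω) (x i) := by
    rw [a1]
    exact inf_le_inf_right _ hS
  rw [(sub_spec (Q := K i) y.ok (a2.trans (inf_le_left.trans y.le))
    (fun u hu => y.kt u (a2 hu).1 i hi (a2 hu).2)
    ((idx_mono a2 (inf_le_left.trans y.le)).trans ((y.ix i hi).trans y.l1))).1, a1, inf_assoc,
    inf_eq_right.2 (y.st i hi)]

theorem fold (y : Hy c mv kt m b c1 x K H) (I : List ℕ) : ∀ S : List (FP Ω), gen S ≤ H →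
    (∀ i ∈ I, i < m) →
    gen (I.foldl (fun S i => sub c (kt i) (sub c (mv i i) S)) S) = gen S ⊓ ⨅ i ∈ I, K i := by
  induction I with
  | nil => intro S _ _; simp
  | cons a I ih =>
    intro S hS hI
    have a1 := y.step hS (hI a List.mem_cons_self)
    rw [List.foldl_cons, ih _ (a1 ▸ inf_le_left.trans hS)
      (fun i hi => hI i (List.mem_cons_of_mem _ hi)), a1]
    ext g
    simp only [Subgroup.mem_inf, Subgroup.mem_iInf, List.forall_mem_cons, and_assoc]

theorem ker (y : Hy c mv kt m b c1 x K H) {S : List (FP Ω)} (hS : gen S ≤ H) {I : List ℕ}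
    (hI : ∀ i ∈ I, i < m) : gen (kerP c mv kt S I) = gen S ⊓ ⨅ i ∈ I, K i := by
  have a1 := gen_red y.ok (hS.trans y.le)
  rw [kerP, y.fold I _ (a1 ▸ hS) hI, a1]

theorem stb (y : Hy c mv kt m b c1 x K H) {S : List (FP Ω)} (hS : gen S ≤ H) {I : List ℕ}
    (hI : ∀ i ∈ I, i < m) :
    gen (sub c (stB mv I) S) = gen S ⊓ stabilizer (FP Ω) (Xs x I) := by
  refine (sub_spec y.ok (hS.trans y.le) (fun u hu => ?_) ?_).1
  · rw [st_iff, stB, List.all_eq_true]
    refine forall₂_congr fun i hi => ?_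
    rw [List.any_eq_true]
    exact exists_congr fun k => and_congr_right fun hk => y.mv u (hS hu) i (hI i hi) k (hI k hk)
  · refine (st_idx (hS.trans y.all) fun i hi => List.mem_range.2 (hI i hi)).trans ?_
    rw [List.length_range]
    exact y.l2

theorem pin (y : Hy c mv kt m b c1 x K H) {S : List (FP Ω)} (hS : gen S ≤ H) {I : List ℕ}
    (hI : ∀ i ∈ I, i < m) : gen (pinP c mv S I) =
      gen S ⊓ stabilizer (FP Ω) (Xs x (h1 I)) ⊓ stabilizer (FP Ω) (Xs x (h2 I)) := by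
  have a1 := y.stb hS fun i (hi : i ∈ h1 I) => hI i (mem_half.2 (.inl hi))
  rw [pinP, y.stb (a1 ▸ inf_le_left.trans hS) fun i hi => hI i (mem_half.2 (.inr hi)), a1]

omit [DecidableEq Ω] in
theorem nm (y : Hy c mv kt m b c1 x K H) {G : Subgroup (FP Ω)} {I : List ℕ}
    (hG : G ≤ H ⊓ stabilizer (FP Ω) (Xs x I)) (hI : ∀ i ∈ I, i < m) :
    Nm G (G ⊓ ⨅ i ∈ I, K i) := by
  intro g hg k hk
  refine Subgroup.mem_inf.2 ⟨G.mul_mem (G.mul_mem hg hk.1) (G.inv_mem hg), ?_⟩
  have hk2 : ∀ i ∈ I, k ∈ K i := by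
    simpa only [Subgroup.mem_iInf] using (Subgroup.mem_inf.1 hk).2
  simp only [Subgroup.mem_iInf]
  intro j hj
  obtain ⟨i, hi, e⟩ := st_iff.1 (hG (inv_mem hg)).2 j hj
  exact y.cj g (hG hg).1 i (hI i hi) j (hI j hj) (by rw [← e, smul_inv_smul]) k
    ⟨(hG hk.1).1, hk2 i hi⟩

theorem top (y : Hy c mv kt m b c1 x K H) (h : ℕ) {S : List (FP Ω)} (hS : gen S ≤ H)
    {I : List ℕ} (hI : ∀ i ∈ I, i < m) :
    topI (toRec (tr c mv kt h S I)) = gen S ⊓ ⨅ i ∈ I, K i := by
  rw [← y.ker hS hI]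
  cases h with
  | zero => exact topI_cons _ _ []
  | succ h =>
    rw [tr, toRec, List.map_cons, ← toRec, toRec_up]
    exact topI_cons _ _ _

theorem tk (y : Hy c mv kt m b c1 x K H) (h : ℕ) : ∀ (S : List (FP Ω)) (I : List ℕ) (cc : ℕ),
    gen S ≤ H ⊓ stabilizer (FP Ω) (Xs x I) → (∀ i ∈ I, i < m) → I.length ≤ 2 ^ h →
    2 ^ (h + 2) + h + c1 ≤ cc + 3 → TK b cc (gen S) (toRec (tr c mv kt h S I)) := by
  induction h with
  | zero =>
    intro S I cc hS hI hl hc
    have hS' := hS.trans inf_le_left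
    have e : toRec (tr c mv kt 0 S I) =
        (0, gen S ⊓ ⨅ i ∈ I, K i, gen S ⊓ ⨅ i ∈ I, K i) :: (up [] ++ []) := by
      rw [← y.ker hS' hI]
      rfl
    rw [e]
    refine .cons cc c1 0 _ _ _ [] [] inf_le_left inf_le_left (y.nm hS hI) ?_ (by omega)
      (.nil _ _) ⟨0, inf_le_left⟩ (.nil _ _)
    rw [Subgroup.inf_relIndex_left]
    match I, hS, hI, hl with
    | [], _, _, _ => simpa using Nat.one_le_pow _ _ (by have := y.b2; omega)
    | [i], hS, hI, _ =>
      have a1 : gen S ≤ H ⊓ stabilizer (FP Ω) (x i) := fun g hg =>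
        ⟨(hS hg).1, by simpa using st_iff.1 (hS hg).2⟩
      have a2 : (⨅ j ∈ [i], K j) = K i := by simp
      rw [a2]
      exact (idx_mono a1 (inf_le_left.trans y.le)).trans (y.ix i (hI i (by simp)))
    | _ :: _ :: _, _, _, hl => simp at hl
  | succ h ih =>
    intro S I cc hS hI hl hc
    have hS' := hS.trans inf_le_left
    have hP := y.pin hS' hI
    have hPS : gen (pinP c mv S I) ≤ gen S := hP ▸ inf_le_left.trans inf_le_left
    have hI1 : ∀ i ∈ h1 I, i < m := fun i hi => hI i (mem_half.2 (.inl hi))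
    have hI2 : ∀ i ∈ h2 I, i < m := fun i hi => hI i (mem_half.2 (.inr hi))
    have e : toRec (tr c mv kt (h + 1) S I) =
        (0, gen S ⊓ ⨅ i ∈ I, K i, gen (pinP c mv S I)) ::
          (up (toRec (tr c mv kt h (pinP c mv S I) (h1 I)) ++
            toRec (tr c mv kt h (pinP c mv S I) (h2 I))) ++ []) := by
      rw [← y.ker hS' hI, tr, toRec, List.map_cons, ← toRec, toRec_up, toRec_append,
        List.append_nil]
    have hp : 2 ^ (h + 1 + 2) = 2 * 2 ^ (h + 2) := by ring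
    have hp' : 1 ≤ 2 ^ (h + 2) := Nat.one_le_two_pow
    have hq : 2 ^ (h + 2) = 4 * 2 ^ h := by ring
    have hq' : 1 ≤ 2 ^ h := Nat.one_le_two_pow
    rw [e]
    refine .cons cc (2 ^ (h + 2)) (2 ^ (h + 2) + h + c1 - 3) _ _ _ _ [] inf_le_left hPS
      (y.nm hS hI) ?_ (by omega) (tk_append ?_ ?_) ⟨0, ?_⟩ (.nil _ _)
    · rw [hP, inf_assoc, Subgroup.inf_relIndex_left]
      refine Subgroup.relIndex_inf_le.trans ?_
      have hs := hS.trans inf_le_right
      refine (Nat.mul_le_mul (st_idx hs fun i hi => mem_half.2 (.inl hi))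
        (st_idx hs fun i hi => mem_half.2 (.inr hi))).trans ?_
      rw [← pow_add]
      refine (Nat.pow_le_pow_right two_pos ?_).trans (Nat.pow_le_pow_left y.b2 _)
      rw [pow_succ 2 (h + 1)]
      omega
    · exact ih _ _ _ (le_inf (hPS.trans hS') (hP ▸ inf_le_left.trans inf_le_right)) hI1
        (len_half hl).1 (by omega)
    · exact ih _ _ _ (le_inf (hPS.trans hS') (hP ▸ inf_le_right)) hI2 (len_half hl).2 (by omega)
    · rw [der, topI_append, y.top h (hPS.trans hS') hI1, y.top h (hPS.trans hS') hI2]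
      intro g hg
      simp only [Subgroup.mem_inf, Subgroup.mem_iInf] at hg ⊢
      exact ⟨hPS hg.1, fun i hi => (mem_half.1 hi).elim (hg.2.1.2 i) (hg.2.2.2 i)⟩

end Hy

end Treey

open Treey in
theorem a_TREE : S_TREE := by
  intro Ω Ξ _ _ c mv kt m b c1 x K H a1 a2 a3 a4 a5 a6 a7 a8 a9 a10 a11 a12 S hS
  have y : Hy c mv kt m b c1 x K H := ⟨a1, a2, a3, a4, a5, a6, a7, a8, a9, a10, a11, a12⟩
  have e := gen_red a1 (hS.trans a2)
  have hI : ∀ i ∈ List.range m, i < m := fun i hi => List.mem_range.1 hi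
  have b1 := size_bd m
  have b2 : m.size ≤ m := Nat.size_le.2 Nat.lt_two_pow_self
  rw [tree_eq c mv kt S _ (by rwa [List.length_range]), List.length_range]
  refine ⟨?_, ?_, ?_⟩
  · rw [← e]
    refine y.tk _ _ _ _ (e ▸ le_inf hS (hS.trans y.all)) hI ?_ ?_
    · rw [List.length_range]
      exact (Nat.lt_size_self m).le
    · rw [pow_add]
      omega
  · rw [y.top _ (e ▸ hS) hI, e]
    simp only [List.mem_range]
  · have := tr_len c mv kt m.size (red c S) (List.range m)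
    rw [pow_succ] at this
    omega

end Pool.Agent.P.MP_f1a348_lc.AL
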