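import Pool.Agent.P.MP_f1a348_lc.AL.Iface

/-!
Project AL: the test for triangular permutations.
-/

namespace Pool.Agent.P.MP_f1a348_lc.AL

open Pool.Agent.P.MP_f1a348_lc.GI hiding Nm Good
open Pool.Agent.P.MP_f1a348_lc.UP (Rec up topI SolvMod Nm der)
open Pool.Agent.P.MP_f1a348_lc.FA (Cls Sub MaxN)
open Pool.Agent.Lib.Helper47
open scoped commutatorElement Pointwise
open MulAction (stabilizer)

namespace Triby

/-- the condition at one index -/
def One {U : Type} [Group U] (Y A B : Subgroup U) (g : FP U) : Prop :=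
  Mp g A A ∧ ∀ x ∈ Y, ∀ y ∈ Y, (Cg A (g.app x) (g.app y) ↔ Cg A x y) ∧
    (x ∈ A ∨ y ∈ A → Cg B (g.app (x * y)) (g.app x * g.app y))

end Triby

theorem a_TRIB : S_TRIB := by
  intro U _ _ Os O r g hO hl hb
  have hm : ∀ j x, x ∈ gO Os j ↔ x ∈ O j := fun j => (hO j).mem
  have e : triB Os g = true ↔ ∀ j < r + 1, Triby.One (O 0) (O j) (O (j + 1)) g := by
    rw [triB, List.all_eq_true, hl]
    refine forall_congr' fun j => ?_
    rw [List.mem_range, Bool.and_eq_true, imB_iff (A := O j) (A' := O j) (hm j) (hm j),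
      List.all_eq_true]
    refine imp_congr_right fun _ => and_congr_right fun _ => ?_
    have bq : ∀ a b : Bool, (a == b) = true ↔ (a = true ↔ b = true) := by decide
    have im : ∀ a b : Bool, (!a || b) = true ↔ (a = true → b = true) := by decide
    simp only [Prod.forall, mem_prodL, and_imp, Bool.and_eq_true, bq, im]
    simp only [List.contains_iff_mem, Bool.or_eq_true, hm, Cg]
    exact ⟨fun h x hx y hy => h x y hx hy, fun h x y hx hy => h x hx y hy⟩
  rw [e]
  refine ⟨fun h => ?_, fun h j _ =>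
    ⟨h.mp j, fun x hx y hy => ⟨h.pv j x hx y hy, h.mul j x hx y hy⟩⟩⟩
  have k : ∀ j, Triby.One (O 0) (O j) (O (j + 1)) g := fun j => by
    rcases le_or_gt j r with hj | hj
    · exact h j (by omega)
    · have := h r (by omega)
      rw [hb r le_rfl, hb (r + 1) (by omega)] at this
      rwa [hb j hj.le, hb (j + 1) (by omega)]
  exact ⟨fun j => (k j).1, fun j x hx y hy => ((k j).2 x hx y hy).1,
    fun j x hx y hy => ((k j).2 x hx y hy).2⟩

end Pool.Agent.P.MP_f1a348_lc.AL
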