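import Pool.Agent.P.MP_f1a348_lc.AL.Iface

/-!
Project AL: a minimal normal `q`-section is centralised by every `O_p` and has exponent `q`.
-/

namespace Pool.Agent.P.MP_f1a348_lc.AL

open Pool.Agent.P.MP_f1a348_lc.GI hiding Nm Good
open Pool.Agent.P.MP_f1a348_lc.UP (Rec up topI SolvMod Nm der)
open Pool.Agent.P.MP_f1a348_lc.FA (Cls Sub MaxN)
open Pool.Agent.Lib.Helper47
open scoped commutatorElement Pointwise
open MulAction (stabilizer)

namespace Upay

section core
variable {H : Type} [Group H] [Finite H] {N : Subgroup H} [N.Normal] {q : ℕ}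

theorem comm (hq : q.Prime) (hN : IsPGroup q N) (h0 : N ≠ ⊥)
    (hmin : ∀ W : Subgroup H, W.Normal → W ≤ N → W ≠ ⊥ → N ≤ W)
    {p : ℕ} (hp : p.Prime) (P : Subgroup H) [P.Normal] (hP : IsPGroup p P) :
    ∀ x ∈ P, ∀ k ∈ N, x * k = k * x := by
  have := Fact.mk hq
  have := Fact.mk hp
  by_cases e : p = q
  · subst e
    let : MulAction P N :=
      MulAction.compHom N ((MulAut.conjNormal : H →* MulAut N).comp P.subtype)
    have hd : p ∣ Nat.card N := by
      obtain ⟨n, hn⟩ := hN.exists_card_eq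
      rcases n with _ | n
      · exact absurd (Subgroup.card_eq_one.1 (by simpa using hn)) h0
      · rw [hn]; exact dvd_pow_self _ (by simp)
    have h1 : (1 : N) ∈ MulAction.fixedPoints P N := fun x =>
      map_one ((MulAut.conjNormal : H →* MulAut N) x)
    obtain ⟨b, hb, hne⟩ := hP.exists_fixed_point_of_prime_dvd_card_of_fixed_point N hd h1
    have hW : N ≤ N ⊓ Subgroup.centralizer (P : Set H) := by
      refine hmin _ inferInstance inf_le_left fun h => hne ?_
      have : (b : H) ∈ N ⊓ Subgroup.centralizer (P : Set H) := by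
        refine ⟨b.2, fun x hx => ?_⟩
        have h2 : (((MulAut.conjNormal : H →* MulAut N) x b : N) : H) = b :=
          congrArg Subtype.val (hb ⟨x, hx⟩)
        rw [MulAut.conjNormal_apply] at h2
        exact mul_inv_eq_iff_eq_mul.1 h2
      rw [h] at this
      exact Subtype.ext (Subgroup.mem_bot.1 this).symm
    exact fun x hx k hk => (hW hk).2 x hx
  · exact fun x hx k hk => Subgroup.commute_of_normal_of_disjoint P N inferInstance inferInstance
      (IsPGroup.disjoint_of_ne p q e P N hP hN) x k hx hk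

theorem expo (hq : q.Prime) (hN : IsPGroup q N) (h0 : N ≠ ⊥)
    (hmin : ∀ W : Subgroup H, W.Normal → W ≤ N → W ≠ ⊥ → N ≤ W) : ∀ k ∈ N, k ^ q = 1 := by
  have hc := comm hq hN h0 hmin hq N hN
  have := Fact.mk hq
  let W : Subgroup H :=
    { carrier := {k | k ∈ N ∧ k ^ q = 1}
      one_mem' := ⟨N.one_mem, one_pow _⟩
      mul_mem' := fun {a b} ha hb => ⟨N.mul_mem ha.1 hb.1, by
        rw [Commute.mul_pow (hc a ha.1 b hb.1), ha.2, hb.2, one_mul]⟩
      inv_mem' := fun {a} ha => ⟨N.inv_mem ha.1, by rw [inv_pow, ha.2, inv_one]⟩ }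
  have hn : W.Normal := ⟨fun a ha x => ⟨Subgroup.Normal.conj_mem inferInstance a ha.1 x, by
    rw [conj_pow, ha.2]; simp⟩⟩
  have hd : q ∣ Nat.card N := by
    obtain ⟨n, hn⟩ := hN.exists_card_eq
    rcases n with _ | n
    · exact absurd (Subgroup.card_eq_one.1 (by simpa using hn)) h0
    · rw [hn]; exact dvd_pow_self _ (by simp)
  obtain ⟨b, hb⟩ := exists_prime_orderOf_dvd_card' q hd
  refine fun k hk => (hmin W hn (fun a ha => ha.1) (fun h => ?_) hk).2
  have : (b : H) ∈ W := ⟨b.2, by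
    have := pow_orderOf_eq_one b
    rw [hb] at this
    exact congrArg Subtype.val this⟩
  rw [h] at this
  have h1 : b = 1 := Subtype.ext (Subgroup.mem_bot.1 this)
  rw [h1, orderOf_one] at hb
  exact hq.one_lt.ne hb
end core

section tr
variable {U : Type} [Group U] {G M : Subgroup U} {H : Type} [Group H] (π : G →* H)

theorem ncl_le_G {g : U} (hM : M ≤ G) (hg : g ∈ G) : ncl G M g ≤ G :=
  ncl_le.2 ⟨hM, fun x hx => G.mul_mem (G.mul_mem hx hg) (G.inv_mem hx)⟩

theorem into {g : G} (hM : M ≤ G) (hk : ∀ m : G, (m : U) ∈ M → π m = 1) {W : Subgroup H}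
    [W.Normal] (hg : π g ∈ W) (k : G) (h : (k : U) ∈ ncl G M g) : π k ∈ W := by
  have : ncl (G : Set U) M g ≤ (W.comap π).map G.subtype := by
    refine ncl_le.2 ⟨fun m hm => ⟨⟨m, hM hm⟩, ?_, rfl⟩,
      fun x hx => ⟨⟨x, hx⟩ * g * ⟨x, hx⟩⁻¹, ?_, rfl⟩⟩
    · simp [hk ⟨m, hM hm⟩ hm]
    · simpa using Subgroup.Normal.conj_mem inferInstance _ hg (π ⟨x, hx⟩)
  obtain ⟨y, hy, e⟩ := this h
  rwa [show k = y from Subtype.ext e.symm]

theorem img_normal {g : G} (hs : Function.Surjective π) (hn : Nm G M) :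
    (((ncl G M g).subgroupOf G).map π).Normal := by
  have : ((ncl (G : Set U) M g).subgroupOf G).Normal :=
    ⟨fun a ha x => nm_ncl hn x x.2 a ha⟩
  exact Subgroup.Normal.map inferInstance π hs

theorem img_p {g : G} {p : ℕ} (h : IsPGroup p (ncl G ⊥ (g : U))) :
    IsPGroup p (((ncl G ⊥ (g : U)).subgroupOf G).map π) :=
  (h.comap_subtype (K := G)).map π
end tr

end Upay

open Upay in
theorem a_UPA : S_UPA := by
  intro U _ G M q g hf hM hn hg hm
  have : (M.subgroupOf G).Normal := ⟨fun a ha x => hn x x.2 a ha⟩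
  let π : G →* G ⧸ M.subgroupOf G := QuotientGroup.mk' _
  have hs : Function.Surjective π := QuotientGroup.mk'_surjective _
  have hk : ∀ m : G, π m = 1 ↔ (m : U) ∈ M := fun m => QuotientGroup.eq_one_iff m
  have nb : Nm G ⊥ := fun x _ k hk => by simpa using hk
  let g' : G := ⟨g, hg.1⟩
  let N := ((ncl G ⊥ (g' : U)).subgroupOf G).map π
  have : N.Normal := img_normal π hs nb
  have gN : π g' ∈ N := ⟨g', self_mem_ncl, rfl⟩
  have h0 : N ≠ ⊥ := fun h => hm.2.1 ((hk g').1 (by rw [h] at gN; exact gN))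
  have hmin : ∀ W : Subgroup (G ⧸ M.subgroupOf G), W.Normal → W ≤ N → W ≠ ⊥ → N ≤ W := by
    intro W _ hW hb
    obtain ⟨⟨w, hw⟩, hw1⟩ := Subgroup.ne_bot_iff_exists_ne_one.1 hb
    obtain ⟨h, hh, rfl⟩ := hW hw
    have h1 : (h : U) ∈ ncl G M g :=
      ncl_le_of_nm (nm_ncl hn) bot_le self_mem_ncl hh
    have h2 := hm.2.2 h h1 fun hc => hw1 (Subtype.ext ((hk h).2 hc))
    have h3 : π g' ∈ W := into π hM (fun m => (hk m).2) hw g' h2
    rintro _ ⟨y, hy, rfl⟩
    exact into π bot_le (fun m hm => by rw [show m = 1 from Subtype.ext hm, map_one]) h3 y hy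
  have hin : ∀ k (h : k ∈ ncl G M g), π ⟨k, ncl_le_G hM hg.1 h⟩ ∈ N := fun k h =>
    into π hM (fun m => (hk m).2) gN _ h
  refine ⟨fun p x hx k h => ?_, fun k h => ?_⟩
  · let x' : G := ⟨x, hx.1⟩
    have := img_normal (g := x') π hs nb
    have := comm hg.2.1 (img_p (g := g') π hg.2.2) h0 hmin hx.2.1 _ (img_p (g := x') π hx.2.2)
      (π x') ⟨x', self_mem_ncl, rfl⟩ _ (hin k h)
    refine (hk ⁅x', ⟨k, ncl_le_G hM hg.1 h⟩⁆).1 ?_
    rw [map_commutatorElement, commutatorElement_eq_one_iff_mul_comm, this]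
  · refine (hk (⟨k, ncl_le_G hM hg.1 h⟩ ^ q)).1 ?_
    rw [map_pow]
    exact expo hg.2.1 (img_p (g := g') π hg.2.2) h0 hmin _ (hin k h)

end Pool.Agent.P.MP_f1a348_lc.AL
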