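import Pool.Agent.P.MP_f1a348_lc.AL.Iface

/-!
Project AL: the upward series consists of normal subgroups and reaches the Fitting subgroup.
-/

namespace Pool.Agent.P.MP_f1a348_lc.AL

open Pool.Agent.P.MP_f1a348_lc.GI hiding Nm Good
open Pool.Agent.P.MP_f1a348_lc.UP (Nm)

namespace Upby

variable {U : Type} [Group U] {G M : Subgroup U} {q : ℕ} {g x : U}

theorem ncl_conj_le (hx : x ∈ G) : ncl G M (x * g * x⁻¹) ≤ ncl G M g :=
  ncl_le.2 ⟨le_ncl, fun y hy => by
    simpa [mul_assoc] using conj_mem_ncl (M := M) (g := g) (G.mul_mem hy hx)⟩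

theorem ncl_leG (hM : M ≤ G) (hg : g ∈ G) : ncl G M g ≤ G := ncl_le_of_nm (nm_self G) hM hg

theorem op_of_mem (hg : g ∈ Op G q) (hx : x ∈ ncl G ⊥ g) : x ∈ Op G q :=
  ⟨ncl_leG bot_le hg.1 hx, hg.2.1,
    hg.2.2.to_le (ncl_le_of_nm (nm_ncl (nm_bot G)) bot_le hx)⟩

theorem min_conj (hM : Nm G M) (hg : MinO G M g) (hx : x ∈ G) : MinO G M (x * g * x⁻¹) :=
  ⟨nm_self G x hx g hg.1, fun h => hg.2.1 (by simpa [mul_assoc] using hM _ (G.inv_mem hx) _ h),
    fun h hh hn => nm_ncl hM x hx g (hg.2.2 h (ncl_conj_le hx hh) hn)⟩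

theorem nxt_le (hM : M ≤ G) : nxt G q M ≤ G :=
  sup_le hM ((Subgroup.closure_le _).2 fun _ h => h.1.1)

theorem mem_nxt (h1 : g ∈ Op G q) (h2 : MinO G M g) : g ∈ nxt G q M :=
  Subgroup.mem_sup_right (Subgroup.subset_closure ⟨h1, h2⟩)

theorem nm_nxt (hM : Nm G M) : Nm G (nxt G q M) := fun x hx k hk => by
  have : nxt G q M ≤ (nxt G q M).comap (MulAut.conj x).toMonoidHom :=
    sup_le (fun m hm => Subgroup.mem_sup_left (hM x hx m hm))
      ((Subgroup.closure_le _).2 fun y hy =>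
        mem_nxt (op_of_mem hy.1 (conj_mem_ncl hx)) (min_conj hM hy.2 hx))
  exact this hk

/-- the product of `M` and a subgroup that normalises it -/
def prd (M N : Subgroup U) (h : Nm N M) : Subgroup U where
  carrier := {x | ∃ k ∈ N, x * k⁻¹ ∈ M}
  one_mem' := ⟨1, one_mem _, by simp⟩
  mul_mem' := fun ⟨k, hk, h1⟩ ⟨l, hl, h2⟩ => ⟨k * l, mul_mem hk hl, by
    simpa [mul_assoc] using M.mul_mem h1 (h k hk _ h2)⟩
  inv_mem' := fun ⟨k, hk, h1⟩ => ⟨k⁻¹, inv_mem hk, by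
    simpa [mul_assoc] using h _ (inv_mem hk) _ (M.inv_mem h1)⟩

theorem step [Finite G] (hle : M ≤ G) (hM : Nm G M) (hg : g ∈ Op G q) (hn : g ∉ M) :
    M < nxt G q M := by
  classical
  obtain ⟨h, ⟨h1, h2⟩, hmin⟩ : ∃ h, (h ∈ ncl G ⊥ g ∧ h ∉ M) ∧ ∀ k, k ∈ ncl G ⊥ g ∧ k ∉ M →
      Nat.card (ncl G M h) ≤ Nat.card (ncl G M k) := by
    have ex : ∃ c, ∃ h, (h ∈ ncl G ⊥ g ∧ h ∉ M) ∧ Nat.card (ncl G M h) = c :=
      ⟨_, g, ⟨self_mem_ncl, hn⟩, rfl⟩
    obtain ⟨h, h1, h2⟩ := Nat.find_spec ex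
    exact ⟨h, h1, fun k hk => h2 ▸ Nat.find_min' ex ⟨k, hk, rfl⟩⟩
  have hN : ncl G ⊥ g ≤ G := ncl_leG bot_le hg.1
  have hh : MinO G M h := ⟨hN h1, h2, fun h' hh' hn' => by
    have hP : ncl G M h ≤ prd M (ncl G ⊥ g) fun k hk => hM k (hN hk) :=
      ncl_le.2 ⟨fun m hm => ⟨1, one_mem _, by simpa using hm⟩, fun y hy =>
        ⟨_, nm_ncl (nm_bot G) y hy h h1, by simp⟩⟩
    obtain ⟨k, hk, h3⟩ := hP hh'
    have h4 : k ∉ M := fun hk' => hn' (by
      have := M.mul_mem h3 hk'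
      rwa [inv_mul_cancel_right] at this)
    have h5 : k ∈ ncl G M h' := by
      have a1 : h' * k⁻¹ ∈ ncl G M h' := le_ncl h3
      have a2 : h' ∈ ncl G M h' := self_mem_ncl
      have := mul_mem (inv_mem a1) a2
      rwa [mul_inv_rev, inv_inv, inv_mul_cancel_right] at this
    have h6 : ncl G M k ≤ ncl G M h' := ncl_le_of_nm (nm_ncl hM) le_ncl h5
    have h7 : ncl G M h' ≤ ncl G M h := ncl_le_of_nm (nm_ncl hM) le_ncl hh'
    have : Finite (ncl G M h) := finite_of_le (ncl_leG hle (hN h1))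
    have e := Subgroup.eq_of_le_of_card_ge (h6.trans h7) (hmin k ⟨hk, h4⟩)
    exact h6 (e ▸ self_mem_ncl)⟩
  exact lt_of_le_of_ne le_sup_left fun e => h2 (e ▸ mem_nxt (op_of_mem hg h1) hh)

theorem up_ok (G : Subgroup U) (n t : ℕ) : Up G n t ≤ G ∧ Nm G (Up G n t) := by
  induction t with
  | zero => exact ⟨bot_le, nm_bot G⟩
  | succ t ih => exact ⟨nxt_le ih.1, nm_nxt ih.2⟩

theorem up_mono (G : Subgroup U) (n : ℕ) : Monotone (Up G n) :=
  monotone_nat_of_le_succ fun _ => le_sup_left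

theorem prime_le [Finite G] (hg : g ∈ Op G q) (h1 : g ≠ 1) : q ≤ Nat.card G := by
  obtain ⟨k, hk⟩ := hg.2.2 ⟨g, self_mem_ncl⟩
  have h2 : g ^ q ^ k = 1 := congrArg Subtype.val hk
  obtain ⟨j, -, hj⟩ := (Nat.dvd_prime_pow hg.2.1).1 (orderOf_dvd_of_pow_eq_one h2)
  have h3 : j ≠ 0 := fun e => h1 (orderOf_eq_one_iff.1 (by simpa [e] using hj))
  have h4 : orderOf g ∣ Nat.card G := Subgroup.orderOf_dvd_natCard G hg.1
  exact Nat.le_of_dvd Nat.card_pos ((dvd_pow_self q h3).trans (hj ▸ h4))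

end Upby

open Upby in
theorem a_UPB : S_UPB := by
  intro U _ G n hfin hn
  classical
  refine ⟨up_ok G n, fun q g hg => by_contra fun hc => ?_⟩
  have hq : q < n := (prime_le hg fun e => hc (e ▸ one_mem _)).trans_lt hn
  have key : ∀ i ≤ n, i < Nat.card (Up G n (q * n + i)) := fun i hi => by
    induction i with
    | zero =>
      have : Finite (Up G n (q * n + 0)) := finite_of_le (up_ok G n _).1
      exact Nat.card_pos
    | succ i ih =>
      have e : (q * n + i) / n = q := by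
        rw [add_comm, Nat.add_mul_div_right _ _ (by omega), Nat.div_eq_of_lt (by omega), zero_add]
      have h1 : q * n + i ≤ n * n := by nlinarith
      have h2 := step (up_ok G n (q * n + i)).1 (up_ok G n _).2 hg fun h => hc (up_mono G n h1 h)
      have : Finite (Up G n (q * n + (i + 1))) := finite_of_le (up_ok G n _).1
      have h3 : Up G n (q * n + i) < Up G n (q * n + (i + 1)) := by
        rw [← add_assoc, Up, e]; exact h2
      have h4 : Nat.card (Up G n (q * n + i)) < Nat.card (Up G n (q * n + (i + 1))) :=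
        lt_of_not_ge fun h => h3.ne (Subgroup.eq_of_le_of_card_ge h3.le h)
      have := ih (by omega)
      omega
  have h5 := Subgroup.card_le_of_le (up_ok G n (q * n + n)).1
  have := key n le_rfl
  omega

end Pool.Agent.P.MP_f1a348_lc.AL
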