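import Pool.Agent.P.MP_f1a348_lc.AL.Iface

/-!
Project AL: the greedy computation of maximal invariant subgroups.
-/

namespace Pool.Agent.P.MP_f1a348_lc.AL

open Pool.Agent.P.MP_f1a348_lc.GI hiding Nm Good
open scoped commutatorElement

namespace Zay

theorem grd (h : S_ICL) {U : Type} [Group U] [DecidableEq U] {Y : List U} {S : List (FP U)}
    {G R : Subgroup U} (hY : Rep Y G) (hG : Inv (gen S) G) (hRG : R ≤ G) (hR : Inv (gen S) R)
    {ok : List U → Bool} {P : Subgroup U → Prop} (hok : ∀ l X, Rep l X → (ok l = true ↔ P X))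
    (hP : ∀ X X', X ≤ X' → P X' → P X) (l : List U) : ∀ (Xl : List U) (X : Subgroup U),
    (∀ g ∈ l, g ∈ R) → Rep Xl X → X ≤ R → Inv (gen S) X → P X →
    ∃ Z, Rep (grdP Y S ok Xl l) Z ∧ X ≤ Z ∧ Z ≤ R ∧ Inv (gen S) Z ∧ P Z ∧
      ∀ Z', Z ≤ Z' → Inv (gen S) Z' → P Z' → ∀ g ∈ l, g ∈ Z' → g ∈ Z := by
  induction l with
  | nil => exact fun Xl X _ a b c d => ⟨X, a, le_rfl, b, c, d, by simp⟩
  | cons g l ih =>
    intro Xl X hl a b c d
    have hg : ∀ x ∈ g :: Xl, x ∈ R :=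
      List.forall_mem_cons.2 ⟨hl g List.mem_cons_self, fun x hx => b ((a.mem x).1 hx)⟩
    obtain ⟨C, c1, c2, c3, c4⟩ := h U Y (g :: Xl) S G hY hG fun x hx => hRG (hg x hx)
    have hl' : ∀ g ∈ l, g ∈ R := fun x hx => hl x (List.mem_cons_of_mem _ hx)
    rw [grdP, List.foldl_cons, ← grdP]
    cases e : ok (iclP Y S (g :: Xl))
    · obtain ⟨Z, z1, z2, z3, z4, z5, z6⟩ := ih Xl X hl' a b c d
      refine ⟨Z, z1, z2, z3, z4, z5, fun Z' p q r => List.forall_mem_cons.2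
        ⟨fun hz => ?_, z6 Z' p q r⟩⟩
      have := (hok _ _ c1).2 (hP _ _ (c4 Z' (List.forall_mem_cons.2
        ⟨hz, fun x hx => p (z2 ((a.mem x).1 hx))⟩) q) r)
      rw [e] at this
      exact absurd this Bool.false_ne_true
    · obtain ⟨Z, z1, z2, z3, z4, z5, z6⟩ := ih _ C hl' c1 (c4 R hg hR) c3 ((hok _ _ c1).1 e)
      exact ⟨Z, z1, fun x hx => z2 (c2 x (List.mem_cons_of_mem _ ((a.mem x).2 hx))), z3, z4, z5,
        fun Z' p q r => List.forall_mem_cons.2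
          ⟨fun _ => z2 (c2 g List.mem_cons_self), z6 Z' p q r⟩⟩

end Zay

theorem a_ZA (h : S_ICL) : S_ZA := by
  intro U _ _ Y Fl Rl S G F R hY hF hR hFR hRG iG iF iR
  have hl : ∀ g ∈ Rl, g ∈ R := fun g hg => (hR.mem g).1 hg
  obtain ⟨Z, z1, z2, z3, z4, z5, z6⟩ := Zay.grd h hY iG hRG iR (ok := fun X => cmB X X Fl)
    (P := fun X => ⁅X, X⁆ ≤ F) (fun l X a => cmB_iff a a hF)
    (fun X X' a b => (Subgroup.commutator_mono a a).trans b) Rl Fl F hl hF hFR iF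
    (Subgroup.commutator_le_self F)
  obtain ⟨A, a1, a2, a3, a4, a5, a6⟩ := Zay.grd h hY iG hRG iR
    (ok := fun X => cmB X (zP Y S Fl Rl) Fl && cmB X X (zP Y S Fl Rl))
    (P := fun X => ⁅X, Z⁆ ≤ F ∧ ⁅X, X⁆ ≤ Z)
    (fun l X a => by rw [Bool.and_eq_true]; exact and_congr (cmB_iff a z1 hF) (cmB_iff a a z1))
    (fun X X' a b => ⟨(Subgroup.commutator_mono a le_rfl).trans b.1,
      (Subgroup.commutator_mono a a).trans b.2⟩) Rl _ Z hl z1 z3 z4 ⟨z5, z5.trans z2⟩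
  exact ⟨Z, A, z1, a1, z2, a2, a3, z4, a4, z5, a5.1, a5.2,
    fun X p q r s x hx => z6 X p r s x ((hR.mem x).2 (q hx)) hx,
    fun X p q r s t x hx => a6 X p r ⟨s, t⟩ x ((hR.mem x).2 (q hx)) hx⟩

end Pool.Agent.P.MP_f1a348_lc.AL
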