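import Pool.Agent.P.MP_f1a348_lc.AL.PSv

/-!
Project AL: the main program meets the specification of the final assembly.
-/

namespace Pool.Agent.P.MP_f1a348_lc.AL

open Pool.Agent.P.MP_f1a348_lc.GI hiding Nm Good
open Pool.Agent.Lib.Helper47

theorem isoProg_of (hm : S_MAIN) (hp : P_MAIN) {C : ℕ} {stage : StageTy}
    (hs : S_STAGE (fun _ => True) C stage) (ht : P_STAGE stage) : ∃ K iso, FA.IsoProg K iso :=
  ⟨141 * C + 70, fun pad ud el el' => mainP stage pad ud (List.range (1 :: el).length) (el, el'),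
    (hp stage ht).comp
      (g := fun a : FA.Arg => (a.1, a.2.1, List.range (1 :: a.2.2.1).length, a.2.2.1, a.2.2.2))
      (by fun_prop),
    fun pad ud el el' Z Z' h h' _ hc hb => hm _ C stage pad ud _ el el' Z Z' hs
      ⟨h, Nat.lt_succ_self _, hc, fun _ _ _ => trivial⟩ h' hb⟩

end Pool.Agent.P.MP_f1a348_lc.AL
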