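import Pool.Agent.P.MP_f1a348_lc.AL.TSEQ
import Pool.Agent.P.MP_f1a348_lc.AL.TCOVER
import Pool.Agent.P.MP_f1a348_lc.AL.TDP
import Pool.Agent.P.MP_f1a348_lc.AL.TMSET
import Pool.Agent.P.MP_f1a348_lc.AL.TTREE
import Pool.Agent.P.MP_f1a348_lc.AL.TUPA
import Pool.Agent.P.MP_f1a348_lc.AL.TUPB
import Pool.Agent.P.MP_f1a348_lc.AL.TFIT
import Pool.Agent.P.MP_f1a348_lc.AL.TSER
import Pool.Agent.P.MP_f1a348_lc.AL.TSERI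
import Pool.Agent.P.MP_f1a348_lc.AL.TSERP
import Pool.Agent.P.MP_f1a348_lc.AL.TQUO
import Pool.Agent.P.MP_f1a348_lc.AL.TDOWN
import Pool.Agent.P.MP_f1a348_lc.AL.TLAY
import Pool.Agent.P.MP_f1a348_lc.AL.TT1
import Pool.Agent.P.MP_f1a348_lc.AL.TT1P
import Pool.Agent.P.MP_f1a348_lc.AL.TT2
import Pool.Agent.P.MP_f1a348_lc.AL.TT3
import Pool.Agent.P.MP_f1a348_lc.AL.TT4
import Pool.Agent.P.MP_f1a348_lc.AL.TT5
import Pool.Agent.P.MP_f1a348_lc.AL.TPART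
import Pool.Agent.P.MP_f1a348_lc.AL.TT6
import Pool.Agent.P.MP_f1a348_lc.AL.TT7
import Pool.Agent.P.MP_f1a348_lc.AL.TEXT
import Pool.Agent.P.MP_f1a348_lc.AL.TTGR
import Pool.Agent.P.MP_f1a348_lc.AL.TT8
import Pool.Agent.P.MP_f1a348_lc.AL.TTRIB
import Pool.Agent.P.MP_f1a348_lc.AL.TA0
import Pool.Agent.P.MP_f1a348_lc.AL.TLIFTA
import Pool.Agent.P.MP_f1a348_lc.AL.TGENB
import Pool.Agent.P.MP_f1a348_lc.AL.TGENC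
import Pool.Agent.P.MP_f1a348_lc.AL.TTOP
import Pool.Agent.P.MP_f1a348_lc.AL.TCJ
import Pool.Agent.P.MP_f1a348_lc.AL.TICL
import Pool.Agent.P.MP_f1a348_lc.AL.TZA
import Pool.Agent.P.MP_f1a348_lc.AL.TC1
import Pool.Agent.P.MP_f1a348_lc.AL.TC2A
import Pool.Agent.P.MP_f1a348_lc.AL.TC2B
import Pool.Agent.P.MP_f1a348_lc.AL.TC2C
import Pool.Agent.P.MP_f1a348_lc.AL.TC3
import Pool.Agent.P.MP_f1a348_lc.AL.TCIDX
import Pool.Agent.P.MP_f1a348_lc.AL.TCPERM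
import Pool.Agent.P.MP_f1a348_lc.AL.TCSOLV
import Pool.Agent.P.MP_f1a348_lc.AL.TATP
import Pool.Agent.P.MP_f1a348_lc.AL.TCERT
import Pool.Agent.P.MP_f1a348_lc.AL.TRDUP
import Pool.Agent.P.MP_f1a348_lc.AL.TAT0
import Pool.Agent.P.MP_f1a348_lc.AL.TATD
import Pool.Agent.P.MP_f1a348_lc.AL.TAT
import Pool.Agent.P.MP_f1a348_lc.AL.TBB
import Pool.Agent.P.MP_f1a348_lc.AL.TGG
import Pool.Agent.P.MP_f1a348_lc.AL.TCENT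
import Pool.Agent.P.MP_f1a348_lc.AL.TINN
import Pool.Agent.P.MP_f1a348_lc.AL.TPTZ
import Pool.Agent.P.MP_f1a348_lc.AL.TORC
import Pool.Agent.P.MP_f1a348_lc.AL.TCJP
import Pool.Agent.P.MP_f1a348_lc.AL.TBASEQ
import Pool.Agent.P.MP_f1a348_lc.AL.TBASE
import Pool.Agent.P.MP_f1a348_lc.AL.TSTEP
import Pool.Agent.P.MP_f1a348_lc.AL.TMAIN
import Pool.Agent.P.MP_f1a348_lc.AL.TBR
import Pool.Agent.P.MP_f1a348_lc.AL.TPTOP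
import Pool.Agent.P.MP_f1a348_lc.AL.TPMAIN
import Pool.Agent.P.MP_f1a348_lc.AL.TPBASE
import Pool.Agent.P.MP_f1a348_lc.AL.Top

/-!
Project AL: all steps together.
-/

namespace Pool.Agent.P.MP_f1a348_lc.AL

theorem s_MSET : S_MSET := a_MSET a_DP
theorem s_SER : S_SER := a_SER a_UPA a_UPB a_FIT
theorem s_T1P : S_T1P := a_T1P a_T1
theorem s_T3 : S_T3 := a_T3 a_T2
theorem s_PART : S_PART := a_PART a_T1
theorem s_EXT : S_EXT := a_EXT s_T1P (a_T7 a_T1 s_PART s_T3)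
theorem s_LIFT : S_LIFTA ∧ S_LIFTB := a_LIFTA s_T1P s_EXT a_T5 a_T8 a_TGR
theorem s_TOP : S_TOP :=
  a_TOP (a_A0 a_SEQ.2.1 s_MSET s_T1P (a_T4 a_LAY) a_T5) s_LIFT.1
    (a_GENB s_T1P s_EXT a_T5 s_LIFT.2 a_TGR) a_GENC a_TRIB a_TGR a_T5 (a_T6 s_PART s_T3)
theorem s_C1 : S_C1 := a_C1 a_LAY
theorem s_CERT : S_CERT :=
  a_CERT a_TREE (a_ZA a_ICL) (a_ATP (a_C2B s_C1 a_LAY a_CJ) a_CJ)
    (a_CIDX (a_C3 s_C1 a_LAY a_CJ) a_CJ) (a_CPERM a_CJ)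
    (a_CSOLV (a_C2A s_C1 a_LAY a_CJ) (a_C2C s_C1 a_LAY a_CJ) a_CJ)
theorem s_OUT : S_OUT :=
  (a_ORC a_BB (a_PTZ a_BB (a_INN a_BB (a_CENT a_BB s_MSET) a_SEQ) a_COVER s_MSET a_SEQ.1).2 a_DP).2
theorem s_BASE : S_BASE :=
  a_BASE (a_BASEQ a_BB (a_GG a_BB) s_OUT (a_CJP a_BB).1 (a_CJP a_BB).2) (a_AT a_AT0 a_SERI.2) a_ATD
theorem s_MAIN : S_MAIN :=
  a_MAIN s_SER a_SERP a_QUO a_DOWN s_BASE
    (a_STEP s_SER a_SERI.1 a_SERP a_QUO a_DOWN s_TOP s_CERT (a_RDUP a_TGR))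
theorem p_MAIN : P_MAIN := a_PMAIN a_PTOP a_PCERT a_PBASE

/-- a solver for affine problems gives the isomorphism test -/
theorem isoProg (h1 : PS.A_PS) (h2 : PS.P_PS) (A : PS.Aff) (C : ℕ) (Ce : PS.Crt)
    (ok : A.Ok (fun _ => True) 5 C Ce) (pt : A.Pt) : ∃ K iso, FA.IsoProg K iso :=
  (a_BR h1 h2 A _ C Ce ok pt).elim fun _ h => isoProg_of s_MAIN p_MAIN h.1 h.2

end Pool.Agent.P.MP_f1a348_lc.AL
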