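import Pool.Agent.P.MP_f1a348_lc.AL.Iface
import Pool.Agent.P.MP_f1a348_lc.AL.TBR
import Pool.Agent.P.MP_f1a348_lc.CT.Solv

/-!
Project AL: the standing hypotheses of the certificate in the language of project CT.
-/

namespace Pool.Agent.P.MP_f1a348_lc.AL

open Pool.Agent.P.MP_f1a348_lc.GI hiding Nm Good
open Pool.Agent.P.MP_f1a348_lc.UP (Rec up topI SolvMod Nm der)
open scoped commutatorElement Pointwise
open MulAction (stabilizer)

namespace Ctb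

variable {U : Type} [Group U] {G R Z A : Subgroup U} {O : ℕ → Subgroup U} {r d n : ℕ} {p : ℕ → ℕ}
  {TT : List (Subgroup U)}

theorem ly (h : Ser G O r p) (ZA : Z ≤ A) (AG : A ≤ G) (nZ : Nm G Z) (az : ⁅A, Z⁆ ≤ O 1)
    (aa : ⁅A, A⁆ ≤ Z) {j : ℕ} (hj : 1 ≤ j) : CT.LY G (O j) (O (j + 1)) Z A :=
  ⟨h.fin, h.anti j, h.leG j, h.nml _, h.nml _, fun x hx => h.cen j hj x (h.le hj hx),
    fun W hW k => (h.ss j hj).trans (sup_le hW ((Subgroup.closure_le _).2 fun g hg =>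
      k (ncl G (O (j + 1)) g) ⟨lt_of_le_not_ge le_ncl fun t => hg.2.2.1 (t self_mem_ncl),
        ncl_le_of_nm (nm_self G) (h.leG _) hg.2.1, nm_ncl (h.nml _), fun X a b c => by
          by_cases e : X ≤ O (j + 1)
          · exact .inl e
          · obtain ⟨x, hx, hx'⟩ := SetLike.not_le_iff_exists.1 e
            exact .inr (ncl_le_of_nm c a (ncl_le_of_nm c a hx (hg.2.2.2 x (b hx) hx')))⟩
        (ncl_le_of_nm (h.nml j) (h.anti j) hg.1) self_mem_ncl)), ZA, AG, nZ,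
    fun _ ha _ hz => h.cen j hj _ (az (Subgroup.commutator_mem_commutator ha hz)),
    fun _ ha _ hb => aa (Subgroup.commutator_mem_commutator ha hb)⟩

theorem ser (h : Ser G O r p) : PS.Ser O r := by
  obtain rfl := h.zero
  exact ⟨h.fin, h.anti, h.nml, h.cen, h.bot⟩

theorem tg (h : Ser G O r p) : TG O = PS.TT O 1 := Bry.tg_eq fun _ => h.le (Nat.zero_le _)

theorem iv (h : Ser G O r p) {X : Subgroup U} (lo : O 1 ≤ X) (hi : X ≤ G) (i : Inv (TG O) X) :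
    CT.Iv O X := CT.Iv.of lo (h.zero ▸ hi) (tg h ▸ i)

theorem inv (h : Ser G O r p) {X : Subgroup U} (i : CT.Iv O X) : Inv (TG O) X :=
  fun _ hs x hx => (i.keep (tg h ▸ hs) x).2 hx

theorem crit (h : CX G O r p R TT Z A d n) : CT.Crit O R Z A :=
  ⟨iv h.ser h.za.FZ (h.za.le.trans (h.za.AR.trans h.rd.le)) h.za.iZ,
    iv h.ser (h.za.FZ.trans h.za.le) (h.za.AR.trans h.rd.le) h.za.iA, h.za.le, h.za.AR,
    Subgroup.commutator_le.1 h.za.az, Subgroup.commutator_le.1 h.za.aa,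
    fun Y i a b c => h.za.mZ Y a b (inv h.ser i) (Subgroup.commutator_le.2 c),
    fun Y i a b c e => h.za.mA Y a b (inv h.ser i) (Subgroup.commutator_le.2 c)
      (Subgroup.commutator_le.2 e)⟩

theorem nZ (h : CX G O r p R TT Z A d n) : Nm G Z := h.ser.zero ▸ (crit h).iZ.nm (ser h.ser)

theorem ly' (h : CX G O r p R TT Z A d n) {j : ℕ} (hj : 1 ≤ j) :
    CT.LY G (O j) (O (j + 1)) Z A :=
  ly h.ser h.za.le (h.za.AR.trans h.rd.le) (nZ h) h.za.az h.za.aa hj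

theorem gd {L M : Subgroup U} {v : U} : Gd M L Z v ↔ CT.Gd Z L M v :=
  and_congr_right fun _ => and_congr_right fun _ => forall₂_congr fun _ _ => or_congr_right
    ⟨fun ⟨w, a, b⟩ => ⟨w, a, Cg.symm b⟩, fun ⟨w, a, b⟩ => ⟨w, a, Cg.symm b⟩⟩

theorem mem_cen {X M : Subgroup U} (h : Nm X M) {Y : Set U} {x : U} :
    x ∈ X ⊓ cenM M Y ↔ x ∈ X ∧ ∀ y ∈ Y, ⁅x, y⁆ ∈ M :=
  and_congr_right fun hx => and_iff_right fun y => (PS.TSYL.conj_iff h hx y).symm

theorem isB (h : CX G O r p R TT Z A d n) (j : ℕ) (v : U) :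
    CT.IsB Z (O j) v (Z ⊓ cenM (O j) {v}) := fun z => by
  rw [mem_cen fun g hg => h.ser.nml j g (h.rd.le (h.za.AR (h.za.le hg)))]
  simp

theorem lo (h : CX G O r p R TT Z A d n) {B : Subgroup U} (hB : B ∈ BB O Z) : O 1 ≤ B ∧ B ≤ Z := by
  obtain ⟨j, hj, v, hv, rfl⟩ := hB
  exact ⟨fun x hx => (isB h _ v x).2 ⟨h.za.FZ hx, h.ser.cen j hj x hx v hv.1⟩, inf_le_left⟩

theorem isA (h : CX G O r p R TT Z A d n) {B : Subgroup U} (hB : B ∈ BB O Z) :
    CT.IsA A B (A ⊓ cenM B A) := fun _ => mem_cen ((crit h).nmB (lo h hB).1 (lo h hB).2)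

end Ctb

end Pool.Agent.P.MP_f1a348_lc.AL
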