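import Pool.Agent.P.MP_f1a348_lc.AL.Sv
import Pool.Agent.P.MP_f1a348_lc.FA.Cls

/-!
Project AL: the group theoretic notions.
-/

namespace Pool.Agent.P.MP_f1a348_lc.AL

open Pool.Agent.P.MP_f1a348_lc.GI hiding Nm Good
open Pool.Agent.P.MP_f1a348_lc.UP (Rec up topI SolvMod Nm der)
open scoped commutatorElement Pointwise

noncomputable section

/-- the budget -/
def Bg (n d : ℕ) (pad : List Unit) : Prop := 2 ≤ n ∧ n ^ (70 * (d + 1)) ≤ pad.length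

/-- `s` maps `X` onto `X'` -/
def Mp {Ω : Type} (s : FP Ω) (X X' : Set Ω) : Prop := ∀ x, s.app x ∈ X' ↔ x ∈ X

/-- the pointwise stabiliser -/
def Fix {Ω : Type} (X : Set Ω) : Subgroup (FP Ω) where
  carrier := {s | ∀ x ∈ X, s.app x = x}
  one_mem' _ _ := rfl
  mul_mem' hs ht a ha := by rw [FP.app_mul, ht a ha, hs a ha]
  inv_mem' {s} hs a ha := s.app_injective (by rw [FP.app_app_inv, hs a ha])

section mp
variable {Ω : Type} {s t : FP Ω} {X X' X'' : Set Ω}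

theorem mem_Fix : s ∈ Fix X ↔ ∀ x ∈ X, s.app x = x := Iff.rfl
theorem Mp.one (X : Set Ω) : Mp 1 X X := fun _ => Iff.rfl
theorem Mp.mul (h : Mp t X' X'') (h' : Mp s X X') : Mp (t * s) X X'' := fun x =>
  (h _).trans (h' x)
theorem Mp.inv (h : Mp s X X') : Mp s⁻¹ X' X := fun x => by rw [← h, FP.app_app_inv]
theorem Mp.surj (h : Mp s X X') {y : Ω} (hy : y ∈ X') : ∃ x ∈ X, s.app x = y :=
  ⟨_, (h.inv y).2 hy, FP.app_app_inv s y⟩
theorem smul_eq_iff_mp : s • X = X' ↔ Mp s X X' := by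
  refine ⟨fun e x => by rw [← e]; exact Set.smul_mem_smul_set_iff, fun h => Set.ext fun y => ?_⟩
  rw [Set.mem_smul_set_iff_inv_smul_mem]
  exact h.inv y

/-- a bijection between finite sets as a finitary permutation -/
theorem exists_fp {f : Ω → Ω} (hX : X.Finite) (h : Set.BijOn f X X') :
    ∃ s ∈ Sup (X ∪ X'), Mp s X X' ∧ ∀ x ∈ X, s.app x = f x := by
  classical
  have e : ∀ x ∈ X, (FP.ofList (hX.toFinset.toList.map fun x => (x, f x))).app x = f x :=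
    fun x hx => FP.ofList_map (fun a ha b hb => h.injOn (by simpa using ha) (by simpa using hb))
      (by simpa using hx)
  refine ⟨_, fun a ha => FP.ofList_fix fun p hp => ?_, fun x => ⟨fun hx => ?_, fun hx => ?_⟩, e⟩
  · obtain ⟨x, hx, rfl⟩ := List.mem_map.1 hp
    have hx : x ∈ X := by simpa using hx
    exact ⟨fun e => ha (.inl (e ▸ hx)), fun e => ha (.inr (e ▸ h.mapsTo hx))⟩
  · obtain ⟨y, hy, e1⟩ := h.surjOn hx
    rwa [← FP.app_injective _ ((e y hy).trans e1)]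
  · rw [e x hx]; exact h.mapsTo hx
end mp

variable {U : Type} [Group U]

/-- `s` is multiplicative on `G` -/
def Hm (G : Subgroup U) (s : FP U) : Prop :=
  ∀ x ∈ G, ∀ y ∈ G, s.app (x * y) = s.app x * s.app y

/-- `s` induces an isomorphism of `G` onto `G'` -/
structure IsoP (G G' : Subgroup U) (s : FP U) : Prop where
  mp : Mp s G G'
  hm : Hm G s

section iso
variable {G G' G'' : Subgroup U} {s t : FP U}

theorem Hm.one (h : Hm G s) : s.app 1 = 1 := by simpa using h 1 G.one_mem 1 G.one_mem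
theorem Hm.inv (h : Hm G s) {x : U} (hx : x ∈ G) : s.app x⁻¹ = (s.app x)⁻¹ :=
  eq_inv_of_mul_eq_one_left (by rw [← h _ (G.inv_mem hx) _ hx, inv_mul_cancel, h.one])
theorem Hm.conj (h : Hm G s) {x y : U} (hx : x ∈ G) (hy : y ∈ G) :
    s.app (x * y * x⁻¹) = s.app x * s.app y * (s.app x)⁻¹ := by
  rw [h _ (G.mul_mem hx hy) _ (G.inv_mem hx), h _ hx _ hy, h.inv hx]
theorem Hm.mono (h : Hm G s) (hle : G' ≤ G) : Hm G' s := fun x hx y hy => h x (hle hx) y (hle hy)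
theorem IsoP.maps (h : IsoP G G' s) (x : U) : s.app x ∈ G' ↔ x ∈ G := h.mp x
theorem IsoP.refl (G : Subgroup U) : IsoP G G 1 := ⟨.one _, fun _ _ _ _ => rfl⟩
theorem IsoP.mul (h : IsoP G' G'' t) (h' : IsoP G G' s) : IsoP G G'' (t * s) :=
  ⟨h.mp.mul h'.mp, fun x hx y hy => by
    simp only [FP.app_mul]
    rw [h'.hm x hx y hy, h.hm _ ((h'.maps x).2 hx) _ ((h'.maps y).2 hy)]⟩
theorem IsoP.inv (h : IsoP G G' s) : IsoP G' G s⁻¹ :=
  ⟨h.mp.inv, fun x hx y hy => s.app_injective (by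
    rw [h.hm _ ((h.mp.inv x).2 hx) _ ((h.mp.inv y).2 hy)]; simp only [FP.app_app_inv])⟩
theorem IsoP.congr (h : IsoP G G' s) (hm : Mp t G G') (e : ∀ x ∈ G, t.app x = s.app x) :
    IsoP G G' t :=
  ⟨hm, fun x hx y hy => by rw [e _ (G.mul_mem hx hy), e x hx, e y hy, h.hm x hx y hy]⟩
end iso

/-- the automorphisms of `G`, extended by the identity -/
def AutG (G : Subgroup U) : Subgroup (FP U) where
  carrier := {s | s ∈ Sup (G : Set U) ∧ IsoP G G s}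
  one_mem' := ⟨one_mem _, .refl G⟩
  mul_mem' ha hb := ⟨mul_mem ha.1 hb.1, ha.2.mul hb.2⟩
  inv_mem' ha := ⟨inv_mem ha.1, ha.2.inv⟩

/-- the automorphism group of `G` and an isomorphism onto `G'` -/
structure IsoOut (G G' : Subgroup U) (o : Out U) : Prop where
  aut : gen o.1 = AutG G
  some : ∀ x, o.2 = some x → IsoP G G' x ∧ x ∈ Sup ((G : Set U) ∪ G')
  none : o.2 = none → ∀ x, ¬ IsoP G G' x

/-- no abelian normal subgroup other than `1` -/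
def NA (G : Subgroup U) : Prop :=
  ∀ A : Subgroup U, A ≤ G → Nm G A → (∀ x ∈ A, ∀ y ∈ A, x * y = y * x) → A = ⊥

/-! ### the series -/

/-- the closure of `g` under conjugation by `G`, over `M` -/
def ncl (G : Set U) (M : Subgroup U) (g : U) : Subgroup U :=
  M ⊔ Subgroup.closure {y | ∃ x ∈ G, y = x * g * x⁻¹}

/-- `g` generates a minimal normal subgroup over `M` -/
def MinO (G M : Subgroup U) (g : U) : Prop :=
  g ∈ G ∧ g ∉ M ∧ ∀ h ∈ ncl G M g, h ∉ M → g ∈ ncl G M h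

/-- the largest normal `q`-subgroup -/
def Op (G : Subgroup U) (q : ℕ) : Set U := {g | g ∈ G ∧ q.Prime ∧ IsPGroup q (ncl G ⊥ g)}

def nxt (G : Subgroup U) (q : ℕ) (M : Subgroup U) : Subgroup U :=
  M ⊔ Subgroup.closure {g | g ∈ Op G q ∧ MinO G M g}

def Up (G : Subgroup U) (n : ℕ) : ℕ → Subgroup U
  | 0 => ⊥
  | t + 1 => nxt G (t / n) (Up G n t)

/-- the canonical series; its first term is the Fitting subgroup -/
def ser (G : Subgroup U) (n j : ℕ) : Subgroup U := if j = 0 then G else Up G n (n * n + 1 - j)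

/-- the primes of the layers -/
def prm (n j : ℕ) : ℕ := (n * n - j) / n

structure Ser (G : Subgroup U) (O : ℕ → Subgroup U) (r : ℕ) (p : ℕ → ℕ) : Prop where
  fin : Finite G
  zero : O 0 = G
  bot : ∀ j, r ≤ j → O j = ⊥
  anti : ∀ j, O (j + 1) ≤ O j
  nml : ∀ j, Nm G (O j)
  cen : ∀ j, 1 ≤ j → ∀ x ∈ O 1, ∀ y ∈ O j, ⁅x, y⁆ ∈ O (j + 1)
  ss : ∀ j, 1 ≤ j → O j ≤ O (j + 1) ⊔ Subgroup.closure {g | g ∈ O j ∧ MinO G (O (j + 1)) g}
  pr : ∀ j, 1 ≤ j → O j ≤ O (j + 1) ∨ ((p j).Prime ∧ ∀ x ∈ O j, x ^ p j ∈ O (j + 1))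
  mono : ∀ j, p (j + 1) ≤ p j
  faith : ∀ R : Subgroup U, R ≤ G → Nm G R → SolvMod R ⊥ → ∀ k ∈ R,
    (∀ j, 1 ≤ j → ∀ y ∈ O j, ⁅k, y⁆ ∈ O (j + 1)) → k ∈ O 1

theorem Ser.le {G : Subgroup U} {O : ℕ → Subgroup U} {r : ℕ} {p : ℕ → ℕ} (h : Ser G O r p)
    {i j : ℕ} (hij : i ≤ j) : O j ≤ O i := antitone_nat_of_succ_le h.anti hij

theorem Ser.leG {G : Subgroup U} {O : ℕ → Subgroup U} {r : ℕ} {p : ℕ → ℕ} (h : Ser G O r p)
    (j : ℕ) : O j ≤ G := h.zero ▸ h.le (Nat.zero_le j)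

section ncl
variable {G : Set U} {M W : Subgroup U} {g : U}

theorem le_ncl : M ≤ ncl G M g := le_sup_left
theorem conj_mem_ncl {x : U} (hx : x ∈ G) : x * g * x⁻¹ ∈ ncl G M g :=
  Subgroup.mem_sup_right (Subgroup.subset_closure ⟨x, hx, rfl⟩)
theorem ncl_le : ncl G M g ≤ W ↔ M ≤ W ∧ ∀ x ∈ G, x * g * x⁻¹ ∈ W := by
  rw [ncl, sup_le_iff, Subgroup.closure_le]
  exact and_congr_right fun _ => ⟨fun h x hx => h ⟨x, hx, rfl⟩, fun h _ ⟨x, hx, e⟩ => e ▸ h x hx⟩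
theorem self_mem_ncl {G : Subgroup U} : g ∈ ncl G M g := by
  simpa using conj_mem_ncl (G := G) (M := M) (g := g) G.one_mem
theorem ncl_le_of_nm {G : Subgroup U} (h : Nm G W) (hM : M ≤ W) (hg : g ∈ W) : ncl G M g ≤ W :=
  ncl_le.2 ⟨hM, fun x hx => h x hx g hg⟩
theorem nm_self (G : Subgroup U) : Nm G G := fun _ hg _ hk => mul_mem (mul_mem hg hk) (inv_mem hg)
theorem nm_bot (G : Subgroup U) : Nm G ⊥ := fun _ _ _ hk => by simp [Subgroup.mem_bot.1 hk]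
theorem nm_ncl {G : Subgroup U} (h : Nm G M) : Nm G (ncl G M g) := fun x hx k hk =>
  (ncl_le (W := (ncl G M g).comap (MulAut.conj x).toMonoidHom)).2
    ⟨fun m hm => le_ncl (h x hx m hm), fun y hy => by
      simpa [mul_assoc] using conj_mem_ncl (M := M) (g := g) (G.mul_mem hx hy)⟩ hk
end ncl

/-- bijections that respect two series, multiplicative modulo the next term -/
structure Tri (O O' : ℕ → Subgroup U) (s : FP U) : Prop where
  mp : ∀ j, Mp s (O j) (O' j)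
  pv : ∀ j, ∀ x ∈ O 0, ∀ y ∈ O 0, Cg (O' j) (s.app x) (s.app y) ↔ Cg (O j) x y
  mul : ∀ j, ∀ x ∈ O 0, ∀ y ∈ O 0, x ∈ O j ∨ y ∈ O j →
    Cg (O' (j + 1)) (s.app (x * y)) (s.app x * s.app y)

section tri
variable {O O' O'' : ℕ → Subgroup U} {s t : FP U}

theorem Tri.maps (h : Tri O O' s) (j : ℕ) (x : U) : s.app x ∈ O' j ↔ x ∈ O j := h.mp j x
theorem Tri.refl (O : ℕ → Subgroup U) : Tri O O 1 :=
  ⟨fun _ => .one _, fun _ _ _ _ _ => Iff.rfl, fun _ _ _ _ _ _ => Cg.refl _⟩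
theorem Tri.comp (h : Tri O' O'' t) (h' : Tri O O' s) : Tri O O'' (t * s) := by
  refine ⟨fun j => (h.mp j).mul (h'.mp j), fun j x hx y hy => ?_, fun j x hx y hy hj => ?_⟩
  all_goals
    have hx' := (h'.maps 0 x).2 hx
    have hy' := (h'.maps 0 y).2 hy
  · exact (h.pv j _ hx' _ hy').trans (h'.pv j x hx y hy)
  · exact ((h.pv _ _ ((h'.maps 0 _).2 (mul_mem hx hy)) _ (mul_mem hx' hy')).2
      (h'.mul j x hx y hy hj)).trans
      (h.mul j _ hx' _ hy' (hj.imp (h'.maps j x).2 (h'.maps j y).2))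
theorem Tri.inv (h : Tri O O' s) : Tri O' O s⁻¹ := by
  refine ⟨fun j => (h.mp j).inv, fun j x hx y hy => ?_, fun j x hx y hy hj => ?_⟩
  all_goals
    have hx' := ((h.mp 0).inv x).2 hx
    have hy' := ((h.mp 0).inv y).2 hy
  · rw [← h.pv j _ hx' _ hy', FP.app_app_inv, FP.app_app_inv]
  · rw [← h.pv _ _ (((h.mp 0).inv _).2 (mul_mem hx hy)) _ (mul_mem hx' hy'), FP.app_app_inv]
    simpa using (h.mul j _ hx' _ hy' (hj.imp ((h.mp j).inv x).2 ((h.mp j).inv y).2)).symm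
end tri

/-- the group `T₁` -/
def TG (O : ℕ → Subgroup U) : Subgroup (FP U) where
  carrier := {s | s ∈ Sup (O 0 : Set U) ∧ Tri O O s}
  one_mem' := ⟨one_mem _, .refl O⟩
  mul_mem' ha hb := ⟨mul_mem ha.1 hb.1, ha.2.comp hb.2⟩
  inv_mem' ha := ⟨inv_mem ha.1, ha.2.inv⟩

/-- the permutations that move the elements of `X` only inside their cosets of `V` -/
def Fx (X : Set U) (V : Subgroup U) : Subgroup (FP U) where
  carrier := {s | Mp s X X ∧ ∀ x ∈ X, Cg V x (s.app x)}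
  one_mem' := ⟨.one _, fun x _ => Cg.refl x⟩
  mul_mem' ha hb := ⟨ha.1.mul hb.1, fun x hx => (hb.2 x hx).trans (ha.2 _ ((hb.1 x).2 hx))⟩
  inv_mem' {s} ha := ⟨ha.1.inv, fun x hx => by
    simpa using (ha.2 _ ((ha.1.inv x).2 hx)).symm⟩

/-- `π` is a homomorphism of `G` onto `Q` with kernel `F` -/
structure Qt (G F Q : Subgroup U) (π : U → U) : Prop where
  mul : ∀ x ∈ G, ∀ y ∈ G, π (x * y) = π x * π y
  maps : ∀ x ∈ G, π x ∈ Q
  onto : ∀ q ∈ Q, ∃ x ∈ G, π x = q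
  ker : ∀ x ∈ G, π x = 1 ↔ x ∈ F

/-! ### layers and their summands -/

/-- a layer `L / O` of `G`; `G` acts on it through `π` -/
structure Ly (U : Type) [Group U] where
  G : Subgroup U
  F : Subgroup U
  Q : Subgroup U
  π : U → U
  O : Subgroup U
  L : Subgroup U

namespace Ly
variable (y y' : Ly U)

structure Ok : Prop where
  fin : Finite y.G
  qt : Qt y.G y.F y.Q y.π
  OL : y.O ≤ y.L
  LF : y.L ≤ y.F
  FG : y.F ≤ y.G
  nO : Nm y.G y.O
  nL : Nm y.G y.L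
  cen : ∀ x ∈ y.F, ∀ v ∈ y.L, ⁅x, v⁆ ∈ y.O
  ss : y.L ≤ y.O ⊔ Subgroup.closure {g | g ∈ y.L ∧ MinO y.G y.O g}

def Min (v : U) : Prop := v ∈ y.L ∧ MinO y.G y.O v

/-- the words in the quotient that kill `v` -/
def Ann (v : U) : Set (List U) :=
  {w' | ∃ w : List U, (∀ g ∈ w, g ∈ y.G) ∧ w.map y.π = w' ∧
    (w.map fun g => g * v * g⁻¹).prod ∈ y.O}

/-- the list `vs` is independent over `W` -/
def Ind : Subgroup U → List U → Prop
  | _, [] => True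
  | W, v :: vs => y.Min v ∧ v ∉ W ∧ Ind (ncl y.G W v) vs

/-- the span of `vs` over `W` -/
def Sp (W : Subgroup U) (vs : List U) : Subgroup U := vs.foldl (ncl y.G) W

/-- `vs` is a list of summands of the layer -/
def Sm (vs : List U) : Prop := y.Ind y.O vs ∧ y.Sp y.O vs = y.L

/-- the pairs over the isomorphism `a` of the quotients -/
def Pr (a : FP U) : Set (U × U) := {q | q.1 ∈ y.G ∧ q.2 ∈ y'.G ∧ y'.π q.2 = a.app (y.π q.1)}

/-- `V` is the graph of an isomorphism between parts of the layers -/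
structure Gr (a : FP U) (V : Subgroup (U × U)) : Prop where
  le : V ≤ y.L.prod y'.L
  ge : y.O.prod y'.O ≤ V
  ker : ∀ p ∈ V, p.1 ∈ y.O ↔ p.2 ∈ y'.O
  nm : ∀ q ∈ Pr y y' a, ∀ p ∈ V, q * p * q⁻¹ ∈ V

/-- `V` is the graph of an isomorphism between the layers -/
structure Full (a : FP U) (V : Subgroup (U × U)) : Prop where
  gr : Gr y y' a V
  fst : ∀ x ∈ y.L, ∃ p ∈ V, p.1 = x
  snd : ∀ x ∈ y'.L, ∃ p ∈ V, p.2 = x
end Ly

section ly
variable {y y' : Ly U} {a : FP U} {G F Q : Subgroup U} {π : U → U}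

theorem Qt.one (h : Qt G F Q π) : π 1 = 1 := by simpa using h.mul 1 G.one_mem 1 G.one_mem
theorem Qt.inv (h : Qt G F Q π) {x : U} (hx : x ∈ G) : π x⁻¹ = (π x)⁻¹ :=
  eq_inv_of_mul_eq_one_left (by rw [← h.mul _ (G.inv_mem hx) _ hx, inv_mul_cancel, h.one])
theorem Qt.eq_iff (h : Qt G F Q π) {x y : U} (hx : x ∈ G) (hy : y ∈ G) : π x = π y ↔ Cg F x y := by
  rw [Cg, ← h.ker _ (mul_mem (inv_mem hx) hy), h.mul _ (inv_mem hx) _ hy, h.inv hx, inv_mul_eq_one]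

theorem Ly.Ok.LG (h : y.Ok) : y.L ≤ y.G := h.LF.trans h.FG

theorem Ly.Sp_le {W X : Subgroup U} {vs : List U} :
    y.Sp W vs ≤ X ↔ W ≤ X ∧ ∀ v ∈ vs, ∀ g ∈ y.G, g * v * g⁻¹ ∈ X := by
  induction vs generalizing W with
  | nil => simp [Ly.Sp]
  | cons v vs ih =>
    rw [Ly.Sp, List.foldl_cons, ← Ly.Sp, ih, ncl_le, List.forall_mem_cons, and_assoc]; rfl

theorem Ly.nm_Sp {W : Subgroup U} (h : Nm y.G W) (vs : List U) : Nm y.G (y.Sp W vs) := by
  induction vs generalizing W with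
  | nil => exact h
  | cons v vs ih => exact ih (nm_ncl h)

theorem Ly.ind_append {W : Subgroup U} {vs ws : List U} :
    y.Ind W (vs ++ ws) ↔ y.Ind W vs ∧ y.Ind (y.Sp W vs) ws := by
  induction vs generalizing W with
  | nil => simp [Ly.Ind, Ly.Sp]
  | cons v vs ih => simp only [List.cons_append, Ly.Ind, ih, and_assoc]; rfl

theorem Ly.Ind.min {W : Subgroup U} {vs : List U} (h : y.Ind W vs) : ∀ v ∈ vs, y.Min v := by
  induction vs generalizing W with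
  | nil => simp
  | cons v vs ih => exact List.forall_mem_cons.2 ⟨h.1, ih h.2.2⟩

/-- the pairs over an isomorphism form a group -/
def Ly.PrS (h : y.Ok) (h' : y'.Ok) (ha : IsoP y.Q y'.Q a) : Subgroup (U × U) where
  carrier := y.Pr y' a
  one_mem' := ⟨one_mem _, one_mem _, by simp [h.qt.one, h'.qt.one, ha.hm.one]⟩
  mul_mem' {p q} hp hq := ⟨mul_mem hp.1 hq.1, mul_mem hp.2.1 hq.2.1, by
    rw [Prod.fst_mul, Prod.snd_mul, h'.qt.mul _ hp.2.1 _ hq.2.1, h.qt.mul _ hp.1 _ hq.1,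
      ha.hm _ (h.qt.maps _ hp.1) _ (h.qt.maps _ hq.1), hp.2.2, hq.2.2]⟩
  inv_mem' {p} hp := ⟨inv_mem hp.1, inv_mem hp.2.1, by
    rw [Prod.fst_inv, Prod.snd_inv, h'.qt.inv hp.2.1, h.qt.inv hp.1,
      ha.hm.inv (h.qt.maps _ hp.1), hp.2.2]⟩

theorem Ly.pr_right (h : y.Ok) (h' : y'.Ok) (ha : IsoP y.Q y'.Q a) {g : U} (hg : g ∈ y.G) :
    ∃ g', (g, g') ∈ y.Pr y' a :=
  (h'.qt.onto _ ((ha.maps _).2 (h.qt.maps g hg))).imp fun _ e => ⟨hg, e.1, e.2⟩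

theorem Ly.pr_left (h : y.Ok) (h' : y'.Ok) (ha : IsoP y.Q y'.Q a) {g' : U} (hg : g' ∈ y'.G) :
    ∃ g, (g, g') ∈ y.Pr y' a :=
  (h.qt.onto _ ((ha.inv.maps _).2 (h'.qt.maps g' hg))).imp fun _ e =>
    ⟨e.1, hg, by rw [e.2, FP.app_app_inv]⟩

/-- only the kernel condition has to be tested -/
theorem Ly.gr_ncl (h : y.Ok) (h' : y'.Ok) (ha : IsoP y.Q y'.Q a) {V : Subgroup (U × U)}
    {p : U × U} (le : V ≤ y.L.prod y'.L) (ge : y.O.prod y'.O ≤ V)
    (nm : ∀ q ∈ y.Pr y' a, ∀ p ∈ V, q * p * q⁻¹ ∈ V) (hp : p ∈ y.L.prod y'.L) :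
    ncl (y.Pr y' a) V p ≤ y.L.prod y'.L ∧ y.O.prod y'.O ≤ ncl (y.Pr y' a) V p ∧
      (∀ q ∈ y.Pr y' a, ∀ x ∈ ncl (y.Pr y' a) V p, q * x * q⁻¹ ∈ ncl (y.Pr y' a) V p) ∧
      p ∈ ncl (y.Pr y' a) V p :=
  ⟨ncl_le.2 ⟨le, fun _ hq => ⟨h.nL _ hq.1 _ hp.1, h'.nL _ hq.2.1 _ hp.2⟩⟩, ge.trans le_ncl,
    nm_ncl (G := Ly.PrS h h' ha) nm, self_mem_ncl (G := Ly.PrS h h' ha)⟩

theorem Ly.nm_bot (h : y.Ok) (h' : y'.Ok) :
    ∀ q ∈ y.Pr y' a, ∀ p ∈ y.O.prod y'.O, q * p * q⁻¹ ∈ y.O.prod y'.O :=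
  fun _ hq _ hp => ⟨h.nO _ hq.1 _ hp.1, h'.nO _ hq.2.1 _ hp.2⟩
end ly

/-- types of summands -/
def Ty (U : Type) : Type := Set (Set (List U))

instance {U : Type} : MulAction (FP U) (Ty U) where
  smul a T := (fun A : Set (List U) => List.map a.app '' A) '' T
  one_smul (T : Set (Set (List U))) :=
    show (fun A : Set (List U) => List.map id '' A) '' T = T by simp
  mul_smul a b (T : Set (Set (List U))) :=
    show (fun A : Set (List U) => List.map (a.app ∘ b.app) '' A) '' T =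
      (fun A : Set (List U) => List.map a.app '' A) '' ((fun A => List.map b.app '' A) '' T) by
    simp [Set.image_image]

theorem Ty.smul_def {U : Type} (a : FP U) (T : Ty U) :
    a • T = (fun A : Set (List U) => List.map a.app '' A) '' T := rfl

/-- the type of the summand generated by `v` -/
def Ly.ty (y : Ly U) (v : U) : Ty U := {A | ∃ u ∈ ncl y.G y.O v, u ∉ y.O ∧ A = y.Ann u}

/-- the layer number `j` -/
def lyr (O : ℕ → Subgroup U) (Q : Subgroup U) (π : U → U) (j : ℕ) : Ly U :=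
  ⟨O 0, O 1, Q, π, O (j + 1), O j⟩

theorem Ser.ok {G Q : Subgroup U} {O : ℕ → Subgroup U} {r : ℕ} {p : ℕ → ℕ} {π : U → U}
    (h : Ser G O r p) (hq : Qt G (O 1) Q π) {j : ℕ} (hj : 1 ≤ j) : (lyr O Q π j).Ok := by
  obtain rfl := h.zero
  exact ⟨h.fin, hq, h.anti j, h.le hj, h.anti 0, h.nml _, h.nml _, h.cen j hj, h.ss j hj⟩

/-- a system of graphs, one for each layer -/
structure Gs (O O' : ℕ → Subgroup U) (V : ℕ → Subgroup (U × U)) : Prop where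
  le : ∀ j, V j ≤ (O j).prod (O' j)
  ge : ∀ j, (O (j + 1)).prod (O' (j + 1)) ≤ V j
  ker : ∀ j, ∀ p ∈ V j, p.1 ∈ O (j + 1) ↔ p.2 ∈ O' (j + 1)
  snd : ∀ j, ∀ x ∈ O' j, ∃ p ∈ V j, p.2 = x
  nm : ∀ j, Nm (V 0) (V j)

/-! ### the certificate -/

/-- `X` is stable under `A` -/
def Inv (A : Subgroup (FP U)) (X : Subgroup U) : Prop := ∀ s ∈ A, ∀ x ∈ X, s.app x ∈ X

/-- a solvable normal subgroup `R` and small subgroups over it that control `G / R` -/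
structure RD (G R : Subgroup U) (TT : List (Subgroup U)) (d n : ℕ) (A : Subgroup (FP U)) :
    Prop where
  le : R ≤ G
  nml : Nm G R
  solv : SolvMod R ⊥
  sub : ∀ T ∈ TT, T ≤ G ∧ ∃ l : List U, l.length ≤ d ∧ T = R ⊔ gen l
  inv : Inv A R
  aut : ∀ s ∈ A, ∀ T ∈ TT, ∃ T' ∈ TT, Mp s T T'
  faith : ∀ g ∈ G, (∀ T ∈ TT, ∀ t ∈ T, ⁅g, t⁆ ∈ R) → g ∈ R
  len : 2 ^ TT.length ≤ n

structure ZA (F R Z A : Subgroup U) (H : Subgroup (FP U)) : Prop where
  FZ : F ≤ Z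
  le : Z ≤ A
  AR : A ≤ R
  iZ : Inv H Z
  iA : Inv H A
  zz : ⁅Z, Z⁆ ≤ F
  az : ⁅A, Z⁆ ≤ F
  aa : ⁅A, A⁆ ≤ Z
  mZ : ∀ X, Z ≤ X → X ≤ R → Inv H X → ⁅X, X⁆ ≤ F → X ≤ Z
  mA : ∀ X, A ≤ X → X ≤ R → Inv H X → ⁅X, Z⁆ ≤ F → ⁅X, X⁆ ≤ Z → X ≤ A

/-- the centraliser of `X` modulo `O` -/
def cenM (O : Subgroup U) (X : Set U) : Subgroup U where
  carrier := {z | z ∈ Subgroup.normalizer (O : Set U) ∧ ∀ v ∈ X, ⁅z, v⁆ ∈ O}
  one_mem' := ⟨one_mem _, fun v _ => by simp⟩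
  mul_mem' {a b} ha hb := ⟨mul_mem ha.1 hb.1, fun v hv => by
    have := O.mul_mem ((ha.1 _).1 (hb.2 v hv)) (ha.2 v hv)
    simpa [commutatorElement_def, mul_assoc] using this⟩
  inv_mem' {a} ha := ⟨inv_mem ha.1, fun v hv => (ha.1 _).2 (by
    simpa [commutatorElement_def, mul_assoc] using O.inv_mem (ha.2 v hv))⟩

/-- good vectors of the layer `L / O` -/
def Gd (O L Z : Subgroup U) (v : U) : Prop :=
  v ∈ L ∧ v ∉ O ∧ ∀ z ∈ Z, ⁅z, v⁆ ∈ O ∨ ∃ w ∈ L, Cg O v ⁅z, w⁆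

abbrev T3 (U : Type) [Group U] : Type := Subgroup U × Subgroup U × Subgroup U

/-- the subgroups `B` -/
def BB (O : ℕ → Subgroup U) (Z : Subgroup U) : Set (Subgroup U) :=
  {B | ∃ j, 1 ≤ j ∧ ∃ v, Gd (O (j + 1)) (O j) Z v ∧ B = Z ⊓ cenM (O (j + 1)) {v}}

/-- the atoms of the certificate -/
def Atm (O : ℕ → Subgroup U) (R : Subgroup U) (TT : List (Subgroup U)) (Z A : Subgroup U) :
    Set (T3 U) :=
  {t | (∃ T ∈ TT, t = (T, R, R)) ∨ ∃ B ∈ BB O Z, t = (A, A ⊓ cenM B A, B)}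

/-- an atom as a point -/
def pt3 (t : T3 U) : Set U × Set U × Set U := (t.1, t.2.1, t.2.2)

/-- the kernel of an atom -/
def KA (t : T3 U) : Subgroup (FP U) := MulAction.stabilizer (FP U) (pt3 t) ⊓ Fx t.1 t.2.1

/-- the standing hypotheses for the certificate -/
structure CX (G : Subgroup U) (O : ℕ → Subgroup U) (r : ℕ) (p : ℕ → ℕ) (R : Subgroup U)
    (TT : List (Subgroup U)) (Z A : Subgroup U) (d n : ℕ) : Prop where
  ser : Ser G O r p
  card : Nat.card G < n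
  rd : RD G R TT d n (TG O)
  za : ZA (O 1) R Z A (TG O)

/-- `cf` computes certificates for all subgroups of `T₁` -/
def Cert (O : ℕ → Subgroup U) (c b : ℕ) (cf : List (FP U) → Fo U) : Prop :=
  ∀ S, gen S ≤ TG O → TK 3 c (gen S) (toRec (cf S)) ∧
    SolvMod (gen S ⊓ topI (toRec (cf S))) (Fx (O 0) (O 1)) ∧ (cf S).length ≤ b

/-! ### groups without abelian normal subgroups -/

/-- the socle -/
def Soc (D : Subgroup U) : Subgroup U := Subgroup.closure {g | MinO D ⊥ g}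

/-- the minimal normal subgroups of the socle -/
def IsAt (D T : Subgroup U) : Prop := ∃ g, MinO (Soc D) ⊥ g ∧ T = ncl (Soc D) ⊥ g

/-- the properties of the list `T 0, …, T (t - 1)` of atoms of `D` -/
structure At (D : Subgroup U) (T : ℕ → Subgroup U) (t d : ℕ) : Prop where
  fin : Finite D
  le : ∀ i < t, T i ≤ D
  ne : ∀ i < t, T i ≠ ⊥
  dis : ∀ i < t, ∀ k < t, i ≠ k → T i ⊓ T k = ⊥
  faith : ∀ g ∈ D, (∀ i < t, ∀ x ∈ T i, g * x = x * g) → g = 1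
  aut : ∀ s, IsoP D D s → ∀ i < t, ∃ k < t, Mp s (T i) (T k)
  len : 2 ^ t ≤ Nat.card D
  gen : ∀ i < t, ∃ l : List U, l.length ≤ d ∧ T i = gen l

/-- the union of the atoms -/
def Om (T : ℕ → Subgroup U) (t : ℕ) : Set U := {x | ∃ i < t, x ∈ T i}

/-- the permutations that map atoms isomorphically onto atoms -/
def GG (T : ℕ → Subgroup U) (t : ℕ) : Subgroup (FP U) where
  carrier := {s | s ∈ Sup (Om T t) ∧ (∀ i < t, ∃ k < t, IsoP (T i) (T k) s) ∧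
    ∀ k < t, ∃ i < t, IsoP (T i) (T k) s}
  one_mem' := ⟨one_mem _, fun i hi => ⟨i, hi, .refl _⟩, fun i hi => ⟨i, hi, .refl _⟩⟩
  mul_mem' ha hb := ⟨mul_mem ha.1 hb.1, fun i hi => by
    obtain ⟨k, hk, h1⟩ := hb.2.1 i hi
    obtain ⟨m, hm, h2⟩ := ha.2.1 k hk
    exact ⟨m, hm, h2.mul h1⟩, fun i hi => by
    obtain ⟨k, hk, h1⟩ := ha.2.2 i hi
    obtain ⟨m, hm, h2⟩ := hb.2.2 k hk
    exact ⟨m, hm, h1.mul h2⟩⟩
  inv_mem' ha := ⟨inv_mem ha.1, fun i hi => (ha.2.2 i hi).imp fun _ h => ⟨h.1, h.2.inv⟩,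
    fun i hi => (ha.2.1 i hi).imp fun _ h => ⟨h.1, h.2.inv⟩⟩

/-- sets of group elements under conjugation -/
def Cn (Γ : Type) : Type := Set Γ

instance {Γ : Type} [Group Γ] : MulAction Γ (Cn Γ) where
  smul s E := {y | s⁻¹ * y * s ∈ (show Set Γ from E)}
  one_smul E := Set.ext fun y => by
    change 1⁻¹ * y * 1 ∈ (show Set Γ from E) ↔ _
    rw [inv_one, one_mul, mul_one]
  mul_smul a b E := Set.ext fun y => by
    change (a * b)⁻¹ * y * (a * b) ∈ (show Set Γ from E) ↔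
      b⁻¹ * (a⁻¹ * y * a) * b ∈ (show Set Γ from E)
    simp only [mul_inv_rev, mul_assoc]

/-- conjugation by `s` maps `E` onto `E'` -/
def Cj {Γ : Type} [Group Γ] (s : Γ) (E E' : Set Γ) : Prop := ∀ y, s * y * s⁻¹ ∈ E' ↔ y ∈ E

theorem Cn.smul_eq {Γ : Type} [Group Γ] {s : Γ} {E E' : Cn Γ} : s • E = E' ↔ Cj s E E' :=
  ⟨fun e y => by
    rw [← e]
    change s⁻¹ * (s * y * s⁻¹) * s ∈ (show Set Γ from E) ↔ _
    simp only [mul_assoc, inv_mul_cancel, mul_one, inv_mul_cancel_left], fun h => Set.ext fun y => by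
    have := h (s⁻¹ * y * s)
    simp only [mul_assoc, mul_inv_cancel, mul_one, mul_inv_cancel_left] at this
    rw [← mul_assoc] at this
    exact this.symm⟩

/-- the elements of `Y` that fix the atoms outside `y` pointwise -/
def YD (T : ℕ → Subgroup U) (t : ℕ) (Y : Subgroup (FP U)) (y : List ℕ) : Subgroup (FP U) :=
  Y ⊓ Fix {x | ∃ i < t, i ∉ y ∧ x ∈ T i}

/-- the restriction of `y` to `X` -/
def Res {Ω : Type} (y : FP Ω) (X : Set Ω) : Set (Ω × Ω) := {p | p.1 ∈ X ∧ y.app p.1 = p.2}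

/-- an atom together with the elements of `Y` that map the atom `a` to it -/
def zp (T : ℕ → Subgroup U) (Y : Subgroup (FP U)) (a e : ℕ) : Set U × Cn (FP U) :=
  (T e, {y | y ∈ Y ∧ Mp y (T a) (T e)})

/-- the sets of the outer dynamic program -/
def oT (T : ℕ → Subgroup U) (t : ℕ) (Y Y' : Subgroup (FP U)) (k : ℕ) (y : List ℕ) : Set (FP U) :=
  {s | s ∈ PTr (FP U) ((List.range k).map fun i => (T i : Set U)) (y.map fun i => (T i : Set U)) ∧
    Cj s (YD T t Y (List.range k)) (YD T t Y' y)}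

/-- the groups of the outer dynamic program -/
def oSt (T : ℕ → Subgroup U) (t : ℕ) (Y : Subgroup (FP U)) (k : ℕ) : Subgroup (FP U) :=
  PSt (FP U) ((List.range k).map fun i => (T i : Set U)) ⊓
    Subgroup.normalizer (YD T t Y (List.range k) : Set (FP U))

end

end Pool.Agent.P.MP_f1a348_lc.AL
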