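import Pool.Agent.P.MP_f1a348_lc.AL.Prog

/-!
Project AL: the exact statements of all steps.
-/

namespace Pool.Agent.P.MP_f1a348_lc.AL

open Pool.Agent.P.MP_f1a348_lc.GI hiding Nm Good
open Pool.Agent.P.MP_f1a348_lc.UP (Rec up topI SolvMod Nm der)
open Pool.Agent.P.MP_f1a348_lc.FA (Cls Sub MaxN)
open Pool.Agent.Lib.Helper47
open scoped commutatorElement Pointwise
open MulAction (stabilizer)

/-! ### solvers -/

def S_SEQ2 : Prop :=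
  ∀ (Ω : Type) (c : Cx Ω) (f g : Sv Ω) (A St St' : Subgroup (FP Ω)) (X T T' : Set (FP Ω)),
    Cl A X → Rc A X St T → Good c f A X St T → Good c g (A ⊓ St) (X ∩ T) St' T' →
    Good c (seq2 f g) A X (St ⊓ St') (T ∩ T')

def S_SEQ : Prop :=
  ∀ (Ω τ : Type) [DecidableEq Ω] (c : Cx Ω) (f : τ → Sv Ω) (ts : List τ) (A : Subgroup (FP Ω))
    (X : Set (FP Ω)) (St : τ → Subgroup (FP Ω)) (T : τ → Set (FP Ω)), COk c → Cl A X →
    (∀ t ∈ ts, Rc A X (St t) (T t) ∧ Good c (f t) A X (St t) (T t)) →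
    Good c (seq c f ts) A X (⨅ t ∈ ts, St t) {g | ∀ t ∈ ts, g ∈ T t}

def S_UNI : Prop :=
  ∀ (Ω τ : Type) (c : Cx Ω) (f : τ → Sv Ω) (E E' : List τ) (A St0 St : Subgroup (FP Ω))
    (X T' : Set (FP Ω)) (T : τ → Set (FP Ω)), Cl A X →
    (∀ e ∈ E, Rc A A St0 (T e) ∧ Good c (f e) A A St0 (T e)) →
    (∀ e ∈ E', Good c (f e) A X St0 (T e)) → A ⊓ St0 ≤ St →
    (∀ u ∈ A, u ∈ St ↔ ∃ e ∈ E, u ∈ T e) → (∀ g ∈ X, g ∈ T' ↔ ∃ e ∈ E', g ∈ T e) →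
    Good c (uni f E E') A X St T'

def S_COVER : Prop :=
  ∀ (Ω : Type) [DecidableEq Ω] (c : Cx Ω) (m : FP Ω → Bool) (f0 f : Sv Ω)
    (A Q St : Subgroup (FP Ω)) (X T : Set (FP Ω)), COk c →
    (∀ u ∈ W c ⊓ A, m u = true ↔ u ∈ Q) → Q.relIndex (W c ⊓ A) ≤ c.1.length → Cl A X →
    Good c f0 (A ⊓ Q) A St St → Good c f (A ⊓ Q) X St T → Good c (cover c m f0 f) A X St T

def S_DP : Prop :=
  ∀ (Ω : Type) [DecidableEq Ω] (c : Cx Ω) (o0 o : ℕ → List ℕ → ℕ → Sv Ω) (r r' : ℕ)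
    (A : Subgroup (FP Ω)) (X : Set (FP Ω)) (St : ℕ → Subgroup (FP Ω))
    (T0 T : ℕ → List ℕ → Set (FP Ω)), COk c → 2 ^ r ≤ c.1.length → 2 ^ r' ≤ c.1.length → Cl A X →
    (∀ k ≤ r, ∀ u ∈ A, u ∈ St k ↔ u ∈ T0 k (List.range k)) →
    (∀ u ∈ A, ∀ y, u ∈ T0 0 y ↔ y = []) → (∀ g ∈ X, ∀ y, g ∈ T 0 y ↔ y = []) →
    (∀ k y, Rc A A (St k) (T0 k y) ∧ Rc A X (St k) (T k y)) →
    (∀ k < r, ∀ y, y.Sublist (List.range r) →
      (∀ g ∈ A, g ∈ T0 (k + 1) y → ∃ b ∈ y, g ∈ T0 k (del y b)) ∧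
      ∀ b ∈ y, Good c (o0 k y b) (A ⊓ St k) (A ∩ T0 k (del y b)) (St (k + 1)) (T0 (k + 1) y)) →
    (∀ k < r, ∀ y, y.Sublist (List.range r') →
      (∀ g ∈ X, g ∈ T (k + 1) y → ∃ b ∈ y, g ∈ T k (del y b)) ∧
      ∀ b ∈ y, Good c (o k y b) (A ⊓ St k) (X ∩ T k (del y b)) (St (k + 1)) (T (k + 1) y)) →
    Good c (dp c o0 o (List.range r) (List.range r')) A X (St r) (T r (List.range r'))

def S_MSET : Prop :=
  ∀ (Ω Ξ : Type) [DecidableEq Ω] [MulAction (FP Ω) Ξ] (c : Cx Ω) (p0 p : ℕ → ℕ → Sv Ω) (r r' : ℕ)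
    (y y' : ℕ → Ξ) (A : Subgroup (FP Ω)) (X : Set (FP Ω)), COk c → 2 ^ r ≤ c.1.length →
    2 ^ r' ≤ c.1.length → Cl A X →
    (∀ k < r, ∀ b < r, Good c (p0 k b) A A (stabilizer (FP Ω) (y k)) {g | g • y k = y b}) →
    (∀ k < r, ∀ b < r', Good c (p k b) A X (stabilizer (FP Ω) (y k)) {g | g • y k = y' b}) →
    Good c (mset c p0 p (List.range r) (List.range r')) A X (PSt (FP Ω) ((List.range r).map y))
      (PTr (FP Ω) ((List.range r).map y) ((List.range r').map y'))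

def S_TREE : Prop :=
  ∀ (Ω Ξ : Type) [DecidableEq Ω] [MulAction (FP Ω) Ξ] (c : Cx Ω) (mv : ℕ → ℕ → FP Ω → Bool)
    (kt : ℕ → FP Ω → Bool) (m b c1 : ℕ) (x : ℕ → Ξ) (K : ℕ → Subgroup (FP Ω))
    (H : Subgroup (FP Ω)), COk c → H ≤ W c → 2 ≤ b → b ^ c1 ≤ c.1.length → 2 ^ m ≤ c.1.length →
    4 * m + 1 ≤ c.1.length →
    (∀ s ∈ H, ∀ i < m, ∀ k < m, mv i k s = true ↔ s • x i = x k) →
    (∀ s ∈ H, ∀ i < m, s • x i = x i → (kt i s = true ↔ s ∈ K i)) →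
    (∀ i < m, K i ≤ stabilizer (FP Ω) (x i)) → (∀ s ∈ H, ∀ i < m, ∃ k < m, s • x i = x k) →
    (∀ s ∈ H, ∀ i < m, ∀ k < m, s • x i = x k → ∀ u ∈ H ⊓ K i, s * u * s⁻¹ ∈ K k) →
    (∀ i < m, (K i).relIndex (H ⊓ stabilizer (FP Ω) (x i)) ≤ b ^ c1) →
    ∀ S, gen S ≤ H → TK b (9 * m + c1 + 1) (gen S) (toRec (treeP c mv kt S (List.range m))) ∧
      topI (toRec (treeP c mv kt S (List.range m))) = gen S ⊓ ⨅ i < m, K i ∧
      (treeP c mv kt S (List.range m)).length ≤ 4 * m + 1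

/-! ### the series -/

def S_UPA : Prop :=
  ∀ (U : Type) [Group U] (G M : Subgroup U) (q : ℕ) (g : U), Finite G → M ≤ G → Nm G M →
    g ∈ Op G q → MinO G M g →
    (∀ q', ∀ x ∈ Op G q', ∀ k ∈ ncl G M g, ⁅x, k⁆ ∈ M) ∧ ∀ k ∈ ncl G M g, k ^ q ∈ M

def S_UPB : Prop :=
  ∀ (U : Type) [Group U] (G : Subgroup U) (n : ℕ), Finite G → Nat.card G < n →
    (∀ t, Up G n t ≤ G ∧ Nm G (Up G n t)) ∧ ∀ q, ∀ g ∈ Op G q, g ∈ Up G n (n * n)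

def S_FIT : Prop :=
  ∀ (U : Type) [Group U] (G K : Subgroup U), Finite G → K ≤ G → Nm G K → Group.IsNilpotent K →
    K ≤ Subgroup.closure {g | ∃ q, g ∈ Op G q}

def S_SER : Prop :=
  ∀ (U : Type) [Group U] (G : Subgroup U) (n : ℕ), Finite G → Nat.card G < n →
    Ser G (ser G n) (n * n + 1) (prm n)

def S_SERI : Prop :=
  ∀ (U : Type) [Group U] (G G' : Subgroup U) (n : ℕ) (s : FP U), IsoP G G' s →
    Tri (ser G n) (ser G' n) s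

def S_SERP : Prop :=
  ∀ (U : Type) [Group U] [DecidableEq U] (Y : List U) (G : Subgroup U) (n : ℕ), Rep Y G →
    Y.length < n → SRep (serP (List.range n) Y) (ser G n) ∧
      (serP (List.range n) Y).length = n * n + 2 ∧ (prsP (List.range n)).length = n * n + 1 ∧
      ∀ j < n * n + 1, (prsP (List.range n)).getD j 0 = prm n j

def S_QUO : Prop :=
  ∀ (Y F : List UU) (G f : Subgroup UU), Rep Y G → Rep F f → f ≤ G → Nm G f →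
    Rep (quoP Y F) (gen (quoP Y F)) ∧ Qt G f (gen (quoP Y F)) (ap (tbP Y F))

def S_DOWN : Prop :=
  ∀ (U : Type) [Group U] (G Q : Subgroup U) (O : ℕ → Subgroup U) (r : ℕ) (p : ℕ → ℕ) (π : U → U),
    Ser G O r p → Qt G (O 1) Q π → Nat.card Q ∣ Nat.card G ∧ (NA G → NA Q) ∧
      (¬ NA G → Nat.card Q < Nat.card G) ∧ (∀ d, Cls d G → Cls d Q) ∧
      ∀ j, 1 ≤ j → O j ≤ O (j + 1) ∨ ((p j).Prime ∧ p j ∣ Nat.card G)

/-! ### the top -/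

/-- a layer as a module -/
def S_LAY : Prop :=
  ∀ (U : Type) [Group U] (G O L : Subgroup U), Finite G → O ≤ L → L ≤ G → Nm G O → Nm G L →
    (∀ x ∈ L, ∀ y ∈ L, ⁅x, y⁆ ∈ O) →
    ∃ (V : Type) (_ : AddCommGroup V) (_ : Finite V) (ρ : G →* Module.End ℤ V) (κ : U → V),
      (∀ x ∈ L, ∀ y ∈ L, κ (x * y) = κ x + κ y) ∧ (∀ x ∈ L, κ x = 0 ↔ x ∈ O) ∧
      (∀ v, ∃ x ∈ L, κ x = v) ∧ (∀ g : G, ∀ x ∈ L, κ (g * x * g⁻¹) = ρ g (κ x)) ∧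
      Nat.card V * Nat.card O = Nat.card L

def S_T1 : Prop :=
  ∀ (U : Type) [Group U] (y y' : Ly U) (a : FP U), y.Ok → y'.Ok → IsoP y.Q y'.Q a →
    (∀ V, y.Gr y' a V → ∀ p ∈ V, y.Min p.1 → y'.Min p.2 ∧ a • y.ty p.1 = y'.ty p.2) ∧
    ∀ v v', y.Min v → y'.Min v' → a • y.ty v = y'.ty v' →
      ∃ u ∈ ncl y'.G y'.O v', y.Gr y' a (ncl (y.Pr y' a) (y.O.prod y'.O) (v, u))

def S_T1P : Prop :=
  ∀ (U : Type) [Group U] [DecidableEq U] (l l' : LP U) (y y' : Ly U) (a : FP U), LRep l y →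
    LRep l' y' → y.Ok → y'.Ok → IsoP y.Q y'.Q a →
    (∀ q, q ∈ relP l l' a ↔ q ∈ y.Pr y' a) ∧
    (∀ Vl V p, Rep Vl V → V ≤ y.L.prod y'.L → p ∈ y.L.prod y'.L →
      Rep (grP l l' a Vl p) (ncl (y.Pr y' a) V p)) ∧
    (∀ Vl V, Rep Vl V → (grB l l' Vl = true ↔ ∀ p ∈ V, p.1 ∈ y.O ↔ p.2 ∈ y'.O)) ∧
    ∀ v v', y.Min v → y'.Min v' → (tyB l l' v v' a = true ↔ a • y.ty v = y'.ty v')

def S_T2 : Prop :=
  ∀ (U : Type) [Group U] (y : Ly U) (W : Subgroup U) (v v1 : U), y.Ok → Nm y.G W → y.O ≤ W →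
    y.Min v → y.Min v1 → v ∈ ncl y.G W v1 → v ∉ W → y.ty v = y.ty v1 ∧ v1 ∈ ncl y.G W v

def S_T3 : Prop :=
  ∀ (U : Type) [Group U] (y : Ly U) (W : Subgroup U) (I J : List U), y.Ok → Nm y.G W → y.O ≤ W →
    y.Ind W I → (∀ v ∈ J, y.Min v) → y.Sp W I ≤ y.Sp W J → (I.map y.ty).Subperm (J.map y.ty)

def S_T4 : Prop :=
  ∀ (U : Type) [Group U] (y : Ly U) (v : U) (n : ℕ), y.Ok → y.Min v → Nat.card y.G ≤ n →
    (stabilizer (FP U) (y.ty v)).relIndex (AutG y.Q) ≤ n * n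

def S_T5 : Prop :=
  ∀ (U : Type) [Group U] [DecidableEq U] (l : LP U) (y : Ly U), LRep l y → y.Ok →
    y.Sm (sumP l) ∧ 2 ^ (sumP l).length ≤ Nat.card y.G

def S_PART : Prop :=
  ∀ (U : Type) [Group U] (y y' : Ly U) (a : FP U) (V : Subgroup (U × U)) (ps : List (U × U)),
    y.Ok → y'.Ok → IsoP y.Q y'.Q a → y.Gr y' a V → (∀ p ∈ ps, p ∈ V) →
    y.Ind y.O (ps.map Prod.fst) → y'.Ind y'.O (ps.map Prod.snd) ∧
      ((ps.map Prod.fst).map y.ty).map (a • ·) = (ps.map Prod.snd).map y'.ty ∧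
      (∀ p ∈ V, p.1 ∈ y.Sp y.O (ps.map Prod.fst) ↔ p.2 ∈ y'.Sp y'.O (ps.map Prod.snd)) ∧
      ∀ x ∈ y'.Sp y'.O (ps.map Prod.snd), ∃ p ∈ V, p.2 = x

def S_T6 : Prop :=
  ∀ (U : Type) [Group U] (y y' : Ly U) (a : FP U) (V : Subgroup (U × U)) (vs vs' : List U),
    y.Ok → y'.Ok → IsoP y.Q y'.Q a → y.Full y' a V → y.Sm vs → y'.Sm vs' →
    a ∈ PTr (FP U) (vs.map y.ty) (vs'.map y'.ty)

def S_T7 : Prop :=
  ∀ (U : Type) [Group U] (y y' : Ly U) (a : FP U) (V : Subgroup (U × U)) (vs ws vs' : List U),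
    y.Ok → y'.Ok → IsoP y.Q y'.Q a → y.Sm (vs ++ ws) → y'.Sm vs' →
    a ∈ PTr (FP U) ((vs ++ ws).map y.ty) (vs'.map y'.ty) → y.Gr y' a V →
    (∀ x, (∃ p ∈ V, p.1 = x) ↔ x ∈ y.Sp y.O vs) → (ws = [] → y.Full y' a V) ∧
      ∀ v ws', ws = v :: ws' → ∃ u ∈ y'.L, y.Gr y' a (ncl (y.Pr y' a) V (v, u))

def S_EXT : Prop :=
  ∀ (U : Type) [Group U] [DecidableEq U] (l l' : LP U) (y y' : Ly U) (a : FP U)
    (Vl : List (U × U)) (V : Subgroup (U × U)) (vs ws vs' : List U), LRep l y → LRep l' y' →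
    y.Ok → y'.Ok → IsoP y.Q y'.Q a → y.Sm (vs ++ ws) → y'.Sm vs' →
    a ∈ PTr (FP U) ((vs ++ ws).map y.ty) (vs'.map y'.ty) → y.Gr y' a V → Rep Vl V →
    (∀ x, (∃ p ∈ V, p.1 = x) ↔ x ∈ y.Sp y.O vs) →
    ∃ V', Rep (extP l l' a Vl ws) V' ∧ V ≤ V' ∧ y.Full y' a V'

/-- the graphs and the automorphism of the quotient induced by an element of `T₁` -/
def S_TGR : Prop :=
  ∀ (U : Type) [Group U] (G G' Q Q' : Subgroup U) (O O' : ℕ → Subgroup U) (r r' : ℕ)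
    (p p' : ℕ → ℕ) (π π' : U → U) (s : FP U), Ser G O r p → Ser G' O' r' p' → Qt G (O 1) Q π →
    Qt G' (O' 1) Q' π' → Tri O O' s →
    (∃ a, IsoP Q Q' a) ∧
    (∀ x, IsoP Q Q' x → ∃ u ∈ AutG Q, ∀ g ∈ G, π' (s.app g) = (x * u).app (π g)) ∧
    ∀ a : FP U, (∀ g ∈ G, π' (s.app g) = a.app (π g)) → ∀ j, 1 ≤ j →
      ∃ V, (lyr O Q π j).Full (lyr O' Q' π' j) a V ∧
        ∀ q, q ∈ V ↔ q.1 ∈ O j ∧ q.2 ∈ O' j ∧ Cg (O' (j + 1)) (s.app q.1) q.2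

def S_T8 : Prop :=
  ∀ (U : Type) [Group U] [DecidableEq U] (O O' : ℕ → Subgroup U) (V : ℕ → Subgroup (U × U))
    (Y : List U) (ds : List (List U × List (U × U))), Rep Y (O 0) → Antitone O → Antitone O' →
    (∀ j, ds.length ≤ j → O j = ⊥ ∧ O' j = ⊥) → Gs O O' V →
    (∀ j (h : j < ds.length), Rep ds[j].1 (O (j + 1)) ∧ (∀ q ∈ ds[j].2, q ∈ V j) ∧
      ∀ x ∈ O j, ∃ q ∈ ds[j].2, q.1 = x) →
    Tri O O' (liftP Y ds) ∧ liftP Y ds ∈ Sup ((O 0 : Set U) ∪ O' 0) ∧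
      ∀ j, ∀ x ∈ O j, (x, (liftP Y ds).app x) ∈ V j

def S_TRIB : Prop :=
  ∀ (U : Type) [Group U] [DecidableEq U] (Os : List (List U)) (O : ℕ → Subgroup U) (r : ℕ)
    (g : FP U), SRep Os O → Os.length = r + 1 → (∀ j, r ≤ j → O j = ⊥) →
    (triB Os g = true ↔ Tri O O g)

/-- the types of the summands of the layer number `j` -/
noncomputable def tys {U : Type} [Group U] [DecidableEq U] (s : SP U) (O : ℕ → Subgroup U)
    (Q : Subgroup U) (j : ℕ) : List (Ty U) := (sumP (lyP s j)).map (lyr O Q (ap s.2) j).ty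

def S_A0 : Prop :=
  ∀ (U : Type) [Group U] [DecidableEq U] (pad : List Unit) (s s' : SP U) (Ql Ql' : List U)
    (G G' Q Q' : Subgroup U) (O O' : ℕ → Subgroup U) (r n d : ℕ) (p p' : ℕ → ℕ),
    SX s Ql G Q O r p n → SX s' Ql' G' Q' O' r p' n → Bg n d pad →
    Good (pad, Ql ++ Ql') (a0P (pad, Ql ++ Ql') s s') (AutG Q) {x | IsoP Q Q' x}
      (⨅ j ∈ lays s.1, PSt (FP U) (tys s O Q j))
      {g | ∀ j ∈ lays s.1, g ∈ PTr (FP U) (tys s O Q j) (tys s' O' Q' j)}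

def S_LIFTA : Prop :=
  ∀ (U : Type) [Group U] [DecidableEq U] (s s' : SP U) (Ql Ql' : List U)
    (G G' Q Q' : Subgroup U) (O O' : ℕ → Subgroup U) (r n : ℕ) (p p' : ℕ → ℕ) (a : FP U),
    SX s Ql G Q O r p n → SX s' Ql' G' Q' O' r p' n → IsoP Q Q' a →
    (∀ j ∈ lays s.1, a ∈ PTr (FP U) (tys s O Q j) (tys s' O' Q' j)) →
    Tri O O' (liftA s s' a) ∧ liftA s s' a ∈ Sup ((G : Set U) ∪ G') ∧
      ∀ g ∈ G, ap s'.2 ((liftA s s' a).app g) = a.app (ap s.2 g)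

def S_LIFTB : Prop :=
  ∀ (U : Type) [Group U] [DecidableEq U] (s : SP U) (Ql : List U) (G Q : Subgroup U)
    (O : ℕ → Subgroup U) (r n : ℕ) (p : ℕ → ℕ) (j : ℕ) (Vl : List (U × U))
    (V : Subgroup (U × U)), SX s Ql G Q O r p n → j ∈ lays s.1 → Rep Vl V →
    (lyr O Q (ap s.2) j).Full (lyr O Q (ap s.2) j) 1 V →
    liftB s.1 j Vl ∈ TG O ∧ (∀ i, i ≠ j → liftB s.1 j Vl ∈ Fx (O i) (O (i + 1))) ∧
      ∀ x ∈ O j, (x, (liftB s.1 j Vl).app x) ∈ V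

def S_GENB : Prop :=
  ∀ (U : Type) [Group U] [DecidableEq U] (s : SP U) (Ql : List U) (G Q : Subgroup U)
    (O : ℕ → Subgroup U) (r n : ℕ) (p : ℕ → ℕ) (H : Subgroup (FP U)), SX s Ql G Q O r p n →
    (∀ g ∈ genB s, g ∈ TG O → g ∈ H) → ∀ h ∈ TG O, h ∈ Fx G (O 1) →
    ∃ b ∈ H ⊓ TG O, ∀ j, b⁻¹ * h ∈ Fx (O j) (O (j + 1))

def S_GENC : Prop :=
  ∀ (U : Type) [Group U] [DecidableEq U] (Os : List (List U)) (G : Subgroup U)
    (O : ℕ → Subgroup U) (r : ℕ) (p : ℕ → ℕ) (H : Subgroup (FP U)), Ser G O r p → SRep Os O →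
    Os.length = r + 1 → (∀ g ∈ genC Os, g ∈ TG O → g ∈ H) → ∀ h ∈ TG O,
    (∀ j, h ∈ Fx (O j) (O (j + 1))) → h ∈ H

def S_TOP : Prop :=
  ∀ (U : Type) [Group U] [DecidableEq U] (pad : List Unit) (s s' : SP U) (Ql Ql' : List U)
    (G G' Q Q' : Subgroup U) (O O' : ℕ → Subgroup U) (r n d : ℕ) (p p' : ℕ → ℕ) (o : Out U),
    SX s Ql G Q O r p n → SX s' Ql' G' Q' O' r p' n → Bg n d pad → IsoOut Q Q' o →
    gen (topP pad s s' Ql Ql' o).1 = TG O ∧ ((∃ t, Tri O O' t) →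
      Tri O O' (topP pad s s' Ql Ql' o).2 ∧ (topP pad s s' Ql Ql' o).2 ∈ Sup ((G : Set U) ∪ G'))

/-! ### the certificate -/

def S_CJ : Prop :=
  ∀ (U : Type) [Group U] (G : Subgroup U) (O : ℕ → Subgroup U) (r : ℕ) (p : ℕ → ℕ), Ser G O r p →
    (∀ g ∈ G, ∃ s ∈ TG O, ∀ x ∈ G, s.app x = g * x * g⁻¹) ∧
    (∀ X, X ≤ G → Inv (TG O) X → Nm G X) ∧
    (∀ X X', O 1 ≤ X → X ≤ G → X' ≤ G → Inv (TG O) X → Inv (TG O) X' → Inv (TG O) (X ⊔ X')) ∧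
    (∀ X X', X ≤ G → X' ≤ G → Inv (TG O) X → Inv (TG O) X' → Inv (TG O) (O 1 ⊔ ⁅X, X'⁆)) ∧
    (∀ X X', O 1 ≤ X → X ≤ G → X' ≤ G → Inv (TG O) X → Inv (TG O) X' →
      Inv (TG O) (G ⊓ cenM X X')) ∧
    ∀ s ∈ TG O, ∀ j, ∀ x ∈ G, ∀ y ∈ O j, Cg (O (j + 1)) (s.app y⁻¹) (s.app y)⁻¹ ∧
      Cg (O (j + 1)) (s.app (x * y * x⁻¹)) (s.app x * s.app y * (s.app x)⁻¹) ∧
      Cg (O (j + 1)) (s.app ⁅x, y⁆) ⁅s.app x, s.app y⁆

def S_ICL : Prop :=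
  ∀ (U : Type) [Group U] [DecidableEq U] (Y X : List U) (S : List (FP U)) (G : Subgroup U),
    Rep Y G → Inv (gen S) G → (∀ x ∈ X, x ∈ G) → ∃ Z, Rep (iclP Y S X) Z ∧ (∀ x ∈ X, x ∈ Z) ∧
      Inv (gen S) Z ∧ ∀ Z', (∀ x ∈ X, x ∈ Z') → Inv (gen S) Z' → Z ≤ Z'

def S_ZA : Prop :=
  ∀ (U : Type) [Group U] [DecidableEq U] (Y Fl Rl : List U) (S : List (FP U)) (G F R : Subgroup U),
    Rep Y G → Rep Fl F → Rep Rl R → F ≤ R → R ≤ G → Inv (gen S) G → Inv (gen S) F →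
    Inv (gen S) R →
    ∃ Z A, Rep (zP Y S Fl Rl) Z ∧ Rep (aP Y S Fl Rl (zP Y S Fl Rl)) A ∧ ZA F R Z A (gen S)

def S_C1 : Prop :=
  ∀ (U : Type) [Group U] (G Z : Subgroup U) (O : ℕ → Subgroup U) (r : ℕ) (p : ℕ → ℕ),
    Ser G O r p → Z ≤ G → Nm G Z → ⁅Z, Z⁆ ≤ O 1 → ∀ j, 1 ≤ j → ∀ z ∈ Z, ∀ w ∈ O j,
    ⁅z, ⁅z, w⁆⁆ ∈ O (j + 1) → ⁅z, w⁆ ∈ O (j + 1)

/-- a statement under the standing hypotheses for the certificate -/
def AllCX (P : ∀ (U : Type) [Group U], Subgroup U → (ℕ → Subgroup U) → Subgroup U →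
    List (Subgroup U) → Subgroup U → Subgroup U → ℕ → ℕ → Prop) : Prop :=
  ∀ (U : Type) [Group U] (G : Subgroup U) (O : ℕ → Subgroup U) (r : ℕ) (p : ℕ → ℕ)
    (R : Subgroup U) (TT : List (Subgroup U)) (Z A : Subgroup U) (d n : ℕ),
    CX G O r p R TT Z A d n → P U G O R TT Z A d n

def S_C2A : Prop := AllCX fun _ _ _ O _ _ Z _ _ _ => ∀ z ∈ Z, (∀ B ∈ BB O Z, z ∈ B) → z ∈ O 1

def S_C2B : Prop := AllCX fun U _ _ O _ _ Z _ _ _ => ∀ l : List (Subgroup U), l.Nodup →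
  (∀ B ∈ l, B ∈ BB O Z) → 2 ^ l.length ≤ Nat.card (O 1)

def S_C2C : Prop := AllCX fun _ _ _ O _ _ Z _ _ _ => ∀ B ∈ BB O Z,
  ∃ z0 ∈ Z, ∀ z ∈ Z, ∃ k : ℕ, Cg B (z0 ^ k) z

def S_C3 : Prop := AllCX fun _ _ _ O _ _ Z A _ n => ∀ B ∈ BB O Z,
  (A ⊓ cenM B A).relIndex A ≤ n.size * n.size

def S_CIDX : Prop := AllCX fun U _ _ O R TT Z A d n => ∀ t ∈ Atm O R TT Z A,
  (KA t).relIndex (TG O ⊓ stabilizer (FP U) (pt3 t)) ≤ 3 ^ ((d + 16) * n.size)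

def S_CPERM : Prop := AllCX fun _ _ _ O R TT Z A _ _ => ∀ s ∈ TG O, ∀ t ∈ Atm O R TT Z A,
  (∃ t' ∈ Atm O R TT Z A, s • pt3 t = pt3 t') ∧
    ∀ t', s • pt3 t = pt3 t' → ∀ u ∈ TG O ⊓ KA t, s * u * s⁻¹ ∈ KA t'

def S_CSOLV : Prop := AllCX fun _ _ _ O R TT Z A _ _ =>
  der 3 (TG O ⊓ ⨅ t ∈ Atm O R TT Z A, KA t) ≤ Fx (O 0) (O 1)

def S_ATP : Prop :=
  ∀ (U : Type) [Group U] [DecidableEq U] (G : Subgroup U) (O : ℕ → Subgroup U) (r : ℕ) (p : ℕ → ℕ)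
    (R Z A : Subgroup U) (d n : ℕ) (Os TT : List (List U)) (Rl Zl Al : List U),
    CX G O r p R (TT.map gen) Z A d n → SRep Os O → Os.length = r + 1 → Rep Rl R → Rep Zl Z →
    Rep Al A → (∀ T ∈ TT, Rep T (gen T)) →
    (∀ t ∈ atP Os Rl TT Zl Al, Rep t.1 (gen t.1) ∧ Rep t.2.1 (gen t.2.1) ∧ Rep t.2.2 (gen t.2.2)) ∧
      (∀ t, t ∈ Atm O R (TT.map gen) Z A ↔ t ∈ (atP Os Rl TT Zl Al).map g3) ∧
      (atP Os Rl TT Zl Al).length + 2 ≤ 2 * n.size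

def S_CERT : Prop :=
  ∀ (U : Type) [Group U] [DecidableEq U] (G : Subgroup U) (O : ℕ → Subgroup U) (r : ℕ) (p : ℕ → ℕ)
    (R : Subgroup U) (d n : ℕ) (pad : List Unit) (Os TT : List (List U)) (Rl : List U)
    (S : List (FP U)), Ser G O r p → Nat.card G < n → SRep Os O → Os.length = r + 1 → Rep Rl R →
    (∀ T ∈ TT, Rep T (gen T)) → RD G R (TT.map gen) d n (TG O) → O 1 ≤ R → gen S = TG O →
    Bg n d pad → Cert O ((d + 35) * n.size) (8 * n) (cfP pad (gO Os 0) (atQ Os S Rl TT))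

def S_RDUP : Prop :=
  ∀ (U : Type) [Group U] [DecidableEq U] (G Q : Subgroup U) (O : ℕ → Subgroup U) (r : ℕ)
    (p : ℕ → ℕ) (d n : ℕ) (Y Rl : List U) (tb : List (U × U)) (TT : List (List U)), Ser G O r p →
    Rep Y G → Qt G (O 1) Q (ap tb) → Rep Rl (gen Rl) → (∀ T ∈ TT, Rep T (gen T)) →
    RD Q (gen Rl) (TT.map gen) d n (AutG Q) →
    Rep (preP Y tb Rl) (gen (preP Y tb Rl)) ∧ (∀ T ∈ TT.map (preP Y tb), Rep T (gen T)) ∧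
      O 1 ≤ gen (preP Y tb Rl) ∧
      RD G (gen (preP Y tb Rl)) ((TT.map (preP Y tb)).map gen) d n (TG O)

/-! ### the base -/

def S_AT0 : Prop :=
  ∀ (U : Type) [Group U] (D : Subgroup U), Finite D → NA D →
    (∀ T, IsAt D T → Sub D T ∧ MaxN ⊥ T) ∧
    (∀ T T', IsAt D T → IsAt D T' → T ≠ T' → T ⊓ T' = ⊥) ∧
    (∀ g ∈ D, (∀ T, IsAt D T → ∀ x ∈ T, g * x = x * g) → g = 1) ∧
    ∀ l : List (Subgroup U), l.Nodup → (∀ T ∈ l, IsAt D T) → 2 ^ l.length ≤ Nat.card D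

def S_ATI : Prop :=
  ∀ (U : Type) [Group U] (D D' T : Subgroup U) (s : FP U), IsoP D D' s → IsAt D T →
    ∃ T', IsAt D' T' ∧ Mp s T T'

def S_ATD : Prop :=
  ∀ (U : Type) [Group U] (G G' : Subgroup U) (d : ℕ), (NA G → NA G' → NA (G.prod G')) ∧
    (Cls d G → Cls d G' → ∀ T, Sub (G.prod G') T → MaxN ⊥ T →
      ∃ l : List (U × U), l.length ≤ d ∧ T = gen l)

def S_AT : Prop :=
  ∀ (U : Type) [Group U] [DecidableEq U] (Dl : List U) (D : Subgroup U) (d : ℕ), Rep Dl D → NA D →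
    (∀ T, Sub D T → MaxN ⊥ T → ∃ l : List U, l.length ≤ d ∧ T = gen l) →
    At D (fun i => gen (gO (atomsP Dl) i)) (atomsP Dl).length d ∧ ∀ T ∈ atomsP Dl, Rep T (gen T)

/-- a statement under the standing hypotheses for the base -/
def AllBX (P : ∀ (U : Type) [Group U] [DecidableEq U], Cx U → List (List U) → Subgroup U →
    (ℕ → Subgroup U) → ℕ → ℕ → Prop) : Prop :=
  ∀ (U : Type) [Group U] [DecidableEq U] (c : Cx U) (Ts : List (List U)) (D : Subgroup U)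
    (T : ℕ → Subgroup U) (t d : ℕ), BX c Ts D T t d → P U c Ts D T t d

def S_BB : Prop := AllBX fun U _ _ c _ _ T t _ => (∀ x, x ∈ c.2 ↔ x ∈ Om T t) ∧ GG T t ≤ W c ∧
  2 ^ t ≤ c.1.length ∧
  (∀ a < t, ∀ e < t, (Fix (T a : Set U) ⊓ Fix (T e : Set U)).relIndex (GG T t) ≤ c.1.length) ∧
  (∀ i < t, ∀ k < t, (T i : Set U) = T k → i = k) ∧
  ∀ (Ξ : Type) [MulAction (FP U) Ξ] (f f' : ℕ → Ξ), ∀ s ∈ GG T t,
    (∀ i < t, ∀ k < t, Mp s (T i) (T k) → s • f i = f' k) →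
    s ∈ PTr (FP U) ((List.range t).map f) ((List.range t).map f')

def S_GG : Prop := AllBX fun _ _ _ c Ts _ T t d => ∀ ud : List Unit, ud.length = d →
  gen (ggP c ud Ts) = GG T t

def S_CENT : Prop := AllBX fun _ _ _ c Ts _ T t _ => ∀ y ∈ GG T t, ∀ y' ∈ GG T t,
  Good c (centP c Ts y y') (GG T t) (GG T t) (Subgroup.centralizer {y}) {s | s * y * s⁻¹ = y'}

/-- the data of a call of the oracle -/
structure OX {U : Type} [Group U] (T : ℕ → Subgroup U) (t : ℕ) (Y0l Yl Yl' : List (FP U))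
    (Y Y' : Subgroup (FP U)) (a b : ℕ) : Prop where
  r0 : Rep Y0l (Y ⊓ Fix (T a : Set U))
  r : Rep Yl Y
  r' : Rep Yl' Y'
  le : Y ≤ GG T t
  le' : Y' ≤ GG T t
  a : a < t
  b : b < t

/-- the group of a call of the oracle -/
def oA {U : Type} [Group U] (T : ℕ → Subgroup U) (t : ℕ) (Y : Subgroup (FP U)) (a : ℕ) :
    Subgroup (FP U) :=
  GG T t ⊓ Subgroup.normalizer (Y ⊓ Fix (T a : Set U) : Subgroup (FP U))

/-- the starting points of a call of the oracle -/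
def oX {U : Type} [Group U] (T : ℕ → Subgroup U) (t : ℕ) (Y Y' : Subgroup (FP U)) (a b : ℕ) :
    Set (FP U) :=
  {x | x ∈ GG T t ∧ Cj x (Y ⊓ Fix (T a : Set U) : Subgroup (FP U))
    (Y' ⊓ Fix (T b : Set U) : Subgroup (FP U))}

def S_INN : Prop := AllBX fun U _ _ c Ts _ T t _ => ∀ Y0l Yl Yl' Y Y' a b,
  OX T t Y0l Yl Yl' Y Y' a b → ∀ e < t, ∀ e' < t,
  Good c (innP c Ts Y0l Yl a e Yl' b e') (oA T t Y a ⊓ (Fix (T a : Set U) ⊓ Fix (T e : Set U)))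
    (oX T t Y Y' a b ∩ {x | Mp x (T a) (T b)}) (stabilizer (FP U) (zp T Y a e))
    {s | s • zp T Y a e = zp T Y' b e'}

def S_PTZ : Prop := AllBX fun U _ _ c Ts _ T t _ => ∀ Y0l Yl Yl' Y Y' a b,
  OX T t Y0l Yl Yl' Y Y' a b → ∀ e < t, ∀ e' < t,
  Good c (ptzP c Ts Y0l Yl a Yl' b e e') (oA T t Y a ⊓ stabilizer (FP U) (T a : Set U))
    (oX T t Y Y' a b ∩ {x | Mp x (T a) (T b)}) (stabilizer (FP U) (zp T Y a e))
    {s | s • zp T Y a e = zp T Y' b e'}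

def S_ORCQ : Prop := AllBX fun U _ _ c Ts _ T t _ => ∀ Y0l Yl Yl' Y Y' a b,
  OX T t Y0l Yl Yl' Y Y' a b →
  Good c (orcQ c Ts Y0l Yl a Yl' b) (oA T t Y a) (oX T t Y Y' a b)
    (stabilizer (FP U) (T a : Set U) ⊓ Subgroup.normalizer Y) {s | Mp s (T a) (T b) ∧ Cj s Y Y'}

def S_ORC : Prop := AllBX fun _ _ _ c Ts _ T t _ => ∀ Yl Yl' Y Y', Rep Yl Y → Rep Yl' Y' →
  Y ≤ GG T t → Y' ≤ GG T t → ∀ k < t, ∀ y : List ℕ, y.Sublist (List.range t) →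
  (∀ g ∈ GG T t, g ∈ oT T t Y Y' (k + 1) y → ∃ b ∈ y, g ∈ oT T t Y Y' k (del y b)) ∧
  ∀ b ∈ y, Good c (orcP c Ts Yl Yl' k y b) (GG T t ⊓ oSt T t Y k)
    (GG T t ∩ oT T t Y Y' k (del y b)) (oSt T t Y (k + 1)) (oT T t Y Y' (k + 1) y)

def S_OUT : Prop := AllBX fun _ _ _ c Ts _ T t _ => ∀ Yl Yl' Y Y', Rep Yl Y → Rep Yl' Y' →
  Y ≤ GG T t → Y' ≤ GG T t →
  Good c (outP c Ts Yl Yl') (GG T t) (GG T t) (Subgroup.normalizer Y) {s | Cj s Y Y'}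

def S_CJP : Prop := AllBX fun _ _ _ c _ D T t _ => (∀ g ∈ D, cjP c.2 g ∈ GG T t) ∧
  (∀ g ∈ D, ∀ h ∈ D, cjP c.2 (g * h) = cjP c.2 g * cjP c.2 h) ∧
  (∀ g ∈ D, ∀ h ∈ D, cjP c.2 g = cjP c.2 h → g = h) ∧
  ∀ β, IsoP D D β → ∃ s ∈ GG T t, ∀ g ∈ D, s * cjP c.2 g * s⁻¹ = cjP c.2 (β.app g)

def S_BK : Prop :=
  ∀ (U Γ : Type) [Group U] [DecidableEq U] [Group Γ] [DecidableEq Γ] (Y Y' : List U)
    (G G' : Subgroup U) (φ φ' : U → Γ) (s : Γ), Rep Y G → Rep Y' G' →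
    (∀ x ∈ G, ∀ y ∈ G, φ (x * y) = φ x * φ y) → (∀ x ∈ G', ∀ y ∈ G', φ' (x * y) = φ' x * φ' y) →
    (∀ x ∈ G, ∀ y ∈ G, φ x = φ y → x = y) → (∀ x ∈ G', ∀ y ∈ G', φ' x = φ' y → x = y) →
    Cj s (φ '' G) (φ' '' G') →
    IsoP G G' (bkP (Y.map fun g => (g, φ g)) (Y'.map fun g => (g, φ' g)) s) ∧
      bkP (Y.map fun g => (g, φ g)) (Y'.map fun g => (g, φ' g)) s ∈ Sup ((G : Set U) ∪ G') ∧
      ∀ g ∈ G, φ' ((bkP (Y.map fun g => (g, φ g)) (Y'.map fun g => (g, φ' g)) s).app g) =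
        s * φ g * s⁻¹

def S_BASEQ : Prop :=
  ∀ (U : Type) [Group U] [DecidableEq U] (pad ud : List Unit) (Y Y' : List U) (G G' : Subgroup U)
    (Ts : List (List (U × U))) (T : ℕ → Subgroup (U × U)) (t : ℕ), Rep Y G → Rep Y' G' →
    BX (pad, Ts.flatten) Ts (G.prod G') T t ud.length → IsoOut G G' (baseQ pad ud Y Y' Ts)

def S_BASE : Prop :=
  ∀ (U : Type) [Group U] [DecidableEq U] (pad ud : List Unit) (Y Y' : List U) (G G' : Subgroup U)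
    (n : ℕ), Rep Y G → Rep Y' G' → NA G → NA G' → Cls ud.length G → Cls ud.length G' →
    Y.length < n → Y'.length < n → Bg n ud.length pad → StOk G G' ud.length n (baseP pad ud Y Y')

/-! ### the main loop -/

/-- the stages for the primes with `ok` -/
def S_STAGE (ok : ℕ → Prop) (C : ℕ) (stage : StageTy) : Prop :=
  ∀ (pad uc : List Unit) (Os : List (List UU)) (prs : List ℕ) (cf : List (FP UU) → Fo UU)
    (S : List (FP UU)) (x : FP UU) (G : Subgroup UU) (O : ℕ → Subgroup UU) (r n : ℕ) (p : ℕ → ℕ),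
    Ser G O r p → Nat.card G < n → r = n * n + 1 → SRep Os O → Os.length = r + 1 →
    prs.length = r → (∀ j < r, prs.getD j 0 = p j) → (∀ j, p j ≤ n) → (∀ j, 1 ≤ j → O j ≤ O (j + 1) ∨ ok (p j)) →
    gen S = TG O → Cert O uc.length (8 * n) cf → n ^ C * 3 ^ (C * uc.length) ≤ pad.length →
    (∀ g, g ∈ gen (stage pad uc (List.range n) Os prs cf S x).1 ↔ g ∈ TG O ∧ Hm G g) ∧
      ((∃ g ∈ TG O, Hm G (x * g)) → x⁻¹ * (stage pad uc (List.range n) Os prs cf S x).2 ∈ TG O ∧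
        Hm G (stage pad uc (List.range n) Os prs cf S x).2)

def P_STAGE (stage : StageTy) : Prop :=
  ∀ (α : Type) [Enc α] (pad uc : α → List Unit) (R : α → List ℕ) (Os : α → List (List UU))
    (prs : α → List ℕ) (cf : α → List (FP UU) → Fo UU) (S : α → List (FP UU)) (x : α → FP UU),
    PT pad → PT uc → PT R → PT Os → PT prs → PT (fun q : α × List (FP UU) => cf q.1 q.2) → PT S →
    PT x → PT fun a => stage (pad a) (uc a) (R a) (Os a) (prs a) (cf a) (S a) (x a)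

/-- the inputs -/
structure Inp (ok : ℕ → Prop) (d n : ℕ) (Y : List UU) (G : Subgroup UU) : Prop where
  rep : Rep Y G
  lt : Y.length < n
  cd : Cls d G
  ok : ∀ q, q.Prime → q ∣ Nat.card G → ok q

def S_STEP : Prop :=
  ∀ (ok : ℕ → Prop) (C : ℕ) (stage : StageTy) (pad ud : List Unit) (n : ℕ) (Y Y' : List UU)
    (G G' : Subgroup UU) (st : St UU), S_STAGE ok C stage → Inp ok ud.length n Y G →
    Inp ok ud.length n Y' G' → 2 ≤ n → n ^ ((141 * C + 70) * (ud.length + 1)) ≤ pad.length →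
    StOk (gen (quoQ (List.range n) Y)) (gen (quoQ (List.range n) Y')) ud.length n st →
    StOk G G' ud.length n (stepP stage pad ud (List.range n) st (Y, Y'))

def S_MAIN : Prop :=
  ∀ (ok : ℕ → Prop) (C : ℕ) (stage : StageTy) (pad ud : List Unit) (n : ℕ) (Y Y' : List UU)
    (G G' : Subgroup UU), S_STAGE ok C stage → Inp ok ud.length n Y G → Rep Y' G' →
    n ^ ((141 * C + 70) * (ud.length + 1)) ≤ pad.length →
    (mainP stage pad ud (List.range n) (Y, Y') = true ↔ Nonempty (G ≃* G'))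

/-- solvers in polynomial time -/
def PV {α Ω : Type} [Enc α] [Enc Ω] (f : α → Sv Ω) : Prop :=
  PT fun p : α × List (FP Ω) × FP Ω => f p.1 p.2.1 p.2.2

def P_TOP : Prop :=
  ∀ (U : Type) [Group U] [DecidableEq U] [Enc U] [PG U],
    PT fun a : List Unit × SP U × SP U × List U × List U × Out U =>
      topP a.1 a.2.1 a.2.2.1 a.2.2.2.1 a.2.2.2.2.1 a.2.2.2.2.2

def P_CERT : Prop :=
  ∀ (U : Type) [Group U] [DecidableEq U] [Enc U] [PG U],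
    (PT fun a : List (List U) × List (FP U) × List U × List (List U) =>
      atQ a.1 a.2.1 a.2.2.1 a.2.2.2) ∧
    PT fun a : List Unit × List U × List (L3 U) × List (FP U) => cfP a.1 a.2.1 a.2.2.1 a.2.2.2

def P_BASE : Prop :=
  ∀ (U : Type) [Group U] [DecidableEq U] [Enc U] [PG U],
    PT fun a : List Unit × List Unit × List U × List U => baseP a.1 a.2.1 a.2.2.1 a.2.2.2

def P_MAIN : Prop :=
  ∀ stage : StageTy, P_STAGE stage →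
    PT fun a : List Unit × List Unit × List ℕ × List UU × List UU =>
      mainP stage a.1 a.2.1 a.2.2.1 a.2.2.2

end Pool.Agent.P.MP_f1a348_lc.AL
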