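import Pool.Agent.P.MP_f1a348_lc.AL.Iface

/-!
Project AL: the solvers and the basic tests run in polynomial time.
-/

namespace Pool.Agent.P.MP_f1a348_lc.AL

open Pool.Agent.P.MP_f1a348_lc.GI hiding Nm Good
open Pool.Agent.Lib.Helper47

set_option linter.unusedSectionVars false

section sv
variable {α β τ Ω : Type} [Enc α] [Enc β] [Enc τ] [Enc Ω] [DecidableEq Ω] {c : α → Cx Ω}

theorem PV.app {f : α → Sv Ω} (h : PV f) {g : β → α} {S : β → List (FP Ω)} {x : β → FP Ω}
    (hg : PT g) (hS : PT S) (hx : PT x) : PT fun b => f (g b) (S b) (x b) :=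
  PT.comp (g := fun b => (g b, S b, x b)) h (by fun_prop)

theorem PV.comp {f : α → Sv Ω} (h : PV f) {g : β → α} (hg : PT g) : PV fun b => f (g b) :=
  h.app (by fun_prop) (by fun_prop) (by fun_prop)

theorem pt_app2 {γ δ : Type} [Enc γ] [Enc δ] {m : α → γ → δ} (h : PT fun p : α × γ => m p.1 p.2)
    {g : β → α} {x : β → γ} (hg : PT g) (hx : PT x) : PT fun b => m (g b) (x b) :=
  PT.comp (g := fun b => (g b, x b)) h (by fun_prop)

@[fun_prop] theorem pt_cl {s : α → FP Ω} (hc : PT c) (hs : PT s) : PT fun a => cl (c a) (s a) := by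
  unfold cl; fun_prop

@[fun_prop] theorem pt_red {S : α → List (FP Ω)} (hc : PT c) (hS : PT S) :
    PT fun a => red (c a) (S a) := by
  unfold red; fun_prop

@[fun_prop] theorem pt_clO {o : α → Out Ω} (hc : PT c) (ho : PT o) :
    PT fun a => clO (c a) (o a) := by
  unfold clO; fun_prop

/-- the size of a clipped permutation -/
def b1 (n : ℕ) : ℕ := n * (2 * n + 2) + 1
/-- the size of a clipped list -/
def b2 (n : ℕ) : ℕ := n * (b1 n + 1) + 1
/-- the size of a clipped result -/
def b3 (n : ℕ) : ℕ := b2 n + b1 n + 3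

theorem pb_b1 {s g : α → ℕ} (h : PB s g) : PB s fun a => b1 (g a) :=
  (h.mul (((PB.const 2).mul h).add (PB.const 2))).add (PB.const 1)
theorem pb_b2 {s g : α → ℕ} (h : PB s g) : PB s fun a => b2 (g a) :=
  (h.mul ((pb_b1 h).add (PB.const 1))).add (PB.const 1)
theorem pb_b3 {s g : α → ℕ} (h : PB s g) : PB s fun a => b3 (g a) :=
  ((pb_b2 h).add (pb_b1 h)).add (PB.const 3)

theorem size_cl (c : Cx Ω) (s : FP Ω) : size (cl c s) ≤ b1 (size c) := by
  have h1 := FP.size_le (σ := cl c s) (c := c.2) fun a ha => by_contra fun h => ha (cl_mem c s a h)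
  have h2 : size c.2 ≤ size c := by rw [size_prod c]; omega
  exact h1.trans (Nat.add_le_add_right (Nat.mul_le_mul h2 (by omega)) _)

theorem len_le (c : Cx Ω) : c.1.length ≤ size c := by
  have := length_lt_size c.1
  rw [size_prod c]; omega

theorem size_red (c : Cx Ω) (S : List (FP Ω)) : size (red c S) ≤ b2 (size c) := by
  refine (size_list_le (B := b1 (size c)) fun x hx => ?_).trans ?_
  · obtain ⟨y, -, rfl⟩ := List.mem_map.1 hx
    exact size_cl c y
  · rw [red, List.length_map]
    exact Nat.add_le_add_right (Nat.mul_le_mul_right _ ((sims_length _ _ _).trans (len_le c))) _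

theorem size_clo (c : Cx Ω) (o : Option (FP Ω)) : size (o.map (cl c)) ≤ b1 (size c) + 2 := by
  cases o with
  | none => simp
  | some x => simpa using size_cl c x

theorem size_clO (c : Cx Ω) (o : Out Ω) : size (clO c o) ≤ b3 (size c) := by
  have h1 := size_red c o.1
  have h2 := size_clo c o.2
  rw [clO, size_pair, b3]; omega

theorem pt_sub {m : α → FP Ω → Bool} {S : α → List (FP Ω)} (hc : PT c)
    (hm : PT fun p : α × FP Ω => m p.1 p.2) (hS : PT S) : PT fun a => sub (c a) (m a) (S a) := by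
  have := pt_bfs (PT.fst hc) hm hS
  unfold sub; fun_prop

theorem pv_small {m q : α → FP Ω → Bool} (hc : PT c) (hm : PT fun p : α × FP Ω => m p.1 p.2)
    (hq : PT fun p : α × FP Ω => q p.1 p.2) : PV fun a => small (c a) (m a) (q a) := by
  have h1 : PT fun p : (α × List (FP Ω) × FP Ω) × FP Ω => m p.1.1 p.2 :=
    pt_app2 hm (by fun_prop) (by fun_prop)
  have h2 := pt_bfs (pad := fun p : α × List (FP Ω) × FP Ω => (c p.1).1) (S := fun p => p.2.1)
    (mem := fun p => m p.1)
    (by fun_prop) h1 (by fun_prop)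
  exact PT.prodMk (pt_sub (m := fun p : α × List (FP Ω) × FP Ω => m p.1) (by fun_prop) h1
    (by fun_prop))
    (PT.find? (pt_app2 hq (by fun_prop) (by fun_prop)) (by fun_prop))

theorem pv_seq2 {f g : α → Sv Ω} (hf : PV f) (hg : PV g) : PV fun a => seq2 (f a) (g a) := by
  have h : PT fun p : α × List (FP Ω) × FP Ω => f p.1 p.2.1 p.2.2 := hf
  exact PT.prodMk (PT.fst (hg.app (by fun_prop) (by fun_prop) (by fun_prop)))
    (PT.optBind (by fun_prop) (PT.snd (hg.app (by fun_prop)
      (PT.fst (hf.app (by fun_prop) (by fun_prop) (by fun_prop))) (by fun_prop))))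

theorem pv_seq {f : α → τ → Sv Ω} {E : α → List τ} (hc : PT c)
    (hf : PV fun p : α × τ => f p.1 p.2) (hE : PT E) : PV fun a => seq (c a) (f a) (E a) := by
  refine PT.foldl_inv (f := fun (p : α × List (FP Ω) × FP Ω) s t => seqStep (c p.1) (f p.1) s t)
    ?_ (by fun_prop) (by fun_prop) (fun p s => size s ≤ b3 (size (c p.1)))
    (fun _ => size_clO _ _) (fun _ _ _ _ _ => size_clO _ _) _
    (pb_b3 (PT.size_le (f := fun p : α × List (FP Ω) × FP Ω => c p.1) (by fun_prop)))
    fun _ _ h => h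
  refine pt_clO (by fun_prop) (PT.prodMk (PT.fst ?_) (PT.optBind (by fun_prop) (PT.snd ?_)))
  · exact hf.app (g := fun q : (α × List (FP Ω) × FP Ω) × Out Ω × τ => (q.1.1, q.2.2))
      (by fun_prop) (by fun_prop) (by fun_prop)
  · exact hf.app (g := fun q : ((α × List (FP Ω) × FP Ω) × Out Ω × τ) × FP Ω =>
      (q.1.1.1, q.1.2.2)) (by fun_prop) (by fun_prop) (by fun_prop)

theorem pv_uni {f : α → τ → Sv Ω} {E E' : α → List τ} (hf : PV fun p : α × τ => f p.1 p.2)
    (hE : PT E) (hE' : PT E') : PV fun a => uni (f a) (E a) (E' a) := by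
  have h1 : PT fun q : (α × List (FP Ω) × FP Ω) × τ => f q.1.1 q.2 q.1.2.1 1 :=
    hf.app (g := fun q : (α × List (FP Ω) × FP Ω) × τ => (q.1.1, q.2)) (by fun_prop)
      (by fun_prop) (by fun_prop)
  have h2 : PT fun q : (α × List (FP Ω) × FP Ω) × τ => f q.1.1 q.2 q.1.2.1 q.1.2.2 :=
    hf.app (g := fun q : (α × List (FP Ω) × FP Ω) × τ => (q.1.1, q.2)) (by fun_prop)
      (by fun_prop) (by fun_prop)
  exact PT.prodMk (PT.flatMap (PT.append (PT.fst h1) (PT.toList (PT.snd h1))) (by fun_prop))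
    (PT.head? (PT.filterMap (PT.snd h2) (by fun_prop)))

theorem pv_cover {m : α → FP Ω → Bool} {f0 f : α → Sv Ω} (hc : PT c)
    (hm : PT fun p : α × FP Ω => m p.1 p.2) (h0 : PV f0) (hf : PV f) :
    PV fun a => cover (c a) (m a) (f0 a) (f a) := by
  have h1 : PT fun p : (α × List (FP Ω) × FP Ω) × FP Ω => m p.1.1 p.2 :=
    pt_app2 hm (by fun_prop) (by fun_prop)
  have h2 := pt_bfs (pad := fun p : α × List (FP Ω) × FP Ω => (c p.1).1) (S := fun p => p.2.1)
    (mem := fun p => m p.1)
    (by fun_prop) h1 (by fun_prop)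
  have h3 := pt_sub (c := fun p : α × List (FP Ω) × FP Ω => c p.1) (S := fun p => p.2.1)
    (m := fun p => m p.1)
    (by fun_prop) h1 (by fun_prop)
  have h4 := h3.comp (g := fun p : (α × List (FP Ω) × FP Ω) × FP Ω => p.1) (by fun_prop)
  exact PT.prodMk (PT.append (PT.fst (h0.app (by fun_prop) h3 (by fun_prop)))
    (PT.filterMap (PT.snd (h0.app (by fun_prop) h4 (by fun_prop))) h2))
    (PT.head? (PT.filterMap (PT.snd (hf.app (by fun_prop) h4 (by fun_prop))) h2))

@[fun_prop] theorem pt_del {y : α → List ℕ} {b : α → ℕ} (hy : PT y) (hb : PT b) :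
    PT fun a => del (y a) (b a) := by
  unfold del; fun_prop

@[fun_prop] theorem pt_look {t : α → Tb Ω} {y : α → List ℕ} (ht : PT t) (hy : PT y) :
    PT fun a => look (t a) (y a) := by
  unfold look; fun_prop

section dp
variable {o0 o : α → ℕ → List ℕ → ℕ → Sv Ω}

theorem pt_dpE (ho : PV fun p : α × ℕ × List ℕ × ℕ => o p.1 p.2.1 p.2.2.1 p.2.2.2) {g : β → α}
    {k : β → ℕ} {S : β → List (FP Ω)} {t : β → Tb Ω} {y : β → List ℕ} (hg : PT g) (hk : PT k)
    (hS : PT S) (ht : PT t) (hy : PT y) : PT fun b => dpE (o (g b)) (k b) (S b) (t b) (y b) :=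
  PT.filterMap (PT.optBind (by fun_prop) (PT.snd (ho.app
    (g := fun q : (β × ℕ) × FP Ω => (g q.1.1, k q.1.1, y q.1.1, q.1.2)) (by fun_prop)
    (by fun_prop) (by fun_prop)))) hy

theorem pt_dpRow (ho : PV fun p : α × ℕ × List ℕ × ℕ => o p.1 p.2.1 p.2.2.1 p.2.2.2) {g : β → α}
    {c : β → Cx Ω} {k : β → ℕ} {S : β → List (FP Ω)} {t : β → Tb Ω} {I : β → List ℕ} (hg : PT g)
    (hc : PT c) (hk : PT k) (hS : PT S) (ht : PT t) (hI : PT I) :
    PT fun b => dpRow (c b) (o (g b)) (k b) (S b) (t b) (I b) :=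
  PT.map (PT.prodMk (by fun_prop) (PT.optMap (PT.head? (pt_dpE ho (by fun_prop) (by fun_prop)
    (by fun_prop) (by fun_prop) (by fun_prop))) (by fun_prop))) (by fun_prop)

theorem subl_sublist {γ : Type} {pad : List Unit} {l s : List γ} (h : s ∈ subl pad l) :
    s.Sublist l := by
  obtain ⟨m, -, rfl⟩ := List.mem_map.1 h
  clear h
  refine (List.filter_sublist.map _).trans ?_
  induction l generalizing m with
  | nil => simp
  | cons a l ih => cases m <;> simp [ih]

theorem size_dpRow (c : Cx Ω) (o : ℕ → List ℕ → ℕ → Sv Ω) (k : ℕ) (S : List (FP Ω)) (t : Tb Ω)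
    (I : List ℕ) : size (dpRow c o k S t I) ≤ (size c + 1) * (size I + b1 (size c) + 4) + 1 := by
  refine (size_list_le (B := size I + b1 (size c) + 3) fun x hx => ?_).trans ?_
  · obtain ⟨y, hy, rfl⟩ := List.mem_map.1 hx
    have h1 := size_sublist (subl_sublist hy)
    have h2 := size_clo c (dpE o k S t y).head?
    rw [size_pair]; omega
  · rw [dpRow, List.length_map, subl, List.length_map]
    exact Nat.add_le_add_right (Nat.mul_le_mul_right _
      ((length_tuples_le_pad _ _ _).trans (Nat.succ_le_succ (len_le c)))) _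

theorem pv_dp {I I' : α → List ℕ} (hc : PT c)
    (h0 : PV fun p : α × ℕ × List ℕ × ℕ => o0 p.1 p.2.1 p.2.2.1 p.2.2.2)
    (ho : PV fun p : α × ℕ × List ℕ × ℕ => o p.1 p.2.1 p.2.2.1 p.2.2.2) (hI : PT I) (hI' : PT I') :
    PV fun a => dp (c a) (o0 a) (o a) (I a) (I' a) := by
  have s1 := PT.size_le (f := fun p : α × List (FP Ω) × FP Ω => c p.1) (by fun_prop)
  have s2 := PT.size_le (f := fun p : α × List (FP Ω) × FP Ω => I p.1) (by fun_prop)
  have s3 := PT.size_le (f := fun p : α × List (FP Ω) × FP Ω => I' p.1) (by fun_prop)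
  have key : PT fun p : α × List (FP Ω) × FP Ω =>
      dpRun (c p.1) (o0 p.1) (o p.1) (I p.1) (I' p.1) p.2.1 p.2.2 := by
    refine PT.foldl_inv (f := fun (p : α × List (FP Ω) × FP Ω) s k =>
      dpStep (c p.1) (o0 p.1) (o p.1) (I p.1) (I' p.1) s k) ?_ (by fun_prop) (by fun_prop)
      (fun p s => size s ≤ b2 (size (c p.1)) +
        ((size (c p.1) + 1) * (size (I p.1) + b1 (size (c p.1)) + 4) + 1) +
        ((size (c p.1) + 1) * (size (I' p.1) + b1 (size (c p.1)) + 4) + 1) + 8)
      (fun p => ?_) (fun p s k _ _ => ?_) _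
      ((((pb_b2 s1).add (((s1.add (PB.const 1)).mul ((s2.add (pb_b1 s1)).add (PB.const 4))).add
        (PB.const 1))).add (((s1.add (PB.const 1)).mul ((s3.add (pb_b1 s1)).add
        (PB.const 4))).add (PB.const 1))).add (PB.const 8)) fun _ _ h => h
    · refine PT.prodMk (pt_red (by fun_prop) (PT.append (PT.fst ?_) ?_)) (PT.prodMk ?_ ?_)
      · exact h0.app (g := fun q : (α × List (FP Ω) × FP Ω) × (List (FP Ω) × Tb Ω × Tb Ω) × ℕ =>
          (q.1.1, q.2.2, (I q.1.1).take (q.2.2 + 1), q.2.2)) (by fun_prop) (by fun_prop)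
          (by fun_prop)
      · exact pt_dpE h0 (by fun_prop) (by fun_prop) (by fun_prop) (by fun_prop) (by fun_prop)
      · exact pt_dpRow h0 (by fun_prop) (by fun_prop) (by fun_prop) (by fun_prop) (by fun_prop)
          (by fun_prop)
      · exact pt_dpRow ho (by fun_prop) (by fun_prop) (by fun_prop) (by fun_prop) (by fun_prop)
          (by fun_prop)
    · have h1 := size_red (c p.1) p.2.1
      have h2 := size_cl (c p.1) p.2.2
      have h3 := size_cl (c p.1) 1
      rw [cl_eq (one_mem _)] at h3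
      simp only [size_pair, size_cons, size_nil, size_some, add_mul, mul_add]
      omega
    · have h1 := size_dpRow (c p.1) (o0 p.1) k s.1 s.2.1 (I p.1)
      have h2 := size_dpRow (c p.1) (o p.1) k s.1 s.2.2 (I' p.1)
      rw [dpStep, size_pair, size_pair]
      exact le_trans (Nat.add_le_add_right (Nat.add_le_add_right (size_red _ _) _) _) (by omega)
  exact PT.prodMk (PT.fst key) (pt_look (PT.snd (PT.snd key)) (by fun_prop))
end dp

theorem pv_mset {p0 p : α → ℕ → ℕ → Sv Ω} {I I' : α → List ℕ} (hc : PT c)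
    (h0 : PV fun q : α × ℕ × ℕ => p0 q.1 q.2.1 q.2.2)
    (hp : PV fun q : α × ℕ × ℕ => p q.1 q.2.1 q.2.2) (hI : PT I) (hI' : PT I') :
    PV fun a => mset (c a) (p0 a) (p a) (I a) (I' a) :=
  pv_dp hc (h0.comp (g := fun q : α × ℕ × List ℕ × ℕ => (q.1, q.2.1, q.2.2.2)) (by fun_prop))
    (hp.comp (g := fun q : α × ℕ × List ℕ × ℕ => (q.1, q.2.1, q.2.2.2)) (by fun_prop)) hI hI'

section tree
variable {mv : α → ℕ → ℕ → FP Ω → Bool} {kt : α → ℕ → FP Ω → Bool}

theorem size_sub (c : Cx Ω) (m : FP Ω → Bool) (S : List (FP Ω)) : size (sub c m S) ≤ b2 (size c) :=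
  size_red _ _

theorem size_kerP (c : Cx Ω) (mv : ℕ → ℕ → FP Ω → Bool) (kt : ℕ → FP Ω → Bool) (G : List (FP Ω))
    (I : List ℕ) : size (kerP c mv kt G I) ≤ b2 (size c) := by
  unfold kerP
  induction I using List.reverseRecOn with
  | nil => exact size_red _ _
  | append_singleton I i _ => rw [List.foldl_append]; exact size_sub _ _ _

variable (hm : PT fun p : α × ℕ × ℕ × FP Ω => mv p.1 p.2.1 p.2.2.1 p.2.2.2)
  (hk : PT fun p : α × ℕ × FP Ω => kt p.1 p.2.1 p.2.2)
  {g : β → α} {d : β → Cx Ω} {G : β → List (FP Ω)} {I : β → List ℕ}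
include hm

theorem pt_pinP (hg : PT g) (hd : PT d) (hG : PT G) (hI : PT I) :
    PT fun b => pinP (d b) (mv (g b)) (G b) (I b) := by
  have h : ∀ {J : β → List ℕ}, PT J → PT fun p : β × FP Ω => stB (mv (g p.1)) (J p.1) p.2 :=
    fun hJ => PT.all (PT.any (hm.comp
      (g := fun q : ((β × FP Ω) × ℕ) × ℕ => (g q.1.1.1, q.1.2, q.2, q.1.1.2)) (by fun_prop))
      (by fun_prop)) (by fun_prop)
  exact pt_sub hd (h (J := fun b => h2 (I b)) (by unfold h2; fun_prop))
    (pt_sub hd (h (J := fun b => h1 (I b)) (by unfold h1; fun_prop)) hG)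

include hk

theorem pt_kerP (hg : PT g) (hd : PT d) (hG : PT G) (hI : PT I) :
    PT fun b => kerP (d b) (mv (g b)) (kt (g b)) (G b) (I b) := by
  refine PT.foldl (f := fun b S i => sub (d b) (kt (g b) i) (sub (d b) (mv (g b) i i) S)) ?_ hI
    (by fun_prop) _ (pb_b2 hd.size_le) fun b u _ => size_kerP _ _ _ _ u
  exact pt_sub (m := fun p : β × List (FP Ω) × ℕ => kt (g p.1) p.2.2) (by fun_prop)
    (hk.comp (g := fun q : (β × List (FP Ω) × ℕ) × FP Ω => (g q.1.1, q.1.2.2, q.2)) (by fun_prop))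
    (pt_sub (m := fun p : β × List (FP Ω) × ℕ => mv (g p.1) p.2.2 p.2.2) (by fun_prop)
      (hm.comp (g := fun q : (β × List (FP Ω) × ℕ) × FP Ω => (g q.1.1, q.1.2.2, q.1.2.2, q.2))
        (by fun_prop)) (by fun_prop))

theorem pt_treeP {G : α → List (FP Ω)} {I : α → List ℕ} (hc : PT c) (hG : PT G) (hI : PT I) :
    PT fun a => treeP (c a) (mv a) (kt a) (G a) (I a) := by
  have k1 := pt_kerP hm hk (g := fun q : α × Nd Ω => q.1) (d := fun q => c q.1)
    (G := fun q => q.2.2.2.1) (I := fun q => q.2.2.2.2.2) (by fun_prop) (by fun_prop)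
    (by fun_prop) (by fun_prop)
  have k2 := pt_pinP hm (g := fun q : α × Nd Ω => q.1) (d := fun q => c q.1)
    (G := fun q => q.2.2.2.1) (I := fun q => q.2.2.2.2.2) (by fun_prop) (by fun_prop)
    (by fun_prop) (by fun_prop)
  have k3 : PT fun q : α × Nd Ω => exp1 (c q.1) (mv q.1) (kt q.1) q.2 := by
    unfold exp1 h1 h2; fun_prop
  have k4 : PT fun q : α × Nd Ω => cls1 (c q.1) (mv q.1) (kt q.1) q.2 := by
    unfold cls1; fun_prop
  have s1 := hc.size_le
  have s2 := hI.size_le
  refine PT.map k4 (PT.foldl (f := fun a (L : List (Nd Ω)) (_ : Bool) =>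
    (L.flatMap (exp1 (c a) (mv a) (kt a))).take (c a).1.length)
    (PT.take (by fun_prop) (PT.flatMap (pt_app2 (m := fun a => exp1 (c a) (mv a) (kt a)) k3
      (by fun_prop) (by fun_prop)) (by fun_prop))) (by fun_prop) (by fun_prop)
    (fun a => (size (c a) + 1) * (5 * size (I a) + 2 * b2 (size (c a)) + 10 + 1) + 1)
    (((s1.add (PB.const 1)).mul (((((PB.const 5).mul s2).add ((PB.const 2).mul (pb_b2 s1))).add
      (PB.const 10)).add (PB.const 1))).add (PB.const 1)) fun a u hu => ?_)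
  have hl : u.length ≤ size (I a) := hu.length_le.trans (by
    rw [Nat.size_eq_bits_len]
    exact (Nat.size_le.2 Nat.lt_two_pow_self).trans (length_lt_size _).le)
  have key : ∀ u : List Bool, (u.foldl (fun L _ => (L.flatMap (exp1 (c a) (mv a) (kt a))).take
      (c a).1.length) [(0, false, red (c a) (G a), [], I a)]).length ≤ size (c a) + 1 ∧
      ∀ n ∈ u.foldl (fun L _ => (L.flatMap (exp1 (c a) (mv a) (kt a))).take (c a).1.length)
        [(0, false, red (c a) (G a), [], I a)], n.1 ≤ u.length ∧ size n.2.2.1 ≤ b2 (size (c a)) ∧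
        size n.2.2.2.1 ≤ b2 (size (c a)) ∧ size n.2.2.2.2 ≤ size (I a) := fun u => by
    have e1 : 1 ≤ b2 (size (c a)) := Nat.le_add_left _ _
    induction u using List.reverseRecOn with
    | nil => simpa using ⟨size_red _ _, e1⟩
    | append_singleton u x ih =>
      rw [List.foldl_append, List.length_append]
      refine ⟨(List.length_take_le _ _).trans ((len_le _).trans (Nat.le_succ _)), fun n hn => ?_⟩
      obtain ⟨m, hm, hn⟩ := List.mem_flatMap.1 (List.mem_of_mem_take hn)
      obtain ⟨a1, a2, a3, a4⟩ := ih.2 m hm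
      unfold exp1 at hn
      cases h : m.2.1 <;> simp only [h, cond_false, cond_true, List.mem_cons, List.not_mem_nil,
        or_false] at hn
      · rcases hn with rfl | rfl | rfl
        · exact ⟨a1.trans (Nat.le_succ _), size_kerP _ _ _ _ _, size_sub _ _ _, size_pos _⟩
        · exact ⟨Nat.succ_le_succ a1, size_sub _ _ _, e1,
            (size_sublist (List.take_sublist _ _)).trans a4⟩
        · exact ⟨Nat.succ_le_succ a1, size_sub _ _ _, e1,
            (size_sublist (List.drop_sublist _ _)).trans a4⟩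
      · exact hn ▸ ⟨a1.trans (Nat.le_succ _), a2, a3, a4⟩
  refine (size_list_le (B := 5 * size (I a) + 2 * b2 (size (c a)) + 10) fun n hn => ?_).trans
    (Nat.add_le_add_right (Nat.mul_le_mul_right _ (key u).1) _)
  obtain ⟨a1, a2, a3, a4⟩ := (key u).2 n hn
  have a5 := size_nat_le n.1
  have a6 := size_bool n.2.1
  rw [size_prod n, size_prod n.2, size_prod n.2.2, size_prod n.2.2.2]
  omega
end tree

@[fun_prop] theorem pt_rangeLen {l : α → List β} (hl : PT l) :
    PT fun a => List.range (l a).length := PT.rangeLength hl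

@[fun_prop] theorem pt_ded [DecidableEq β] {l : α → List β} (hl : PT l) : PT fun a => ded (l a) :=
  PT.foldl (f := fun _ (m : List β) x => bif m.contains x then m else m ++ [x]) (by fun_prop) hl
    (PT.const _) _ hl.size_le fun _ u hu => size_sublist ((ded_spec u).2.1.trans hu.sublist)

@[fun_prop] theorem pt_imB {s : α → FP Ω} {X X' : α → List Ω} (h1 : PT s) (h2 : PT X)
    (h3 : PT X') : PT fun a => imB (s a) (X a) (X' a) := by
  unfold imB; fun_prop

@[fun_prop] theorem pt_fixB {s : α → FP Ω} {X : α → List Ω} (h2 : PT X) (h1 : PT s) :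
    PT fun a => fixB (X a) (s a) := by
  unfold fixB; fun_prop

@[fun_prop] theorem pt_resB {s y y' : α → FP Ω} {X X' : α → List Ω} (h1 : PT y) (h2 : PT X)
    (h3 : PT y') (h4 : PT X') (h5 : PT s) : PT fun a => resB (y a) (X a) (y' a) (X' a) (s a) := by
  unfold resB; fun_prop
end sv

section grp
variable {α U : Type} [Enc α] [Group U] [DecidableEq U] [Enc U] [PG U] {A B C : α → List U}

@[fun_prop] theorem pt_isoB {s : α → FP U} (h1 : PT A) (h2 : PT B) (h3 : PT s) :
    PT fun a => isoB (A a) (B a) (s a) := by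
  unfold isoB; fun_prop

@[fun_prop] theorem pt_cmB (h1 : PT A) (h2 : PT B) (h3 : PT C) :
    PT fun a => cmB (A a) (B a) (C a) := by
  unfold cmB cm; fun_prop

@[fun_prop] theorem pt_gO {Os : α → List (List U)} {j : α → ℕ} (h1 : PT Os) (h2 : PT j) :
    PT fun a => gO (Os a) (j a) := by
  unfold gO; fun_prop

@[fun_prop] theorem pt_ap {t : α → List (U × U)} {x : α → U} (h1 : PT t) (h2 : PT x) :
    PT fun a => ap (t a) (x a) := by
  unfold ap; fun_prop

@[fun_prop] theorem pt_nclP {g : α → U} (h1 : PT A) (h2 : PT B) (h3 : PT C) (h4 : PT g) :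
    PT fun a => nclP (A a) (B a) (C a) (g a) := by
  unfold nclP; fun_prop

@[fun_prop] theorem pt_minB {g : α → U} (h1 : PT A) (h2 : PT B) (h4 : PT g) :
    PT fun a => minB (A a) (B a) (g a) := by
  unfold minB; fun_prop

@[fun_prop] theorem pt_lays {Os : α → List (List U)} (h1 : PT Os) : PT fun a => lays (Os a) := by
  unfold lays; fun_prop

@[fun_prop] theorem pt_preP {t : α → List (U × U)} (h1 : PT A) (h2 : PT t) (h3 : PT B) :
    PT fun a => preP (A a) (t a) (B a) := by
  unfold preP; fun_prop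

@[fun_prop] theorem pt_nxtP {R : α → List ℕ} {q : α → ℕ} (h0 : PT R) (h1 : PT A) (h2 : PT q)
    (h3 : PT B) : PT fun a => nxtP (R a) (A a) (q a) (B a) := by
  unfold nxtP primeB ppB; fun_prop

@[fun_prop] theorem pt_serP {R : α → List ℕ} (h0 : PT R) (h1 : PT A) :
    PT fun a => serP (R a) (A a) :=
  PT.cons h1 (PT.foldl_add
    (f := fun a (L : List (List U)) (p : ℕ × ℕ) => nxtP (R a) (A a) p.1 (L.headD [1]) :: L)
    (by fun_prop) (by fun_prop) (PT.const _) (fun a => size (A a) + 1)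
    (h1.size_le.add (PB.const 1)) fun a L p _ => by
      have := size_sublist (clo_sublist (A a) (L.headD [1] ++ (A a).filter fun g =>
        primeB (R a) p.1 && ppB (R a) p.1 (nclP (A a) (A a) [1] g).length &&
          minB (A a) (L.headD [1]) g))
      rw [size_cons, nxtP]; omega)
end grp

end Pool.Agent.P.MP_f1a348_lc.AL
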