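import Pool.Agent.P.MP_f1a348_lc.AL.Defs

/-!
Project AL: the program.
-/

namespace Pool.Agent.P.MP_f1a348_lc.AL

open Pool.Agent.P.MP_f1a348_lc.GI hiding Nm Good
open Pool.Agent.P.MP_f1a348_lc.UP (Rec up topI SolvMod Nm der)
open scoped commutatorElement Pointwise

noncomputable section

/-- remove duplicates -/
def ded {α : Type} [DecidableEq α] (l : List α) : List α :=
  l.foldl (fun m x => bif m.contains x then m else m ++ [x]) []

/-- the test for `Mp` -/
def imB {Ω : Type} [DecidableEq Ω] (s : FP Ω) (X X' : List Ω) : Bool :=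
  X.all (fun x => X'.contains (s.app x)) && X'.all fun x => X.contains (s⁻¹.app x)

def fixB {Ω : Type} [DecidableEq Ω] (X : List Ω) (s : FP Ω) : Bool := X.all fun x => s.app x == x

def resB {Ω : Type} [DecidableEq Ω] (y : FP Ω) (X : List Ω) (y' : FP Ω) (X' : List Ω) (s : FP Ω) :
    Bool :=
  imB s X X' && X.all fun x => s.app (y.app x) == y'.app (s.app x)

def primeB (R : List ℕ) (q : ℕ) : Bool :=
  Nat.ble 2 q && R.all fun a => q % a != 0 || a == 1 || a == q
def ppB (R : List ℕ) (q m : ℕ) : Bool := R.all fun a => m % a != 0 || a == 1 || a % q == 0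
/-- the primes of the layers -/
def prsP (R : List ℕ) : List ℕ := R.length :: ((prodL R R).map Prod.fst).reverse
/-- the budget of the certificate in unary -/
def ucP (ud : List Unit) (R : List ℕ) : List Unit :=
  (ud ++ List.replicate 35 ()).flatMap fun _ => R.length.bits.map fun _ => ()

variable {U : Type} [Group U] [DecidableEq U]

def isoB (X X' : List U) (s : FP U) : Bool :=
  imB s X X' && X.all fun x => X.all fun y => s.app (x * y) == s.app x * s.app y
def cmB (A B C : List U) : Bool := A.all fun a => B.all fun b => C.contains (cm a b)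
/-- the entry number `j` -/
def gO (Os : List (List U)) (j : ℕ) : List U := Os.getD j [1]
/-- look up in a table -/
def ap (tb : List (U × U)) (x : U) : U := ((tb.find? fun p => p.1 == x).map Prod.snd).getD 1

/-! ### the series -/

def nclP (el G M : List U) (g : U) : List U := clo el (M ++ G.map fun x => x * g * x⁻¹)
def minB (Y M : List U) (g : U) : Bool :=
  !M.contains g && (nclP Y Y M g).all fun h => M.contains h || (nclP Y Y M h).contains g
def nxtP (R : List ℕ) (Y : List U) (q : ℕ) (M : List U) : List U :=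
  clo Y (M ++ Y.filter fun g => primeB R q && ppB R q (nclP Y Y [1] g).length && minB Y M g)
def serP (R : List ℕ) (Y : List U) : List (List U) :=
  Y :: (prodL R R).foldl (fun L p => nxtP R Y p.1 (L.headD [1]) :: L) [[1]]

/-! ### the top -/

/-- a layer: the group, the table of `π`, the two terms -/
abbrev LP (U : Type) : Type := List U × List (U × U) × List U × List U
/-- the series and the table of `π` -/
abbrev SP (U : Type) : Type := List (List U) × List (U × U)

def sumP (l : LP U) : List U :=
  (l.2.2.2.foldl (fun s v => bif minB l.1 l.2.2.1 v && !s.1.contains v then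
    (nclP l.1 l.1 s.1 v, s.2 ++ [v]) else s) (l.2.2.1, [])).2
def relP (l l' : LP U) (a : FP U) : List (U × U) :=
  (prodL l.1 l'.1).filter fun q => ap l'.2.1 q.2 == a.app (ap l.2.1 q.1)
def grP (l l' : LP U) (a : FP U) (V : List (U × U)) (p : U × U) : List (U × U) :=
  nclP (prodL l.2.2.2 l'.2.2.2) (relP l l' a) V p
def grB (l l' : LP U) (V : List (U × U)) : Bool :=
  V.all fun p => l.2.2.1.contains p.1 == l'.2.2.1.contains p.2
def tyB (l l' : LP U) (v v' : U) (a : FP U) : Bool :=
  (nclP l'.1 l'.1 l'.2.2.1 v').any fun u => grB l l' (grP l l' a (prodL l.2.2.1 l'.2.2.1) (v, u))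
def extP (l l' : LP U) (a : FP U) (V : List (U × U)) (vs : List U) : List (U × U) :=
  vs.foldl (fun V v => ((l'.2.2.2.map fun u => grP l l' a V (v, u)).find? (grB l l')).getD V) V
def spP (l l' : LP U) (a : FP U) (ps : List (U × U)) : List (U × U) :=
  ps.foldl (grP l l' a) (prodL l.2.2.1 l'.2.2.1)

def nfPick (x : U) (d : List U × List (U × U)) : U × U :=
  (((1, 1) :: d.2).find? fun p => d.1.contains (p.1⁻¹ * x)).getD (1, 1)
def nfStep (s : U × U) (d : List U × List (U × U)) : U × U :=
  ((nfPick s.1 d).1⁻¹ * s.1, s.2 * (nfPick s.1 d).2)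
def liftP (Y : List U) (ds : List (List U × List (U × U))) : FP U :=
  FP.ofList (Y.map fun x => (x, (ds.foldl nfStep (x, 1)).2))

def lyP (s : SP U) (j : ℕ) : LP U := (gO s.1 0, s.2, gO s.1 (j + 1), gO s.1 j)
def lays (Os : List (List U)) : List ℕ := (List.range Os.length).tail
def liftA (s s' : SP U) (a : FP U) : FP U :=
  liftP (gO s.1 0) ((gO s.1 1, relP (lyP s 0) (lyP s' 0) a) :: (lays s.1).map fun j =>
    (gO s.1 (j + 1), extP (lyP s j) (lyP s' j) a (prodL (gO s.1 (j + 1)) (gO s'.1 (j + 1)))
      (sumP (lyP s j))))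
def liftB (Os : List (List U)) (j : ℕ) (V : List (U × U)) : FP U :=
  liftP (gO Os 0) ((List.range Os.length).map fun i =>
    (gO Os (i + 1), bif i == j then V else (gO Os i).map fun x => (x, x)))
def grK (l : LP U) (k : ℕ) (u : U) : List (U × U) :=
  extP l l 1 (spP l l 1 (((sumP l).take k).map (fun v => (v, v)) ++ [((sumP l).getD k 1, u)]))
    ((sumP l).drop (k + 1))
def genB (s : SP U) : List (FP U) :=
  (lays s.1).flatMap fun j => (List.range (sumP (lyP s j)).length).flatMap fun k =>
    (gO s.1 j).map fun u => liftB s.1 j (grK (lyP s j) k u)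
def shP (Y O : List U) (c u : U) : FP U :=
  FP.ofList (Y.map fun x => (x, bif O.contains (c⁻¹ * x) then x * u else x))
def genC (Os : List (List U)) : List (FP U) :=
  (lays Os).flatMap fun j => (prodL (gO Os 0) (gO Os j)).map fun p => shP (gO Os 0) (gO Os j) p.1 p.2
def triB (Os : List (List U)) (g : FP U) : Bool :=
  (List.range Os.length).all fun j => imB g (gO Os j) (gO Os j) &&
    (prodL (gO Os 0) (gO Os 0)).all fun p =>
      ((gO Os j).contains ((g.app p.1)⁻¹ * g.app p.2) == (gO Os j).contains (p.1⁻¹ * p.2)) &&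
      (!((gO Os j).contains p.1 || (gO Os j).contains p.2) ||
        (gO Os (j + 1)).contains ((g.app (p.1 * p.2))⁻¹ * (g.app p.1 * g.app p.2)))
def tyS (c : Cx U) (l l' : LP U) (k b : ℕ) : Sv U :=
  small c (tyB l l ((sumP l).getD k 1) ((sumP l).getD k 1))
    (tyB l l' ((sumP l).getD k 1) ((sumP l').getD b 1))
def layS (c : Cx U) (l l' : LP U) : Sv U :=
  mset c (tyS c l l) (tyS c l l') (List.range (sumP l).length) (List.range (sumP l').length)
def a0P (c : Cx U) (s s' : SP U) : Sv U :=
  seq c (fun j => layS c (lyP s j) (lyP s' j)) (lays s.1)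
def topG (pad : List Unit) (s : SP U) (S : List (FP U)) : List (FP U) :=
  red (pad, gO s.1 0) (((S.map (liftA s s) ++ genB s ++ genC s.1).map (cl (pad, gO s.1 0))).filter
    (triB s.1))
/-- generators of `T₁` and an element of `T₁(G, G')` -/
def topP (pad : List Unit) (s s' : SP U) (Q Q' : List U) (o : Out U) : List (FP U) × FP U :=
  (topG pad s (a0P (pad, Q ++ Q') s s' o.1 (o.2.getD 1)).1,
    liftA s s' ((a0P (pad, Q ++ Q') s s' o.1 (o.2.getD 1)).2.getD 1))

/-! ### the certificate -/

abbrev L3 (U : Type) : Type := List U × List U × List U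

def iclStep (Y : List U) (S : List (FP U)) (X : List U) : List U :=
  clo Y (X ++ S.flatMap fun s => X.map s.app)
def iclP (Y : List U) (S : List (FP U)) (X : List U) : List U := (iclStep Y S)^[Y.length] X
def grdP (Y : List U) (S : List (FP U)) (ok : List U → Bool) (X R : List U) : List U :=
  R.foldl (fun X g => bif ok (iclP Y S (g :: X)) then iclP Y S (g :: X) else X) X
def zP (Y : List U) (S : List (FP U)) (F R : List U) : List U :=
  grdP Y S (fun X => cmB X X F) F R
def aP (Y : List U) (S : List (FP U)) (F R Z : List U) : List U :=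
  grdP Y S (fun X => cmB X Z F && cmB X X Z) Z R
def gdB (O L Z : List U) (v : U) : Bool :=
  !O.contains v && Z.all fun z => O.contains (cm z v) || L.any fun w => O.contains (v⁻¹ * cm z w)
def bbP (Os : List (List U)) (Z : List U) : List (List U) :=
  ded ((lays Os).flatMap fun j => ((gO Os j).filter (gdB (gO Os (j + 1)) (gO Os j) Z)).map fun v =>
    Z.filter fun z => (gO Os (j + 1)).contains (cm z v))
def atP (Os : List (List U)) (R : List U) (TT : List (List U)) (Z A : List U) : List (L3 U) :=
  TT.map (fun T => (T, R, R)) ++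
    (bbP Os Z).map fun B => (A, A.filter fun a => A.all fun b => B.contains (cm a b), B)
def mv3 (t t' : L3 U) (s : FP U) : Bool :=
  imB s t.1 t'.1 && imB s t.2.1 t'.2.1 && imB s t.2.2 t'.2.2
def kt3 (t : L3 U) (s : FP U) : Bool := t.1.all fun u => t.2.1.contains (u⁻¹ * s.app u)
def cfP (pad : List Unit) (Y : List U) (L : List (L3 U)) (S : List (FP U)) : Fo U :=
  treeP (pad, Y) (fun i k => mv3 (L.getD i ([], [], [])) (L.getD k ([], [], [])))
    (fun i => kt3 (L.getD i ([], [], []))) S (List.range L.length)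
/-- the atoms of the certificate -/
def atQ (Os : List (List U)) (S : List (FP U)) (R : List U) (TT : List (List U)) : List (L3 U) :=
  atP Os R TT (zP (gO Os 0) S (gO Os 1) R)
    (aP (gO Os 0) S (gO Os 1) R (zP (gO Os 0) S (gO Os 1) R))
/-- the preimage under `π` -/
def preP (Y : List U) (tb : List (U × U)) (X : List U) : List U :=
  Y.filter fun x => X.contains (ap tb x)

/-! ### the base -/

def socP (D : List U) : List U := clo D (D.filter (minB D [1]))
def atomsP (D : List U) : List (List U) :=
  ded (((socP D).filter (minB (socP D) [1])).map (nclP (socP D) (socP D) [1]))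
def ggB (Ts : List (List U)) (s : FP U) : Bool :=
  Ts.all (fun a => Ts.any fun b => isoB a b s) && Ts.all fun b => Ts.any fun a => isoB a b s
def tauP (a b xs xs' : List U) : FP U :=
  FP.ofList (clo (prodL a b) (xs.zip xs') ++
    bif a == b then [] else (clo (prodL a b) (xs.zip xs')).map fun p => (p.2, p.1))
def ggP (c : Cx U) (ud : List Unit) (Ts : List (List U)) : List (FP U) :=
  red c (((prodL Ts Ts).flatMap fun p => (prodL (tuples c.1 p.1 ud) (tuples c.1 p.2 ud)).map
    fun q => cl c (tauP p.1 p.2 q.1 q.2)).filter (ggB Ts))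
def cjP (D : List U) (g : U) : FP U := FP.ofList (D.map fun x => (x, g * x * g⁻¹))
def resS (c : Cx U) (Ts : List (List U)) (y y' : FP U) (k b : ℕ) : Sv U :=
  small c (resB y (gO Ts k) y (gO Ts k)) (resB y (gO Ts k) y' (gO Ts b))
def centP (c : Cx U) (Ts : List (List U)) (y y' : FP U) : Sv U :=
  mset c (resS c Ts y y) (resS c Ts y y') (List.range Ts.length) (List.range Ts.length)
def ydP (Ts : List (List U)) (Y : List (FP U)) (y : List ℕ) : List (FP U) :=
  Y.filter fun s => (List.range Ts.length).all fun i => y.contains i || fixB (gO Ts i) s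
def eP (Ts : List (List U)) (Y : List (FP U)) (a e : ℕ) : List (FP U) :=
  Y.filter fun s => imB s (gO Ts a) (gO Ts e)
def cosP (c : Cx U) (Ts : List (List U)) (Y0 Y' : List (FP U)) (y : FP U) : Sv U :=
  uni (centP c Ts y) (Y0.map fun w => y * w) Y'
def innP (c : Cx U) (Ts : List (List U)) (Y0 Y : List (FP U)) (a e : ℕ) (Y' : List (FP U))
    (b e' : ℕ) : Sv U :=
  seq2 (small c (fun _ => true) fun g =>
      imB g (gO Ts e) (gO Ts e') && (eP Ts Y a e).length == (eP Ts Y' b e').length)
    (seq c (cosP c Ts Y0 Y') (eP Ts Y a e))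
def ptzP (c : Cx U) (Ts : List (List U)) (Y0 Y : List (FP U)) (a : ℕ) (Y' : List (FP U))
    (b e e' : ℕ) : Sv U :=
  cover c (fun s => fixB (gO Ts a) s && fixB (gO Ts e) s) (innP c Ts Y0 Y a e Y a e)
    (innP c Ts Y0 Y a e Y' b e')
def orcQ (c : Cx U) (Ts : List (List U)) (Y0 Y : List (FP U)) (a : ℕ) (Y' : List (FP U)) (b : ℕ) :
    Sv U :=
  seq2 (small c (fun s => imB s (gO Ts a) (gO Ts a)) fun s => imB s (gO Ts a) (gO Ts b))
    (mset c (ptzP c Ts Y0 Y a Y a) (ptzP c Ts Y0 Y a Y' b) (List.range Ts.length)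
      (List.range Ts.length))
def orcP (c : Cx U) (Ts : List (List U)) (Y Y' : List (FP U)) (k : ℕ) (y : List ℕ) (b : ℕ) : Sv U :=
  orcQ c Ts (ydP Ts Y ((List.range Ts.length).take k))
    (ydP Ts Y ((List.range Ts.length).take (k + 1))) k (ydP Ts Y' y) b
def outP (c : Cx U) (Ts : List (List U)) (Y Y' : List (FP U)) : Sv U :=
  dp c (orcP c Ts Y Y) (orcP c Ts Y Y') (List.range Ts.length) (List.range Ts.length)
def bkP {Γ : Type} [Group Γ] [DecidableEq Γ] (tb tb' : List (U × Γ)) (s : Γ) : FP U :=
  FP.ofList (tb.map fun p =>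
    (p.1, ((tb'.find? fun q => q.2 == s * p.2 * s⁻¹).map Prod.fst).getD 1))

/-- the state of the main loop -/
abbrev St (U : Type) : Type := Out U × List U × List (List U)

def baseR (c : Cx (U × U)) (ud : List Unit) (Ts : List (List (U × U)))
    (tb tb' : List (U × FP (U × U))) : Out U :=
  ((outP c Ts (tb.map Prod.snd) (tb'.map Prod.snd) (ggP c ud Ts) 1).1.map (bkP tb tb),
    (outP c Ts (tb.map Prod.snd) (tb'.map Prod.snd) (ggP c ud Ts) 1).2.map (bkP tb tb'))
def baseQ (pad ud : List Unit) (Y Y' : List U) (Ts : List (List (U × U))) : Out U :=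
  baseR (pad, Ts.flatten) ud Ts (Y.map fun g => (g, cjP Ts.flatten (g, 1)))
    (Y'.map fun g => (g, cjP Ts.flatten (1, g)))
def baseP (pad ud : List Unit) (Y Y' : List U) : St U :=
  (baseQ pad ud Y Y' (atomsP (prodL Y Y')), [1], atomsP Y)

/-! ### the main loop -/

abbrev UU : Type := FP ℕ

def idxP (Y F : List U) (x : U) : ℕ := Y.findIdx fun y => F.contains (y⁻¹ * x)
def piP (Y F : List U) (g : U) : UU := FP.ofList (Y.map fun x => (idxP Y F x, idxP Y F (g * x)))
def tbP (Y F : List U) : List (U × UU) := Y.map fun g => (g, piP Y F g)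
def quoP (Y F : List U) : List UU := ded (Y.map (piP Y F))

/-- budget, budget of the certificate, `List.range n`, the series, the primes, the routine for
certificates, generators of `T₁`, the starting point -/
abbrev StageTy : Type := List Unit → List Unit → List ℕ → List (List UU) → List ℕ →
  (List (FP UU) → Fo UU) → List (FP UU) → FP UU → List (FP UU) × FP UU

def sideP (R : List ℕ) (Y : List UU) : SP UU := (serP R Y, tbP Y (gO (serP R Y) 1))
def quoQ (R : List ℕ) (Y : List UU) : List UU := quoP Y (gO (serP R Y) 1)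
def finP (pad : List Unit) (Y Y' : List UU) (o : List (FP UU) × FP UU) : Out UU :=
  clO (pad, Y ++ Y') (o.1, bif isoB Y Y' o.2 then some o.2 else none)
def stepQ (stage : StageTy) (pad ud : List Unit) (R : List ℕ) (Y Y' : List UU)
    (Os : List (List UU)) (top : List (FP UU) × FP UU) (R1 : List UU) (TT : List (List UU)) :
    St UU :=
  (finP pad Y Y' (stage pad (ucP ud R) R Os (prsP R) (cfP pad Y (atQ Os top.1 R1 TT)) top.1 top.2),
    R1, TT)
def stepP (stage : StageTy) (pad ud : List Unit) (R : List ℕ) (st : St UU)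
    (p : List UU × List UU) : St UU :=
  stepQ stage pad ud R p.1 p.2 (serP R p.1)
    (topP pad (sideP R p.1) (sideP R p.2) (quoQ R p.1) (quoQ R p.2) st.1)
    (preP p.1 (sideP R p.1).2 st.2.1) (st.2.2.map (preP p.1 (sideP R p.1).2))
/-- go down one level for each entry of `u` -/
def dnN (R : List ℕ) (p : List UU × List UU) (u : List ℕ) : List UU × List UU :=
  u.foldl (fun p _ => (quoQ R p.1, quoQ R p.2)) p
def mainP (stage : StageTy) (pad ud : List Unit) (R : List ℕ) (p : List UU × List UU) : Bool :=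
  (R.reverse.foldl (fun st i => stepP stage pad ud R st (dnN R p (R.take i)))
    (baseP pad ud (dnN R p R).1 (dnN R p R).2)).1.2.isSome

/-! ### representations -/

omit [DecidableEq U] in
/-- the list of lists represents the series -/
def SRep (Os : List (List U)) (O : ℕ → Subgroup U) : Prop := ∀ j, Rep (Os.getD j [1]) (O j)

structure LRep (l : LP U) (y : Ly U) : Prop where
  G : Rep l.1 y.G
  π : y.π = ap l.2.1
  O : Rep l.2.2.1 y.O
  L : Rep l.2.2.2 y.L

/-- one side of the problem -/
structure SX (s : SP U) (Ql : List U) (G Q : Subgroup U) (O : ℕ → Subgroup U) (r : ℕ) (p : ℕ → ℕ)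
    (n : ℕ) : Prop where
  ser : Ser G O r p
  rep : SRep s.1 O
  len : s.1.length = r + 1
  qt : Qt G (O 1) Q (ap s.2)
  Q : Rep Ql Q
  card : Nat.card G < n

omit [DecidableEq U] in
/-- the subgroups generated by the entries of a triple -/
def g3 (t : L3 U) : T3 U := (gen t.1, gen t.2.1, gen t.2.2)

/-- the standing hypotheses for the base -/
structure BX (c : Cx U) (Ts : List (List U)) (D : Subgroup U) (T : ℕ → Subgroup U) (t d : ℕ) :
    Prop where
  atm : At D T t d
  len : Ts.length = t
  rep : ∀ i < t, Rep (gO Ts i) (T i)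
  om : c.2 = Ts.flatten
  ok : COk c
  pad : Nat.card D ^ (2 * d + 2) ≤ c.1.length

structure StOk (G G' : Subgroup U) (d n : ℕ) (st : St U) : Prop where
  iso : IsoOut G G' st.1
  R : Rep st.2.1 (gen st.2.1)
  T : ∀ T ∈ st.2.2, Rep T (gen T)
  rd : RD G (gen st.2.1) (st.2.2.map gen) d n (AutG G)

end

/-! ### basic facts -/

section ded
variable {α : Type} [DecidableEq α]

theorem ded_spec (l : List α) : (ded l).Nodup ∧ (ded l).Sublist l ∧ ∀ x, x ∈ ded l ↔ x ∈ l := by
  induction l using List.reverseRecOn with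
  | nil => simp [ded]
  | append_singleton l a ih =>
    rw [ded, List.foldl_append, ← ded, List.foldl_cons, List.foldl_nil]
    cases h : (ded l).contains a
    · have h' : a ∉ ded l := by simpa using h
      refine ⟨?_, ih.2.1.append_right _, fun x => by simp [ih.2.2]⟩
      exact List.Nodup.append ih.1 (List.nodup_singleton a) (by simpa using h')
    · have h' : a ∈ l := (ih.2.2 a).1 (by simpa using h)
      exact ⟨ih.1, ih.2.1.trans (List.sublist_append_left _ _), fun x => by
        simp only [cond_true, ih.2.2, List.mem_append, List.mem_singleton]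
        exact ⟨.inl, fun e => e.elim id fun e => e ▸ h'⟩⟩

theorem mem_ded {l : List α} {x : α} : x ∈ ded l ↔ x ∈ l := (ded_spec l).2.2 x

theorem imB_iff {s : FP α} {X X' : List α} {A A' : Set α} (h : ∀ x, x ∈ X ↔ x ∈ A)
    (h' : ∀ x, x ∈ X' ↔ x ∈ A') : imB s X X' = true ↔ Mp s A A' := by
  simp only [imB, Bool.and_eq_true, List.all_eq_true, List.contains_iff_mem, h, h']
  exact ⟨fun e x => ⟨fun hx => by simpa using e.2 _ hx, e.1 x⟩,
    fun e => ⟨fun x => (e x).2, fun x => (e.inv x).2⟩⟩

theorem fixB_iff {s : FP α} {X : List α} {A : Set α} (h : ∀ x, x ∈ X ↔ x ∈ A) :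
    fixB X s = true ↔ s ∈ Fix A := by
  simp only [fixB, List.all_eq_true, beq_iff_eq, h, mem_Fix]
end ded

section basic
variable {U : Type} [Group U] [DecidableEq U] {X X' Y M : List U} {A A' G m : Subgroup U}

theorem isoB_iff (h : Rep X A) (h' : Rep X' A') {s : FP U} : isoB X X' s = true ↔ IsoP A A' s := by
  rw [isoB, Bool.and_eq_true, imB_iff (A := A) (A' := A') h.mem h'.mem]
  simp only [List.all_eq_true, beq_iff_eq, h.mem]
  exact ⟨fun e => ⟨e.1, e.2⟩, fun e => ⟨e.1, e.2⟩⟩

theorem cmB_iff (h : Rep X A) (h' : Rep X' A') (hm : Rep M m) :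
    cmB X X' M = true ↔ ⁅A, A'⁆ ≤ m := by
  simp only [cmB, List.all_eq_true, List.contains_iff_mem, h.mem, h'.mem, hm.mem, cm_eq,
    Subgroup.commutator_le]

omit [DecidableEq U] in
theorem rep_one : Rep [(1 : U)] ⊥ := ⟨List.nodup_singleton _, by simp⟩

theorem nclP_rep {el Gl : List U} {E : Subgroup U} {S : Set U} {g : U} (h : Rep el E)
    (hG : ∀ x, x ∈ Gl ↔ x ∈ S) (hm : Rep M m) (hle : ncl S m g ≤ E) :
    Rep (nclP el Gl M g) (ncl S m g) := by
  have e : gen (Gl.map fun x => x * g * x⁻¹) = Subgroup.closure {y | ∃ x ∈ S, y = x * g * x⁻¹} := by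
    simp only [gen, List.mem_map, hG, eq_comm]
  rw [ncl, ← e] at hle ⊢
  exact clo_over h hm (le_sup_left.trans hle) fun x hx => hle (Subgroup.mem_sup_right (mem_gen hx))

theorem nclP_rep' (h : Rep Y G) (hm : Rep M m) (hle : m ≤ G) {g : U} (hg : g ∈ G) :
    Rep (nclP Y Y M g) (ncl G m g) :=
  nclP_rep h h.mem hm (ncl_le_of_nm (nm_self G) hle hg)

theorem minB_iff (h : Rep Y G) (hm : Rep M m) (hle : m ≤ G) {g : U} (hg : g ∈ G) :
    minB Y M g = true ↔ MinO G m g := by
  have r := nclP_rep' h hm hle hg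
  simp only [minB, Bool.and_eq_true, Bool.not_eq_true', List.all_eq_true, Bool.or_eq_true,
    List.contains_iff_mem, r.mem, hm.mem, MinO, hg, true_and, ← Bool.not_eq_true]
  refine and_congr_right fun _ => forall₂_congr fun x hx => ?_
  rw [(nclP_rep' h hm hle (ncl_le_of_nm (nm_self G) hle hg hx)).mem, or_iff_not_imp_left]

theorem SX.lrep {s : SP U} {Ql : List U} {Q : Subgroup U} {O : ℕ → Subgroup U} {r n : ℕ}
    {p : ℕ → ℕ} (h : SX s Ql G Q O r p n) (j : ℕ) : LRep (lyP s j) (lyr O Q (ap s.2) j) :=
  ⟨h.rep 0, rfl, h.rep _, h.rep _⟩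

omit [Group U] [DecidableEq U] in
theorem mem_lays {Os : List (List U)} {j : ℕ} : j ∈ lays Os ↔ 1 ≤ j ∧ j < Os.length := by
  unfold lays
  cases Os.length with
  | zero => simp
  | succ k => cases j <;> simp [List.range_succ_eq_map]
end basic

end Pool.Agent.P.MP_f1a348_lc.AL
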