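import Pool.Agent.P.MP_f1a348_lc.GI.PTA
import Pool.Agent.P.MP_f1a348_lc.GI.Tower
import Pool.Agent.P.MP_f1a348_lc.GI.Sims
import Pool.Agent.P.MP_f1a348_lc.UP.Defs

/-!
Project AL: solvers for stabiliser and transporter problems in permutation groups.
-/

namespace Pool.Agent.P.MP_f1a348_lc.AL

open Pool.Agent.P.MP_f1a348_lc.GI
open Pool.Agent.P.MP_f1a348_lc.UP (Rec up topI SolvMod)

noncomputable section

/-- the budget in unary and the list of points -/
abbrev Cx (Ω : Type) : Type := List Unit × List Ω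
/-- generators of a stabiliser and a solution -/
abbrev Out (Ω : Type) : Type := List (FP Ω) × Option (FP Ω)
/-- solvers -/
abbrev Sv (Ω : Type) : Type := List (FP Ω) → FP Ω → Out Ω
/-- tables -/
abbrev Tb (Ω : Type) : Type := List (List ℕ × Option (FP Ω))
/-- forests -/
abbrev Fo (Ω : Type) : Type := List (ℕ × List (FP Ω) × List (FP Ω))
/-- nodes under construction -/
abbrev Nd (Ω : Type) : Type := ℕ × Bool × List (FP Ω) × List (FP Ω) × List ℕ

section grp
variable {Γ : Type} [Group Γ]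

/-- `T` is empty or a left coset of `St` -/
def Cs (St : Subgroup Γ) (T : Set Γ) : Prop := ∀ g ∈ T, ∀ h, h ∈ T ↔ g⁻¹ * h ∈ St

/-- `X` is a union of left cosets of `A` -/
def Cl (A : Subgroup Γ) (X : Set Γ) : Prop := ∀ x ∈ X, ∀ u ∈ A, x * u ∈ X

/-- inside the cosets `g A`, `g ∈ X`, the set `T` is empty or a left coset of `St` -/
def Rc (A : Subgroup Γ) (X : Set Γ) (St : Subgroup Γ) (T : Set Γ) : Prop :=
  ∀ g ∈ X, g ∈ T → ∀ u ∈ A, g * u ∈ T ↔ u ∈ St

/-- `o` is an element of `x K ∩ T`, if there is one -/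
structure TOk (K : Subgroup Γ) (x : Γ) (T : Set Γ) (o : Option Γ) : Prop where
  some : ∀ g, o = some g → x⁻¹ * g ∈ K ∧ g ∈ T
  none : o = none → ∀ g, x⁻¹ * g ∈ K → g ∉ T

/-- the elements that map the multiset `ys` to the multiset `ys'` -/
def PTr (Γ : Type) [Group Γ] {Ξ : Type} [MulAction Γ Ξ] (ys ys' : List Ξ) : Set Γ :=
  {g | (ys.map fun y => g • y).Perm ys'}

/-- the stabiliser of a multiset -/
def PSt (Γ : Type) [Group Γ] {Ξ : Type} [MulAction Γ Ξ] (ys : List Ξ) : Subgroup Γ where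
  carrier := PTr Γ ys ys
  one_mem' := by simp [PTr]
  mul_mem' {a b} ha hb := by
    have := (List.Perm.map (fun y => a • y) hb).trans ha
    simpa [PTr, mul_smul, Function.comp_def] using this
  inv_mem' {a} ha := by
    have := (List.Perm.map (fun y => a⁻¹ • y) ha).symm
    simpa [PTr, Function.comp_def] using this

/-- tight certificates -/
inductive TK (b : ℕ) : ℕ → Subgroup Γ → List (Rec Γ) → Prop
  | nil (c G) : TK b c G []
  | cons (c c0 c' G K P sub rest) : K ≤ G → P ≤ G → UP.Nm G K → P.relIndex G ≤ b ^ c0 →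
      c0 + 1 + c' ≤ c → TK b c' P sub → SolvMod (P ⊓ topI sub) K → TK b c G rest →
      TK b c G ((0, K, P) :: (up sub ++ rest))

/-- the forest of subgroups given by generators -/
def toRec (F : List (ℕ × List Γ × List Γ)) : List (Rec Γ) :=
  F.map fun r => (r.1, gen r.2.1, gen r.2.2)

theorem TK.kids {b c : ℕ} {G : Subgroup Γ} {F : List (Rec Γ)} (h : TK b c G F) :
    UP.Kids b c G F := by
  induction h with
  | nil c G => exact .nil c G
  | cons c c0 c' G K P sub rest _ h2 h3 h4 h5 _ h7 _ i1 i2 =>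
    exact .cons c c0 c' G K P sub rest h3 h4 h5 (by rwa [inf_eq_right.2 h2])
      (by rwa [inf_eq_right.2 h2]) i2

theorem cs_self (St : Subgroup Γ) : Cs St St := fun _ hg _ =>
  ⟨fun hh => St.mul_mem (St.inv_mem hg) hh, fun hh => by simpa using St.mul_mem hg hh⟩

theorem Cs.rc {St : Subgroup Γ} {T : Set Γ} (h : Cs St T) (A : Subgroup Γ) (X : Set Γ) :
    Rc A X St T := fun g _ hg u _ => by rw [h g hg, inv_mul_cancel_left]

theorem TK.mono {b c c' : ℕ} {G : Subgroup Γ} {F : List (Rec Γ)} (h : TK b c G F) (hc : c ≤ c') :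
    TK b c' G F := by
  induction h with
  | nil c G => exact .nil c' G
  | cons c c0 c1 G K P sub rest h1 h2 h3 h4 h5 h6 h7 _ _ i2 =>
    exact .cons c' c0 c1 G K P sub rest h1 h2 h3 h4 (h5.trans hc) h6 h7 (i2 hc)

theorem cl_self (A : Subgroup Γ) : Cl A A := fun _ hx _ hu => A.mul_mem hx hu

theorem cs_smul {Ξ : Type} [MulAction Γ Ξ] (y y' : Ξ) :
    Cs (MulAction.stabilizer Γ y) {g | g • y = y'} := fun g hg h => by
  rw [MulAction.mem_stabilizer_iff, mul_smul, inv_smul_eq_iff, show g • y = y' from hg]; rfl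

theorem cs_ptr {Ξ : Type} [MulAction Γ Ξ] (ys ys' : List Ξ) : Cs (PSt Γ ys) (PTr Γ ys ys') :=
  fun g hg h => ⟨fun hh => by
    have := List.Perm.map (fun y => g⁻¹ • y) (List.Perm.trans hh (List.Perm.symm hg))
    simpa [PSt, PTr, mul_smul, Function.comp_def] using this, fun hh => by
    have := (List.Perm.map (fun y => g • y) hh).trans hg
    simpa [PTr, mul_smul, Function.comp_def] using this⟩

end grp

variable {Ω : Type}

/-- the permutations that fix all points outside `D` -/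
def Sup (D : Set Ω) : Subgroup (FP Ω) where
  carrier := {s | ∀ a, a ∉ D → s.app a = a}
  one_mem' _ _ := rfl
  mul_mem' hs ht a ha := by rw [FP.app_mul, ht a ha, hs a ha]
  inv_mem' {s} hs a ha := s.app_injective (by rw [FP.app_app_inv, hs a ha])

theorem mem_Sup {D : Set Ω} {s : FP Ω} : s ∈ Sup D ↔ ∀ a, a ∉ D → s.app a = a := Iff.rfl

theorem Sup.maps {D : Set Ω} {s : FP Ω} (h : s ∈ Sup D) (a : Ω) : s.app a ∈ D ↔ a ∈ D :=
  ⟨fun h1 => by_contra fun h2 => h2 (h a h2 ▸ h1), fun h1 => by_contra fun h2 =>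
    h2 (by rw [s.app_injective (h _ h2)]; exact h1)⟩

theorem Sup.mono {D D' : Set Ω} (h : D ⊆ D') : Sup D ≤ Sup D' := fun _ hs a ha =>
  hs a fun h1 => ha (h h1)

/-- the ambient group -/
def W (c : Cx Ω) : Subgroup (FP Ω) := Sup {a | a ∈ c.2}

def COk (c : Cx Ω) : Prop := c.2.length * c.2.length ≤ c.1.length

/-- `f` solves the problem `(St, T)` for groups inside `A` and starting points in `X` -/
def Good (c : Cx Ω) (f : Sv Ω) (A : Subgroup (FP Ω)) (X : Set (FP Ω)) (St : Subgroup (FP Ω))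
    (T : Set (FP Ω)) : Prop :=
  ∀ S x, gen S ≤ W c ⊓ A → gen (f S x).1 = gen S ⊓ St ∧
    (x ∈ W c → x ∈ X → TOk (gen S) x T (f S x).2)

variable [DecidableEq Ω]

def cl (c : Cx Ω) (s : FP Ω) : FP Ω :=
  bif c.2.all (fun a => c.2.contains (s.app a)) then FP.ofList (c.2.map fun a => (a, s.app a))
  else 1
/-- a short list of generators -/
def red (c : Cx Ω) (S : List (FP Ω)) : List (FP Ω) := (sims c.1 c.2 S).map (cl c)
def clO (c : Cx Ω) (o : Out Ω) : Out Ω := (red c o.1, o.2.map (cl c))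
/-- the subgroup of a test -/
def sub (c : Cx Ω) (m : FP Ω → Bool) (S : List (FP Ω)) : List (FP Ω) :=
  red c ((schTriples (bfs c.1 m S) S).filter m)

def small (c : Cx Ω) (m q : FP Ω → Bool) : Sv Ω := fun S x =>
  (sub c m S, ((bfs c.1 m S).map fun t => x * t).find? q)

def seq2 (f g : Sv Ω) : Sv Ω := fun S x =>
  ((g (f S x).1 ((f S x).2.getD 1)).1, (f S x).2.bind fun h => (g (f S x).1 h).2)

def seqStep {τ : Type} (c : Cx Ω) (f : τ → Sv Ω) (s : Out Ω) (t : τ) : Out Ω :=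
  clO c ((f t s.1 (s.2.getD 1)).1, s.2.bind fun g => (f t s.1 g).2)
def seq {τ : Type} (c : Cx Ω) (f : τ → Sv Ω) (ts : List τ) : Sv Ω := fun S x =>
  ts.foldl (seqStep c f) (clO c (S, some x))

def uni {τ : Type} (f : τ → Sv Ω) (E E' : List τ) : Sv Ω := fun S x =>
  (E.flatMap (fun e => (f e S 1).1 ++ (f e S 1).2.toList),
    (E'.filterMap fun e => (f e S x).2).head?)

def cover (c : Cx Ω) (m : FP Ω → Bool) (f0 f : Sv Ω) : Sv Ω := fun S x =>
  ((f0 (sub c m S) 1).1 ++ (bfs c.1 m S).filterMap (fun t => (f0 (sub c m S) t).2),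
    ((bfs c.1 m S).filterMap fun t => (f (sub c m S) (x * t)).2).head?)

def del (y : List ℕ) (b : ℕ) : List ℕ := y.filter fun i => i != b
def look (tb : Tb Ω) (y : List ℕ) : Option (FP Ω) :=
  (tb.find? fun r => r.1 == y).bind fun r => r.2
def dpE (o : ℕ → List ℕ → ℕ → Sv Ω) (k : ℕ) (S : List (FP Ω)) (tb : Tb Ω) (y : List ℕ) :
    List (FP Ω) :=
  y.filterMap fun b => (look tb (del y b)).bind fun g => (o k y b S g).2
def dpRow (c : Cx Ω) (o : ℕ → List ℕ → ℕ → Sv Ω) (k : ℕ) (S : List (FP Ω)) (tb : Tb Ω)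
    (I : List ℕ) : Tb Ω :=
  (subl c.1 I).map fun y => (y, (dpE o k S tb y).head?.map (cl c))
def dpStep (c : Cx Ω) (o0 o : ℕ → List ℕ → ℕ → Sv Ω) (I I' : List ℕ)
    (s : List (FP Ω) × Tb Ω × Tb Ω) (k : ℕ) : List (FP Ω) × Tb Ω × Tb Ω :=
  (red c ((o0 k (I.take (k + 1)) k s.1 1).1 ++ dpE o0 k s.1 s.2.1 (I.take (k + 1))),
    dpRow c o0 k s.1 s.2.1 I, dpRow c o k s.1 s.2.2 I')
def dpRun (c : Cx Ω) (o0 o : ℕ → List ℕ → ℕ → Sv Ω) (I I' : List ℕ) (S : List (FP Ω))
    (x : FP Ω) : List (FP Ω) × Tb Ω × Tb Ω :=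
  I.foldl (dpStep c o0 o I I') (red c S, [([], some 1)], [([], some (cl c x))])
/-- dynamic programming over subsets -/
def dp (c : Cx Ω) (o0 o : ℕ → List ℕ → ℕ → Sv Ω) (I I' : List ℕ) : Sv Ω := fun S x =>
  ((dpRun c o0 o I I' S x).1, look (dpRun c o0 o I I' S x).2.2 I')
/-- multisets of points -/
def mset (c : Cx Ω) (p0 p : ℕ → ℕ → Sv Ω) (I I' : List ℕ) : Sv Ω :=
  dp c (fun k _ b => p0 k b) (fun k _ b => p k b) I I'

/-! ### dyadic trees -/

def stB (mv : ℕ → ℕ → FP Ω → Bool) (I : List ℕ) (s : FP Ω) : Bool :=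
  I.all fun i => I.any fun k => mv i k s
def kerP (c : Cx Ω) (mv : ℕ → ℕ → FP Ω → Bool) (kt : ℕ → FP Ω → Bool) (G : List (FP Ω))
    (I : List ℕ) : List (FP Ω) :=
  I.foldl (fun S i => sub c (kt i) (sub c (mv i i) S)) (red c G)
def h1 (I : List ℕ) : List ℕ := I.take ((I.length + 1) / 2)
def h2 (I : List ℕ) : List ℕ := I.drop ((I.length + 1) / 2)
def pinP (c : Cx Ω) (mv : ℕ → ℕ → FP Ω → Bool) (G : List (FP Ω)) (I : List ℕ) : List (FP Ω) :=
  sub c (stB mv (h2 I)) (sub c (stB mv (h1 I)) G)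
def exp1 (c : Cx Ω) (mv : ℕ → ℕ → FP Ω → Bool) (kt : ℕ → FP Ω → Bool) (n : Nd Ω) : List (Nd Ω) :=
  bif n.2.1 then [n] else
    [(n.1, true, kerP c mv kt n.2.2.1 n.2.2.2.2, pinP c mv n.2.2.1 n.2.2.2.2, []),
      (n.1 + 1, false, pinP c mv n.2.2.1 n.2.2.2.2, [], h1 n.2.2.2.2),
      (n.1 + 1, false, pinP c mv n.2.2.1 n.2.2.2.2, [], h2 n.2.2.2.2)]
def cls1 (c : Cx Ω) (mv : ℕ → ℕ → FP Ω → Bool) (kt : ℕ → FP Ω → Bool) (n : Nd Ω) :
    ℕ × List (FP Ω) × List (FP Ω) :=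
  bif n.2.1 then (n.1, n.2.2.1, n.2.2.2.1) else
    (n.1, kerP c mv kt n.2.2.1 n.2.2.2.2, kerP c mv kt n.2.2.1 n.2.2.2.2)
/-- the dyadic tree over the indices `I` -/
def treeP (c : Cx Ω) (mv : ℕ → ℕ → FP Ω → Bool) (kt : ℕ → FP Ω → Bool) (G : List (FP Ω))
    (I : List ℕ) : Fo Ω :=
  (I.length.bits.foldl (fun L _ => (L.flatMap (exp1 c mv kt)).take c.1.length)
    [(0, false, red c G, [], I)]).map (cls1 c mv kt)

end

/-! ### basic facts -/

section basic
variable {Ω : Type} {c : Cx Ω}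

instance (c : Cx Ω) : Finite (W c) := by
  have : Finite {a | a ∈ c.2} := (List.finite_toSet c.2).to_subtype
  refine Finite.of_injective (β := {a | a ∈ c.2} → {a | a ∈ c.2})
    (fun s a => ⟨s.1.app a, (Sup.maps s.2 _).2 a.2⟩) fun s t h => Subtype.ext (FP.ext fun a => ?_)
  by_cases ha : a ∈ c.2
  · exact congrArg Subtype.val (congrFun h ⟨a, ha⟩)
  · rw [s.2 a ha, t.2 a ha]

theorem Good.mono {f : Sv Ω} {A A' St St' : Subgroup (FP Ω)} {X X' T T' : Set (FP Ω)}
    (h : Good c f A X St T) (hA : W c ⊓ A' ≤ A) (hX : ∀ x ∈ W c, x ∈ X' → x ∈ X)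
    (hS : ∀ u ∈ W c ⊓ A', u ∈ St ↔ u ∈ St')
    (hT : ∀ x ∈ W c, x ∈ X' → ∀ u ∈ W c ⊓ A', x * u ∈ T ↔ x * u ∈ T') : Good c f A' X' St' T' :=
  fun S x hS' => by
    obtain ⟨a1, a2⟩ := h S x (le_inf (hS'.trans inf_le_left) (hS'.trans hA))
    refine ⟨a1.trans (Subgroup.ext fun u => and_congr_right fun hu => hS u (hS' hu)),
      fun hx hx' => ?_⟩
    have key : ∀ g, x⁻¹ * g ∈ gen S → (g ∈ T ↔ g ∈ T') := fun g hg => by
      simpa using hT x hx hx' _ (hS' hg)
    obtain ⟨b1, b2⟩ := a2 hx (hX x hx hx')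
    exact ⟨fun g hg => ⟨(b1 g hg).1, (key g (b1 g hg).1).1 (b1 g hg).2⟩,
      fun hn g hg hT' => b2 hn g hg ((key g hg).2 hT')⟩

variable [DecidableEq Ω]

theorem cl_mem (c : Cx Ω) (s : FP Ω) : cl c s ∈ W c := by
  unfold cl
  cases h : c.2.all (fun a => c.2.contains (s.app a))
  · exact one_mem _
  · refine fun a ha => FP.ofList_fix fun p hp => ?_
    obtain ⟨x, hx, rfl⟩ := List.mem_map.1 hp
    have := List.all_eq_true.1 h x hx
    rw [List.contains_iff_mem] at this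
    exact ⟨fun e => ha (e ▸ hx), fun e => ha (e ▸ this)⟩

theorem cl_eq {s : FP Ω} (h : s ∈ W c) : cl c s = s := FP.ext fun a => by
  by_cases ha : a ∈ c.2
  · have : c.2.all (fun a => c.2.contains (s.app a)) = true :=
      List.all_eq_true.2 fun x hx => List.contains_iff_mem.2 ((Sup.maps h x).2 hx)
    rw [cl, this, cond_true]
    exact FP.ofList_map (fun _ _ _ _ e => s.app_injective e) ha
  · rw [cl_mem c s a ha, h a ha]

theorem red_le (c : Cx Ω) (S : List (FP Ω)) : gen (red c S) ≤ W c := gen_le.2 fun x hx => by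
  obtain ⟨y, -, rfl⟩ := List.mem_map.1 hx
  exact cl_mem c y

theorem gen_red (hc : COk c) {S : List (FP Ω)} (h : gen S ≤ W c) : gen (red c S) = gen S := by
  have h1 : red c S = sims c.1 c.2 S := by
    exact (List.map_congr_left (g := id) fun x hx => cl_eq (h (sims_mem hx))).trans (List.map_id _)
  rw [h1]
  refine simsLemma _ _ _ _ _ c.2.length (fun u hu hb => FP.ext fun a => ?_)
    (fun b hb => ⟨c.2.toFinset, List.toFinset_card_le _, fun u hu =>
      List.mem_toFinset.2 ((Sup.maps (h hu) b).2 hb)⟩) hc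
  by_cases ha : a ∈ c.2
  · exact hb a ha
  · exact h hu a ha

/-- representatives and generators for the subgroup of a test -/
theorem sub_spec (hc : COk c) {m : FP Ω → Bool} {S : List (FP Ω)} {Q : Subgroup (FP Ω)}
    (h : gen S ≤ W c) (hm : ∀ u ∈ gen S, m u = true ↔ u ∈ Q)
    (hi : Q.relIndex (gen S) ≤ c.1.length) :
    gen (sub c m S) = gen S ⊓ Q ∧ (∀ t ∈ bfs c.1 m S, t ∈ gen S) ∧
      ∀ u ∈ gen S, ∃ t ∈ bfs c.1 m S, t⁻¹ * u ∈ gen S ⊓ Q := by
  have : Finite (gen S) := finite_of_le h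
  obtain ⟨a1, a2, a3⟩ := TowerA.bfs_spec (m := m) (S := S) (pad := c.1)
    ((hm 1 (one_mem _)).2 (one_mem _))
    (fun u hu v hv h1 h2 => (hm _ (mul_mem (inv_mem hu) hv)).2
      (mul_mem (inv_mem ((hm u hu).1 h1)) ((hm v hv).1 h2))) fun l hl hp => by
      classical
      refine le_trans ?_ hi
      have := Fintype.ofFinite (gen S ⧸ Q.subgroupOf (gen S))
      rw [Subgroup.relIndex, Subgroup.index, Nat.card_eq_fintype_card, ← Finset.card_univ,
        ← Finset.length_toList]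
      refine length_le_of_invariant (fun a => if h : a ∈ gen S then
        (QuotientGroup.mk ⟨a, h⟩ : gen S ⧸ Q.subgroupOf (gen S)) else QuotientGroup.mk 1) _
        (fun _ _ => Finset.mem_toList.2 (Finset.mem_univ _)) hp fun a ha b hb e hab => ?_
      rw [dif_pos (hl a ha), dif_pos (hl b hb)] at e
      have h3 := (hm _ (mul_mem (inv_mem (hl a ha)) (hl b hb))).2
        (Subgroup.mem_subgroupOf.1 (QuotientGroup.eq.1 e))
      rw [hab] at h3
      exact Bool.false_ne_true h3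
  obtain ⟨c1, c2⟩ := schreier (V := gen S ⊓ Q) (q := m) a1 a2 inf_le_left
    (fun x hx => (hm x hx).trans ⟨fun h => ⟨hx, h⟩, fun h => h.2⟩) fun r hr s hs => by
      obtain ⟨r', hr', h1⟩ := a3 s hs r hr
      have h2 := mul_mem (mul_mem (inv_mem (a2 r' hr'))
        (hs.elim mem_gen fun h => (inv_mem_iff).1 (mem_gen h))) (a2 r hr)
      exact ⟨r', hr', h2, (hm _ h2).1 (by rwa [mul_assoc])⟩
  exact ⟨by rw [sub, gen_red hc (c1 ▸ inf_le_left.trans h), c1], a2, c2⟩

omit [DecidableEq Ω] in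
theorem idx_mono {Q K L : Subgroup (FP Ω)} (h : K ≤ L) (hL : L ≤ W c) :
    Q.relIndex K ≤ Q.relIndex L := by
  have : Finite L := finite_of_le hL
  exact Subgroup.relIndex_le_of_le_right h Subgroup.index_ne_zero_of_finite

theorem good_small (hc : COk c) {m q : FP Ω → Bool} {A St : Subgroup (FP Ω)} {X T : Set (FP Ω)}
    (hm : ∀ u ∈ W c ⊓ A, m u = true ↔ u ∈ St) (hq : ∀ g ∈ W c, g ∈ X → (q g = true ↔ g ∈ T))
    (h1 : Rc A X St T) (h2 : Cl A X) (hi : St.relIndex (W c ⊓ A) ≤ c.1.length) :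
    Good c (small c m q) A X St T := fun S x hS => by
  obtain ⟨a1, a2, a3⟩ := sub_spec hc (hS.trans inf_le_left) (fun u hu => hm u (hS hu))
    ((idx_mono hS inf_le_left).trans hi)
  refine ⟨a1, fun hx hx' => ⟨fun g hg => ?_, fun hn g hg hT => ?_⟩⟩
  · obtain ⟨t, ht, rfl⟩ := List.mem_map.1 (List.mem_of_find?_eq_some hg)
    have := hS (a2 t ht)
    exact ⟨by simpa using a2 t ht,
      (hq _ (mul_mem hx this.1) (h2 x hx' t this.2)).1 (List.find?_some hg)⟩
  · obtain ⟨t, ht, h3⟩ := a3 _ hg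
    have := hS (a2 t ht)
    refine List.find?_eq_none.1 hn (x * t) (List.mem_map_of_mem ht)
      ((hq _ (mul_mem hx this.1) (h2 x hx' t this.2)).2 ?_)
    have h4 := (h1 g (by simpa using h2 x hx' _ (hS hg).2) hT _ (A.inv_mem (hS h3.1).2)).2
      (St.inv_mem h3.2)
    simpa [mul_assoc] using h4

theorem cl_app {s : FP Ω} (h : ∀ a ∈ c.2, s.app a ∈ c.2) {a : Ω} (ha : a ∈ c.2) :
    (cl c s).app a = s.app a := by
  have : c.2.all (fun a => c.2.contains (s.app a)) = true :=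
    List.all_eq_true.2 fun x hx => List.contains_iff_mem.2 (h x hx)
  rw [cl, this, cond_true]
  exact FP.ofList_map (fun _ _ _ _ e => s.app_injective e) ha

end basic

end Pool.Agent.P.MP_f1a348_lc.AL
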