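import Pool.Agent.P.MP_f1a348_lc.AL.Iface

/-!
Project AL: centralisers and conjugacy in the group that permutes the atoms.
-/

namespace Pool.Agent.P.MP_f1a348_lc.AL

open Pool.Agent.P.MP_f1a348_lc.GI hiding Nm Good
open Pool.Agent.P.MP_f1a348_lc.UP (Rec up topI SolvMod Nm der)
open Pool.Agent.P.MP_f1a348_lc.FA (Cls Sub MaxN)
open Pool.Agent.Lib.Helper47
open scoped commutatorElement Pointwise
open MulAction (stabilizer)

namespace Centy

theorem res_iff {Ω : Type} {s y y' : FP Ω} {X X' : Set Ω} : s • Res y X = Res y' X' ↔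
    Mp s X X' ∧ ∀ x ∈ X, s.app (y.app x) = y'.app (s.app x) := by
  have key : ∀ a b : Ω, (s.app a, s.app b) ∈ s • Res y X ↔ a ∈ X ∧ y.app a = b := fun a b =>
    Set.smul_mem_smul_set_iff (a := s) (x := (a, b))
  constructor
  · intro e
    have h1 : ∀ x ∈ X, s.app x ∈ X' ∧ y'.app (s.app x) = s.app (y.app x) := fun x hx =>
      (e ▸ (key x _).2 ⟨hx, rfl⟩ : (s.app x, s.app (y.app x)) ∈ Res y' X')
    refine ⟨fun x => ⟨fun hx => ?_, fun hx => (h1 x hx).1⟩, fun x hx => (h1 x hx).2.symm⟩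
    refine ((key x (s⁻¹.app (y'.app (s.app x)))).1 ?_).1
    rw [e, FP.app_app_inv]
    exact ⟨hx, rfl⟩
  · rintro ⟨h1, h2⟩
    ext ⟨a, b⟩
    rw [← s.app_app_inv a, ← s.app_app_inv b, key]
    generalize s⁻¹.app a = u
    generalize s⁻¹.app b = v
    exact ⟨fun h => ⟨(h1 u).2 h.1, by rw [← h2 u h.1, h.2]⟩, fun h =>
      ⟨(h1 u).1 h.1, s.app_injective ((h2 u ((h1 u).1 h.1)).trans h.2)⟩⟩

theorem resB_iff {Ω : Type} [DecidableEq Ω] {s y y' : FP Ω} {X X' : List Ω} {A A' : Set Ω}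
    (h : ∀ x, x ∈ X ↔ x ∈ A) (h' : ∀ x, x ∈ X' ↔ x ∈ A') :
    resB y X y' X' s = true ↔ s • Res y A = Res y' A' := by
  rw [resB, Bool.and_eq_true, imB_iff h h', res_iff]
  simp only [List.all_eq_true, beq_iff_eq, h]

end Centy

open Centy in
theorem a_CENT (hb : S_BB) (hm : S_MSET) : S_CENT := by
  intro U _ _ c Ts D T t d bx y hy y' hy'
  obtain ⟨-, b2, b3, b4, -, b6⟩ := hb U c Ts D T t d bx
  have pt : ∀ z : FP U, ∀ k < t, ∀ b < t, Good c (resS c Ts y z k b) (GG T t) (GG T t)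
      (stabilizer (FP U) (Res y (T k : Set U))) {g | g • Res y (T k : Set U) = Res z (T b)} := by
    intro z k hk b hb
    refine good_small bx.ok (fun u _ => resB_iff (bx.rep k hk).mem (bx.rep k hk).mem)
      (fun g _ _ => resB_iff (bx.rep k hk).mem (bx.rep b hb).mem) ((cs_smul _ _).rc _ _)
      (cl_self _) ?_
    obtain ⟨e, he, hi⟩ := hy.2.1 k hk
    have : Finite (W c ⊓ GG T t : Subgroup (FP U)) := finite_of_le inf_le_left
    refine (Subgroup.relIndex_le_of_le_left (H := Fix (T k : Set U) ⊓ Fix (T e : Set U))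
      (fun u hu => res_iff.2 ⟨fun x => ⟨fun hx => ?_, fun hx => ?_⟩, fun x hx => ?_⟩)
      Subgroup.index_ne_zero_of_finite).trans ((idx_mono inf_le_right b2).trans (b4 k hk e he))
    · rwa [u.app_injective (hu.1 _ hx)] at hx
    · rwa [hu.1 x hx]
    · rw [hu.1 x hx, hu.2 _ ((hi.maps x).2 hx)]
  have key : ∀ z ∈ GG T t, ∀ s ∈ GG T t,
      s ∈ PTr (FP U) ((List.range t).map fun k => Res y (T k : Set U))
        ((List.range t).map fun k => Res z (T k : Set U)) ↔ s * y * s⁻¹ = z := by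
    intro z hz s hs
    rw [mul_inv_eq_iff_eq_mul]
    refine ⟨fun h => FP.ext fun x => ?_, fun h => b6 _ _ _ s hs fun i _ k _ hik =>
      res_iff.2 ⟨hik, fun x _ => congrArg (fun u : FP U => u.app x) h⟩⟩
    by_cases hx : x ∈ Om T t
    · obtain ⟨i, hi, hx⟩ := hx
      obtain ⟨k, -, e⟩ := List.mem_map.1 ((List.Perm.mem_iff h).1 (List.mem_map_of_mem
        (List.mem_map_of_mem (List.mem_range.2 hi))))
      exact (res_iff.1 e.symm).2 x hx
    · rw [FP.app_mul, FP.app_mul, hy.1 x hx, hs.1 x hx, hz.1 x hx]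
  rw [centP, bx.len]
  refine (hm U _ c _ _ t t _ _ _ _ bx.ok b3 b3 (cl_self _) (pt y) (pt y')).mono inf_le_right
    (fun _ _ h => h) (fun u hu => ?_) (fun x _ hx u hu => key y' hy' _ (mul_mem hx hu.2))
  rw [Subgroup.mem_centralizer_singleton_iff, ← mul_inv_eq_iff_eq_mul]
  exact key y hy u hu.2

end Pool.Agent.P.MP_f1a348_lc.AL
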