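import Pool.Agent.P.MP_f1a348_lc.AL.Iface

/-!
Project AL: the group `T₁` permutes the atoms of the certificate.
-/

namespace Pool.Agent.P.MP_f1a348_lc.AL

open Pool.Agent.P.MP_f1a348_lc.GI hiding Nm Good
open Pool.Agent.P.MP_f1a348_lc.UP (Rec up topI SolvMod Nm der)
open scoped commutatorElement Pointwise
open MulAction (stabilizer)

namespace Cpermy

variable {U : Type} [Group U] {G R Z A B X : Subgroup U} {O : ℕ → Subgroup U} {r d n : ℕ}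
  {p : ℕ → ℕ} {TT : List (Subgroup U)} {H : Subgroup (FP U)} {s : FP U}

theorem mp (h : Inv H X) (hs : s ∈ H) : Mp s X X := fun x =>
  ⟨fun hx => by simpa using h _ (H.inv_mem hs) _ hx, h s hs x⟩

theorem nrm (h : Nm G X) {g : U} (hg : g ∈ G) : g ∈ Subgroup.normalizer (X : Set U) := fun y =>
  ⟨h g hg y, fun hy => by simpa [mul_assoc] using h _ (G.inv_mem hg) _ hy⟩

theorem bb (h : CX G O r p R TT Z A d n) (hB : B ∈ BB O Z) :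
    O 1 ≤ B ∧ A ≤ Subgroup.normalizer (B : Set U) ∧ O 1 ≤ A ⊓ cenM B A := by
  obtain ⟨j, hj1, v, hv, e⟩ := hB
  have a1 : O 1 ≤ B := fun x hx => e ▸ ⟨h.za.FZ hx, nrm (h.ser.nml _) (h.ser.leG 1 hx),
    fun w hw => hw ▸ h.ser.cen j hj1 x hx v hv.1⟩
  have a2 : A ≤ Subgroup.normalizer (B : Set U) :=
    Subgroup.le_normalizer_iff_commutator_le_right.2
      (((Subgroup.commutator_mono le_rfl (e ▸ inf_le_left : B ≤ Z)).trans h.za.az).trans a1)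
  exact ⟨a1, a2, fun z hz => ⟨h.za.le (h.za.FZ hz), a2 (h.za.le (h.za.FZ hz)),
    fun a ha => a1 (h.za.az (Subgroup.commutator_comm Z A ▸
      Subgroup.commutator_mem_commutator (h.za.FZ hz) ha))⟩⟩

end Cpermy

open Cpermy in
theorem a_CPERM (hj : S_CJ) : S_CPERM := by
  intro U _ G O r p R TT Z A d n h s hs t ht
  have cj := (hj U G O r p h.ser).2.2.2.2.2 s hs
  have hAG : A ≤ G := h.za.AR.trans h.rd.le
  have hZG : Z ≤ G := h.za.le.trans hAG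
  have h0 := h.ser.zero
  have mZ := mp h.za.iZ hs
  have mA := mp h.za.iA hs
  have mR := mp h.rd.inv hs
  refine ⟨?_, fun t' e u hu => ?_⟩
  · rcases ht with ⟨T, hT, rfl⟩ | ⟨B, hB, rfl⟩
    · obtain ⟨T', a1, a2⟩ := h.rd.aut s hs T hT
      exact ⟨(T', R, R), .inl ⟨T', a1, rfl⟩, Prod.ext (smul_eq_iff_mp.2 a2)
        (Prod.ext (smul_eq_iff_mp.2 mR) (smul_eq_iff_mp.2 mR))⟩
    obtain ⟨j, hj1, v, hv, e⟩ := id hB
    have c1 : ∀ z ∈ Z, ⁅s.app z, s.app v⁆ ∈ O (j + 1) ↔ ⁅z, v⁆ ∈ O (j + 1) := fun z hz => by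
      rw [← (cj j z (hZG hz) v hv.1).2.2.mem_iff le_rfl, hs.2.maps]
    have hB' : Z ⊓ cenM (O (j + 1)) {s.app v} ∈ BB O Z := by
      refine ⟨j, hj1, s.app v, ⟨(hs.2.maps j v).2 hv.1, fun e => hv.2.1 ((hs.2.maps _ v).1 e),
        fun z' hz' => ?_⟩, rfl⟩
      obtain ⟨z, hz, rfl⟩ := mZ.surj hz'
      refine (hv.2.2 z hz).imp (c1 z hz).2 fun ⟨w, hw, e1⟩ => ⟨s.app w, (hs.2.maps j w).2 hw, ?_⟩
      have b1 : ⁅z, w⁆ ∈ G := Subgroup.commutator_le_self G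
        (Subgroup.commutator_mem_commutator (hZG hz) (h.ser.leG j hw))
      exact ((hs.2.pv _ v (h0 ▸ h.ser.leG j hv.1) _ (h0 ▸ b1)).2 e1).trans
        (cj j z (hZG hz) w hw).2.2
    have mB : Mp s B (Z ⊓ cenM (O (j + 1)) {s.app v} : Subgroup U) := fun z => by
      rw [e]
      exact ⟨fun hz => have hz' := (mZ z).1 hz.1
          ⟨hz', nrm (h.ser.nml _) (hZG hz'), fun w hw => hw ▸ (c1 z hz').1 (hz.2.2 _ rfl)⟩,
        fun hz => ⟨(mZ z).2 hz.1, nrm (h.ser.nml _) (hZG ((mZ z).2 hz.1)),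
          fun w hw => hw ▸ (c1 z hz.1).2 (hz.2.2 _ rfl)⟩⟩
    generalize Z ⊓ cenM (O (j + 1)) {s.app v} = B' at hB' mB
    have c2 : ∀ a ∈ A, ∀ b ∈ A, ⁅s.app a, s.app b⁆ ∈ B' ↔ ⁅a, b⁆ ∈ B := fun a ha b hb => by
      rw [← (cj 0 a (hAG ha) b (h0 ▸ hAG hb)).2.2.mem_iff (bb h hB').1]
      exact mB _
    refine ⟨(A, A ⊓ cenM B' A, B'), .inr ⟨B', hB', rfl⟩, Prod.ext (smul_eq_iff_mp.2 mA)
      (Prod.ext (smul_eq_iff_mp.2 fun a => ?_) (smul_eq_iff_mp.2 mB))⟩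
    exact ⟨fun ha => have ha' := (mA a).1 ha.1
        ⟨ha', (bb h hB).2.1 ha', fun b hb => (c2 a ha' b hb).1 (ha.2.2 _ ((mA b).2 hb))⟩,
      fun ha => ⟨(mA a).2 ha.1, (bb h hB').2.1 ((mA a).2 ha.1), fun b' hb' => by
        obtain ⟨b, hb, rfl⟩ := mA.surj hb'
        exact (c2 a ha.1 b hb).2 (ha.2.2 b hb)⟩⟩
  · have a0 : t.1 ≤ G ∧ t.2.1 ≤ G ∧ O 1 ≤ t.2.1 := by
      rcases ht with ⟨T, hT, rfl⟩ | ⟨B, hB, rfl⟩
      · exact ⟨(h.rd.sub T hT).1, h.rd.le, h.za.FZ.trans (h.za.le.trans h.za.AR)⟩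
      · exact ⟨hAG, inf_le_left.trans hAG, (bb h hB).2.2⟩
    have m1 : Mp s t.1 t'.1 := smul_eq_iff_mp.1 (congrArg Prod.fst e)
    have m2 : Mp s t.2.1 t'.2.1 := smul_eq_iff_mp.1 (congrArg (fun q => q.2.1) e)
    have a1 : O 1 ≤ t'.2.1 := fun y hy => by
      obtain ⟨x, hx, rfl⟩ := (hs.2.mp 1).surj hy
      exact (m2 x).2 (a0.2.2 hx)
    refine ⟨?_, (m1.mul hu.2.2.1).mul m1.inv, fun y hy => ?_⟩
    · change (s * u * s⁻¹) • pt3 t' = pt3 t'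
      rw [← e, mul_smul, inv_smul_smul, mul_smul, show u • pt3 t = pt3 t from hu.2.1]
    obtain ⟨x, hx, rfl⟩ := m1.surj hy
    obtain ⟨v, hv, e1⟩ := (hu.2.2.2 x hx).exists_eq
    rw [FP.app_mul, FP.app_mul, FP.app_inv_app, e1]
    exact (Cg.mul_mem ((m2 v).2 hv) _).trans ((hs.2.mul 0 x (h0 ▸ a0.1 hx) v (h0 ▸ a0.2.1 hv)
      (.inl (h0 ▸ a0.1 hx))).mono a1).symm

end Pool.Agent.P.MP_f1a348_lc.AL
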