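import Pool.Agent.P.MP_f1a348_lc.AL.Iface

/-!
Project AL: the shifts of cosets generate the kernel of the action on the layers.
-/

namespace Pool.Agent.P.MP_f1a348_lc.AL

open Pool.Agent.P.MP_f1a348_lc.GI hiding Nm Good
open Pool.Agent.P.MP_f1a348_lc.UP (Rec up topI SolvMod Nm der)
open Pool.Agent.P.MP_f1a348_lc.FA (Cls Sub MaxN)
open Pool.Agent.Lib.Helper47
open scoped commutatorElement Pointwise
open MulAction (stabilizer)

namespace Gency

variable {U : Type} [Group U]

/-- `s` is the shift by `u` on the coset `c L` -/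
structure Sh (s : FP U) (L : Subgroup U) (c u : U) : Prop where
  yes : ∀ x, Cg L c x → s.app x = x * u
  no : ∀ x, ¬ Cg L c x → s.app x = x

theorem sh_shP [DecidableEq U] {Y Ol : List U} {G L : Subgroup U} {c u : U} (hY : Rep Y G)
    (hL : Rep Ol L) (hle : L ≤ G) (hc : c ∈ G) (hu : u ∈ L) : Sh (shP Y Ol c u) L c u := by
  have e1 : ∀ x, Cg L c x → (bif Ol.contains (c⁻¹ * x) then x * u else x) = x * u := by
    intro x hx
    have : Ol.contains (c⁻¹ * x) = true := by simpa using (hL.mem _).2 hx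
    rw [this]; rfl
  have e2 : ∀ x, ¬ Cg L c x → (bif Ol.contains (c⁻¹ * x) then x * u else x) = x := by
    intro x hx
    have : Ol.contains (c⁻¹ * x) = false := by simpa using fun h => hx ((hL.mem _).1 h)
    rw [this]; rfl
  have e3 : ∀ a ∈ G, (shP Y Ol c u).app a = (bif Ol.contains (c⁻¹ * a) then a * u else a) := by
    intro a ha
    refine FP.ofList_map (f := fun x => bif Ol.contains (c⁻¹ * x) then x * u else x)
      (fun a _ b _ e => ?_) ((hY.mem a).2 ha)
    by_cases h1 : Cg L c a <;> by_cases h2 : Cg L c b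
    · rw [e1 a h1, e1 b h2] at e; exact mul_right_cancel e
    · rw [e1 a h1, e2 b h2] at e; exact (h2 (e ▸ h1.trans (Cg.mul_mem hu a))).elim
    · rw [e2 a h1, e1 b h2] at e; exact (h1 (e ▸ h2.trans (Cg.mul_mem hu b))).elim
    · rwa [e2 a h1, e2 b h2] at e
  refine ⟨fun x hx => by rw [e3 x ((hx.mem_iff hle).1 hc), e1 x hx], fun x hx => ?_⟩
  by_cases hG : x ∈ G
  · rw [e3 x hG, e2 x hx]
  · refine FP.ofList_fix fun p hp => ?_
    obtain ⟨y, hy, rfl⟩ := List.mem_map.1 hp
    have hy := (hY.mem y).1 hy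
    refine ⟨fun e => hG (e ▸ hy), fun e => hG ?_⟩
    rw [← e]
    by_cases h : Cg L c y
    · rw [e1 y h]; exact mul_mem hy (hle hu)
    · rw [e2 y h]; exact hy

variable {G : Subgroup U} {O : ℕ → Subgroup U} {r j : ℕ} {p : ℕ → ℕ} {s : FP U} {c u : U}

theorem Sh.cg {L : Subgroup U} (h : Sh s L c u) (hu : u ∈ L) (x : U) : Cg L x (s.app x) := by
  by_cases hx : Cg L c x
  · rw [h.yes x hx]; exact Cg.mul_mem hu x
  · rw [h.no x hx]; exact Cg.refl x

theorem Sh.fix {L : Subgroup U} (h : Sh s L c u) (hc : c ∉ L) {x : U} (hx : x ∈ L) :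
    s.app x = x := h.no x fun e => hc ((e.mem_iff le_rfl).2 hx)

theorem nmO (hS : Ser G O r p) (i : ℕ) {g : U} (hg : g ∈ G) : GI.Nm (O i) g := fun e he => by
  simpa using hS.nml i _ (inv_mem hg) e he

theorem swap (hS : Ser G O r p) {i : ℕ} (hi : 1 ≤ i) {x y : U} (hx : x ∈ O 1) (hy : y ∈ O i) :
    Cg (O (i + 1)) (y * x) (x * y) := by
  have := hS.cen i hi _ (inv_mem hx) _ (inv_mem hy)
  simpa [Cg, commutatorElement_def, mul_assoc] using this

theorem Sh.mp (h : Sh s (O j) c u) (hS : Ser G O r p) (hc : c ∉ O j) (hu : u ∈ O j) (i : ℕ) :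
    Mp s (O i) (O i) := by
  intro x
  rcases le_total i j with hi | hi
  · exact ((h.cg hu x).mem_iff (hS.le hi)).symm
  · by_cases hx : x ∈ O j
    · rw [h.fix hc hx]
    · exact iff_of_false (fun e => hx (((h.cg hu x).mem_iff le_rfl).2 (hS.le hi e)))
        fun e => hx (hS.le hi e)

theorem Sh.fx (h : Sh s (O j) c u) (hS : Ser G O r p) (hc : c ∉ O j) (hu : u ∈ O j) (i : ℕ) :
    s ∈ Fx (O i) (O (i + 1)) := by
  refine ⟨h.mp hS hc hu i, fun x hx => ?_⟩
  rcases le_or_gt j i with hi | hi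
  · rw [h.fix hc (hS.le hi hx)]; exact Cg.refl x
  · exact (h.cg hu x).mono (hS.le hi)

theorem Sh.tg (h : Sh s (O j) c u) (hS : Ser G O r p) (hj : 1 ≤ j) (hG : c ∈ G) (hc : c ∉ O j)
    (hu : u ∈ O j) : s ∈ TG O := by
  have h0 := hS.zero
  have huG := hS.leG j hu
  refine ⟨fun a ha => h.no a fun e => ha ?_, h.mp hS hc hu, fun i x hx y hy => ?_,
    fun i x hx y hy hxy => ?_⟩
  · exact h0 ▸ (e.mem_iff (hS.leG j)).1 hG
  · rcases le_total i j with hi | hi
    · have hx' := (h.cg hu x).mono (hS.le hi)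
      have hy' := (h.cg hu y).mono (hS.le hi)
      exact ⟨fun e => (hx'.trans e).trans hy'.symm, fun e => (hx'.symm.trans e).trans hy'⟩
    · by_cases e : Cg (O j) x y
      · by_cases h1 : Cg (O j) c x
        · rw [h.yes x h1, h.yes y (h1.trans e)]
          refine ⟨fun e' => ?_, fun e' => e'.right (nmO hS i huG)⟩
          simpa using e'.right (nmO hS i (inv_mem huG))
        · rw [h.no x h1, h.no y fun h2 => h1 (h2.trans e.symm)]
      · exact iff_of_false
          (fun e' => e (((h.cg hu x).trans (e'.mono (hS.le hi))).trans (h.cg hu y).symm))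
          fun e' => e (e'.mono (hS.le hi))
  · rcases le_or_gt j i with hi | hi
    · rcases hxy with hi' | hi'
      · have hxj := hS.le hi hi'
        have e : Cg (O j) y (x * y) := by
          simpa using (Cg.one_iff.2 hxj).right (nmO hS j (h0 ▸ hy))
        rw [h.fix hc hxj]
        by_cases h1 : Cg (O j) c y
        · rw [h.yes y h1, h.yes _ (h1.trans e), mul_assoc]; exact Cg.refl _
        · rw [h.no y h1, h.no _ fun h2 => h1 (h2.trans e.symm)]; exact Cg.refl _
      · have hyj := hS.le hi hi'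
        have e : Cg (O j) x (x * y) := Cg.mul_mem hyj x
        rw [h.fix hc hyj]
        by_cases h1 : Cg (O j) c x
        · rw [h.yes x h1, h.yes _ (h1.trans e), mul_assoc, mul_assoc]
          exact (swap hS (hj.trans hi) (hS.le hj hu) hi').left x
        · rw [h.no x h1, h.no _ fun h2 => h1 (h2.trans e.symm)]; exact Cg.refl _
    · have e := fun z => (h.cg hu z).mono (hS.le hi)
      exact (e _).symm.trans ((e x).mul (nmO hS _ (h0 ▸ hy)) (e y))

theorem step {H : Subgroup (FP U)} (hS : Ser G O r p) (hj : 1 ≤ j)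
    (hH : ∀ c ∈ G, c ∉ O j → ∀ u ∈ O j, ∃ s ∈ H, Sh s (O j) c u)
    (ih : ∀ h ∈ TG O, (∀ i, h ∈ Fx (O i) (O (i + 1))) →
      (∀ x ∈ G, Cg (O (j + 1)) x (h.app x)) → h ∈ H) (n : ℕ) :
    ∀ h ∈ TG O, (∀ i, h ∈ Fx (O i) (O (i + 1))) → (∀ x ∈ G, Cg (O j) x (h.app x)) →
      {x | x ∈ G ∧ ¬ Cg (O (j + 1)) x (h.app x)}.ncard < n → h ∈ H := by
  have h0 := hS.zero
  have := hS.fin
  induction n with
  | zero => exact fun _ _ _ _ hn => absurd hn (Nat.not_lt_zero _)
  | succ n ihn =>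
    intro h hT hF hC hn
    by_cases hall : ∀ x ∈ G, Cg (O (j + 1)) x (h.app x)
    · exact ih h hT hF hall
    push Not at hall
    obtain ⟨c, hG, hb⟩ := hall
    have hc : c ∉ O j := fun e => hb ((hF j).2 c e)
    have hu : c⁻¹ * h.app c ∈ O j := hC c hG
    obtain ⟨s, hs, sh⟩ := hH c hG hc _ hu
    have sT := sh.tg hS hj hG hc hu
    have sG : ∀ x ∈ G, s.app x ∈ O 0 := fun x hx => (sT.2.maps 0 x).2 (h0 ▸ hx)
    have hG' : ∀ x ∈ G, h.app x ∈ O 0 := fun x hx => (hT.2.maps 0 x).2 (h0 ▸ hx)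
    have key : ∀ i, ∀ x ∈ G, Cg (O i) x ((s⁻¹ * h).app x) ↔ Cg (O i) (s.app x) (h.app x) := by
      intro i x hx
      have := (inv_mem sT).2.pv i _ (sG x hx) _ (hG' x hx)
      rwa [FP.app_inv_app] at this
    have good : ∀ x, Cg (O j) c x → Cg (O (j + 1)) (s.app x) (h.app x) := by
      intro x hx
      obtain ⟨y, hy, rfl⟩ := hx.exists_eq
      have e1 := hT.2.mul j c (h0 ▸ hG) y (h0 ▸ hS.leG j hy) (.inr hy)
      have e2 := ((hF j).2 y hy).left (h.app c)
      have e3 := (swap hS hj (hS.le hj hu) hy).left c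
      rw [sh.yes _ hx, mul_assoc]
      rw [← mul_assoc c _ y, mul_inv_cancel_left] at e3
      exact (e3.trans e2).trans e1.symm
    have h' : s⁻¹ * h ∈ H := by
      refine ihn _ (mul_mem (inv_mem sT) hT)
        (fun i => mul_mem (inv_mem (sh.fx hS hc hu i)) (hF i))
        (fun x hx => (key j x hx).2 ((sh.cg hu x).symm.trans (hC x hx))) ?_
      refine lt_of_lt_of_le (Set.ncard_lt_ncard ?_ ?_) (Nat.le_of_lt_succ hn)
      swap
      · exact (Set.toFinite (G : Set U)).subset fun x hx => hx.1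
      refine ⟨fun x hx => ⟨hx.1, fun e => hx.2 ?_⟩, fun hsub => ?_⟩
      · rw [key _ x hx.1]
        by_cases h1 : Cg (O j) c x
        · exact good x h1
        · rwa [sh.no x h1]
      · exact (hsub ⟨hG, hb⟩).2 ((key _ c hG).2 (good c (Cg.refl c)))
    simpa using mul_mem hs h'

end Gency

theorem a_GENC : S_GENC := by
  intro U _ _ Os G O r p H hS hR hl hH
  have h0 := hS.zero
  have main : ∀ k j, 1 ≤ j → r ≤ j + k → ∀ h ∈ TG O, (∀ i, h ∈ Fx (O i) (O (i + 1))) →
      (∀ x ∈ G, Cg (O j) x (h.app x)) → h ∈ H := by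
    have base : ∀ j, r ≤ j → ∀ h ∈ TG O, (∀ x ∈ G, Cg (O j) x (h.app x)) → h ∈ H := by
      intro j hj h hT hC
      have : h = 1 := FP.ext fun x => by
        by_cases hx : x ∈ G
        · have := hC x hx
          rw [Cg, hS.bot j hj, Subgroup.mem_bot, inv_mul_eq_one] at this
          exact this.symm
        · exact hT.1 x (h0 ▸ hx)
      exact this ▸ one_mem H
    intro k
    induction k with
    | zero => exact fun j _ hj h hT _ hC => base j hj h hT hC
    | succ k ih =>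
      intro j hj hr h hT hF hC
      by_cases hjr : r ≤ j
      · exact base j hjr h hT hC
      refine Gency.step hS hj (fun c hG hc u hu => ?_) (ih (j + 1) (by omega) (by omega)) _ h hT hF
        hC (Nat.lt_succ_self _)
      have sh := Gency.sh_shP (hR 0) (hR j) (hS.le (Nat.zero_le j)) (h0 ▸ hG) hu
      refine ⟨_, hH _ ?_ (sh.tg hS hj hG hc hu), sh⟩
      refine List.mem_flatMap.2 ⟨j, mem_lays.2 ⟨hj, by omega⟩, List.mem_map.2 ⟨(c, u), ?_, rfl⟩⟩
      exact mem_prodL.2 ⟨((hR 0).mem c).2 (h0 ▸ hG), ((hR j).mem u).2 hu⟩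
  exact fun h hT hF => main r 1 le_rfl (by omega) h hT hF fun x hx => (hF 0).2 x (h0 ▸ hx)

end Pool.Agent.P.MP_f1a348_lc.AL
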