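import Pool.Agent.P.MP_f1a348_lc.AL.Iface

/-! Project AL: partners of independent lists. -/

namespace Pool.Agent.P.MP_f1a348_lc.AL

open Pool.Agent.P.MP_f1a348_lc.GI hiding Nm Good

namespace Party

variable {U : Type} [Group U]

/-- `V` matches `W` with `W'` -/
structure Mt (V : Subgroup (U × U)) (W W' : Subgroup U) : Prop where
  ker : ∀ p ∈ V, p.1 ∈ W ↔ p.2 ∈ W'
  fst : ∀ x ∈ W, ∃ p ∈ V, p.1 = x
  snd : ∀ x ∈ W', ∃ p ∈ V, p.2 = x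

theorem step {y y' : Ly U} {a : FP U} {V : Subgroup (U × U)} {W W' : Subgroup U} {p : U × U}
    (h : y.Ok) (h' : y'.Ok) (ha : IsoP y.Q y'.Q a) (hV : y.Gr y' a V) (hp : p ∈ V)
    (m : Mt V W W') : Mt V (ncl y.G W p.1) (ncl y'.G W' p.2) := by
  have e1 : ncl y.G W p.1 ≤
      (V ⊓ (ncl y'.G W' p.2).comap (MonoidHom.snd U U)).map (MonoidHom.fst U U) :=
    ncl_le.2 ⟨fun x hx => by
      obtain ⟨q, hq, rfl⟩ := m.fst x hx
      exact ⟨q, ⟨hq, le_ncl ((m.ker q hq).1 hx)⟩, rfl⟩, fun g hg => by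
      obtain ⟨g', e⟩ := Ly.pr_right h h' ha hg
      exact ⟨_, ⟨hV.nm _ e p hp, conj_mem_ncl e.2.1⟩, rfl⟩⟩
  have e2 : ncl y'.G W' p.2 ≤
      (V ⊓ (ncl y.G W p.1).comap (MonoidHom.fst U U)).map (MonoidHom.snd U U) :=
    ncl_le.2 ⟨fun x hx => by
      obtain ⟨q, hq, rfl⟩ := m.snd x hx
      exact ⟨q, ⟨hq, le_ncl ((m.ker q hq).2 hx)⟩, rfl⟩, fun g hg => by
      obtain ⟨g', e⟩ := Ly.pr_left h h' ha hg
      exact ⟨_, ⟨hV.nm _ e p hp, conj_mem_ncl e.1⟩, rfl⟩⟩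
  refine ⟨fun q hq => ⟨fun hx => ?_, fun hx => ?_⟩,
    fun x hx => (e1 hx).imp fun _ e => ⟨e.1.1, e.2⟩,
    fun x hx => (e2 hx).imp fun _ e => ⟨e.1.1, e.2⟩⟩
  · obtain ⟨r, ⟨hr, hr'⟩, e⟩ := e1 hx
    have e : r.1 = q.1 := e
    have := (m.ker _ (mul_mem (inv_mem hr) hq)).1 (by simp [e])
    simpa using mul_mem (show r.2 ∈ ncl y'.G W' p.2 from hr') (le_ncl this)
  · obtain ⟨r, ⟨hr, hr'⟩, e⟩ := e2 hx
    have e : r.2 = q.2 := e
    have := (m.ker _ (mul_mem (inv_mem hr) hq)).2 (by simp [e])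
    simpa using mul_mem (show r.1 ∈ ncl y.G W p.1 from hr') (le_ncl this)

end Party

theorem a_PART (h : S_T1) : S_PART := by
  intro U _ y y' a V ps hy hy' ha hV hps hI
  have key : ∀ W W' : Subgroup U, Party.Mt V W W' → y.Ind W (ps.map Prod.fst) →
      y'.Ind W' (ps.map Prod.snd) ∧
        ((ps.map Prod.fst).map y.ty).map (a • ·) = (ps.map Prod.snd).map y'.ty ∧
        Party.Mt V (y.Sp W (ps.map Prod.fst)) (y'.Sp W' (ps.map Prod.snd)) := by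
    clear hI
    induction ps with
    | nil => exact fun W W' m _ => ⟨trivial, rfl, m⟩
    | cons p ps ih =>
      intro W W' m hI
      have hp := hps p List.mem_cons_self
      obtain ⟨b1, b2⟩ := (h U y y' a hy hy' ha).1 V hV p hp hI.1
      obtain ⟨c1, c2, c3⟩ := ih (fun q hq => hps q (List.mem_cons_of_mem _ hq)) _ _
        (Party.step hy hy' ha hV hp m) hI.2.2
      refine ⟨⟨b1, fun e => hI.2.1 ((m.ker p hp).2 e), c1⟩, ?_, c3⟩
      simp only [List.map_cons]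
      rw [c2, b2]
  obtain ⟨k1, k2, k3⟩ := key y.O y'.O ⟨hV.ker,
    fun x hx => ⟨(x, 1), hV.ge ⟨hx, one_mem _⟩, rfl⟩,
    fun x hx => ⟨(1, x), hV.ge ⟨one_mem _, hx⟩, rfl⟩⟩ hI
  exact ⟨k1, k2, k3.ker, k3.snd⟩

end Pool.Agent.P.MP_f1a348_lc.AL
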