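import Pool.Agent.P.MP_f1a348_lc.AL.PSv

/-!
Project AL: the top runs in polynomial time.
-/

namespace Pool.Agent.P.MP_f1a348_lc.AL

open Pool.Agent.P.MP_f1a348_lc.GI hiding Nm Good
open Pool.Agent.Lib.Helper47

set_option linter.unusedSectionVars false

namespace Ptopy
variable {α U : Type} [Enc α] [Group U] [DecidableEq U] [Enc U] [PG U] {l l' : α → LP U}
  {g : α → FP U} {V : α → List (U × U)} {A B : α → List U} {s s' : α → SP U}
  {Os : α → List (List U)} {j k : α → ℕ} {u v : α → U} {c : α → Cx U}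

@[fun_prop] theorem pt_sumP (h : PT l) : PT fun a => sumP (l a) :=
  PT.snd (PT.foldl_add (f := fun a (s : List U × List U) v =>
      bif minB (l a).1 (l a).2.2.1 v && !s.1.contains v then
        (nclP (l a).1 (l a).1 s.1 v, s.2 ++ [v]) else s)
    (by fun_prop) (by fun_prop) (by fun_prop) (fun a => size (l a).1 + size (l a).2.2.2)
    ((PT.fst h).size_le.add (PT.snd (PT.snd (PT.snd h))).size_le) fun a t x hx => by
      have h1 := size_lt_of_mem hx
      have h2 : size (nclP (l a).1 (l a).1 t.1 x) ≤ size (l a).1 := size_sublist (clo_sublist _ _)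
      have h3 := size_append t.2 [x]
      have h4 := size_prod t
      cases minB (l a).1 (l a).2.2.1 x && !t.1.contains x
      · exact Nat.le_add_right _ _
      · rw [size_cons, size_nil] at h3
        rw [cond_true, size_pair]; omega)

@[fun_prop] theorem pt_relP (h1 : PT l) (h2 : PT l') (h3 : PT g) :
    PT fun a => relP (l a) (l' a) (g a) := by
  unfold relP; fun_prop

@[fun_prop] theorem pt_grP {p : α → U × U} (h1 : PT l) (h2 : PT l') (h3 : PT g) (h4 : PT V)
    (h5 : PT p) : PT fun a => grP (l a) (l' a) (g a) (V a) (p a) := by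
  unfold grP; fun_prop

@[fun_prop] theorem pt_grB (h1 : PT l) (h2 : PT l') (h4 : PT V) :
    PT fun a => grB (l a) (l' a) (V a) := by
  unfold grB; fun_prop

@[fun_prop] theorem pt_tyB (h1 : PT l) (h2 : PT l') (h3 : PT u) (h4 : PT v) (h5 : PT g) :
    PT fun a => tyB (l a) (l' a) (u a) (v a) (g a) := by
  unfold tyB; fun_prop

theorem size_grP (l l' : LP U) (a : FP U) (V : List (U × U)) (p : U × U) :
    size (grP l l' a V p) ≤ size V + size (prodL l.2.2.2 l'.2.2.2) :=
  (size_sublist (clo_sublist _ _)).trans (Nat.le_add_left _ _)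

@[fun_prop] theorem pt_extP (h1 : PT l) (h2 : PT l') (h3 : PT g) (h4 : PT V) (h5 : PT A) :
    PT fun a => extP (l a) (l' a) (g a) (V a) (A a) :=
  PT.foldl_add (f := fun a V v => (((l' a).2.2.2.map fun u => grP (l a) (l' a) (g a) V (v, u)).find?
      (grB (l a) (l' a))).getD V) (by fun_prop) h5 h4
    (fun a => size (prodL (l a).2.2.2 (l' a).2.2.2)) (PT.size_le (by fun_prop)) fun a t x _ => by
      cases e : ((l' a).2.2.2.map fun u => grP (l a) (l' a) (g a) t (x, u)).find?
        (grB (l a) (l' a)) with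
      | none => exact Nat.le_add_right _ _
      | some y =>
        obtain ⟨u, -, rfl⟩ := List.mem_map.1 (List.mem_of_find?_eq_some e)
        exact size_grP _ _ _ _ _

@[fun_prop] theorem pt_spP (h1 : PT l) (h2 : PT l') (h3 : PT g) (h4 : PT V) :
    PT fun a => spP (l a) (l' a) (g a) (V a) :=
  PT.foldl_add (f := fun a => grP (l a) (l' a) (g a)) (by fun_prop) h4 (by fun_prop)
    (fun a => size (prodL (l a).2.2.2 (l' a).2.2.2)) (PT.size_le (by fun_prop))
    fun _ _ _ _ => size_grP _ _ _ _ _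

theorem pick_mem (x : U) (d : List U × List (U × U)) : nfPick x d ∈ (1, 1) :: d.2 := by
  unfold nfPick
  cases h : ((1, 1) :: d.2).find? fun p => d.1.contains (p.1⁻¹ * x)
  · exact List.mem_cons_self
  · exact List.mem_of_find?_eq_some h

theorem pt_nf {ds : α → List (List U × List (U × U))} (h1 : PT ds) (h2 : PT u) :
    PT fun a => (ds a).foldl nfStep (u a, 1) := by
  obtain ⟨B, hB, h⟩ := gen_bound
    (l := fun a => u a :: (ds a).flatMap fun d => d.2.flatMap fun p => [p.1, p.2]) (by fun_prop)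
  refine PT.foldl_inv (f := fun _ => nfStep) (by unfold nfStep nfPick; fun_prop) h1 (by fun_prop)
    (fun a t => t.1 ∈ gen (u a :: (ds a).flatMap fun d => d.2.flatMap fun p => [p.1, p.2]) ∧
      t.2 ∈ gen (u a :: (ds a).flatMap fun d => d.2.flatMap fun p => [p.1, p.2]))
    (fun a => ⟨mem_gen List.mem_cons_self, one_mem _⟩) (fun a t d hd ht => ?_)
    (fun a => B a + B a + 1) ((hB.add hB).add (PB.const 1)) fun a t ht => ?_
  · have key : ∀ y ∈ [(nfPick t.1 d).1, (nfPick t.1 d).2],
        y ∈ gen (u a :: (ds a).flatMap fun d => d.2.flatMap fun p => [p.1, p.2]) := fun y hy => by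
      rcases List.mem_cons.1 (pick_mem t.1 d) with e | e
      · rw [e] at hy
        rw [show y = 1 by simpa using hy]
        exact one_mem _
      · exact mem_gen (List.mem_cons_of_mem _
          (List.mem_flatMap.2 ⟨d, hd, List.mem_flatMap.2 ⟨_, e, hy⟩⟩))
    exact ⟨mul_mem (inv_mem (key _ (by simp))) ht.1, mul_mem ht.2 (key _ (by simp))⟩
  · rw [size_prod t]
    exact Nat.add_le_add_right (Nat.add_le_add (h a _ ht.1) (h a _ ht.2)) _

@[fun_prop] theorem pt_liftP {ds : α → List (List U × List (U × U))} (h1 : PT A) (h2 : PT ds) :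
    PT fun a => liftP (A a) (ds a) :=
  FP.pt_ofList (PT.map (PT.prodMk (by fun_prop) (PT.snd (pt_nf (by fun_prop) (by fun_prop)))) h1)

@[fun_prop] theorem pt_lyP (h1 : PT s) (h2 : PT j) : PT fun a => lyP (s a) (j a) := by
  unfold lyP; fun_prop

@[fun_prop] theorem pt_liftA (h1 : PT s) (h2 : PT s') (h3 : PT g) :
    PT fun a => liftA (s a) (s' a) (g a) := by
  unfold liftA; fun_prop

@[fun_prop] theorem pt_liftB (h1 : PT Os) (h2 : PT j) (h3 : PT V) :
    PT fun a => liftB (Os a) (j a) (V a) := by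
  unfold liftB; fun_prop

@[fun_prop] theorem pt_grK (h1 : PT l) (h2 : PT k) (h3 : PT u) :
    PT fun a => grK (l a) (k a) (u a) := by
  unfold grK; fun_prop

@[fun_prop] theorem pt_genB (h1 : PT s) : PT fun a => genB (s a) := by
  unfold genB; fun_prop

@[fun_prop] theorem pt_shP (h1 : PT A) (h2 : PT B) (h3 : PT u) (h4 : PT v) :
    PT fun a => shP (A a) (B a) (u a) (v a) := by
  unfold shP; fun_prop

@[fun_prop] theorem pt_genC (h1 : PT Os) : PT fun a => genC (Os a) := by
  unfold genC; fun_prop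

@[fun_prop] theorem pt_triB (h1 : PT Os) (h2 : PT g) : PT fun a => triB (Os a) (g a) := by
  unfold triB; fun_prop

theorem pv_tyS (h0 : PT c) (h1 : PT l) (h2 : PT l') (h3 : PT k) (h4 : PT j) :
    PV fun a => tyS (c a) (l a) (l' a) (k a) (j a) :=
  pv_small h0 (by fun_prop) (by fun_prop)

theorem pv_layS (h0 : PT c) (h1 : PT l) (h2 : PT l') : PV fun a => layS (c a) (l a) (l' a) :=
  pv_mset h0 (pv_tyS (by fun_prop) (by fun_prop) (by fun_prop) (by fun_prop) (by fun_prop))
    (pv_tyS (by fun_prop) (by fun_prop) (by fun_prop) (by fun_prop) (by fun_prop))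
    (by fun_prop) (by fun_prop)

theorem pv_a0P (h0 : PT c) (h1 : PT s) (h2 : PT s') : PV fun a => a0P (c a) (s a) (s' a) :=
  pv_seq h0 (pv_layS (by fun_prop) (by fun_prop) (by fun_prop)) (by fun_prop)

theorem pt_topG {pad : α → List Unit} {S : α → List (FP U)} (h0 : PT pad) (h1 : PT s) (h2 : PT S) :
    PT fun a => topG (pad a) (s a) (S a) := by
  unfold topG; fun_prop

end Ptopy

open Ptopy in
theorem a_PTOP : P_TOP := fun U _ _ _ _ => by
  have h : PT fun a : List Unit × SP U × SP U × List U × List U × Out U =>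
      a0P (a.1, a.2.2.2.1 ++ a.2.2.2.2.1) a.2.1 a.2.2.1 a.2.2.2.2.2.1 (a.2.2.2.2.2.2.getD 1) :=
    (pv_a0P (by fun_prop) (by fun_prop) (by fun_prop)).app PT.id (by fun_prop) (by fun_prop)
  exact PT.prodMk (pt_topG (by fun_prop) (by fun_prop) (PT.fst h))
    (pt_liftA (by fun_prop) (by fun_prop) (PT.optGetD (PT.snd h) (PT.const _)))

end Pool.Agent.P.MP_f1a348_lc.AL
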