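import Pool.Agent.P.MP_f1a348_lc.AL.Iface

/-!
Project AL: sequences and unions of solvers.
-/

namespace Pool.Agent.P.MP_f1a348_lc.AL

open Pool.Agent.P.MP_f1a348_lc.GI hiding Nm Good

namespace Seqy

theorem seq2_ok : S_SEQ2 := by
  intro Ω c f g A St St' X T T' hcl hrc hf hg S x hS
  obtain ⟨a1, a2⟩ := hf S x hS
  have hS1 : gen (f S x).1 ≤ W c ⊓ (A ⊓ St) := by
    rw [a1]
    exact fun u hu => ⟨(hS hu.1).1, (hS hu.1).2, hu.2⟩
  refine ⟨?_, fun hx hx' => ?_⟩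
  · show gen (g (f S x).1 ((f S x).2.getD 1)).1 = _
    rw [(hg _ _ hS1).1, a1, inf_assoc]
  obtain ⟨b1, b2⟩ := a2 hx hx'
  have key : ∀ h, (f S x).2 = some h → x⁻¹ * h ∈ gen S ∧ h ∈ X ∧ h ∈ T ∧
      TOk (gen S ⊓ St) h T' (g (f S x).1 h).2 := fun h hh => by
    obtain ⟨c1, c2⟩ := b1 h hh
    have hW : h ∈ W c := by simpa using mul_mem hx (hS c1).1
    have hX : h ∈ X := by simpa using hcl x hx' _ (hS c1).2
    exact ⟨c1, hX, c2, a1 ▸ (hg _ h hS1).2 hW ⟨hX, c2⟩⟩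
  refine ⟨fun g0 hg0 => ?_, fun hn g0 h0 hT => ?_⟩
  · obtain ⟨h, hh, h2⟩ := Option.bind_eq_some_iff.1 hg0
    obtain ⟨c1, c2, c3, c4⟩ := key h hh
    obtain ⟨d1, d2⟩ := c4.some g0 h2
    refine ⟨by simpa [mul_assoc] using mul_mem c1 d1.1, ?_, d2⟩
    simpa using (hrc h c2 c3 _ (hS d1.1).2).2 d1.2
  · cases hh : (f S x).2 with
    | none => exact b2 hh g0 h0 hT.1
    | some h =>
      obtain ⟨c1, c2, c3, c4⟩ := key h hh
      have hu : h⁻¹ * g0 ∈ gen S := by simpa [mul_assoc] using mul_mem (inv_mem c1) h0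
      have hn' : (g (f S x).1 h).2 = none := by
        have : ((f S x).2.bind fun h => (g (f S x).1 h).2) = none := hn
        rwa [hh] at this
      exact c4.none hn' g0 ⟨hu, (hrc h c2 c3 _ (hS hu).2).1 (by simpa using hT.1)⟩ hT.2

theorem good_clO {Ω : Type} [DecidableEq Ω] {c : Cx Ω} (hc : COk c) {F : Sv Ω}
    {A St : Subgroup (FP Ω)} {X T : Set (FP Ω)} (h : Good c F A X St T) :
    Good c (fun S x => clO c (F S x)) A X St T := fun S x hS => by
  obtain ⟨a1, a2⟩ := h S x hS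
  refine ⟨?_, fun hx hx' => ?_⟩
  · show gen (red c (F S x).1) = _
    rw [gen_red hc (a1 ▸ inf_le_left.trans (hS.trans inf_le_left)), a1]
  obtain ⟨b1, b2⟩ := a2 hx hx'
  refine ⟨fun g hg => ?_, fun hn => b2 (Option.map_eq_none_iff.1 hn)⟩
  obtain ⟨h, hh, rfl⟩ := Option.map_eq_some_iff.1 hg
  have hW : h ∈ W c := by simpa using mul_mem hx (hS (b1 h hh).1).1
  rw [cl_eq hW]
  exact b1 h hh

theorem seq_ok : S_SEQ := by
  intro Ω τ _ c f ts A X St T hc hcl
  induction ts using List.reverseRecOn with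
  | nil =>
    intro _
    have : Good c (fun S x => (S, some x)) A X (⨅ t ∈ ([] : List τ), St t)
        {g | ∀ t ∈ ([] : List τ), g ∈ T t} := fun S x _ =>
      ⟨by simp, fun _ _ => ⟨fun g hg => by
        obtain rfl := Option.some.inj hg
        simp, fun hn => by cases hn⟩⟩
    exact good_clO hc this
  | append_singleton ts t ih =>
    intro h
    have h0 := ih fun t' ht' => h t' (List.mem_append_left _ ht')
    have hrc : Rc A X (⨅ t ∈ ts, St t) {g | ∀ t ∈ ts, g ∈ T t} := fun g hg hT u hu => by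
      simp only [Set.mem_ofPred_eq, Subgroup.mem_iInf]
      exact forall₂_congr fun t' ht' =>
        (h t' (List.mem_append_left _ ht')).1 g hg (hT t' ht') u hu
    have h1 : Good c (f t) (A ⊓ ⨅ t ∈ ts, St t) (X ∩ {g | ∀ t ∈ ts, g ∈ T t}) (St t) (T t) :=
      (h t (by simp)).2.mono (fun u hu => hu.2.1) (fun x _ hx => hx.1) (fun _ _ => Iff.rfl)
        fun _ _ _ _ _ => Iff.rfl
    have h2 := good_clO hc (seq2_ok Ω c _ _ A _ _ X _ _ hcl hrc h0 h1)
    have e : seq c f (ts ++ [t]) = fun S x => clO c (seq2 (seq c f ts) (f t) S x) := by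
      funext S x
      simp only [seq, List.foldl_append, List.foldl_cons, List.foldl_nil]
      rfl
    rw [e]
    refine h2.mono inf_le_right (fun _ _ hx => hx) (fun u _ => ?_) fun x _ _ u _ => ?_
    · simp only [Subgroup.mem_inf, Subgroup.mem_iInf, List.mem_append, List.mem_singleton]
      exact ⟨fun a t' ht' => ht'.elim (a.1 t') fun e => e ▸ a.2,
        fun a => ⟨fun t' ht' => a t' (.inl ht'), a t (.inr rfl)⟩⟩
    · simp only [Set.mem_inter_iff, Set.mem_ofPred_eq, List.mem_append, List.mem_singleton]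
      exact ⟨fun a t' ht' => ht'.elim (a.1 t') fun e => e ▸ a.2,
        fun a => ⟨fun t' ht' => a t' (.inl ht'), a t (.inr rfl)⟩⟩

theorem uni_ok : S_UNI := by
  intro Ω τ c f E E' A St0 St X T' T hcl hE hE' hle hSt hT S x hS
  have k1 : ∀ e ∈ E, gen (f e S 1).1 = gen S ⊓ St0 ∧ TOk (gen S) 1 (T e) (f e S 1).2 :=
    fun e he => ⟨((hE e he).2 S 1 hS).1, ((hE e he).2 S 1 hS).2 (one_mem _) (one_mem A)⟩
  refine ⟨le_antisymm (gen_le.2 fun y hy => ?_) fun u hu => ?_, fun hx hx' => ?_⟩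
  · obtain ⟨e, he, hy⟩ := List.mem_flatMap.1 hy
    rcases List.mem_append.1 hy with hy | hy
    · have := (k1 e he).1 ▸ mem_gen hy
      exact ⟨this.1, hle ⟨(hS this.1).2, this.2⟩⟩
    · obtain ⟨c1, c2⟩ := (k1 e he).2.some y (Option.mem_toList.1 hy)
      have c3 : y ∈ gen S := by simpa using c1
      exact ⟨c3, (hSt y (hS c3).2).2 ⟨e, he, c2⟩⟩
  · obtain ⟨e, he, hu'⟩ := (hSt u (hS hu.1).2).1 hu.2
    cases hh : (f e S 1).2 with
    | none => exact absurd hu' ((k1 e he).2.none hh u (by simpa using hu.1))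
    | some h =>
      obtain ⟨c1, c2⟩ := (k1 e he).2.some h hh
      have c3 : h ∈ gen S := by simpa using c1
      have c4 : h⁻¹ * u ∈ gen S := mul_mem (inv_mem c3) hu.1
      have c5 : h⁻¹ * u ∈ gen (f e S 1).1 := (k1 e he).1 ▸
        ⟨c4, ((hE e he).1 h (hS c3).2 c2 _ (hS c4).2).1 (by simpa using hu')⟩
      have c6 : h ∈ gen (uni f E E' S x).1 := mem_gen (List.mem_flatMap.2
        ⟨e, he, List.mem_append_right _ (Option.mem_toList.2 hh)⟩)
      have c7 : h⁻¹ * u ∈ gen (uni f E E' S x).1 := gen_mono (fun y hy => List.mem_flatMap.2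
        ⟨e, he, List.mem_append_left _ hy⟩) c5
      simpa using mul_mem c6 c7
  have k2 : ∀ e ∈ E', TOk (gen S) x (T e) (f e S x).2 := fun e he => (hE' e he S x hS).2 hx hx'
  have k3 : ∀ g, x⁻¹ * g ∈ gen S → g ∈ X := fun g hg => by simpa using hcl x hx' _ (hS hg).2
  refine ⟨fun g hg => ?_, fun hn g hg hT' => ?_⟩
  · obtain ⟨e, he, h2⟩ := List.mem_filterMap.1 (List.mem_of_mem_head? hg)
    obtain ⟨c1, c2⟩ := (k2 e he).some g h2
    exact ⟨c1, (hT g (k3 g c1)).2 ⟨e, he, c2⟩⟩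
  · obtain ⟨e, he, h2⟩ := (hT g (k3 g hg)).1 hT'
    have := List.filterMap_eq_nil_iff.1 (List.head?_eq_none_iff.1 hn) e he
    exact (k2 e he).none this g hg h2

end Seqy

theorem a_SEQ : S_SEQ2 ∧ S_SEQ ∧ S_UNI := ⟨Seqy.seq2_ok, Seqy.seq_ok, Seqy.uni_ok⟩

end Pool.Agent.P.MP_f1a348_lc.AL
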