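import Pool.Agent.P.MP_f1a348_lc.AL.Iface

/-!
Project AL: isomorphisms respect the canonical series and the atoms.
-/

namespace Pool.Agent.P.MP_f1a348_lc.AL

open Pool.Agent.P.MP_f1a348_lc.GI hiding Nm Good
open Pool.Agent.P.MP_f1a348_lc.UP (Rec up topI SolvMod Nm der)
open scoped commutatorElement Pointwise

namespace Seriy
variable {U : Type} [Group U] {G G' M M' : Subgroup U} {s : FP U}

theorem clo_maps (h : Hm G s) {X X' : Set U} (hX : X ⊆ G) (e : ∀ x ∈ X, s.app x ∈ X') {x : U}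
    (hx : x ∈ Subgroup.closure X) : s.app x ∈ Subgroup.closure X' := by
  have le : Subgroup.closure X ≤ G := (Subgroup.closure_le _).2 hX
  induction hx using Subgroup.closure_induction with
  | mem x hx => exact Subgroup.subset_closure (e x hx)
  | one => rw [h.one]; exact one_mem _
  | mul x y hx hy a b => rw [h x (le hx) y (le hy)]; exact mul_mem a b
  | inv x hx a => rw [h.inv (le hx)]; exact inv_mem a

theorem mp_le (h : IsoP G G' s) {X X' : Set U} (hX : X ⊆ G) (e : Mp s X X') : X' ⊆ G' :=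
  fun y hy => by
    obtain ⟨x, hx, rfl⟩ := e.surj hy
    exact (h.maps x).2 (hX hx)

theorem mp_clo (h : IsoP G G' s) {X X' : Set U} (hX : X ⊆ G) (e : Mp s X X') :
    Mp s (Subgroup.closure X) (Subgroup.closure X') := fun x =>
  ⟨fun hx => by simpa using clo_maps h.inv.hm (mp_le h hX e) (fun y hy => (e.inv y).2 hy) hx,
    clo_maps h.hm hX fun y hy => (e y).2 hy⟩

theorem mp_sup (h : IsoP G G' s) (hM : M ≤ G) (e : Mp s M M') {X X' : Set U} (hX : X ⊆ G)
    (e' : Mp s X X') : Mp s (M ⊔ Subgroup.closure X : Subgroup U)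
      (M' ⊔ Subgroup.closure X' : Subgroup U) := by
  rw [← Subgroup.closure_eq M, ← Subgroup.closure_eq M', ← Subgroup.closure_union,
    ← Subgroup.closure_union]
  exact mp_clo h (Set.union_subset hM hX) fun x => or_congr (e x) (e' x)

theorem mp_ncl (h : IsoP G G' s) (hM : M ≤ G) (e : Mp s M M') {g : U} (hg : g ∈ G) :
    Mp s (ncl G M g) (ncl G' M' (s.app g)) := by
  refine mp_sup h hM e ?_ fun y => ⟨?_, ?_⟩
  · rintro _ ⟨x, hx, rfl⟩
    exact nm_self G x hx g hg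
  · rintro ⟨x', hx', e'⟩
    obtain ⟨x, hx, rfl⟩ := h.mp.surj hx'
    exact ⟨x, hx, s.app_injective (e'.trans (h.hm.conj hx hg).symm)⟩
  · rintro ⟨x, hx, rfl⟩
    exact ⟨_, (h.maps x).2 hx, h.hm.conj hx hg⟩

theorem mp_bot (h : Hm G s) : Mp s (⊥ : Subgroup U) (⊥ : Subgroup U) := fun x => by
  simp only [SetLike.mem_coe, Subgroup.mem_bot]
  exact ⟨fun e => s.app_injective (e.trans h.one.symm), fun e => e ▸ h.one⟩

theorem minO_maps (h : IsoP G G' s) (hM : M ≤ G) (e : Mp s M M') {g : U} (hg : MinO G M g) :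
    MinO G' M' (s.app g) := by
  refine ⟨(h.maps g).2 hg.1, fun a => hg.2.1 ((e g).1 a), fun y hy hn => ?_⟩
  obtain ⟨x, hx, rfl⟩ := (mp_ncl h hM e hg.1).surj hy
  exact (mp_ncl h hM e (ncl_le_of_nm (nm_self G) hM hg.1 hx) g).2
    (hg.2.2 x hx fun a => hn ((e x).2 a))

theorem mp_minO (h : IsoP G G' s) (hM : M ≤ G) (e : Mp s M M') (g : U) :
    MinO G' M' (s.app g) ↔ MinO G M g :=
  ⟨fun a => by simpa using minO_maps h.inv (mp_le h hM e) e.inv a, minO_maps h hM e⟩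

theorem hm_pow (h : Hm G s) {x : U} (hx : x ∈ G) (k : ℕ) : s.app (x ^ k) = s.app x ^ k := by
  induction k with
  | zero => simpa using h.one
  | succ k ih => rw [pow_succ, h _ (pow_mem hx k) _ hx, ih, pow_succ]

theorem op_maps (h : IsoP G G' s) {q : ℕ} {g : U} (hg : g ∈ Op G q) : s.app g ∈ Op G' q := by
  refine ⟨(h.maps g).2 hg.1, hg.2.1, fun y => ?_⟩
  obtain ⟨x, hx, e⟩ := (mp_ncl h bot_le (mp_bot h.hm) hg.1).surj y.2
  obtain ⟨k, hk⟩ := hg.2.2 ⟨x, hx⟩
  refine ⟨k, Subtype.ext ?_⟩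
  have hk' : x ^ q ^ k = 1 := congrArg Subtype.val hk
  show (y : U) ^ q ^ k = 1
  rw [← e, ← hm_pow h.hm (ncl_le_of_nm (nm_self G) bot_le hg.1 hx), hk', h.hm.one]

theorem mp_op (h : IsoP G G' s) (q : ℕ) : Mp s (Op G q) (Op G' q) := fun _ =>
  ⟨fun a => by simpa using op_maps h.inv a, op_maps h⟩

theorem mp_up (h : IsoP G G' s) (n t : ℕ) : Up G n t ≤ G ∧ Mp s (Up G n t) (Up G' n t) := by
  induction t with
  | zero => exact ⟨bot_le, mp_bot h.hm⟩
  | succ t ih =>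
    exact ⟨sup_le ih.1 ((Subgroup.closure_le _).2 fun g hg => hg.1.1),
      mp_sup h ih.1 ih.2 (fun g hg => hg.1.1) fun g =>
        and_congr (mp_op h _ g) (mp_minO h ih.1 ih.2 g)⟩

theorem mp_ser (h : IsoP G G' s) (n j : ℕ) : Mp s (ser G n j) (ser G' n j) := by
  unfold ser
  split_ifs
  exacts [h.mp, (mp_up h n _).2]

theorem iso_soc (h : IsoP G G' s) : IsoP (Soc G) (Soc G') s :=
  ⟨mp_clo h (fun _ hg => hg.1) (mp_minO h bot_le (mp_bot h.hm)),
    h.hm.mono ((Subgroup.closure_le _).2 fun _ hg => hg.1)⟩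

end Seriy

open Seriy

theorem a_SERI : S_SERI ∧ S_ATI := by
  refine ⟨fun U _ G G' n s h => ⟨mp_ser h n, fun j x hx y hy => ?_, fun j x hx y hy _ => ?_⟩, ?_⟩
  · have hx' : x ∈ G := hx
    have hy' : y ∈ G := hy
    rw [Cg, Cg, ← h.hm.inv hx', ← h.hm _ (inv_mem hx') _ hy']
    exact mp_ser h n j _
  · exact Cg.of_eq (h.hm x hx y hy)
  · rintro U _ D D' T s h ⟨g, hg, rfl⟩
    have h' := iso_soc h
    exact ⟨_, ⟨_, minO_maps h' bot_le (mp_bot h.hm) hg, rfl⟩, mp_ncl h' bot_le (mp_bot h.hm) hg.1⟩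

end Pool.Agent.P.MP_f1a348_lc.AL
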